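import Mathlib

/-! The Euler characteristic of constructible sets as an iterated Euler integral. -/

namespace Pool.Agent.Lib.MP_d4c0ca_ag

/-- A subset of affine space is constructible when membership depends only on which of finitely
many polynomials vanish, i.e. it is a Boolean combination of Zariski closed sets. -/
def Constructible {ι : Type} (A : Set (ι → ℂ)) : Prop :=
  ∃ T : Finset (MvPolynomial ι ℂ), ∀ x y : ι → ℂ,
    (∀ p ∈ T, MvPolynomial.eval x p = 0 ↔ MvPolynomial.eval y p = 0) → x ∈ A → y ∈ A

open Classical in
/-- the value taken by a function on the complex line at all but finitely many points -/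
noncomputable def gval {A : Type} [AddCommGroup A] (ψ : ℂ → A) : A :=
  if h : ∃ c, {w | ψ w ≠ c}.Finite then h.choose else 0

/-- Euler integral over the complex line: the line and a point both have Euler characteristic 1 -/
noncomputable def int1 {A : Type} [AddCommGroup A] (ψ : ℂ → A) : A :=
  gval ψ + ∑ᶠ w, (ψ w - gval ψ)

/-- Euler integral over affine space, one coordinate after the other -/
noncomputable def euler {A : Type} [AddCommGroup A] : (k : ℕ) → ((Fin k → ℂ) → A) → A
  | 0, φ => φ Fin.elim0
  | k + 1, φ => int1 fun w => euler k fun x => φ (Fin.cons w x)

/-- Euler characteristic of a constructible subset of affine space -/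
noncomputable def chi {k : ℕ} (A : Set (Fin k → ℂ)) : ℤ := euler k (A.indicator fun _ => 1)

end Pool.Agent.Lib.MP_d4c0ca_ag
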