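import Pool.Agent.Lib.MP_d4c0ca_ag.Elim
import Pool.Agent.Lib.MP_d4c0ca_ag.Euler

/-! Constructible functions and their integrals. -/

namespace Pool.Agent.Lib.MP_d4c0ca_ag

open scoped Classical

variable {X Y W : Type} [Str X] [Str Y] [Str W]

/-- isomorphic to a finite power of the sort `B` -/
class Pure (B G : Type) [Str B] [Str G] : Prop where
  out : ∃ (k : ℕ) (E : G ≃ (Fin k → B)), Tm E ∧ Tm E.symm

theorem Pure.of_equiv {B G H : Type} [Str B] [Str G] [Str H] [h : Pure B G] (e : H ≃ G)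
    (h1 : Tm e) (h2 : Tm e.symm) : Pure B H := by
  obtain ⟨k, E, h3, h4⟩ := h.out
  exact ⟨k, e.trans E, h3.comp h1, h2.comp h4⟩

theorem Pure.pow {B : Type} [Str B] (ι : Type) [Finite ι] : Pure B (ι → B) := by
  obtain ⟨n, ⟨e⟩⟩ := Finite.exists_equiv_fin ι
  exact ⟨n, Equiv.arrowCongr e (Equiv.refl B), by
    show Tm fun (p : ι → B) j => p (e.symm j)
    fun_prop, by
    show Tm fun (p : Fin n → B) j => p (e j)
    fun_prop⟩

instance {B : Type} [Str B] : Pure B B :=
  @Pure.of_equiv B (Unit → B) B _ _ _ (Pure.pow Unit) (Equiv.funUnique Unit B).symm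
    (by show Tm fun (b : B) (_ : Unit) => b; fun_prop)
    (by show Tm fun (b : Unit → B) => b (); fun_prop)

instance {B : Type} [Str B] : Pure B Unit :=
  @Pure.of_equiv B (Fin 0 → B) Unit _ _ _ (Pure.pow _) (Equiv.ofUnique _ _)
    (Tm.pi fun i => i.elim0) (Tm.unit _)

instance {B G H : Type} [Str B] [Str G] [Str H] [h : Pure B G] [h' : Pure B H] :
    Pure B (G × H) := by
  obtain ⟨k, E, h1, h2⟩ := h.out
  obtain ⟨k', E', h3, h4⟩ := h'.out
  refine @Pure.of_equiv B (Fin k ⊕ Fin k' → B) _ _ _ _ (Pure.pow _)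
    ((E.prodCongr E').trans (Equiv.sumArrowEquivProdArrow _ _ _).symm) ?_ ?_
  · refine Tm.pi ?_
    rintro (i | i)
    · exact (h1.comp Tm.fst').app i
    · exact (h3.comp Tm.snd').app i
  · show Tm fun p : Fin k ⊕ Fin k' → B =>
      (E.symm (fun i => p (Sum.inl i)), E'.symm (fun i => p (Sum.inr i)))
    fun_prop

instance {B G ι : Type} [Finite ι] [Str B] [Str G] [h : Pure B G] : Pure B (ι → G) := by
  obtain ⟨k, E, h1, h2⟩ := h.out
  refine @Pure.of_equiv B (ι × Fin k → B) _ _ _ _ (Pure.pow _)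
    ((Equiv.arrowCongr (Equiv.refl ι) E).trans (Equiv.curry _ _ _).symm) ?_ ?_
  · show Tm fun (p : ι → G) (j : ι × Fin k) => E (p j.1) j.2
    exact Tm.pi fun j => (h1.comp (Tm.apply j.1)).app j.2
  · show Tm fun (p : ι × Fin k → B) (i : ι) => E.symm (fun j => p (i, j))
    fun_prop

/-- indicator of a proposition -/
noncomputable def ind (p : Prop) : ℚ := if p then 1 else 0

theorem ind_pos {p : Prop} (h : p) : ind p = 1 := if_pos h
theorem ind_neg {p : Prop} (h : ¬ p) : ind p = 0 := if_neg h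
@[simp] theorem ind_true : ind True = 1 := ind_pos trivial
@[simp] theorem ind_false : ind False = 0 := ind_neg id
theorem ind_congr {p q : Prop} (h : p ↔ q) : ind p = ind q := by rw [propext h]
theorem ind_and (p q : Prop) : ind (p ∧ q) = ind p * ind q := by
  by_cases hp : p <;> by_cases hq : q <;> simp [hp, hq]

/-- constructible functions -/
inductive CF : (X → ℚ) → Prop
  | cnt {e : ℕ} {D : X × (Fin e → ℤ) → Prop} (hD : Def D) (hf : ∀ x, {δ | D (x, δ)}.Finite) :
      CF (fun x => ({δ | D (x, δ)}.ncard : ℚ))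
  | add {φ ψ : X → ℚ} : CF φ → CF ψ → CF (fun x => φ x + ψ x)
  | smul (c : ℚ) {φ : X → ℚ} : CF φ → CF (fun x => c * φ x)

namespace CF

theorem congr {φ ψ : X → ℚ} (h : CF φ) (e : ∀ x, φ x = ψ x) : CF ψ := (funext e : φ = ψ) ▸ h

theorem cnt' {G : Type} [Str G] [h : Pure ℤ G] {D : X × G → Prop} (hD : Def D)
    (hf : ∀ x, {δ | D (x, δ)}.Finite) : CF (fun x => ({δ | D (x, δ)}.ncard : ℚ)) := by
  obtain ⟨k, E, h1, h2⟩ := h.out
  have e : ∀ x, {δ | D (x, E.symm δ)} = E '' {δ | D (x, δ)} := fun x => by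
    rw [Equiv.image_eq_preimage_symm]; rfl
  refine (cnt (D := fun p : X × (Fin k → ℤ) => D (p.1, E.symm p.2)) (hD.comp (by fun_prop))
    fun x => ?_).congr fun x => ?_
  · rw [e]; exact (hf x).image _
  · rw [e, Set.ncard_image_of_injective _ E.injective]

theorem comp {φ : Y → ℚ} (h : CF φ) {g : X → Y} (hg : Tm g) : CF (fun x => φ (g x)) := by
  induction h with
  | @cnt e D hD hf =>
    exact cnt (D := fun p : X × (Fin e → ℤ) => D (g p.1, p.2)) (hD.comp (by fun_prop))
      fun x => hf (g x)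
  | add _ _ h1 h2 => exact h1.add h2
  | smul c _ h1 => exact h1.smul c

theorem ind {P : X → Prop} (hP : Def P) : CF (fun x => ind (P x)) := by
  refine (cnt' (G := Unit) (D := fun p => P p.1) (hP.comp Tm.fst') fun _ => Set.toFinite _).congr
    fun x => ?_
  by_cases h : P x <;> simp [h]

theorem const (c : ℚ) : CF (fun _ : X => c) :=
  ((ind (Def.const True)).smul c).congr fun _ => by simp

theorem neg {φ : X → ℚ} (h : CF φ) : CF (fun x => - φ x) := (h.smul (-1)).congr fun _ => by simp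

theorem sub {φ ψ : X → ℚ} (h : CF φ) (h' : CF ψ) : CF (fun x => φ x - ψ x) :=
  (h.add h'.neg).congr fun _ => by ring

theorem sum {ι : Type} (s : Finset ι) {φ : ι → X → ℚ} (h : ∀ i ∈ s, CF (φ i)) :
    CF (fun x => ∑ i ∈ s, φ i x) := by
  induction s using Finset.induction_on with
  | empty => simpa using const 0
  | insert a s ha ih =>
    simpa [Finset.sum_insert ha] using (h a (by simp)).add (ih fun i hi => h i (by simp [hi]))

theorem mul {φ ψ : X → ℚ} (h : CF φ) (h' : CF ψ) : CF (fun x => φ x * ψ x) := by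
  induction h with
  | @cnt e D hD hf =>
    induction h' with
    | @cnt e' D' hD' hf' =>
      have e1 : ∀ x, {δ : (Fin e → ℤ) × (Fin e' → ℤ) | D (x, δ.1) ∧ D' (x, δ.2)} =
          {δ | D (x, δ)} ×ˢ {δ | D' (x, δ)} := fun x => rfl
      refine (cnt' (G := (Fin e → ℤ) × (Fin e' → ℤ))
        (D := fun p => D (p.1, p.2.1) ∧ D' (p.1, p.2.2))
        ((hD.comp (by fun_prop)).and (hD'.comp (by fun_prop))) fun x => ?_).congr fun x => ?_
      · rw [e1]; exact (hf x).prod (hf' x)
      · rw [e1, Set.ncard_prod]; simp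
    | add _ _ h1 h2 => exact (h1.add h2).congr fun _ => by ring
    | smul c _ h1 => exact (h1.smul c).congr fun _ => by ring
  | add _ _ h1 h2 => exact (h1.add h2).congr fun _ => by ring
  | smul c _ h1 => exact (h1.smul c).congr fun _ => by ring

theorem ite {P : X → Prop} [∀ x, Decidable (P x)] (hP : Def P) {φ ψ : X → ℚ} (h : CF φ) (h' : CF ψ) :
    CF (fun x => if P x then φ x else ψ x) :=
  (((ind hP).mul h).add ((ind hP.not).mul h')).congr fun x => by
    by_cases e : P x <;> simp [e]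

theorem ncard_sigma {α β : Type} (s : Finset α) (D : α → Set β) (hD : ∀ a, (D a).Finite) :
    {p : α × β | p.1 ∈ s ∧ p.2 ∈ D p.1}.Finite ∧
      {p : α × β | p.1 ∈ s ∧ p.2 ∈ D p.1}.ncard = ∑ a ∈ s, (D a).ncard := by
  have : {p : α × β | p.1 ∈ s ∧ p.2 ∈ D p.1} =
      ↑(s.biUnion fun a => (hD a).toFinset.image fun b => (a, b)) := by
    ext ⟨a, b⟩
    simp only [Set.mem_ofPred_eq, Finset.coe_biUnion, SetLike.mem_coe, Finset.coe_image,
      Set.Finite.coe_toFinset, Set.mem_iUnion, Set.mem_image, Prod.mk.injEq, exists_prop]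
    constructor
    · rintro ⟨h1, h2⟩; exact ⟨a, h1, b, h2, rfl, rfl⟩
    · rintro ⟨_, h1, _, h2, rfl, rfl⟩; exact ⟨h1, h2⟩
  rw [this]
  refine ⟨Finset.finite_toSet _, ?_⟩
  rw [Set.ncard_coe_finset, Finset.card_biUnion]
  · refine Finset.sum_congr rfl fun a _ => ?_
    rw [Finset.card_image_of_injective _ (Prod.mk_right_injective a),
      Set.ncard_eq_toFinset_card _ (hD a)]
  · intro a _ b _ hab
    simp only [Function.onFun, Finset.disjoint_left, Finset.mem_image, not_exists, not_and]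
    rintro _ ⟨u, -, rfl⟩ v _ h
    exact hab (Prod.ext_iff.1 h).1.symm

/-- summation over finite definable sets of integer tuples -/
theorem sumZ {G : Type} [Str G] [Pure ℤ G] {φ : X × G → ℚ} (h : CF φ) {B : X × G → Prop}
    (hB : Def B) (s : X → Finset G) (hs : ∀ x g, g ∈ s x ↔ B (x, g)) :
    CF (fun x => ∑ g ∈ s x, φ (x, g)) := by
  induction h with
  | @cnt e D hD hf =>
    have e1 : ∀ x, {δ : G × (Fin e → ℤ) | B (x, δ.1) ∧ D ((x, δ.1), δ.2)} =
        {p : G × (Fin e → ℤ) | p.1 ∈ s x ∧ p.2 ∈ {δ | D ((x, p.1), δ)}} := fun x => by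
      simp [hs]
    refine (cnt' (G := G × (Fin e → ℤ))
      (D := fun p => B (p.1, p.2.1) ∧ D ((p.1, p.2.1), p.2.2))
      ((hB.comp (by fun_prop)).and (hD.comp (by fun_prop))) fun x => ?_).congr fun x => ?_
    · rw [e1]; exact (ncard_sigma _ _ fun g => hf (x, g)).1
    · rw [e1, (ncard_sigma _ _ fun g => hf (x, g)).2]; simp
  | add _ _ h1 h2 => exact (h1.add h2).congr fun _ => by simp [Finset.sum_add_distrib]
  | smul c _ h1 => exact (h1.smul c).congr fun _ => by simp [Finset.mul_sum]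

end CF

theorem le_card_iff {α : Type} (s : Finset α) (k : ℕ) :
    k ≤ s.card ↔ ∃ f : Fin k → α, (∀ i j, f i = f j → i = j) ∧ ∀ i, f i ∈ s := by
  constructor
  · intro h
    obtain ⟨t, ht, rfl⟩ := Finset.exists_subset_card_eq h
    exact ⟨fun i => t.equivFin.symm i, fun i j e => t.equivFin.symm.injective (Subtype.ext e),
      fun i => ht (t.equivFin.symm i).2⟩
  · rintro ⟨f, h1, h2⟩
    simpa using Finset.card_le_card_of_injOn (s := Finset.univ) (t := s) f (fun i _ => h2 i)
      fun i _ j _ e => h1 i j e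

theorem Def.atLeast [Proj Y] [DEq Y] {B : X × Y → Prop} (hB : Def B) (k : ℕ) :
    Def (fun x => ∃ f : Fin k → Y, (∀ i j, f i = f j → i = j) ∧ ∀ i, B (x, f i)) :=
  Def.ex (Def.and (Def.allF fun i => Def.allF fun j => Def.imp (Def.eq (by fun_prop)
    (by fun_prop)) (Def.const _)) (Def.allF fun i => hB.comp (by fun_prop)))

theorem double_count {α β : Type} (s : Finset α) (D : α → Set β) (hD : ∀ a, (D a).Finite)
    {n : ℕ} (hn : s.card ≤ n) :
    (∀ k, {b | k + 1 ≤ (s.filter fun a => b ∈ D a).card}.Finite) ∧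
      ∑ a ∈ s, (D a).ncard =
        ∑ k ∈ Finset.range n, {b | k + 1 ≤ (s.filter fun a => b ∈ D a).card}.ncard := by
  set T : Finset β := s.biUnion fun a => (hD a).toFinset with hT
  have h1 : ∀ k, {b | k + 1 ≤ (s.filter fun a => b ∈ D a).card} =
      ↑(T.filter fun b => k + 1 ≤ (s.filter fun a => b ∈ D a).card) := fun k => by
    ext b
    simp only [Set.mem_ofPred_eq, Finset.coe_filter, iff_and_self]
    intro h
    obtain ⟨a, ha⟩ := Finset.card_pos.1 (Nat.succ_pos k |>.trans_le h)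
    simp only [Finset.mem_filter] at ha
    simp only [hT, Finset.mem_biUnion, Set.Finite.mem_toFinset]
    exact ⟨a, ha⟩
  have h2 : ∀ a ∈ s, (D a).ncard = (T.filter fun b => b ∈ D a).card := fun a ha => by
    rw [← Set.ncard_coe_finset]
    congr 1
    ext b
    simp only [Finset.coe_filter, Set.mem_ofPred_eq, iff_and_self, hT, Finset.mem_biUnion,
      Set.Finite.mem_toFinset]
    exact fun h => ⟨a, ha, h⟩
  refine ⟨fun k => by rw [h1]; exact Finset.finite_toSet _, ?_⟩
  rw [Finset.sum_congr rfl h2]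
  simp only [h1, Set.ncard_coe_finset]
  have h3 : ∀ (p : β → Prop) [DecidablePred p], (T.filter p).card =
      ∑ b ∈ T, if p b then 1 else 0 := fun p _ => Finset.card_filter p T
  simp only [h3]
  rw [Finset.sum_comm, Finset.sum_comm (s := Finset.range n)]
  refine Finset.sum_congr rfl fun b _ => ?_
  rw [← Finset.card_filter, ← Finset.card_filter]
  have : (s.filter fun a => b ∈ D a).card ≤ n := (Finset.card_filter_le _ _).trans hn
  generalize (s.filter fun a => b ∈ D a).card = m at this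
  have : (Finset.range n).filter (fun k => k + 1 ≤ m) = Finset.range m := by
    ext k; simp; omega
  rw [this, Finset.card_range]

/-- summation over finite definable sets of bounded size -/
theorem CF.sumB [Proj Y] [DEq Y] {φ : X × Y → ℚ} (h : CF φ) {B : X × Y → Prop}
    (hB : Def B) (s : X → Finset Y) (hs : ∀ x g, g ∈ s x ↔ B (x, g)) {n : ℕ}
    (hn : ∀ x, (s x).card ≤ n) : CF (fun x => ∑ g ∈ s x, φ (x, g)) := by
  induction h with
  | @cnt e D hD hf =>
    have hD' : Def (fun p : (X × (Fin e → ℤ)) × Y => B (p.1.1, p.2) ∧ D ((p.1.1, p.2), p.1.2)) :=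
      (hB.comp (by fun_prop)).and (hD.comp (by fun_prop))
    have e1 : ∀ x k, {δ : Fin e → ℤ | ∃ f : Fin (k + 1) → Y, (∀ i j, f i = f j → i = j) ∧
        ∀ i, B (x, f i) ∧ D ((x, f i), δ)} =
        {b | k + 1 ≤ ((s x).filter fun a => b ∈ {δ | D ((x, a), δ)}).card} := fun x k => by
      ext δ
      simp only [le_card_iff, hs, Set.mem_ofPred_eq, Finset.mem_filter]
    refine (CF.sum (Finset.range n) fun k _ => CF.cnt (hD'.atLeast (k + 1)) fun x => ?_).congr
      fun x => ?_
    · rw [e1]; exact (double_count _ _ (fun g => hf (x, g)) (hn x)).1 k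
    · simp only [e1]
      rw [← Nat.cast_sum, ← Nat.cast_sum, (double_count _ _ (fun g => hf (x, g)) (hn x)).2]
  | add _ _ h1 h2 => exact (h1.add h2).congr fun _ => by simp [Finset.sum_add_distrib]
  | smul c _ h1 => exact (h1.smul c).congr fun _ => by simp [Finset.mul_sum]

/-- separation of complex variables -/
theorem CF.sep [NoR Y] [NoZ Y] [Proj Y] {motive : (X × Y → ℚ) → Prop}
    (base : ∀ (B : X × Y → Prop) (ψ : X → ℚ), Def B → CF ψ →
      motive (fun p => MP_d4c0ca_ag.ind (B p) * ψ p.1))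
    (add : ∀ φ ψ, CF φ → CF ψ → motive φ → motive ψ → motive (fun p => φ p + ψ p))
    (smul : ∀ (c : ℚ) φ, CF φ → motive φ → motive (fun p => c * φ p))
    {φ : X × Y → ℚ} (h : CF φ) : motive φ := by
  induction h with
  | @cnt e D hD hf =>
    obtain ⟨ι, _, z, c, hz, hc, h⟩ := hD.fam
    let B : Finset ι → X × Y → Prop := fun s p => ∀ i, c i (p, 0) = 0 ↔ i ∈ s
    have hB : ∀ s, Def (B s) := fun s => Def.allF fun i =>
      Def.iff (Def.eq ((hc i).comp (by fun_prop)) (Tm.const _)) (Def.const _)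
    let A : Finset ι → X × (Fin e → ℤ) → Prop := fun s p => ∃ y, B s (p.1, y) ∧ D ((p.1, y), p.2)
    have hA : ∀ s, Def (A s) := fun s =>
      Def.ex (((hB s).comp (by fun_prop)).and (hD.comp (by fun_prop)))
    have hAB : ∀ s x y, B s (x, y) → {δ | A s (x, δ)} = {δ | D ((x, y), δ)} := by
      intro s x y hy
      ext δ
      refine ⟨?_, fun hd => ⟨y, hy, hd⟩⟩
      rintro ⟨y', hy', hd⟩
      refine h _ _ (fun i => ?_) (fun i => ?_) hd
      · have := (tm_Z.1 ((hz i).comp (g := fun p : (X × (Fin e → ℤ)) × Y => ((p.1.1, p.2), p.1.2))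
          (by fun_prop))).indep (x, δ) y' y
        simp only at this
        rw [this]
      · rw [(tm_C.1 (hc i)).indep (x, y') δ 0, (tm_C.1 (hc i)).indep (x, y) δ 0, hy i, hy' i]
    have hψ : ∀ s, CF (fun x => ({δ | A s (x, δ)}.ncard : ℚ)) := fun s => by
      refine CF.cnt (hA s) fun x => ?_
      by_cases hx : ∃ y, B s (x, y)
      · obtain ⟨y, hy⟩ := hx
        rw [hAB s x y hy]; exact hf _
      · refine Set.finite_empty.subset ?_
        rintro δ ⟨y, hy, -⟩
        exact hx ⟨y, hy⟩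
    have key : ∀ S : Finset (Finset ι), motive (fun p => ∑ s ∈ S,
        MP_d4c0ca_ag.ind (B s p) * ({δ | A s (p.1, δ)}.ncard : ℚ)) := fun S => by
      induction S using Finset.induction_on with
      | empty => simpa using base (fun _ => True) (fun _ => 0) (Def.const _) (CF.const 0)
      | insert a S ha ih =>
        simp only [Finset.sum_insert ha]
        exact add _ _ ((CF.ind (hB a)).mul ((hψ a).comp Tm.fst'))
          (CF.sum _ fun s _ => (CF.ind (hB s)).mul ((hψ s).comp Tm.fst'))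
          (base _ _ (hB a) (hψ a)) ih
    convert key Finset.univ using 2 with p
    obtain ⟨x, y⟩ := p
    have h0 : B (Finset.univ.filter fun i => c i ((x, y), 0) = 0) (x, y) := fun i => by simp
    rw [Finset.sum_eq_single (Finset.univ.filter fun i => c i ((x, y), 0) = 0)]
    · rw [ind_pos h0, one_mul, hAB _ x y h0]
    · intro s _ hs
      rw [ind_neg, zero_mul]
      exact fun h1 => hs (Finset.ext fun i => (h1 i).symm.trans (h0 i))
    · simp
  | add h1 h2 i1 i2 => exact add _ _ h1 h2 i1 i2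
  | smul c h1 i1 => exact smul c _ h1 i1

section int1

variable {A : Type} [AddCommGroup A]

/-- constant off a finite set -/
def Cof (ψ : ℂ → A) : Prop := ∃ (c : A) (E : Finset ℂ), ∀ w ∉ E, ψ w = c

theorem int1_eq {ψ : ℂ → A} {c : A} {E : Finset ℂ} (h : ∀ w ∉ E, ψ w = c) :
    int1 ψ = c + ∑ w ∈ E, (ψ w - c) := by
  have h1 : {w | ψ w ≠ c}.Finite := E.finite_toSet.subset fun w hw => by_contra fun e => hw (h w e)
  have h2 : gval ψ = c := by
    have h3 : ∃ c, {w | ψ w ≠ c}.Finite := ⟨c, h1⟩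
    rw [gval, dif_pos h3]
    obtain ⟨w, hw⟩ := (h1.union h3.choose_spec).exists_notMem
    simp only [ne_eq, Set.mem_union, Set.mem_ofPred_eq, not_or, not_not] at hw
    exact hw.2.symm.trans hw.1
  rw [int1, h2, finsum_eq_sum_of_support_subset]
  intro w hw
  by_contra e
  exact hw (by simp [h w e])

theorem int1_const (c : A) : int1 (fun _ => c) = c := by
  simpa using int1_eq (ψ := fun _ => c) (c := c) (E := ∅) (by simp)

theorem Cof.add {ψ φ : ℂ → A} (h1 : Cof ψ) (h2 : Cof φ) : Cof (fun w => ψ w + φ w) := by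
  obtain ⟨c, E, h1⟩ := h1
  obtain ⟨c', E', h2⟩ := h2
  exact ⟨c + c', E ∪ E', fun w hw => by
    rw [Finset.notMem_union] at hw; simp only [h1 w hw.1, h2 w hw.2]⟩

theorem int1_add {ψ φ : ℂ → A} (h1 : Cof ψ) (h2 : Cof φ) :
    int1 (fun w => ψ w + φ w) = int1 ψ + int1 φ := by
  obtain ⟨c, E, h1⟩ := h1
  obtain ⟨c', E', h2⟩ := h2
  rw [int1_eq (c := c + c') (E := E ∪ E') fun w hw => by
      rw [Finset.notMem_union] at hw; simp only [h1 w hw.1, h2 w hw.2],
    int1_eq (c := c) (E := E ∪ E') fun w hw => h1 w (Finset.notMem_union.1 hw).1,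
    int1_eq (c := c') (E := E ∪ E') fun w hw => h2 w (Finset.notMem_union.1 hw).2,
    add_add_add_comm, ← Finset.sum_add_distrib]
  congr 1
  exact Finset.sum_congr rfl fun w _ => by abel

theorem Cof.smul {ψ : ℂ → ℚ} (h1 : Cof ψ) (a : ℚ) : Cof (fun w => a * ψ w) := by
  obtain ⟨c, E, h1⟩ := h1
  exact ⟨a * c, E, fun w hw => by simp only [h1 w hw]⟩

theorem int1_smul {ψ : ℂ → ℚ} (h1 : Cof ψ) (a : ℚ) : int1 (fun w => a * ψ w) = a * int1 ψ := by
  obtain ⟨c, E, h1⟩ := h1
  rw [int1_eq (c := a * c) (E := E) fun w hw => by simp only [h1 w hw], int1_eq h1, mul_add,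
    Finset.mul_sum]
  simp only [mul_sub]

theorem int1_fin {ψ : ℂ → A} {E : Finset ℂ} (h : ∀ w ∉ E, ψ w = 0) :
    int1 ψ = ∑ w ∈ E, ψ w := by
  simpa using int1_eq h

theorem int1_equiv {ψ : ℂ → A} (h : Cof ψ) (e : ℂ ≃ ℂ) : int1 (fun w => ψ (e w)) = int1 ψ := by
  obtain ⟨c, E, h⟩ := h
  rw [int1_eq h, int1_eq (c := c) (E := E.map e.symm.toEmbedding) fun w hw => h _ (by simpa using hw)]
  simp

theorem Cof.sum {ι : Type} (s : Finset ι) {ψ : ι → ℂ → A} (h : ∀ i ∈ s, Cof (ψ i)) :
    Cof (fun w => ∑ i ∈ s, ψ i w) ∧ int1 (fun w => ∑ i ∈ s, ψ i w) = ∑ i ∈ s, int1 (ψ i) := by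
  induction s using Finset.induction_on with
  | empty => exact ⟨⟨0, ∅, by simp⟩, by simpa using int1_const (0 : A)⟩
  | insert a s ha ih =>
    obtain ⟨h1, h2⟩ := ih fun i hi => h i (by simp [hi])
    simp only [Finset.sum_insert ha]
    exact ⟨(h a (by simp)).add h1, by rw [int1_add (h a (by simp)) h1, h2]⟩

end int1

theorem Def.int1 {B : X × ℂ → Prop} (hB : Def B) :
    (∀ x, Cof fun w => ind (B (x, w))) ∧
      CF fun x => int1 fun w => ind (B (x, w)) := by
  obtain ⟨n, hn⟩ := hB.bounded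
  choose E hE h using hn
  let G : X → Prop := fun x => ∃ f : Fin (n + 1) → ℂ, (∀ i j, f i = f j → i = j) ∧ ∀ i, B (x, f i)
  have hG : Def G := hB.atLeast _
  have h1 : ∀ x, G x → ∀ w ∉ E x, B (x, w) := by
    rintro x ⟨f, h1, h2⟩ w hw
    have : ¬ ∀ i, f i ∈ E x := fun h3 => by
      have := (le_card_iff _ _).2 ⟨f, h1, h3⟩
      have := hE x
      omega
    push Not at this
    obtain ⟨i, hi⟩ := this
    exact h x _ hi _ hw (h2 i)
  have h2 : ∀ x, ¬ G x → ∀ w ∉ E x, ¬ B (x, w) := by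
    intro x hx w hw hb
    obtain ⟨t, ht, hc⟩ := (E x).finite_toSet.infinite_compl.exists_subset_card_eq (n + 1)
    obtain ⟨f, e1, e2⟩ := (le_card_iff t _).1 hc.ge
    exact hx ⟨f, e1, fun i => h x w hw _ (ht (e2 i)) hb⟩
  refine ⟨fun x => ?_, ?_⟩
  · by_cases hx : G x
    · exact ⟨1, E x, fun w hw => ind_pos (h1 x hx w hw)⟩
    · exact ⟨0, E x, fun w hw => ind_neg (h2 x hx w hw)⟩
  have c1 := CF.sumB (CF.const 1) (B := fun p : X × ℂ => G p.1 ∧ ¬ B p)
    ((hG.comp Tm.fst').and hB.not) (fun x => (E x).filter fun w => G x ∧ ¬ B (x, w))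
    (fun x w => by
      simp only [Finset.mem_filter, and_iff_right_iff_imp]
      exact fun e => by_contra fun hw => e.2 (h1 x e.1 w hw))
    (fun x => (Finset.card_filter_le _ _).trans (hE x))
  have c2 := CF.sumB (CF.const 1) (B := fun p : X × ℂ => ¬ G p.1 ∧ B p)
    ((hG.comp Tm.fst').not.and hB) (fun x => (E x).filter fun w => ¬ G x ∧ B (x, w))
    (fun x w => by
      simp only [Finset.mem_filter, and_iff_right_iff_imp]
      exact fun e => by_contra fun hw => h2 x e.1 w hw e.2)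
    (fun x => (Finset.card_filter_le _ _).trans (hE x))
  refine (CF.ite hG ((CF.const 1).sub c1) c2).congr fun x => ?_
  by_cases hx : G x
  · rw [int1_eq (c := 1) (E := E x) fun w hw => ind_pos (h1 x hx w hw), if_pos hx,
      Finset.sum_filter, sub_eq_add_neg, ← Finset.sum_neg_distrib]
    congr 1
    refine Finset.sum_congr rfl fun w _ => ?_
    by_cases e : B (x, w) <;> simp [e, hx]
  · rw [int1_fin (E := E x) fun w hw => ind_neg (h2 x hx w hw), if_neg hx, Finset.sum_filter]
    refine Finset.sum_congr rfl fun w _ => ?_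
    by_cases e : B (x, w) <;> simp [e, hx]

theorem CF.cof_int1 {φ : X × ℂ → ℚ} (h : CF φ) :
    (∀ x, Cof fun w => φ (x, w)) ∧ CF fun x => int1 fun w => φ (x, w) := by
  refine CF.sep (motive := fun φ => (∀ x, Cof fun w => φ (x, w)) ∧
    CF fun x => int1 fun w => φ (x, w)) ?_ ?_ ?_ h
  · intro B ψ hB hψ
    obtain ⟨h1, h2⟩ := hB.int1
    simp only [mul_comm _ (ψ _)]
    exact ⟨fun x => (h1 x).smul _, (hψ.mul h2).congr fun x => (int1_smul (h1 x) _).symm⟩
  · rintro φ ψ - - ⟨h1, h2⟩ ⟨h3, h4⟩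
    exact ⟨fun x => (h1 x).add (h3 x), (h2.add h4).congr fun x => (int1_add (h1 x) (h3 x)).symm⟩
  · rintro c φ - ⟨h1, h2⟩
    exact ⟨fun x => (h1 x).smul c, (h2.smul c).congr fun x => (int1_smul (h1 x) c).symm⟩

theorem CF.cof {φ : ℂ → ℚ} (h : CF φ) : Cof φ :=
  (h.comp (g := fun p : Unit × ℂ => p.2) Tm.snd').cof_int1.1 ()

theorem CF.int1 {φ : X → ℂ → ℚ} (h : CF fun p : X × ℂ => φ p.1 p.2) :
    CF fun x => int1 (φ x) := h.cof_int1.2

theorem CF.euler (k : ℕ) : ∀ {X : Type} [Str X] {φ : X → (Fin k → ℂ) → ℚ},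
    (CF fun p : X × (Fin k → ℂ) => φ p.1 p.2) → CF fun x => euler k (φ x) := by
  induction k with
  | zero =>
    intro X _ φ h
    exact h.comp (g := fun x => (x, Fin.elim0)) (by fun_prop)
  | succ k ih =>
    intro X _ φ h
    exact CF.int1 (φ := fun x w => MP_d4c0ca_ag.euler k fun y => φ x (Fin.cons w y))
      (ih (φ := fun (p : X × ℂ) y => φ p.1 (Fin.cons p.2 y))
        (h.comp (g := fun q : (X × ℂ) × (Fin k → ℂ) => (q.1.1, Fin.cons q.1.2 q.2))
          (Tm.prodMk (by fun_prop) (Tm.cons (by fun_prop) (by fun_prop)))))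

theorem CF.cons {k : ℕ} {φ : (Fin (k + 1) → ℂ) → ℚ} (h : CF φ) :
    (∀ w, CF fun y : Fin k → ℂ => φ (Fin.cons w y)) ∧
      CF fun w => MP_d4c0ca_ag.euler k fun y => φ (Fin.cons w y) :=
  ⟨fun w => h.comp (Tm.cons (Tm.const w) Tm.id'),
    CF.euler k (φ := fun w y => φ (Fin.cons w y)) (h.comp (Tm.cons Tm.fst' Tm.snd'))⟩

theorem euler_add (k : ℕ) {φ ψ : (Fin k → ℂ) → ℚ} (h1 : CF φ) (h2 : CF ψ) :
    euler k (fun x => φ x + ψ x) = euler k φ + euler k ψ := by
  induction k with
  | zero => rfl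
  | succ k ih =>
    simp only [euler]
    rw [← int1_add h1.cons.2.cof h2.cons.2.cof]
    congr 1
    funext w
    exact ih (h1.cons.1 w) (h2.cons.1 w)

theorem euler_smul (k : ℕ) {φ : (Fin k → ℂ) → ℚ} (h1 : CF φ) (c : ℚ) :
    euler k (fun x => c * φ x) = c * euler k φ := by
  induction k with
  | zero => rfl
  | succ k ih =>
    simp only [euler]
    rw [← int1_smul h1.cons.2.cof]
    congr 1
    funext w
    exact ih (h1.cons.1 w)

theorem euler_const {A : Type} [AddCommGroup A] (k : ℕ) (c : A) :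
    euler k (fun _ => c) = c := by
  induction k with
  | zero => rfl
  | succ k ih => simp only [euler, ih, int1_const]

theorem euler_point (k : ℕ) (a : Fin k → ℂ) : euler k (fun x => ind (x = a)) = 1 := by
  induction k with
  | zero => simp only [euler]; exact ind_pos (Subsingleton.elim _ _)
  | succ k ih =>
    simp only [euler]
    have : ∀ w, (euler k fun x => ind (Fin.cons w x = a)) = ind (w = a 0) := fun w => by
      by_cases h : w = a 0
      · rw [ind_pos h, ← ih (Fin.tail a)]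
        congr 1
        funext x
        refine ind_congr ⟨fun e => by rw [← e]; simp, ?_⟩
        rintro rfl
        simp [h]
      · rw [ind_neg h]
        refine Eq.trans ?_ (euler_const k (0 : ℚ))
        congr 1
        funext x
        refine ind_neg ?_
        rintro rfl
        simp at h
    simp only [this]
    rw [int1_fin (E := {a 0}) fun w hw => ind_neg (by simpa using hw)]
    simp

end Pool.Agent.Lib.MP_d4c0ca_ag
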