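import Pool.Agent.Lib.MP_d4c0ca_ag.Place
import Pool.Agent.Lib.MP_d4c0ca_ag.CF

/-! The Euler integral of a plane curve does not depend on the order of integration. -/

namespace Pool.Agent.Lib.MP_d4c0ca_ag

open Polynomial WithZero
open scoped IntermediateField Polynomial.Bivariate Classical

variable {F : Type} [Field F] [Algebra ℂ F]

/-- function fields in one variable -/
def FF (F : Type) [Field F] [Algebra ℂ F] : Prop :=
  ∀ h : F, Transcendental ℂ h → FiniteDimensional ℂ⟮h⟯ F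

theorem with_inst {h : F} (hh : Transcendental ℂ h) :
    ∃ (_ : Algebra ℂ[X] F) (_ : IsScalarTower ℂ ℂ[X] F) (_ : Algebra (RatFunc ℂ) F)
      (_ : IsScalarTower ℂ[X] (RatFunc ℂ) F), (∀ p, algebraMap ℂ[X] F p = aeval h p) ∧
      Module.finrank (RatFunc ℂ) F = Module.finrank ℂ⟮h⟯ F ∧
      (FiniteDimensional ℂ⟮h⟯ F → FunctionField ℂ F) := by
  let i1 : Algebra ℂ[X] F := (aeval h : ℂ[X] →ₐ[ℂ] F).toRingHom.toAlgebra
  let e := RatFunc.algEquivOfTranscendental h hh
  let i2 : Algebra (RatFunc ℂ) F :=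
    ((algebraMap ℂ⟮h⟯ F).comp (e : RatFunc ℂ →+* ℂ⟮h⟯)).toAlgebra
  have hc : (algebraMap ℂ⟮h⟯ F).comp (e.toRingEquiv : RatFunc ℂ →+* ℂ⟮h⟯) =
      RingHom.comp (RingEquiv.refl F) (algebraMap (RatFunc ℂ) F) := rfl
  refine ⟨i1, IsScalarTower.of_algebraMap_eq fun c => ?_, i2,
    IsScalarTower.of_algebraMap_eq fun p => ?_, fun _ => rfl,
    Algebra.finrank_eq_of_equiv_equiv e.toRingEquiv (RingEquiv.refl F) hc, fun _ =>
    Module.Finite.of_equiv_equiv e.toRingEquiv.symm (RingEquiv.refl F) ?_⟩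
  · exact ((aeval h : ℂ[X] →ₐ[ℂ] F).commutes c).symm
  · show aeval h p = algebraMap ℂ⟮h⟯ F (e (algebraMap _ _ p))
    rw [RatFunc.algEquivOfTranscendental_algebraMap, ← aeval_algebraMap_apply]
    rfl
  · ext a
    show algebraMap ℂ⟮h⟯ F (e (e.symm a)) = _
    simp

theorem Place.unif' (P : Place F) : ∃ π, P.v π = exp (-1 : ℤ) ∧ π ≠ 0 ∧ P.v π < 1 ∧
    Transcendental ℂ π := by
  obtain ⟨π, hπ⟩ := P.unif
  have h0 : π ≠ 0 := by rintro rfl; simp at hπ; exact exp_ne_zero hπ.symm
  have h1 : P.v π < 1 := by rw [hπ, ← exp_zero, exp_lt_exp]; omega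
  exact ⟨π, hπ, h0, h1, P.transcendental h0 h1.ne⟩

theorem exists_res (hF : FF F) (P : Place F) {h : F} (hh : P.v h ≤ 1) :
    ∃ c : ℂ, P.v (h - algebraMap ℂ F c) < 1 := by
  obtain ⟨π, -, -, h1, h2⟩ := P.unif'
  obtain ⟨_, _, _, _, e, -, e'⟩ := with_inst h2
  have := e' (hF π h2)
  exact exists_res_inst P (by rw [e, aeval_X]; exact h1.le) h hh

theorem fund (hF : FF F) {h : F} (hh : Transcendental ℂ h) : ∃ S : Finset (Place F),
    (∀ P, P ∈ S ↔ P.v h < 1) ∧ ∑ P ∈ S, P.ord h = Module.finrank ℂ⟮h⟯ F := by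
  obtain ⟨_, _, _, _, e, e1, e'⟩ := with_inst hh
  have := e' (hF h hh)
  have := fund_inst (F := F)
  rwa [e, aeval_X, e1] at this

theorem exists_place (hF : FF F) {h : F} (hh : Transcendental ℂ h) (A : Subalgebra ℂ F)
    (hA : h ∈ A) (ε : A →ₐ[ℂ] ℂ) : ∃ P : Place F, ∀ a : A, P.v (a - algebraMap ℂ F (ε a)) < 1 := by
  obtain ⟨_, _, _, _, e, -, e'⟩ := with_inst hh
  have := e' (hF h hh)
  exact exists_place_inst A (by rw [e, aeval_X]; exact hA) ε

theorem exists_deriv (hF : FF F) {h : F} (hh : Transcendental ℂ h) :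
    ∃ D : Derivation ℂ F F, D h = 1 := by
  obtain ⟨_, _, _, _, e, -, e'⟩ := with_inst hh
  have := e' (hF h hh)
  have := exists_deriv_inst (F := F)
  rwa [e, aeval_X] at this

theorem deriv_val (hF : FF F) (D : Derivation ℂ F F) (P : Place F) : ∃ β : ℤᵐ⁰, ∀ h : F,
    P.ord h ≠ 0 → P.v (D h) = exp (1 - P.ord h) * β := by
  obtain ⟨π, hπ, h0, h1, h2⟩ := P.unif'
  obtain ⟨B, hB⟩ : ∃ B : ℤᵐ⁰, ∀ h, P.v h ≤ 1 → P.v (D h) ≤ B := by
    obtain ⟨_, _, _, _, e, -, e'⟩ := with_inst h2
    have := e' (hF π h2)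
    exact deriv_bound_inst D P (by rw [e, aeval_X]; exact h1.le)
  have h3 : ∀ k : ℕ, ∀ w, P.v w ≤ 1 → P.v (D w) ≤ max (P.v (D π)) (exp (-k : ℤ) * B) := by
    intro k
    induction k with
    | zero => exact fun w hw => (by simpa using Or.inr (hB w hw))
    | succ k ih =>
      intro w hw
      obtain ⟨c, hc⟩ := exists_res hF P hw
      have hw' : P.v ((w - algebraMap ℂ F c) / π) ≤ 1 := by
        rw [map_div₀, div_le_one₀ (by rw [hπ]; exact exp_pos), hπ]
        by_cases e : w - algebraMap ℂ F c = 0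
        · simp [e]
        · have := (P.lt_one_iff e).1 hc
          rw [P.v_eq e, exp_le_exp]; omega
      have e : w = algebraMap ℂ F c + π * ((w - algebraMap ℂ F c) / π) := by field_simp; ring
      rw [e, map_add, D.map_algebraMap, zero_add, D.leibniz, smul_eq_mul, smul_eq_mul]
      refine P.v.map_add_le ?_ ?_
      · rw [map_mul, hπ]
        refine (mul_le_mul_right (ih _ hw') _).trans ?_
        rw [mul_max]
        refine max_le_max (mul_le_of_le_one_left' (hπ ▸ h1.le)) (le_of_eq ?_)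
        rw [← mul_assoc, ← exp_add]
        congr 2
        push_cast; ring
      · rw [map_mul]
        exact (mul_le_of_le_one_left' hw').trans (le_max_left _ _)
  have h4 : ∀ w, P.v w ≤ 1 → P.v (D w) ≤ P.v (D π) := fun w hw => by
    by_contra hc
    rw [not_le] at hc
    have hB0 : B ≠ 0 := by
      rintro rfl
      exact absurd (hc.trans_le (hB w hw)) (by simp)
    obtain ⟨k, hk⟩ := exists_exp_neg_natCast_lt (x := P.v (D w) / B)
      (div_ne_zero (ne_of_gt (zero_le.trans_lt hc)) hB0)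
    rw [lt_div_iff₀ (zero_lt_iff.2 hB0)] at hk
    exact absurd (h3 k w hw) (not_le.2 (max_lt hc hk))
  refine ⟨P.v (D π), fun h he => ?_⟩
  have hh : h ≠ 0 := by rintro rfl; simp [Place.ord] at he
  set e := P.ord h with he'
  have hu : P.v (h / π ^ e) = 1 := by
    rw [map_div₀, map_zpow₀, hπ, P.v_eq hh, ← exp_zsmul, div_eq_one_iff_eq exp_ne_zero]
    simp [he']
  have e1 : h = π ^ e * (h / π ^ e) := by field_simp
  have e2 : P.v ((h / π ^ e) * (e • π ^ (e - 1) • D π)) = exp (1 - e) * P.v (D π) := by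
    rw [map_mul, hu, one_mul, zsmul_eq_mul, smul_eq_mul, map_mul, map_mul, map_zpow₀, hπ,
      ← exp_zsmul, ← map_intCast (algebraMap ℂ F), P.v_const (by exact_mod_cast he), one_mul]
    simp
  rw [e1, D.leibniz, D.leibniz_zpow, smul_eq_mul, smul_eq_mul (h / π ^ e)]
  by_cases hD : P.v (D π) = 0
  · have := h4 _ hu.le
    rw [hD, le_zero_iff, Valuation.zero_iff] at this
    rw [this, mul_zero, zero_add, e2]
  · rw [← e2]
    refine P.v.map_add_eq_of_lt_right ?_
    rw [e2, map_mul, map_zpow₀, hπ, ← exp_zsmul]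
    refine (mul_le_mul_right (h4 _ hu.le) _).trans_lt ?_
    refine mul_lt_mul_of_pos_right ?_ (zero_lt_iff.2 hD)
    rw [exp_lt_exp]; simp

theorem adjoin_inv' (h : F) : ℂ⟮h⁻¹⟯ = ℂ⟮h⟯ := by
  refine le_antisymm ?_ ?_ <;> rw [IntermediateField.adjoin_simple_le_iff]
  · exact inv_mem (IntermediateField.mem_adjoin_simple_self _ _)
  · simpa using inv_mem (IntermediateField.mem_adjoin_simple_self ℂ h⁻¹)

theorem adjoin_sub' (h : F) (c : ℂ) : ℂ⟮h - algebraMap ℂ F c⟯ = ℂ⟮h⟯ := by
  refine le_antisymm ?_ ?_ <;> rw [IntermediateField.adjoin_simple_le_iff]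
  · exact sub_mem (IntermediateField.mem_adjoin_simple_self _ _)
      (IntermediateField.algebraMap_mem _ _)
  · simpa using add_mem (IntermediateField.mem_adjoin_simple_self ℂ (h - algebraMap ℂ F c))
      (IntermediateField.algebraMap_mem _ c)

theorem fund_inv (hF : FF F) {h : F} (hh : Transcendental ℂ h) : ∃ S : Finset (Place F),
    (∀ P, P ∈ S ↔ 1 < P.v h) ∧ ∑ P ∈ S, - P.ord h = Module.finrank ℂ⟮h⟯ F := by
  have h0 : h ≠ 0 := by rintro rfl; exact hh isAlgebraic_zero
  obtain ⟨S, h1, h2⟩ := fund hF (h := h⁻¹) fun a => hh (IsAlgebraic.inv_iff.1 a)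
  refine ⟨S, fun P => ?_, ?_⟩
  · rw [h1, P.lt_one_iff (inv_ne_zero h0), P.one_lt_iff h0, P.ord_inv, neg_pos]
  · rw [adjoin_inv'] at h2
    simpa only [Place.ord_inv] using h2

theorem fund_sub (hF : FF F) {h : F} (hh : Transcendental ℂ h) (c : ℂ) :
    ∃ S : Finset (Place F), (∀ P, P ∈ S ↔ P.v (h - algebraMap ℂ F c) < 1) ∧
      ∑ P ∈ S, P.ord (h - algebraMap ℂ F c) = Module.finrank ℂ⟮h⟯ F := by
  have := fund hF (h := h - algebraMap ℂ F c) fun a => hh (by
    simpa using a.add (isAlgebraic_algebraMap c))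
  rwa [adjoin_sub'] at this

theorem product_formula (hF : FF F) {h : F} (h0 : h ≠ 0) : ∑ᶠ P : Place F, P.ord h = 0 := by
  by_cases hh : Transcendental ℂ h
  · obtain ⟨S, h1, h2⟩ := fund hF hh
    obtain ⟨T, h3, h4⟩ := fund_inv hF hh
    rw [finsum_eq_sum_of_support_subset (s := S ∪ T), Finset.sum_union, h2, ← h4]
    · simp
    · rw [Finset.disjoint_left]
      intro P a b
      exact lt_asymm ((h1 P).1 a) ((h3 P).1 b)
    · intro P hP
      simp only [Finset.coe_union, Set.mem_union, SetLike.mem_coe, h1, h3, P.lt_one_iff h0,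
        P.one_lt_iff h0]
      exact (lt_or_gt_of_ne hP).symm
  · refine finsum_eq_zero_of_forall_eq_zero fun P => P.ord_eq ?_
    by_contra hc
    exact hh (P.transcendental h0 hc)

/-- a local parameter attached to a function -/
noncomputable def Place.loc (P : Place F) (h : F) : F :=
  if hc : ∃ c : ℂ, P.v (h - algebraMap ℂ F c) < 1 then h - algebraMap ℂ F hc.choose else h

theorem Place.loc_of_res (P : Place F) {h : F} {c : ℂ} (hc : P.v (h - algebraMap ℂ F c) < 1) :
    P.loc h = h - algebraMap ℂ F c := by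
  have : ∃ c : ℂ, P.v (h - algebraMap ℂ F c) < 1 := ⟨c, hc⟩
  rw [Place.loc, dif_pos this, P.res_unique this.choose_spec hc]

theorem Place.loc_of_pole (P : Place F) {h : F} (hc : 1 < P.v h) : P.loc h = h :=
  dif_neg fun ⟨_, e⟩ => absurd (P.le_one_of_res e) (not_le.2 hc)

theorem sub_ne_of_tr {h : F} (hh : Transcendental ℂ h) (c : ℂ) : h - algebraMap ℂ F c ≠ 0 :=
  fun e => hh (by rw [sub_eq_zero.1 e]; exact isAlgebraic_algebraMap c)

theorem ord_loc_ne (hF : FF F) (P : Place F) {h : F} (hh : Transcendental ℂ h) :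
    P.ord (P.loc h) ≠ 0 := by
  by_cases e : P.v h ≤ 1
  · obtain ⟨c, hc⟩ := exists_res hF P e
    rw [P.loc_of_res hc]
    exact ((P.lt_one_iff (sub_ne_of_tr hh c)).1 hc).ne'
  · rw [not_le] at e
    rw [P.loc_of_pole e]
    exact ((P.one_lt_iff (by simpa using sub_ne_of_tr hh 0)).1 e).ne

theorem ord_loc_sub (hF : FF F) {x y : F} (hx : Transcendental ℂ x) (hy : Transcendental ℂ y) :
    ∑ᶠ P : Place F, (P.ord (P.loc y) - P.ord (P.loc x)) = 0 := by
  obtain ⟨D, hD⟩ := exists_deriv hF hx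
  have hl : ∀ (P : Place F) h, D (P.loc h) = D h := fun P h => by
    unfold Place.loc
    split_ifs <;> simp
  have key : ∀ P : Place F, P.v (D y) = exp (-(P.ord (P.loc y) - P.ord (P.loc x))) := fun P => by
    obtain ⟨β, hβ⟩ := deriv_val hF D P
    have h1 := hβ _ (ord_loc_ne hF P hx)
    have h2 := hβ _ (ord_loc_ne hF P hy)
    rw [hl, hD, map_one, eq_comm, mul_eq_one_iff_inv_eq₀ exp_ne_zero, ← exp_neg] at h1
    rw [hl, ← h1, ← exp_add] at h2
    rw [h2]; congr 1; ring
  by_cases h0 : D y = 0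
  · refine finsum_eq_zero_of_forall_eq_zero fun P => ?_
    have := key P
    rw [h0, map_zero] at this
    exact (exp_ne_zero this.symm).elim
  · rw [← product_formula hF h0]
    exact finsum_congr fun P => (P.ord_eq (key P)).symm

/-- weight of a place: one over the number of places with the same centre -/
noncomputable def wt (x y : F) (P : Place F) : ℚ :=
  if P.v x ≤ 1 ∧ P.v y ≤ 1 then
    (({Q : Place F | Q.v (P.loc x) < 1 ∧ Q.v (P.loc y) < 1}.ncard : ℚ))⁻¹ else 0

theorem wt_comm (x y : F) : wt x y = wt y x := by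
  funext P
  simp only [wt, and_comm]

theorem wt_le (x y : F) (P : Place F) : wt x y P ≤ 1 := by
  unfold wt
  split_ifs
  · exact Nat.cast_inv_le_one _
  · exact zero_le_one

theorem cop {f g : ℂ[X][Y]} (hf : Irreducible f) (hfg : ¬ f ∣ g) (hd : 0 < f.natDegree) :
    ∃ (u v : ℂ[X][Y]) (c : ℂ[X]), c ≠ 0 ∧ u * f + v * g = C c := by
  have := AdjoinRoot.isDomain_of_prime hf.prime
  have hinj : Function.Injective (algebraMap ℂ[X] (AdjoinRoot f)) :=
    AdjoinRoot.of.injective_of_degree_ne_zero (natDegree_pos_iff_degree_pos.1 hd).ne'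
  have : FaithfulSMul ℂ[X] (AdjoinRoot f) := (faithfulSMul_iff_algebraMap_injective _ _).2 hinj
  have h1 : ∀ g : ℂ[X][Y], IsAlgebraic ℂ[X] (AdjoinRoot.mk f g) := fun g => by
    induction g using Polynomial.induction_on with
    | C c => exact isAlgebraic_algebraMap c
    | add p q hp hq => rw [map_add]; exact hp.add hq
    | monomial n c h =>
      rw [pow_succ, ← mul_assoc, map_mul]
      exact h.mul (AdjoinRoot.isAlgebraic_root hf.ne_zero)
  obtain ⟨c, hc, v, hv⟩ := (h1 g).exists_nonzero_dvd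
    (mem_nonZeroDivisors_of_ne_zero (by rwa [Ne, AdjoinRoot.mk_eq_zero]))
  obtain ⟨v, rfl⟩ := AdjoinRoot.mk_surjective v
  rw [← map_mul] at hv
  obtain ⟨u, hu⟩ := AdjoinRoot.mk_eq_mk.1 (show AdjoinRoot.mk f (C c) = _ from hv)
  exact ⟨u, v, c, hc, by linear_combination -hu⟩

theorem map_eval_ne {f : ℂ[X][Y]} (hf : Irreducible f) (hd : 0 < f.natDegree) (a : ℂ) :
    f.map (evalRingHom a) ≠ 0 := fun h => by
  have h1 : C (X - C a) ∣ f := (C_dvd_iff_dvd_coeff _ _).2 fun i => dvd_iff_isRoot.2 (by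
    have := congrArg (coeff · i) h
    simpa using this)
  have h2 := (hf.isPrimitive hd.ne') _ h1
  exact not_isUnit_X_sub_C a h2

theorem generic_roots {f : ℂ[X][Y]} (hf : Irreducible f) (hd : 0 < f.natDegree) :
    ∃ A : Finset ℂ, ∀ a ∉ A, (f.map (evalRingHom a)).roots.toFinset.card = f.natDegree := by
  obtain ⟨u, v, c, hc, h⟩ := cop hf (g := derivative f)
    (fun h => absurd (natDegree_le_of_dvd h (derivative_ne_zero.2 hd.ne'))
      (not_le.2 (natDegree_derivative_lt hd.ne'))) hd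
  have hl : f.leadingCoeff ≠ 0 := leadingCoeff_ne_zero.2 hf.ne_zero
  refine ⟨(c * f.leadingCoeff).roots.toFinset, fun a ha => ?_⟩
  rw [Multiset.mem_toFinset, mem_roots (mul_ne_zero hc hl), IsRoot, eval_mul, mul_eq_zero,
    not_or] at ha
  have hs : (f.map (evalRingHom a)).Separable := by
    have := congrArg (Polynomial.map (evalRingHom a)) h
    simp only [Polynomial.map_add, Polynomial.map_mul, map_C, coe_evalRingHom] at this
    refine ⟨C (c.eval a)⁻¹ * u.map (evalRingHom a), C (c.eval a)⁻¹ * v.map (evalRingHom a), ?_⟩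
    rw [derivative_map, mul_assoc, mul_assoc, ← mul_add, this, ← C_mul, inv_mul_cancel₀ ha.1, C_1]
  rw [Multiset.toFinset_card_of_nodup (nodup_roots hs), IsAlgClosed.card_roots_eq_natDegree,
    natDegree_map_of_leadingCoeff_ne_zero _ ha.2]

theorem v_aeval_sub (P : Place F) {x y : F} {a b : ℂ} (hx : P.v (x - algebraMap ℂ F a) < 1)
    (hy : P.v (y - algebraMap ℂ F b) < 1) (p : ℂ[X][Y]) :
    P.v (p.aevalAeval x y - algebraMap ℂ F (p.evalEval a b)) < 1 := by
  have mul : ∀ {s t : F} {c d : ℂ}, P.v (s - algebraMap ℂ F c) < 1 →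
      P.v (t - algebraMap ℂ F d) < 1 → P.v (s * t - algebraMap ℂ F (c * d)) < 1 := by
    intro s t c d h1 h2
    have : s * t - algebraMap ℂ F (c * d) =
        s * (t - algebraMap ℂ F d) + algebraMap ℂ F d * (s - algebraMap ℂ F c) := by
      rw [map_mul]; ring
    rw [this]
    refine P.v.map_add_lt ?_ ?_ <;> rw [map_mul]
    · exact (mul_le_of_le_one_left' (P.le_one_of_res h1)).trans_lt h2
    · exact (mul_le_of_le_one_left' (P.const d)).trans_lt h1
  have add : ∀ {s t : F} {c d : ℂ}, P.v (s - algebraMap ℂ F c) < 1 →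
      P.v (t - algebraMap ℂ F d) < 1 → P.v (s + t - algebraMap ℂ F (c + d)) < 1 := by
    intro s t c d h1 h2
    rw [map_add, add_sub_add_comm]
    exact P.v.map_add_lt h1 h2
  induction p using Polynomial.induction_on with
  | C q =>
    rw [aevalAeval_C, evalEval_C]
    induction q using Polynomial.induction_on with
    | C c => simp
    | add p q hp hq => rw [map_add, eval_add]; exact add hp hq
    | monomial n c h => rw [pow_succ, ← mul_assoc, map_mul, eval_mul, aeval_X, eval_X]; exact mul h hx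
  | add p q hp hq => rw [map_add, evalEval_add]; exact add hp hq
  | monomial n c h =>
    rw [pow_succ, ← mul_assoc, map_mul, evalEval_mul, aevalAeval_Y, evalEval_X]; exact mul h hy

/-- a generic point of the plane curve `f = 0` -/
structure Gen (f : ℂ[X][Y]) (x y : F) : Prop where
  ker : ∀ p : ℂ[X][Y], p.aevalAeval x y = 0 ↔ f ∣ p
  frac : ∀ z : F, ∃ p q : ℂ[X][Y], z = p.aevalAeval x y / q.aevalAeval x y

theorem Gen.swap {f : ℂ[X][Y]} {x y : F} (h : Gen f x y) : Gen (Bivariate.swap f) y x := by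
  refine ⟨fun p => ?_, fun z => ?_⟩
  · rw [← Bivariate.aevalAeval_swap, h.ker]
    conv_rhs => rw [← Bivariate.swap_swap_apply p]
    exact (map_dvd_iff Bivariate.swap).symm
  · obtain ⟨p, q, e⟩ := h.frac z
    exact ⟨Bivariate.swap p, Bivariate.swap q, by simpa only [Bivariate.aevalAeval_swap] using e⟩

theorem Gen.tr {f : ℂ[X][Y]} {x y : F} (h : Gen f x y) (hd : 0 < f.natDegree) :
    Transcendental ℂ x := by
  rintro ⟨q, hq, e⟩
  have := natDegree_le_of_dvd ((h.ker (C q)).1 (by rwa [aevalAeval_C])) (C_ne_zero.2 hq)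
  rw [natDegree_C] at this
  omega

theorem Gen.deg {f : ℂ[X][Y]} {x y : F} (h : Gen f x y) (hf : Irreducible f)
    (hd : 0 < f.natDegree) : Module.finrank ℂ⟮x⟯ F = f.natDegree ∧ FF F := by
  obtain ⟨_, _, _, _, e, e1, -⟩ := with_inst (h.tr hd)
  have ev : ∀ p : ℂ[X][Y], p.aevalAeval x y = aeval y (p.map (algebraMap ℂ[X] (RatFunc ℂ))) := by
    intro p
    rw [aeval_map_algebraMap]
    induction p using Polynomial.induction_on with
    | C q => rw [aevalAeval_C, aeval_C, e]
    | add p q hp hq => rw [map_add, map_add, hp, hq]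
    | monomial n c h =>
      rw [pow_succ, ← mul_assoc, map_mul, map_mul (aeval y), h, aevalAeval_Y, aeval_X]
  have hirr : Irreducible (f.map (algebraMap ℂ[X] (RatFunc ℂ))) :=
    ((hf.isPrimitive hd.ne').irreducible_iff_irreducible_map_fraction_map).1 hf
  have hy : aeval y (f.map (algebraMap ℂ[X] (RatFunc ℂ))) = 0 := by rw [← ev, h.ker]
  have hint : IsIntegral (RatFunc ℂ) y := IsAlgebraic.isIntegral ⟨_, hirr.ne_zero, hy⟩
  have htop : (RatFunc ℂ)⟮y⟯ = ⊤ := by
    rw [eq_top_iff]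
    intro z _
    obtain ⟨p, q, rfl⟩ := h.frac z
    rw [ev, ev]
    exact div_mem (IntermediateField.algebra_adjoin_le_adjoin _ _ (aeval_mem_adjoin_singleton _ _))
      (IntermediateField.algebra_adjoin_le_adjoin _ _ (aeval_mem_adjoin_singleton _ _))
  have h1 := IntermediateField.adjoin.finrank hint
  rw [htop, IntermediateField.finrank_top', ← minpoly.eq_of_irreducible hirr hy,
    natDegree_mul_C (inv_ne_zero (leadingCoeff_ne_zero.2 hirr.ne_zero)),
    natDegree_map_eq_of_injective (IsFractionRing.injective _ _)] at h1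
  refine ⟨e1 ▸ h1, fun z hz => ?_⟩
  have : FunctionField ℂ F := Module.finite_of_finrank_pos (h1 ▸ hd)
  have : IsScalarTower ℂ (RatFunc ℂ) F := IsScalarTower.of_algebraMap_eq fun c => by
    rw [IsScalarTower.algebraMap_apply ℂ ℂ[X] F, IsScalarTower.algebraMap_apply ℂ[X] (RatFunc ℂ) F,
      ← IsScalarTower.algebraMap_apply ℂ ℂ[X] (RatFunc ℂ)]
  exact FunctionField.finiteDimensional_of_adjoin_transcendental hz

theorem Gen.place {f : ℂ[X][Y]} {x y : F} (h : Gen f x y) (hf : Irreducible f)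
    (hd : 0 < f.natDegree) {a b : ℂ} (hab : f.evalEval a b = 0) : ∃ P : Place F,
      P.v (x - algebraMap ℂ F a) < 1 ∧ P.v (y - algebraMap ℂ F b) < 1 := by
  let φ : ℂ[X][Y] →ₐ[ℂ] F := aevalAeval x y
  let ψ : ℂ[X][Y] →ₐ[ℂ] ℂ := aevalAeval a b
  have hk : RingHom.ker φ.rangeRestrict ≤ RingHom.ker ψ := fun p hp => by
    have : φ p = 0 := congrArg Subtype.val (RingHom.mem_ker.1 hp)
    obtain ⟨q, rfl⟩ := (h.ker p).1 this
    rw [RingHom.mem_ker, map_mul]
    refine mul_eq_zero_of_left ?_ _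
    rw [← coe_aevalAeval_eq_evalEval] at hab
    exact hab
  let ε : φ.range →ₐ[ℂ] ℂ := AlgHom.liftOfSurjective φ.rangeRestrict
    φ.rangeRestrict_surjective ψ hk
  have hε : ∀ p, ε (φ.rangeRestrict p) = ψ p := fun p =>
    AlgHom.liftOfSurjective_apply _ _ _ _ _
  obtain ⟨P, hP⟩ := exists_place (h.deg hf hd).2 (h.tr hd) φ.range ⟨C X, aevalAeval_X _ _⟩ ε
  have h1 := hP (φ.rangeRestrict (C X))
  have h2 := hP (φ.rangeRestrict Y)
  rw [hε] at h1 h2
  exact ⟨P, by simpa [φ, ψ] using h1, by simpa [φ, ψ] using h2⟩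

theorem Gen.count {f : ℂ[X][Y]} {x y : F} (h : Gen f x y) (hf : Irreducible f)
    (hd : 0 < f.natDegree) :
    (Function.support fun P : Place F => wt x y P - P.ord (P.loc x)).Finite ∧
      int1 (fun a => int1 fun b => ind (f.evalEval a b = 0)) =
        ∑ᶠ P : Place F, (wt x y P - P.ord (P.loc x)) := by
  obtain ⟨hdeg, hF⟩ := h.deg hf hd
  have hx := h.tr hd
  choose S hS hS' using fund_sub hF hx
  obtain ⟨T, hT, hT'⟩ := fund_inv hF hx
  rw [hdeg] at hS' hT'
  have hN : ∀ a, (int1 fun b => ind (f.evalEval a b = 0)) =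
      (f.map (evalRingHom a)).roots.toFinset.card := fun a => by
    have e : ∀ b, b ∈ (f.map (evalRingHom a)).roots.toFinset ↔ f.evalEval a b = 0 := fun b => by
      rw [Multiset.mem_toFinset, mem_roots (map_eval_ne hf hd a), IsRoot, map_evalRingHom_eval]
    rw [int1_fin (E := (f.map (evalRingHom a)).roots.toFinset) fun b hb => ind_neg (by rwa [← e]),
      Finset.sum_congr rfl fun b hb => ind_pos ((e b).1 hb)]
    simp
  have hW : ∀ a, ∑ P ∈ S a, wt x y P = (f.map (evalRingHom a)).roots.toFinset.card := fun a => by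
    have e : ∀ b, b ∈ (f.map (evalRingHom a)).roots.toFinset ↔ f.evalEval a b = 0 := fun b => by
      rw [Multiset.mem_toFinset, mem_roots (map_eval_ne hf hd a), IsRoot, map_evalRingHom_eval]
    rw [← Finset.sum_subset (s₁ := (f.map (evalRingHom a)).roots.toFinset.biUnion fun b =>
      (S a).filter fun P => P.v (y - algebraMap ℂ F b) < 1), Finset.sum_biUnion,
      Finset.card_eq_sum_ones, Nat.cast_sum]
    · refine Finset.sum_congr rfl fun b hb => ?_
      obtain ⟨Q, h1, h2⟩ := h.place hf hd ((e b).1 hb)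
      have hQ : ((S a).filter fun P => P.v (y - algebraMap ℂ F b) < 1).card ≠ 0 :=
        Finset.card_ne_zero.2 ⟨Q, by simp [hS, h1, h2]⟩
      rw [Finset.sum_congr rfl (g := fun _ =>
        ((((S a).filter fun P => P.v (y - algebraMap ℂ F b) < 1).card : ℚ))⁻¹)]
      · rw [Finset.sum_const, nsmul_eq_mul, mul_inv_cancel₀ (by exact_mod_cast hQ)]; simp
      · intro P hP
        rw [Finset.mem_filter, hS] at hP
        rw [wt, if_pos ⟨P.le_one_of_res hP.1, P.le_one_of_res hP.2⟩, P.loc_of_res hP.1,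
          P.loc_of_res hP.2, ← Set.ncard_coe_finset]
        congr 3
        ext Q
        simp [hS]
    · intro b _ b' _ hb
      simp only [Function.onFun, Finset.disjoint_left, Finset.mem_filter]
      exact fun P h1 h2 => hb (P.res_unique h1.2 h2.2)
    · exact Finset.biUnion_subset.2 fun b _ => Finset.filter_subset _ _
    · intro P hP hP'
      rw [wt, if_neg]
      rintro ⟨-, h2⟩
      obtain ⟨b, hb⟩ := exists_res hF P h2
      refine hP' (Finset.mem_biUnion.2 ⟨b, (e b).2 ?_, Finset.mem_filter.2 ⟨hP, hb⟩⟩)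
      have := v_aeval_sub P ((hS a P).1 hP) hb f
      rw [(h.ker f).2 dvd_rfl, zero_sub, Valuation.map_neg] at this
      by_contra hc
      rw [P.v_const hc] at this
      exact lt_irrefl _ this
  have hG : ∀ a, ∑ P ∈ S a, (wt x y P - P.ord (P.loc x)) =
      (f.map (evalRingHom a)).roots.toFinset.card - f.natDegree := fun a => by
    rw [Finset.sum_sub_distrib, hW, ← Int.cast_sum, Finset.sum_congr rfl fun P hP => by
      rw [P.loc_of_res ((hS a P).1 hP)], hS']
    simp
  obtain ⟨A, hA⟩ := generic_roots hf hd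
  have hsupp : (Function.support fun P : Place F => wt x y P - P.ord (P.loc x)) ⊆
      ↑(T ∪ A.biUnion S) := fun P hP => by
    simp only [Finset.coe_union, Set.mem_union, SetLike.mem_coe, Finset.mem_biUnion]
    by_cases e : P.v x ≤ 1
    · obtain ⟨a, ha⟩ := exists_res hF P e
      refine Or.inr ⟨a, by_contra fun haA => hP ?_, (hS a P).2 ha⟩
      have h1 := hG a
      rw [hA a haA, sub_self] at h1
      refine (Finset.sum_eq_zero_iff_of_nonpos fun Q hQ => ?_).1 h1 P ((hS a P).2 ha)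
      have h2 := (hS a Q).1 hQ
      rw [Q.loc_of_res h2]
      have h3 : (1 : ℚ) ≤ Q.ord (x - algebraMap ℂ F a) := by
        exact_mod_cast (Q.lt_one_iff (sub_ne_of_tr hx a)).1 h2
      linarith [wt_le x y Q]
    · exact Or.inl ((hT P).2 (not_le.1 e))
  refine ⟨(Finset.finite_toSet _).subset hsupp, ?_⟩
  rw [finsum_eq_sum_of_support_subset _ hsupp, Finset.sum_union, Finset.sum_biUnion]
  · simp only [hN, hG]
    rw [int1_eq (c := (f.natDegree : ℚ)) (E := A) fun a ha => by rw [hA a ha]]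
    congr 1
    rw [Finset.sum_congr rfl (g := fun P => ((-P.ord x : ℤ) : ℚ)), ← Int.cast_sum, hT']
    · simp
    · intro P hP
      rw [wt, if_neg fun e => absurd e.1 (not_le.2 ((hT P).1 hP)), P.loc_of_pole ((hT P).1 hP)]
      simp
  · intro a _ a' _ ha
    simp only [Function.onFun, Finset.disjoint_left, hS]
    exact fun P h1 h2 => ha (P.res_unique h1 h2)
  · simp only [Finset.disjoint_left, hT, Finset.mem_biUnion, hS]
    rintro P h1 ⟨a, -, h2⟩
    exact absurd (P.le_one_of_res h2) (not_le.2 h1)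

theorem evalEval_swap (f : ℂ[X][Y]) (a b : ℂ) :
    (Bivariate.swap f).evalEval b a = f.evalEval a b := by
  rw [← coe_aevalAeval_eq_evalEval, ← coe_aevalAeval_eq_evalEval, Bivariate.aevalAeval_swap]

theorem curve_swap {f : ℂ[X][Y]} (hf : Irreducible f) (hd : 0 < f.natDegree)
    (hd' : 0 < (Bivariate.swap f).natDegree) :
    int1 (fun a => int1 fun b => ind (f.evalEval a b = 0)) =
      int1 (fun b => int1 fun a => ind (f.evalEval a b = 0)) := by
  have := AdjoinRoot.isDomain_of_prime hf.prime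
  let F := FractionRing (AdjoinRoot f)
  let φ : ℂ[X][Y] →ₐ[ℂ] F := (IsScalarTower.toAlgHom ℂ (AdjoinRoot f) F).comp
    (Ideal.Quotient.mkₐ ℂ (Ideal.span {f}))
  have hφ : ∀ p : ℂ[X][Y], p.aevalAeval (φ (C X)) (φ Y) = φ p := fun p => by
    have : aevalAeval (φ (C X)) (φ Y) = φ := by
      refine Polynomial.algHom_ext' (Polynomial.algHom_ext ?_) ?_ <;> simp
    rw [this]
  have h : Gen f (φ (C X)) (φ Y) := by
    refine ⟨fun p => ?_, fun z => ?_⟩
    · rw [hφ, ← AdjoinRoot.mk_eq_zero]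
      exact map_eq_zero_iff _ (IsFractionRing.injective (AdjoinRoot f) F)
    · obtain ⟨a, b, -, rfl⟩ := IsFractionRing.div_surjective (A := AdjoinRoot f) z
      obtain ⟨a, rfl⟩ := AdjoinRoot.mk_surjective a
      obtain ⟨b, rfl⟩ := AdjoinRoot.mk_surjective b
      exact ⟨a, b, by rw [hφ, hφ]; rfl⟩
  have hf' : Irreducible (Bivariate.swap f) := (MulEquiv.irreducible_iff Bivariate.swap).2 hf
  obtain ⟨h1, h2⟩ := h.count hf hd
  obtain ⟨h3, h4⟩ := h.swap.count hf' hd'
  simp only [evalEval_swap] at h4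
  rw [h2, h4, ← sub_eq_zero, ← finsum_sub_distrib h1 h3, wt_comm]
  have := ord_loc_sub (h.deg hf hd).2 (h.tr hd) (h.swap.tr hd')
  have e := (Int.castAddHom ℚ).map_finsum_of_preimage_zero
    (fun x hx => by simpa using hx) fun P : Place F => P.ord (P.loc (φ Y)) - P.ord (P.loc (φ (C X)))
  rw [this, map_zero] at e
  rw [e]
  exact finsum_congr fun P => by simp

end Pool.Agent.Lib.MP_d4c0ca_ag
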