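import Pool.Agent.Lib.MP_d4c0ca_ag.Euler

/-! Complex points of Quot schemes of points of coherent sheaves on projective space. -/

namespace Pool.Agent.Lib.MP_d4c0ca_ag

open MvPolynomial

variable {σ ι : Type}

/-- the degree `d` part of the free graded module -/
noncomputable def V (σ ι : Type) (d : ℕ) : Submodule ℂ (ι → MvPolynomial σ ℂ) :=
  Submodule.pi Set.univ fun _ => homogeneousSubmodule σ ℂ d

/-- graded submodules of the free graded module -/
def Graded (K : Submodule (MvPolynomial σ ℂ) (ι → MvPolynomial σ ℂ)) : Prop :=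
  ∀ f ∈ K, ∀ d, (fun i => homogeneousComponent d (f i)) ∈ K

/-- Hilbert function of the quotient of the free graded module by `K` -/
noncomputable def hilb (K : Submodule (MvPolynomial σ ℂ) (ι → MvPolynomial σ ℂ)) (d : ℕ) : ℕ :=
  Module.finrank ℂ ((V σ ι d).map (K.restrictScalars ℂ).mkQ)

/-- saturated graded submodules containing `M` whose quotient has constant Hilbert polynomial `n` -/
def QuotPts (M : Submodule (MvPolynomial σ ℂ) (ι → MvPolynomial σ ℂ)) (n : ℕ) :
    Set (Submodule (MvPolynomial σ ℂ) (ι → MvPolynomial σ ℂ)) :=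
  {K | M ≤ K ∧ Graded K ∧ (∀ f, (∀ s : σ, (X s : MvPolynomial σ ℂ) • f ∈ K) → f ∈ K) ∧
    ∃ d₀, ∀ d ≥ d₀, hilb K d = n}

/-- a constructible set `A` in affine space parametrising the points of the Quot scheme
bijectively, by a family of submodules which is constructible in each degree -/
def Param (M : Submodule (MvPolynomial σ ℂ) (ι → MvPolynomial σ ℂ)) (n : ℕ) {k : ℕ}
    (A : Set (Fin k → ℂ))
    (β : (Fin k → ℂ) → Submodule (MvPolynomial σ ℂ) (ι → MvPolynomial σ ℂ)) : Prop :=
  Constructible A ∧ Set.BijOn β A (QuotPts M n) ∧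
    ∀ d, ∃ Z : Set (Fin k ⊕ ι × (σ →₀ ℕ) → ℂ), Constructible Z ∧ ∀ a ∈ A, ∀ f ∈ V σ ι d,
      (f ∈ β a ↔ Sum.elim a (fun p => coeff p.2 (f p.1)) ∈ Z)

end Pool.Agent.Lib.MP_d4c0ca_ag
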