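import Pool.Agent.Lib.MP_d4c0ca_ag.Str

/-! Elimination of integer and of complex quantifiers. -/

namespace Pool.Agent.Lib.MP_d4c0ca_ag

open Polynomial

variable {X Y W : Type} [Str X] [Str Y] [Str W]

class NoR (Y : Type) [Str Y] : Prop where
  out : ∀ f : Y → KK, f ∉ Str.R
class NoZ (Y : Type) [Str Y] : Prop where
  out : ∀ f : Y → ℤ, f ∉ Str.Z
class NoC (Y : Type) [Str Y] : Prop where
  out : ∀ f : Y → ℂ, f ∉ Str.C

instance : NoR ℤ := ⟨fun _ h => h⟩
instance : NoR ℂ := ⟨fun _ h => h⟩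
instance : NoR Unit := ⟨fun _ h => h⟩
instance : NoZ ℂ := ⟨fun _ h => h⟩
instance : NoZ Unit := ⟨fun _ h => h⟩
instance : NoC ℤ := ⟨fun _ h => h⟩
instance : NoC Unit := ⟨fun _ h => h⟩
instance [NoR X] [NoR Y] : NoR (X × Y) :=
  ⟨by rintro _ (⟨g, hg, -⟩ | ⟨g, hg, -⟩) <;> exact NoR.out g hg⟩
instance [NoZ X] [NoZ Y] : NoZ (X × Y) :=
  ⟨by rintro _ (⟨g, hg, -⟩ | ⟨g, hg, -⟩) <;> exact NoZ.out g hg⟩
instance [NoC X] [NoC Y] : NoC (X × Y) :=
  ⟨by rintro _ (⟨g, hg, -⟩ | ⟨g, hg, -⟩) <;> exact NoC.out g hg⟩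
instance {ι : Type} [NoR X] : NoR (ι → X) := ⟨by rintro _ ⟨_, g, hg, -⟩; exact NoR.out g hg⟩
instance {ι : Type} [NoZ X] : NoZ (ι → X) := ⟨by rintro _ ⟨_, g, hg, -⟩; exact NoZ.out g hg⟩
instance {ι : Type} [NoC X] : NoC (ι → X) := ⟨by rintro _ ⟨_, g, hg, -⟩; exact NoC.out g hg⟩

theorem TK.indep [NoR Y] {f : X × Y → KK} (hf : TK f) (x : X) (y y' : Y) :
    f (x, y) = f (x, y') := by
  induction hf with
  | gen hf =>
    rcases hf with ⟨g, -, rfl⟩ | ⟨g, hg, rfl⟩
    · rfl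
    · exact (NoR.out g hg).elim
  | const c => rfl
  | add _ _ h1 h2 => simp only [h1, h2]
  | mul _ _ h1 h2 => simp only [h1, h2]

theorem TZ.indep [NoR Y] [NoZ Y] {f : X × Y → ℤ} (hf : TZ f) (x : X) (y y' : Y) :
    f (x, y) = f (x, y') := by
  induction hf with
  | gen hf =>
    rcases hf with ⟨g, -, rfl⟩ | ⟨g, hg, rfl⟩
    · rfl
    · exact (NoZ.out g hg).elim
  | ord hf => simp only [hf.indep x y y']
  | const c => rfl
  | add _ _ h1 h2 => simp only [h1, h2]
  | smul _ _ h1 => simp only [h1]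
  | div _ _ _ h1 => simp only [h1]

theorem TC.indep [NoR Y] [NoC Y] {f : X × Y → ℂ} (hf : TC f) (x : X) (y y' : Y) :
    f (x, y) = f (x, y') := by
  induction hf with
  | gen hf =>
    rcases hf with ⟨g, -, rfl⟩ | ⟨g, hg, rfl⟩
    · rfl
    · exact (NoC.out g hg).elim
  | ac hf => simp only [hf.indep x y y']
  | const c => rfl
  | add _ _ h1 h2 => simp only [h1, h2]
  | mul _ _ h1 h2 => simp only [h1, h2]

theorem Def.cases {Q P P1 P2 : X → Prop} (hQ : Def Q) (h1 : Def P1) (h2 : Def P2)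
    (e1 : ∀ x, Q x → (P x ↔ P1 x)) (e2 : ∀ x, ¬ Q x → (P x ↔ P2 x)) : Def P :=
  ((hQ.and h1).or (hQ.not.and h2)).congr fun x => by
    by_cases h : Q x
    · simp [h, e1 x h]
    · simp [h, e2 x h]

/-- groups whose integer generators are additive -/
class AddZ (G : Type) [AddCommGroup G] [Str G] : Prop where
  out : ∀ f : G → ℤ, f ∈ Str.Z → ∃ A : G →+ ℤ, f = A

instance : AddZ ℤ := ⟨fun f hf => ⟨AddMonoidHom.id ℤ, by cases hf; rfl⟩⟩
instance {G H : Type} [AddCommGroup G] [Str G] [AddZ G] [AddCommGroup H] [Str H] [AddZ H] :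
    AddZ (G × H) :=
  ⟨by
    rintro _ (⟨g, hg, rfl⟩ | ⟨g, hg, rfl⟩)
    · obtain ⟨A, rfl⟩ := AddZ.out g hg
      exact ⟨A.comp (AddMonoidHom.fst G H), rfl⟩
    · obtain ⟨A, rfl⟩ := AddZ.out g hg
      exact ⟨A.comp (AddMonoidHom.snd G H), rfl⟩⟩
instance {ι G : Type} [AddCommGroup G] [Str G] [AddZ G] : AddZ (ι → G) :=
  ⟨by
    rintro _ ⟨i, g, hg, rfl⟩
    obtain ⟨A, rfl⟩ := AddZ.out g hg
    exact ⟨A.comp (Pi.evalAddMonoidHom (fun _ => G) i), rfl⟩⟩

section
variable {G : Type} [AddCommGroup G] [Str G]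

/-- affine on residue classes -/
def AffMod (M : ℤ) (z : X × G → ℤ) : Prop :=
  ∀ ρ : G, ∃ A : G →+ ℤ, ∀ x g, z (x, M • g + ρ) = z (x, ρ) + A g

omit [Str X] [Str G] in
theorem AffMod.mul {M : ℤ} {z : X × G → ℤ} (h : AffMod M z) (M' : ℤ) : AffMod (M * M') z := by
  intro ρ
  obtain ⟨A, hA⟩ := h ρ
  refine ⟨M' • A, fun x g => ?_⟩
  rw [mul_smul, hA]
  simp

theorem TZ.nf [NoR G] [AddZ G] {z : X × G → ℤ} (hz : TZ z) : ∃ M : ℤ, 0 < M ∧ AffMod M z := by
  induction hz with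
  | gen hf =>
    rcases hf with ⟨g, -, rfl⟩ | ⟨g, hg, rfl⟩
    · exact ⟨1, one_pos, fun ρ => ⟨0, by simp⟩⟩
    · obtain ⟨A, rfl⟩ := AddZ.out g hg
      exact ⟨1, one_pos, fun ρ => ⟨A, by simp [add_comm]⟩⟩
  | ord hf => exact ⟨1, one_pos, fun ρ => ⟨0, fun x g => by simp [hf.indep x _ ρ]⟩⟩
  | const c => exact ⟨1, one_pos, fun ρ => ⟨0, by simp⟩⟩
  | add _ _ h1 h2 =>
    obtain ⟨M1, hM1, h1⟩ := h1
    obtain ⟨M2, hM2, h2⟩ := h2
    refine ⟨M1 * M2, mul_pos hM1 hM2, fun ρ => ?_⟩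
    obtain ⟨A, hA⟩ := h1.mul M2 ρ
    obtain ⟨B, hB⟩ := h2.mul M1 ρ
    rw [mul_comm] at hB
    exact ⟨A + B, fun x g => by simp only [hA, hB, AddMonoidHom.add_apply]; ring⟩
  | smul c _ h1 =>
    obtain ⟨M1, hM1, h1⟩ := h1
    refine ⟨M1, hM1, fun ρ => ?_⟩
    obtain ⟨A, hA⟩ := h1 ρ
    exact ⟨c • A, fun x g => by simp only [hA, AddMonoidHom.smul_apply, smul_eq_mul]; ring⟩
  | div m hm _ h1 =>
    obtain ⟨M1, hM1, h1⟩ := h1
    refine ⟨M1 * m, mul_pos hM1 hm, fun ρ => ?_⟩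
    obtain ⟨A, hA⟩ := h1 ρ
    refine ⟨A, fun x g => ?_⟩
    simp only [mul_smul, hA, map_zsmul, smul_eq_mul]
    rw [Int.add_mul_ediv_left _ _ hm.ne']

theorem nf_fin [NoR G] [AddZ G] {ι : Type} [Finite ι] {z : ι → X × G → ℤ}
    (hz : ∀ i, Tm (z i)) : ∃ M : ℤ, 0 < M ∧ ∀ i, AffMod M (z i) := by
  classical
  have := Fintype.ofFinite ι
  choose M hM h using fun i => (tm_Z.1 (hz i)).nf
  refine ⟨∏ i, M i, Finset.prod_pos fun i _ => hM i, fun i => ?_⟩
  rw [← Finset.mul_prod_erase _ _ (Finset.mem_univ i)]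
  exact (h i).mul _

end

/-- a definable predicate is determined by finite families of terms -/
theorem Def.fam {P : X → Prop} (hP : Def P) : ∃ (ι : Type) (_ : Fintype ι) (z : ι → X → ℤ)
    (c : ι → X → ℂ), (∀ i, Tm (z i)) ∧ (∀ i, Tm (c i)) ∧ ∀ x y,
      (∀ i, 0 ≤ z i x ↔ 0 ≤ z i y) → (∀ i, c i x = 0 ↔ c i y = 0) → P x → P y := by
  obtain ⟨A, h1, h2, h3⟩ := hP
  have : ∀ a : A, ∃ (z : X → ℤ) (c : X → ℂ), Tm z ∧ Tm c ∧
      ∀ x y, (0 ≤ z x ↔ 0 ≤ z y) → (c x = 0 ↔ c y = 0) → (a.1 x ↔ a.1 y) := by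
    rintro ⟨a, ha⟩
    rcases h2 a ha with ⟨z, hz, rfl⟩ | ⟨c, hc, rfl⟩
    · exact ⟨z, fun _ => 0, hz, Tm.const _, fun _ _ h _ => h⟩
    · exact ⟨fun _ => 0, c, Tm.const _, hc, fun _ _ _ h => h⟩
  choose z c hz hc h using this
  exact ⟨A, h1.fintype, z, c, hz, hc, fun x y e1 e2 => h3 x y fun a ha =>
    h ⟨a, ha⟩ x y (e1 _) (e2 _)⟩

theorem threshold {z0 : X → ℤ} (hz : Tm z0) (c : ℤ) : ∃ θ : X → ℤ, Tm θ ∧
    ∀ x g g', (θ x ≤ g ↔ θ x ≤ g') → (0 ≤ z0 x + c * g ↔ 0 ≤ z0 x + c * g') := by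
  rcases lt_trichotomy c 0 with hc | rfl | hc
  · refine ⟨fun x => z0 x / (-c) + 1, (hz.divZ (neg_pos.2 hc)).addZ (Tm.const _), ?_⟩
    have : ∀ x g, 0 ≤ z0 x + c * g ↔ ¬ (z0 x / (-c) + 1 ≤ g) := fun x g => by
      rw [not_le, Int.lt_add_one_iff, Int.le_ediv_iff_mul_le (neg_pos.2 hc)]
      constructor <;> intro h <;> linarith
    intro x g g' h
    rw [this, this, h]
  · exact ⟨fun _ => 0, Tm.const _, by simp⟩
  · refine ⟨fun x => -(z0 x / c), (hz.divZ hc).negZ, ?_⟩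
    have : ∀ x g, 0 ≤ z0 x + c * g ↔ -(z0 x / c) ≤ g := fun x g => by
      rw [neg_le, Int.le_ediv_iff_mul_le hc]
      constructor <;> intro h <;> linarith
    intro x g g' h
    rw [this, this, h]

theorem test_point {ι : Type} [Fintype ι] (θ : ι → ℤ) (g : ℤ) :
    ∃ g', (g' = 0 ∨ ∃ i, g' = θ i ∨ g' = θ i - 1) ∧ ∀ i, θ i ≤ g ↔ θ i ≤ g' := by
  classical
  by_cases h : ∃ i, θ i ≤ g
  · obtain ⟨i, hi, hm⟩ := (Finset.univ.filter fun i => θ i ≤ g).exists_max_image θ
      (by obtain ⟨i, hi⟩ := h; exact ⟨i, by simpa using hi⟩)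
    simp only [Finset.mem_filter, Finset.mem_univ, true_and] at hi hm
    exact ⟨θ i, Or.inr ⟨i, Or.inl rfl⟩, fun j => ⟨hm j, fun h => h.trans hi⟩⟩
  · push Not at h
    cases isEmpty_or_nonempty ι with
    | inl _ => exact ⟨0, Or.inl rfl, fun i => isEmptyElim i⟩
    | inr _ =>
      obtain ⟨i, -, hm⟩ := Finset.univ.exists_min_image θ Finset.univ_nonempty
      refine ⟨θ i - 1, Or.inr ⟨i, Or.inr rfl⟩, fun j => ?_⟩
      have := hm j (Finset.mem_univ _)
      have := h j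
      constructor <;> intro <;> omega

instance : Proj ℤ := ⟨fun X _ P hP => by
  obtain ⟨ι, _, z, c, hz, hc, h⟩ := hP.fam
  obtain ⟨M, hM, hA⟩ := nf_fin hz
  have : ∀ (ρ : ℤ) (i : ι), ∃ θ : X → ℤ, Tm θ ∧ ∀ x g g', (θ x ≤ g ↔ θ x ≤ g') →
      (0 ≤ z i (x, M * g + ρ) ↔ 0 ≤ z i (x, M * g' + ρ)) := by
    intro ρ i
    obtain ⟨A, hA⟩ := hA i ρ
    obtain ⟨θ, h1, h2⟩ := threshold (z0 := fun x => z i (x, ρ)) ((hz i).comp (by fun_prop)) (A 1)
    refine ⟨θ, h1, fun x g g' hg => ?_⟩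
    have e : ∀ g, z i (x, M * g + ρ) = z i (x, ρ) + A 1 * g := fun g => by
      have := hA x g
      rw [smul_eq_mul] at this
      rw [this, mul_comm, ← smul_eq_mul, ← map_zsmul]; simp
    rw [e, e]
    exact h2 x g g' hg
  choose θ hθ1 hθ2 using this
  have hD : Def (fun x => ∃ ρ ∈ Finset.Ico 0 M, P (x, M * 0 + ρ) ∨
      ∃ i, P (x, M * θ ρ i x + ρ) ∨ P (x, M * (θ ρ i x - 1) + ρ)) := by
    refine Def.bex _ fun ρ _ => Def.or (hP.comp (by fun_prop)) (Def.exF fun i => ?_)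
    have := hθ1 ρ i
    exact Def.or (hP.comp (by fun_prop)) (hP.comp (by fun_prop))
  refine hD.congr fun x => ⟨?_, ?_⟩
  · rintro ⟨ρ, -, h | ⟨i, h | h⟩⟩ <;> exact ⟨_, h⟩
  · rintro ⟨γ, hγ⟩
    refine ⟨γ % M, Finset.mem_Ico.2 ⟨Int.emod_nonneg _ hM.ne', Int.emod_lt_of_pos _ hM⟩, ?_⟩
    obtain ⟨g', h1, h2⟩ := test_point (fun i => θ (γ % M) i x) (γ / M)
    have : P (x, M * g' + γ % M) := by
      refine h _ _ (fun i => ?_) (fun i => ?_) hγ
      · have := hθ2 (γ % M) i x _ _ (h2 i)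
        rwa [Int.mul_ediv_add_emod] at this
      · rw [(tm_C.1 (hc i)).indep x γ (M * g' + γ % M)]
    rcases h1 with rfl | ⟨i, rfl | rfl⟩
    exacts [Or.inl this, Or.inr ⟨i, Or.inl this⟩, Or.inr ⟨i, Or.inr this⟩]⟩

theorem pdiv {R : Type} [CommRing R] (p : R[X]) (hp : 0 < p.natDegree) (q : R[X]) :
    ∃ (N : ℕ) (s r : R[X]), C p.leadingCoeff ^ N * q = s * p + r ∧ r.natDegree < p.natDegree := by
  induction h : q.natDegree using Nat.strong_induction_on generalizing q with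
  | _ n ih =>
    by_cases hq : q.natDegree < p.natDegree
    · exact ⟨0, 0, q, by simp, hq⟩
    · push Not at hq
      have := natDegree_cancelLeads_lt_of_natDegree_le_natDegree hq (hp.trans_le hq)
      obtain ⟨N, s, r, h1, h2⟩ := ih _ (h ▸ this) (p.cancelLeads q) rfl
      refine ⟨N + 1, s + C p.leadingCoeff ^ N * C q.leadingCoeff * X ^ (q.natDegree - p.natDegree),
        r, ?_, h2⟩
      rw [cancelLeads, Nat.sub_eq_zero_of_le hq] at h1
      linear_combination h1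

/-- the ring of complex terms -/
def CR (X : Type) [Str X] : Subring (X → ℂ) where
  carrier := {f | Tm f}
  mul_mem' := fun hf hg => Tm.mulC hf hg
  one_mem' := Tm.const 1
  add_mem' := fun hf hg => Tm.addC hf hg
  zero_mem' := Tm.const 0
  neg_mem' := fun hf => Tm.negC hf

/-- evaluation of complex terms -/
def evC (x : X) : CR X →+* ℂ := (Pi.evalRingHom (fun _ => ℂ) x).comp (CR X).subtype

theorem tm_evC (a : CR X) : Tm (fun x => evC x a) := a.2

theorem TC.nf {c : X × ℂ → ℂ} (hc : TC c) :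
    ∃ p : (CR X)[X], ∀ x w, c (x, w) = (p.map (evC x)).eval w := by
  induction hc with
  | gen hf =>
    rcases hf with ⟨g, hg, rfl⟩ | ⟨g, hg, rfl⟩
    · exact ⟨C ⟨g, tm_C.2 (TC.gen hg)⟩, fun x w => by simp [evC]⟩
    · cases hg
      exact ⟨Polynomial.X, fun x w => by simp⟩
  | @ac f hf =>
    exact ⟨C ⟨fun x => (f (x, 0)).ac, ((tm_K.2 hf).comp (by fun_prop)).ac⟩,
      fun x w => by simp [evC, hf.indep x w 0]⟩
  | const c => exact ⟨C ⟨fun _ => c, Tm.const c⟩, fun x w => by simp [evC]⟩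
  | add _ _ h1 h2 =>
    obtain ⟨p, hp⟩ := h1
    obtain ⟨q, hq⟩ := h2
    exact ⟨p + q, fun x w => by simp [hp, hq]⟩
  | mul _ _ h1 h2 =>
    obtain ⟨p, hp⟩ := h1
    obtain ⟨q, hq⟩ := h2
    exact ⟨p * q, fun x w => by simp [hp, hq]⟩

theorem def_map_zero (r : (CR X)[X]) : Def (fun x => r.map (evC x) = 0) :=
  (Def.ball r.support (P := fun x j => evC x (r.coeff j) = 0) fun j _ =>
    Def.eq (tm_evC _) (Tm.const _)).congr fun x => by
      rw [Polynomial.ext_iff]
      simp only [coeff_map, coeff_zero, mem_support_iff]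
      exact forall_congr' fun j => ⟨fun h => by
        by_cases e : r.coeff j = 0
        · simp [e]
        · exact h e, fun h _ => h⟩

theorem dvd_pow_of_roots {p q : ℂ[X]} (hp : p ≠ 0) (h : ∀ w, p.eval w = 0 → q.eval w = 0) :
    p ∣ q ^ p.natDegree := by
  have h1 := C_leadingCoeff_mul_prod_multiset_X_sub_C (IsAlgClosed.card_roots_eq_natDegree (p := p))
  have h2 : ∀ s : Multiset ℂ, (∀ w ∈ s, q.eval w = 0) →
      (s.map fun a => X - C a).prod ∣ q ^ s.card := by
    intro s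
    induction s using Multiset.induction_on with
    | empty => simp
    | cons a s ih =>
      intro hs
      rw [Multiset.map_cons, Multiset.prod_cons, Multiset.card_cons, pow_succ']
      exact mul_dvd_mul (dvd_iff_isRoot.2 (hs a (by simp))) (ih fun w hw => hs w (by simp [hw]))
  have h3 := h2 p.roots fun w hw => h w ((mem_roots hp).1 hw)
  rw [IsAlgClosed.card_roots_eq_natDegree] at h3
  conv_lhs => rw [← h1]
  exact (IsUnit.mul_left_dvd (isUnit_C.2 (leadingCoeff_ne_zero.2 hp).isUnit)).2 h3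

theorem map_eraseLead_of {R S : Type} [CommRing R] [CommRing S] (φ : R →+* S) (p : R[X])
    (h : φ p.leadingCoeff = 0) : p.map φ = p.eraseLead.map φ := by
  conv_lhs => rw [← eraseLead_add_C_mul_X_pow p]
  rw [Polynomial.map_add, Polynomial.map_mul, map_C, h, map_zero, zero_mul, add_zero]

theorem elimC (n : ℕ) : ∀ (l : List (CR X)[X]) (q : (CR X)[X]),
    (l.map fun p => p.natDegree + 1).sum = n →
    Def (fun x => ∃ w, (∀ p ∈ l, (p.map (evC x)).eval w = 0) ∧ (q.map (evC x)).eval w ≠ 0) := by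
  induction n using Nat.strong_induction_on with
  | _ n ih =>
  intro l q hl
  have rem0 : ∀ (p : (CR X)[X]) (l' : List (CR X)[X]), p.natDegree = 0 →
      (l'.map fun p => p.natDegree + 1).sum < n →
      Def (fun x => ∃ w, (∀ p' ∈ p :: l', (p'.map (evC x)).eval w = 0) ∧
        (q.map (evC x)).eval w ≠ 0) := by
    intro p l' hp hl'
    rw [eq_C_of_natDegree_eq_zero hp]
    refine ((Def.eq (tm_evC (p.coeff 0)) (Tm.const 0)).and (ih _ hl' l' q rfl)).congr fun x => ?_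
    simp [and_assoc]
  have step : ∀ (a b : (CR X)[X]) (l' : List (CR X)[X]), 0 < a.natDegree →
      a.natDegree ≤ b.natDegree → ((a :: b :: l').map fun p => p.natDegree + 1).sum = n →
      Def (fun x => ∃ w, (∀ p' ∈ a :: b :: l', (p'.map (evC x)).eval w = 0) ∧
        (q.map (evC x)).eval w ≠ 0) := by
    intro a b l' ha hab hl'
    obtain ⟨N, s, r, h1, h2⟩ := pdiv a ha b
    have := eraseLead_natDegree_le a
    simp only [List.map_cons, List.sum_cons] at hl'
    refine Def.cases (Def.eq (tm_evC a.leadingCoeff) (Tm.const 0))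
      (ih _ ?_ (a.eraseLead :: b :: l') q rfl) (ih _ ?_ (a :: r :: l') q rfl) ?_ ?_
    · simp only [List.map_cons, List.sum_cons]; omega
    · simp only [List.map_cons, List.sum_cons]; omega
    · intro x hx
      simp [map_eraseLead_of _ a hx]
    · intro x hx
      refine exists_congr fun w => and_congr_left fun _ => ?_
      simp only [List.mem_cons, forall_eq_or_imp]
      refine and_congr_right fun h0 => and_congr_left fun _ => ?_
      have := congrArg (fun p => (p.map (evC x)).eval w) h1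
      simp only [Polynomial.map_mul, Polynomial.map_pow, map_C, eval_mul, eval_pow, eval_C,
        Polynomial.map_add, eval_add, h0, mul_zero, zero_add] at this
      rw [← this]
      simp [hx]
  match l, hl with
  | [], _ =>
    refine (def_map_zero q).not.congr fun x => ?_
    simp only [List.not_mem_nil, false_imp_iff, implies_true, true_and]
    constructor
    · intro h
      by_contra h'
      push Not at h'
      exact h (Polynomial.funext (by simpa using h'))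
    · rintro ⟨w, hw⟩ h
      simp [h] at hw
  | [p], hl =>
    by_cases hp : p.natDegree = 0
    · exact rem0 p [] hp (by simp at hl ⊢; omega)
    have hp' := Nat.pos_of_ne_zero hp
    obtain ⟨N, s, r, h1, h2⟩ := pdiv p hp' (q ^ p.natDegree)
    have := eraseLead_natDegree_le p
    refine Def.cases (Def.eq (tm_evC p.leadingCoeff) (Tm.const 0))
      (ih _ ?_ [p.eraseLead] q rfl) (def_map_zero r).not ?_ ?_
    · simp at hl ⊢; omega
    · intro x hx
      simp [map_eraseLead_of _ p hx]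
    · intro x hx
      have hd : (p.map (evC x)).natDegree = p.natDegree := natDegree_map_of_leadingCoeff_ne_zero _ hx
      have h0 : p.map (evC x) ≠ 0 := fun h => by rw [h] at hd; simp at hd; omega
      have e := congrArg (fun p => p.map (evC x)) h1
      simp only [Polynomial.map_mul, Polynomial.map_pow, map_C, Polynomial.map_add] at e
      simp only [List.mem_singleton, forall_eq]
      constructor
      · rintro ⟨w, hw, hw'⟩ hr
        have := congrArg (eval w) e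
        simp [hr, hw, hx, hw'] at this
      · intro hr
        by_contra hc
        push Not at hc
        have h3 := dvd_pow_of_roots h0 hc
        rw [hd] at h3
        refine hr (eq_zero_of_dvd_of_natDegree_lt (p := p.map (evC x)) ?_ ?_)
        · have : r.map (evC x) = C (evC x p.leadingCoeff) ^ N * q.map (evC x) ^ p.natDegree -
            s.map (evC x) * p.map (evC x) := by rw [e]; ring
          rw [this]
          exact dvd_sub (h3.mul_left _) (dvd_mul_left _ _)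
        · rw [hd]; exact natDegree_map_le.trans_lt h2
  | a :: b :: l', hl =>
    by_cases ha : a.natDegree = 0
    · exact rem0 a _ ha (by simp at hl ⊢; omega)
    by_cases hb : b.natDegree = 0
    · refine (rem0 b (a :: l') hb (by simp at hl ⊢; omega)).congr fun x => ?_
      simp only [List.mem_cons, forall_eq_or_imp]
      exact exists_congr fun w => by tauto
    rcases le_total a.natDegree b.natDegree with h | h
    · exact step a b l' (Nat.pos_of_ne_zero ha) h hl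
    · refine (step b a l' (Nat.pos_of_ne_zero hb) h (by simp at hl ⊢; omega)).congr fun x => ?_
      simp only [List.mem_cons, forall_eq_or_imp]
      exact exists_congr fun w => by tauto

theorem Def.famC {P : X × ℂ → Prop} (hP : Def P) : ∃ (ι : Type) (_ : Fintype ι)
    (b : ι → X → Prop) (p : ι → (CR X)[X]), (∀ i, Def (b i)) ∧ ∀ x w y w',
      (∀ i, b i x ↔ b i y) →
      (∀ i, ((p i).map (evC x)).eval w = 0 ↔ ((p i).map (evC y)).eval w' = 0) →
      P (x, w) → P (y, w') := by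
  obtain ⟨ι, _, z, c, hz, hc, h⟩ := hP.fam
  choose p hp using fun i => (tm_C.1 (hc i)).nf
  refine ⟨ι, inferInstance, fun i x => 0 ≤ z i (x, 0), p, fun i => ?_, fun x w y w' h1 h2 =>
    h _ _ (fun i => ?_) fun i => ?_⟩
  · exact Def.le (Tm.const _) ((hz i).comp (by fun_prop))
  · rw [(tm_Z.1 (hz i)).indep x w 0, (tm_Z.1 (hz i)).indep y w' 0]
    exact h1 i
  · rw [hp, hp]; exact h2 i

instance : Proj ℂ := ⟨fun X _ P hP => by
  classical
  obtain ⟨ι, _, b, p, hb, h⟩ := hP.famC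
  have hE : ∀ s : Finset ι,
      Def (fun x => ∃ w, ∀ i, (((p i).map (evC x)).eval w = 0 ↔ i ∈ s)) := fun s => by
    refine (elimC _ (s.toList.map p) (∏ i ∈ sᶜ, p i) rfl).congr fun x => exists_congr fun w => ?_
    simp only [List.mem_map, Finset.mem_toList, forall_exists_index, and_imp,
      forall_apply_eq_imp_iff₂, Polynomial.map_prod, eval_prod, ne_eq, Finset.prod_eq_zero_iff,
      Finset.mem_compl, not_exists, not_and]
    constructor
    · rintro ⟨h1, h2⟩ i
      exact ⟨fun h => by_contra fun hi => h2 i hi h, h1 i⟩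
    · intro h
      exact ⟨fun i hi => (h i).2 hi, fun i hi h' => hi ((h i).1 h')⟩
  refine Def.of_fam (ι := ι ⊕ Finset ι) (a := Sum.elim b fun s x =>
    ∃ w, ∀ i, (((p i).map (evC x)).eval w = 0 ↔ i ∈ s)) (by rintro (i | s); exacts [hb i, hE s]) ?_
  rintro x y hxy ⟨w, hw⟩
  obtain ⟨w', hw'⟩ := (hxy (Sum.inr (Finset.univ.filter fun i =>
    ((p i).map (evC x)).eval w = 0))).1 ⟨w, by simp⟩
  exact ⟨w', h x w y w' (fun i => hxy (Sum.inl i)) (fun i => by simp [hw' i]) hw⟩⟩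

/-- fibres of a definable subset of a family of lines are constant off boundedly many points -/
theorem Def.bounded {P : X × ℂ → Prop} (hP : Def P) : ∃ n : ℕ, ∀ x, ∃ E : Finset ℂ,
    E.card ≤ n ∧ ∀ w ∉ E, ∀ w' ∉ E, P (x, w) → P (x, w') := by
  classical
  obtain ⟨ι, _, b, p, -, h⟩ := hP.famC
  refine ⟨∑ i, (p i).natDegree, fun x => ⟨Finset.univ.biUnion fun i =>
    ((p i).map (evC x)).roots.toFinset, ?_, fun w hw w' hw' => h _ _ _ _ (fun _ => Iff.rfl)
      fun i => ?_⟩⟩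
  · refine Finset.card_biUnion_le.trans (Finset.sum_le_sum fun i _ => ?_)
    exact (Multiset.toFinset_card_le _).trans ((card_roots' _).trans natDegree_map_le)
  · simp only [Finset.mem_biUnion, Finset.mem_univ, Multiset.mem_toFinset, mem_roots', ne_eq,
      IsRoot.def, true_and, not_exists, not_and] at hw hw'
    by_cases h0 : (p i).map (evC x) = 0
    · simp [h0]
    · simp [hw i h0, hw' i h0]

end Pool.Agent.Lib.MP_d4c0ca_ag
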