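import Pool.Agent.Lib.MP_d4c0ca_ag.Curve

/-! Fubini theorem and invariance of the Euler integral under definable bijections. -/

namespace Pool.Agent.Lib.MP_d4c0ca_ag

open Polynomial
open scoped Classical

variable {X Y W : Type} [Str X] [Str Y] [Str W]

theorem Def.induction {motive : (X → Prop) → Prop} (atom : ∀ a, Atom a → motive a)
    (tru : motive fun _ => True) (not : ∀ P, motive P → motive fun x => ¬ P x)
    (and : ∀ P Q, motive P → motive Q → motive fun x => P x ∧ Q x) {P : X → Prop} (hP : Def P) :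
    motive P := by
  have all : ∀ {ι : Type} (s : Finset ι) (Q : ι → X → Prop), (∀ i ∈ s, motive (Q i)) →
      motive fun x => ∀ i ∈ s, Q i x := by
    intro ι s Q h
    induction s using Finset.induction_on with
    | empty => simpa using tru
    | insert a s ha ih =>
      simpa using and _ _ (h a (by simp)) (ih fun i hi => h i (by simp [hi]))
  obtain ⟨A, h1, h2, h3⟩ := hP
  have := h1.fintype
  have h4 : ∀ s : Finset A, motive fun x => ∀ a ∈ (Finset.univ : Finset A), (a.1 x ↔ a ∈ s) :=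
    fun s => all _ _ fun a _ => by
      by_cases e : a ∈ s
      · simpa [e] using atom a.1 (h2 a.1 a.2)
      · simpa [e] using not _ (atom a.1 (h2 a.1 a.2))
  have h5 := all (Finset.univ.filter fun s : Finset A => ∃ y, ¬ P y ∧ ∀ a : A, a.1 y ↔ a ∈ s) _
    fun s _ => not _ (h4 s)
  convert h5 using 2 with x
  simp only [Finset.mem_filter, Finset.mem_univ, true_and, forall_const]
  constructor
  · rintro hx s ⟨y, hy, e⟩ e'
    exact hy (h3 x y (fun a ha => (e' ⟨a, ha⟩).trans (e ⟨a, ha⟩).symm) hx)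
  · intro h
    by_contra hx
    exact h (Finset.univ.filter fun a : A => a.1 x) ⟨x, hx, by simp⟩ (by simp)

theorem ind_not (p : Prop) : ind (¬ p) = 1 - ind p := by
  by_cases hp : p <;> simp [hp]

theorem ind_or (p q : Prop) : ind (p ∨ q) = ind p + ind q - ind p * ind q := by
  by_cases hp : p <;> by_cases hq : q <;> simp [hp, hq]

/-- the span of the plane, the irreducible curves and the points -/
inductive Sp : (ℂ × ℂ → ℚ) → Prop
  | one : Sp fun _ => 1
  | curve {f : ℂ[X][X]} (hf : Irreducible f) : Sp fun p => ind (f.evalEval p.1 p.2 = 0)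
  | pt (a : ℂ × ℂ) : Sp fun p => ind (p = a)
  | add {φ ψ} : Sp φ → Sp ψ → Sp fun p => φ p + ψ p
  | smul (c : ℚ) {φ} : Sp φ → Sp fun p => c * φ p

theorem Sp.congr {φ ψ} (h : Sp φ) (e : ∀ x, φ x = ψ x) : Sp ψ := (funext e : φ = ψ) ▸ h

theorem Sp.fin {φ : ℂ × ℂ → ℚ} (s : Finset (ℂ × ℂ)) (h : ∀ p ∉ s, φ p = 0) : Sp φ := by
  have : ∀ t : Finset (ℂ × ℂ), Sp fun p => ∑ a ∈ t, φ a * ind (p = a) := fun t => by
    induction t using Finset.induction_on with
    | empty => simpa using Sp.one.smul 0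
    | insert a t ha ih => simpa [Finset.sum_insert ha] using ((Sp.pt a).smul (φ a)).add ih
  refine (this s).congr fun p => ?_
  rw [Finset.sum_eq_single p]
  · simp
  · exact fun a _ ha => by rw [ind_neg ha.symm, mul_zero]
  · exact fun hp => by simp [h p hp]

theorem common_finite' {f g : ℂ[X][X]} (hf : Irreducible f) (hfg : ¬ f ∣ g)
    (hd : 0 < f.natDegree) :
    {p : ℂ × ℂ | f.evalEval p.1 p.2 = 0 ∧ g.evalEval p.1 p.2 = 0}.Finite := by
  obtain ⟨u, v, c, hc, h⟩ := cop hf hfg hd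
  refine (CF.ncard_sigma c.roots.toFinset (fun a => ↑(f.map (evalRingHom a)).roots.toFinset)
    fun a => Finset.finite_toSet _).1.subset ?_
  rintro ⟨a, b⟩ ⟨h1, h2⟩
  have := congrArg (evalEval a b) h
  simp only [evalEval_add, evalEval_mul, h1, h2, mul_zero, add_zero, evalEval_C] at this
  refine ⟨by simp [hc, ← this], ?_⟩
  simp only [Finset.mem_coe, Multiset.mem_toFinset, mem_roots (map_eval_ne hf hd a), IsRoot,
    map_evalRingHom_eval]
  exact h1

theorem swap_pos {f : ℂ[X][X]} (hf : Irreducible f) (hd : f.natDegree = 0) :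
    0 < (Bivariate.swap f).natDegree := by
  rw [eq_C_of_natDegree_eq_zero hd] at hf ⊢
  rw [Bivariate.swap_C, natDegree_map_eq_of_injective C_injective, Nat.pos_iff_ne_zero]
  intro h
  rw [eq_C_of_natDegree_eq_zero h] at hf
  refine hf.not_isUnit (isUnit_C.2 (isUnit_C.2 (Ne.isUnit fun e => hf.ne_zero ?_)))
  rw [e]; simp

theorem common_finite {f g : ℂ[X][X]} (hf : Irreducible f) (hfg : ¬ f ∣ g) :
    {p : ℂ × ℂ | f.evalEval p.1 p.2 = 0 ∧ g.evalEval p.1 p.2 = 0}.Finite := by
  by_cases hd : f.natDegree = 0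
  · have := common_finite' (g := Bivariate.swap g)
      ((MulEquiv.irreducible_iff Bivariate.swap).2 hf)
      (fun h => hfg ((map_dvd_iff Bivariate.swap).1 h)) (swap_pos hf hd)
    refine (this.image Prod.swap).subset ?_
    rintro ⟨a, b⟩ h
    exact ⟨(b, a), by simpa only [Set.mem_ofPred_eq, evalEval_swap] using h, rfl⟩
  · exact common_finite' hf hfg (Nat.pos_of_ne_zero hd)

theorem Sp.mul {φ ψ} (h : Sp φ) (h' : Sp ψ) : Sp fun p => φ p * ψ p := by
  induction h with
  | one => simpa using h'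
  | @curve f hf =>
    induction h' with
    | one => simpa using Sp.curve hf
    | @curve g hg =>
      by_cases e : f ∣ g
      · refine (Sp.curve hf).congr fun p => ?_
        rw [← ind_and]
        exact ind_congr ⟨fun h => ⟨h, by obtain ⟨q, rfl⟩ := e; simp [evalEval_mul, h]⟩, fun h => h.1⟩
      · refine Sp.fin (common_finite hf e).toFinset fun p hp => ?_
        rw [← ind_and]
        exact ind_neg (by simpa using hp)
    | pt a => exact Sp.fin {a} fun p hp => mul_eq_zero_of_right _ (ind_neg (by simpa using hp))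
    | add _ _ h1 h2 => exact (h1.add h2).congr fun _ => by ring
    | smul c _ h1 => exact (h1.smul c).congr fun _ => by ring
  | pt a => exact Sp.fin {a} fun p hp => mul_eq_zero_of_left (ind_neg (by simpa using hp)) _
  | add _ _ h1 h2 => exact (h1.add h2).congr fun _ => by ring
  | smul c _ h1 => exact (h1.smul c).congr fun _ => by ring

theorem Sp.zeros (f : ℂ[X][X]) : Sp fun p => ind (f.evalEval p.1 p.2 = 0) := by
  induction f using WfDvdMonoid.induction_on_irreducible with
  | zero => simpa using Sp.one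
  | unit u hu =>
    refine (Sp.one.smul 0).congr fun p => ?_
    rw [zero_mul]
    exact (ind_neg (hu.map (evalEvalRingHom p.1 p.2)).ne_zero).symm
  | mul a i _ hi ih =>
    refine (((Sp.curve hi).add ih).add (((Sp.curve hi).mul ih).smul (-1))).congr fun p => ?_
    rw [evalEval_mul, ind_congr mul_eq_zero, ind_or]; ring

theorem TK.const' [NoR X] {f : X → KK} (hf : TK f) (x y : X) : f x = f y :=
  (hf.comp (h := fun p : Unit × X => p.2) Tm.snd').indep () x y

theorem TZ.const' [NoR X] [NoZ X] {f : X → ℤ} (hf : TZ f) (x y : X) : f x = f y :=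
  (hf.comp (h := fun p : Unit × X => p.2) Tm.snd').indep () x y

theorem TC.const' [NoR X] [NoC X] {f : X → ℂ} (hf : TC f) (x y : X) : f x = f y :=
  (hf.comp (h := fun p : Unit × X => p.2) Tm.snd').indep () x y

theorem TC.nf2 {c : ℂ × ℂ → ℂ} (hc : TC c) : ∃ f : ℂ[X][X], ∀ p, c p = f.evalEval p.1 p.2 := by
  induction hc with
  | gen hf =>
    rcases hf with ⟨g, hg, rfl⟩ | ⟨g, hg, rfl⟩ <;> cases hg
    · exact ⟨C Polynomial.X, fun p => by simp [evalEval_C]⟩
    · exact ⟨Polynomial.X, fun p => by simp⟩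
  | @ac f hf => exact ⟨C (C (f 0).ac), fun p => by simp [evalEval_C, hf.const' p 0]⟩
  | const c => exact ⟨C (C c), fun p => by simp [evalEval_C]⟩
  | add _ _ h1 h2 =>
    obtain ⟨p, hp⟩ := h1
    obtain ⟨q, hq⟩ := h2
    exact ⟨p + q, fun x => by simp [hp, hq, evalEval_add]⟩
  | mul _ _ h1 h2 =>
    obtain ⟨p, hp⟩ := h1
    obtain ⟨q, hq⟩ := h2
    exact ⟨p * q, fun x => by simp [hp, hq, evalEval_mul]⟩

theorem tm_evalEval (f : ℂ[X][X]) : Tm fun p : ℂ × ℂ => f.evalEval p.1 p.2 := by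
  induction f using Polynomial.induction_on with
  | C q =>
    simp only [evalEval_C]
    induction q using Polynomial.induction_on with
    | C c => simpa using Tm.const c
    | add p q hp hq => simpa using hp.addC hq
    | monomial n c h => simp only [eval_mul, eval_C, eval_pow, eval_X]; fun_prop
  | add p q hp hq => simpa [evalEval_add] using hp.addC hq
  | monomial n c h =>
    simp only [pow_succ, ← mul_assoc, evalEval_mul _ _ _ Polynomial.X, evalEval_X]
    exact h.mulC Tm.snd'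

theorem Def.sp {B : ℂ × ℂ → Prop} (hB : Def B) : Sp fun p => ind (B p) := by
  refine Def.induction (motive := fun B => Sp fun p => ind (B p)) ?_ (by simpa using Sp.one)
    ?_ ?_ hB
  · rintro _ (⟨z, hz, rfl⟩ | ⟨c, hc, rfl⟩)
    · exact (Sp.one.smul (ind (0 ≤ z 0))).congr fun p => by
        simp only [(tm_Z.1 hz).const' p 0, mul_one]
    · obtain ⟨f, hf⟩ := (tm_C.1 hc).nf2
      simpa only [hf] using Sp.zeros f
  · exact fun P h => (Sp.one.add (h.smul (-1))).congr fun p => by rw [ind_not]; ring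
  · exact fun P Q h h' => (h.mul h').congr fun p => (ind_and _ _).symm

theorem CF.sp {φ : ℂ × ℂ → ℚ} (h : CF φ) : Sp φ :=
  CF.sep (X := Unit) (motive := fun φ => Sp fun p => φ ((), p))
    (fun B ψ hB _ => ((hB.comp (h := fun p => ((), p)) (by fun_prop)).sp.smul (ψ ())).congr
      fun _ => mul_comm _ _)
    (fun _ _ _ _ h1 h2 => h1.add h2) (fun c _ _ h1 => h1.smul c) (h.comp Tm.snd')

theorem Sp.cf {φ} (h : Sp φ) : CF φ := by
  induction h with
  | one => exact CF.const 1
  | curve _ => exact CF.ind (Def.eq (tm_evalEval _) (Tm.const _))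
  | pt a => exact CF.ind (Def.eq Tm.id' (Tm.const _))
  | add _ _ h1 h2 => exact h1.add h2
  | smul c _ h1 => exact h1.smul c

theorem swap_prod {ψ χ : ℂ → ℚ} (h1 : Cof ψ) (h2 : Cof χ) :
    (int1 fun a => int1 fun b => ψ a * χ b) = int1 fun b => int1 fun a => ψ a * χ b := by
  have e1 : ∀ c, (int1 fun a => ψ a * c) = int1 ψ * c := fun c => by
    simp only [mul_comm _ c, int1_smul h1]
  simp only [int1_smul h2, e1]

theorem CF.left {φ : ℂ × ℂ → ℚ} (h : CF φ) : (∀ a, Cof fun b => φ (a, b)) ∧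
    (∀ b, Cof fun a => φ (a, b)) ∧ (Cof fun a => MP_d4c0ca_ag.int1 fun b => φ (a, b)) ∧
    Cof fun b => MP_d4c0ca_ag.int1 fun a => φ (a, b) :=
  have h' := h.comp (g := fun p : ℂ × ℂ => (p.2, p.1)) (by fun_prop)
  ⟨h.cof_int1.1, h'.cof_int1.1, h.cof_int1.2.cof, h'.cof_int1.2.cof⟩

theorem swap2 {φ : ℂ × ℂ → ℚ} (h : CF φ) :
    (int1 fun a => int1 fun b => φ (a, b)) = int1 fun b => int1 fun a => φ (a, b) := by
  have h := h.sp
  induction h with
  | one => rfl
  | @curve f hf =>
    have hc := (Sp.curve hf).cf.left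
    by_cases hd : f.natDegree = 0
    · rw [eq_C_of_natDegree_eq_zero hd] at hc ⊢
      simp only [evalEval_C, int1_const]
    by_cases hd' : (Bivariate.swap f).natDegree = 0
    · simp only [← evalEval_swap f]
      rw [eq_C_of_natDegree_eq_zero hd']
      simp only [evalEval_C, int1_const]
    exact curve_swap hf (Nat.pos_of_ne_zero hd) (Nat.pos_of_ne_zero hd')
  | pt a =>
    simp only [Prod.ext_iff, ind_and]
    exact swap_prod (CF.ind (Def.eq Tm.id' (Tm.const _))).cof
      (CF.ind (Def.eq Tm.id' (Tm.const _))).cof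
  | add h1 h2 i1 i2 =>
    obtain ⟨a1, a2, a3, a4⟩ := h1.cf.left
    obtain ⟨b1, b2, b3, b4⟩ := h2.cf.left
    simp only [int1_add (a1 _) (b1 _), int1_add (a2 _) (b2 _), int1_add a3 b3, int1_add a4 b4,
      i1 h1.cf, i2 h2.cf]
  | smul c h1 i1 =>
    obtain ⟨a1, a2, a3, a4⟩ := h1.cf.left
    simp only [int1_smul (a1 _), int1_smul (a2 _), int1_smul a3, int1_smul a4, i1 h1.cf]

theorem int1_euler_comm (k : ℕ) {φ : ℂ → (Fin k → ℂ) → ℚ}
    (h : CF fun p : ℂ × (Fin k → ℂ) => φ p.1 p.2) :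
    (int1 fun w => euler k (φ w)) = euler k fun x => int1 fun w => φ w x := by
  induction k with
  | zero => rfl
  | succ k ih =>
    simp only [euler]
    rw [swap2 (φ := fun p => euler k fun x => φ p.1 (Fin.cons p.2 x)) (CF.euler k
      (h.comp (g := fun q : (ℂ × ℂ) × (Fin k → ℂ) => (q.1.1, Fin.cons q.1.2 q.2))
        (Tm.prodMk (by fun_prop) (Tm.cons (by fun_prop) (by fun_prop)))))]
    congr 1
    funext u
    exact ih (φ := fun w x => φ w (Fin.cons u x))
      (h.comp (g := fun q : ℂ × (Fin k → ℂ) => (q.1, Fin.cons u q.2))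
        (Tm.prodMk (by fun_prop) (Tm.cons (by fun_prop) (by fun_prop))))

theorem euler_comm (k l : ℕ) {φ : (Fin k → ℂ) → (Fin l → ℂ) → ℚ}
    (h : CF fun p : (Fin k → ℂ) × (Fin l → ℂ) => φ p.1 p.2) :
    (euler k fun x => euler l (φ x)) = euler l fun y => euler k fun x => φ x y := by
  induction k with
  | zero => rfl
  | succ k ih =>
    simp only [euler]
    rw [← int1_euler_comm l (φ := fun w y => euler k fun x => φ (Fin.cons w x) y) (CF.euler k
      (h.comp (g := fun q : (ℂ × (Fin l → ℂ)) × (Fin k → ℂ) => (Fin.cons q.1.1 q.2, q.1.2))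
        (Tm.prodMk (Tm.cons (by fun_prop) (by fun_prop)) (by fun_prop))))]
    congr 1
    funext u
    exact ih (φ := fun x y => φ (Fin.cons u x) y)
      (h.comp (g := fun q : (Fin k → ℂ) × (Fin l → ℂ) => (Fin.cons u q.1, q.2))
        (Tm.prodMk (Tm.cons (by fun_prop) (by fun_prop)) (by fun_prop)))

/-- coordinates on an affine sort -/
structure Chart (Y : Type) [Str Y] where
  k : ℕ
  E : Y ≃ (Fin k → ℂ)
  h1 : Tm E
  h2 : Tm E.symm

namespace Chart

/-- Euler integral in a chart -/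
noncomputable def int (c : Chart Y) (φ : Y → ℚ) : ℚ := euler c.k fun x => φ (c.E.symm x)

theorem comm (c : Chart X) (d : Chart Y) {φ : X → Y → ℚ} (h : CF fun p : X × Y => φ p.1 p.2) :
    (c.int fun x => d.int (φ x)) = d.int fun y => c.int fun x => φ x y :=
  have := c.h2
  have := d.h2
  euler_comm c.k d.k (φ := fun x y => φ (c.E.symm x) (d.E.symm y))
    (h.comp (g := fun q : (Fin c.k → ℂ) × (Fin d.k → ℂ) => (c.E.symm q.1, d.E.symm q.2))
      (by fun_prop))

theorem deq (c : Chart Y) : DEq Y :=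
  have := c.h1
  ⟨(Def.eq (f := fun p : Y × Y => c.E p.1) (g := fun p => c.E p.2) (by fun_prop)
    (by fun_prop)).congr fun _ => c.E.injective.eq_iff⟩

theorem point (c : Chart Y) (b : Y) (φ : Y → ℚ) : (c.int fun y => ind (y = b) * φ y) = φ b := by
  have : (fun x => ind (c.E.symm x = b) * φ (c.E.symm x)) = fun x => φ b * ind (x = c.E b) := by
    funext x
    by_cases e : x = c.E b
    · simp [e]
    · rw [ind_neg e, ind_neg (by rwa [Equiv.symm_apply_eq])]; simp
  rw [int, this, euler_smul _ (CF.ind (Def.eq Tm.id' (Tm.const _))), euler_point, mul_one]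

theorem zero (c : Chart Y) : (c.int fun _ => 0) = 0 := euler_const _ _

theorem bij (c : Chart X) (d : Chart Y) {R : X → Y → Prop} (hR : Def fun p : X × Y => R p.1 p.2)
    {φ : X → ℚ} {ψ : Y → ℚ} (hφ : CF φ) (h1 : ∀ x, φ x ≠ 0 → ∃ y, R x y)
    (h2 : ∀ y, ψ y ≠ 0 → ∃ x, R x y) (h3 : ∀ x y y', R x y → R x y' → y' = y)
    (h4 : ∀ x x' y, R x y → R x' y → x' = x) (h5 : ∀ x y, R x y → φ x = ψ y) :
    c.int φ = d.int ψ := by
  have e1 : φ = fun x => d.int fun y => ind (R x y) * φ x := by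
    funext x
    by_cases e : φ x = 0
    · simp [e, zero]
    · obtain ⟨y, hy⟩ := h1 x e
      refine (d.point y fun _ => φ x).symm.trans ?_
      congr 1
      funext y'
      rw [ind_congr (p := y' = y) (q := R x y') ⟨fun e => e ▸ hy, h3 x y y' hy⟩]
  have e2 : ψ = fun y => c.int fun x => ind (R x y) * φ x := by
    funext y
    have : (fun x => ind (R x y) * φ x) = fun x => ind (R x y) * ψ y := by
      funext x
      by_cases e : R x y
      · rw [h5 x y e]
      · simp [e]
    rw [this]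
    by_cases e : ψ y = 0
    · simp [e, zero]
    · obtain ⟨x, hx⟩ := h2 y e
      refine (c.point x fun _ => ψ y).symm.trans ?_
      congr 1
      funext x'
      rw [ind_congr (p := x' = x) (q := R x' y) ⟨fun e => e ▸ hx, fun h => h4 x x' y hx h⟩]
  rw [e1, c.comm d ((CF.ind hR).mul (hφ.comp Tm.fst')), ← e2]

theorem int_eq (c d : Chart Y) {φ : Y → ℚ} (hφ : CF φ) : c.int φ = d.int φ :=
  have := c.deq
  c.bij d (R := Eq) DEq.eq hφ (fun x _ => ⟨x, rfl⟩) (fun x _ => ⟨x, rfl⟩)
    (fun _ _ _ a b => b.symm.trans a) (fun _ _ _ a b => b.trans a.symm) fun _ _ e => e ▸ rfl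

end Chart

/-- a chosen chart -/
noncomputable def chart (Y : Type) [Str Y] [h : Pure ℂ Y] : Chart Y :=
  ⟨h.out.choose, h.out.choose_spec.choose, h.out.choose_spec.choose_spec.1,
    h.out.choose_spec.choose_spec.2⟩

/-- the Euler integral over an affine sort -/
noncomputable def EI [Pure ℂ Y] (φ : Y → ℚ) : ℚ := (chart Y).int φ

section EI

variable [Pure ℂ X] [Pure ℂ Y]

theorem EI_euler {k : ℕ} {φ : (Fin k → ℂ) → ℚ} (h : CF φ) : EI φ = euler k φ :=
  (chart _).int_eq ⟨k, Equiv.refl _, Tm.id', Tm.id'⟩ h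

theorem EI_int1 {φ : ℂ → ℚ} (h : CF φ) : EI φ = int1 φ :=
  (chart _).int_eq ⟨1, (Equiv.funUnique (Fin 1) ℂ).symm,
    by show Tm fun (b : ℂ) (_ : Fin 1) => b; fun_prop,
    by show Tm fun (b : Fin 1 → ℂ) => b default; fun_prop⟩ h

omit [Pure ℂ X] in
theorem CF.EI {φ : X → Y → ℚ} (h : CF fun p : X × Y => φ p.1 p.2) : CF fun x => EI (φ x) :=
  have := (chart Y).h2
  CF.euler _ (φ := fun x y => φ x ((chart Y).E.symm y))
    (h.comp (g := fun q : X × (Fin (chart Y).k → ℂ) => (q.1, (chart Y).E.symm q.2)) (by fun_prop))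

theorem EI_add {φ ψ : Y → ℚ} (h1 : CF φ) (h2 : CF ψ) :
    EI (fun x => φ x + ψ x) = EI φ + EI ψ :=
  euler_add _ (h1.comp (chart Y).h2) (h2.comp (chart Y).h2)

theorem EI_smul {φ : Y → ℚ} (h1 : CF φ) (c : ℚ) : EI (fun x => c * φ x) = c * EI φ :=
  euler_smul _ (h1.comp (chart Y).h2) c

theorem EI_const (c : ℚ) : EI (fun _ : Y => c) = c := euler_const _ _

theorem EI_sum {ι : Type} (s : Finset ι) {φ : ι → Y → ℚ} (h : ∀ i ∈ s, CF (φ i)) :
    EI (fun x => ∑ i ∈ s, φ i x) = ∑ i ∈ s, EI (φ i) := by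
  induction s using Finset.induction_on with
  | empty => simpa using EI_const 0
  | insert a s ha ih =>
    simp only [Finset.sum_insert ha]
    rw [EI_add (h a (by simp)) (CF.sum _ fun i hi => h i (by simp [hi])),
      ih fun i hi => h i (by simp [hi])]

theorem EI_point (b : Y) (φ : Y → ℚ) : (EI fun y => ind (y = b) * φ y) = φ b :=
  (chart Y).point b φ

theorem EI_comm {φ : X → Y → ℚ} (h : CF fun p : X × Y => φ p.1 p.2) :
    (EI fun x => EI (φ x)) = EI fun y => EI fun x => φ x y := (chart X).comm (chart Y) h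

theorem EI_bij {R : X → Y → Prop} (hR : Def fun p : X × Y => R p.1 p.2)
    {φ : X → ℚ} {ψ : Y → ℚ} (hφ : CF φ) (h1 : ∀ x, φ x ≠ 0 → ∃ y, R x y)
    (h2 : ∀ y, ψ y ≠ 0 → ∃ x, R x y) (h3 : ∀ x y y', R x y → R x y' → y' = y)
    (h4 : ∀ x x' y, R x y → R x' y → x' = x) (h5 : ∀ x y, R x y → φ x = ψ y) :
    EI φ = EI ψ := (chart X).bij (chart Y) hR hφ h1 h2 h3 h4 h5

theorem EI_bij_ind {R : X → Y → Prop} (hR : Def fun p : X × Y => R p.1 p.2)
    {A : X → Prop} {B : Y → Prop} (hA : Def A) (h1 : ∀ x, A x → ∃ y, R x y)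
    (h2 : ∀ y, B y → ∃ x, R x y) (h3 : ∀ x y y', R x y → R x y' → y' = y)
    (h4 : ∀ x x' y, R x y → R x' y → x' = x) (h5 : ∀ x y, R x y → A x ∧ B y) :
    EI (fun x => ind (A x)) = EI fun y => ind (B y) :=
  EI_bij hR (CF.ind hA) (fun x hx => h1 x (by_contra fun e => hx (ind_neg e)))
    (fun x hx => h2 x (by_contra fun e => hx (ind_neg e))) h3 h4
    fun x y h => by rw [ind_pos (h5 x y h).1, ind_pos (h5 x y h).2]

theorem EI_prod {φ : X × Y → ℚ} (h : CF φ) : EI φ = EI fun x => EI fun y => φ (x, y) := by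
  have := (chart X).deq
  have := (chart Y).deq
  have h1 : CF fun q : ((X × Y) × X) × Y => ind (q.1.1 = (q.1.2, q.2)) * φ (q.1.2, q.2) :=
    (CF.ind (Def.eq (by fun_prop) (by fun_prop))).mul (h.comp (by fun_prop))
  have e1 : φ = fun p => EI fun x => EI fun y => ind (p = (x, y)) * φ (x, y) := by
    funext p
    rw [← EI_point p.1 fun x => φ (x, p.2)]
    congr 1
    funext x
    rw [← EI_point p.2 fun y => ind (x = p.1) * φ (x, y)]
    congr 1
    funext y
    rw [← mul_assoc, ← ind_and, ind_congr (q := p = (x, y))]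
    rw [Prod.ext_iff]
    tauto
  conv_lhs => rw [e1]
  rw [EI_comm (CF.EI (φ := fun (q : (X × Y) × X) y => ind (q.1 = (q.2, y)) * φ (q.2, y)) h1)]
  congr 1
  funext x
  rw [EI_comm (h1.comp (g := fun q : (X × Y) × Y => ((q.1, x), q.2)) (by fun_prop))]
  congr 1
  funext y
  exact EI_point (x, y) fun _ => φ (x, y)

end EI

end Pool.Agent.Lib.MP_d4c0ca_ag
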