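import Pool.Agent.Lib.MP_d4c0ca_ag.Fubini

/-! Generating series of constructible functions on the integers are rational. -/

namespace Pool.Agent.Lib.MP_d4c0ca_ag

open PowerSeries
open scoped Classical

/-- rational power series -/
def IsRat (F : ℚ⟦X⟧) : Prop :=
  ∃ P R : Polynomial ℚ, R.coeff 0 ≠ 0 ∧ (R : ℚ⟦X⟧) * F = P

namespace IsRat

theorem poly (P : Polynomial ℚ) : IsRat P := ⟨P, 1, by simp, by simp⟩

theorem zero : IsRat 0 := by simpa using poly 0

theorem one : IsRat 1 := by simpa using poly 1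

theorem add {F G : ℚ⟦X⟧} (hF : IsRat F) (hG : IsRat G) : IsRat (F + G) := by
  obtain ⟨P, R, h1, h2⟩ := hF
  obtain ⟨P', R', h3, h4⟩ := hG
  refine ⟨P * R' + P' * R, R * R', by simp [h1, h3], ?_⟩
  push_cast
  rw [← h2, ← h4]; ring

theorem mul {F G : ℚ⟦X⟧} (hF : IsRat F) (hG : IsRat G) : IsRat (F * G) := by
  obtain ⟨P, R, h1, h2⟩ := hF
  obtain ⟨P', R', h3, h4⟩ := hG
  refine ⟨P * P', R * R', by simp [h1, h3], ?_⟩
  push_cast
  rw [← h2, ← h4]; ring

theorem smul {F : ℚ⟦X⟧} (hF : IsRat F) (c : ℚ) : IsRat (C c * F) := by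
  simpa using (poly (Polynomial.C c)).mul hF

theorem of_mul {F G : ℚ⟦X⟧} (hF : IsRat F) (h0 : constantCoeff F ≠ 0) (h : IsRat (F * G)) :
    IsRat G := by
  obtain ⟨P, R, h1, h2⟩ := hF
  obtain ⟨P', R', h3, h4⟩ := h
  refine ⟨P' * R, R' * P, ?_, ?_⟩
  · have := congrArg constantCoeff h2
    simp only [map_mul, Polynomial.constantCoeff_coe] at this
    simp [h1, h3, h0, ← this]
  · push_cast
    rw [← h2, ← h4]; ring

theorem sum {ι : Type} (s : Finset ι) {F : ι → ℚ⟦X⟧} (h : ∀ i ∈ s, IsRat (F i)) :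
    IsRat (∑ i ∈ s, F i) :=
  Finset.sum_induction _ _ (fun _ _ => add) zero h

theorem prod {ι : Type} (s : Finset ι) {F : ι → ℚ⟦X⟧} (h : ∀ i ∈ s, IsRat (F i)) :
    IsRat (∏ i ∈ s, F i) :=
  Finset.prod_induction _ _ (fun _ _ => mul) one h

end IsRat

section poly

variable {G : Type}

/-- generating series of a weighted set -/
noncomputable def gf (S : Set G) (wt : G → ℤ) : ℚ⟦X⟧ :=
  mk fun n => ({g | g ∈ S ∧ wt g = n}.ncard : ℚ)

/-- admissible weighted sets -/
def Adm (S : Set G) (wt : G → ℤ) : Prop :=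
  (∀ n : ℤ, {g | g ∈ S ∧ wt g = n}.Finite) ∧ ∀ g ∈ S, 0 ≤ wt g

theorem Adm.mono {S T : Set G} {wt : G → ℤ} (h : Adm T wt) (hS : S ⊆ T) : Adm S wt :=
  ⟨fun n => (h.1 n).subset fun _ hg => ⟨hS hg.1, hg.2⟩, fun g hg => h.2 g (hS hg)⟩

theorem gf_split {S : Set G} {wt : G → ℤ} (h : Adm S wt) {T : Type} [Fintype T] (τ : G → T) :
    gf S wt = ∑ t, gf {g | g ∈ S ∧ τ g = t} wt := by
  ext n
  simp only [gf, map_sum, coeff_mk]
  rw [Set.ncard_eq_toFinset_card _ (h.1 n), Finset.card_eq_sum_card_fiberwise (f := τ)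
    (t := Finset.univ) fun _ _ => by simp, Nat.cast_sum]
  refine Finset.sum_congr rfl fun t _ => ?_
  rw [← Set.ncard_coe_finset]
  congr 2
  ext g
  simp only [Finset.coe_filter, Set.Finite.mem_toFinset, Set.mem_ofPred_eq]
  tauto

theorem gf_finite {S : Set G} (hS : S.Finite) (wt : G → ℤ) : IsRat (gf S wt) := by
  obtain ⟨N, hN⟩ := (hS.image wt).bddAbove
  have : gf S wt = trunc (N.toNat + 1) (gf S wt) := by
    ext n
    rw [Polynomial.coeff_coe, coeff_trunc]
    split_ifs with h
    · rfl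
    · rw [gf, coeff_mk, Set.eq_empty_of_forall_notMem (s := {g | g ∈ S ∧ wt g = n})]
      · simp
      · rintro g ⟨h1, h2⟩
        have := hN ⟨g, h1, rfl⟩
        omega
  rw [this]
  exact IsRat.poly _

variable [AddCommGroup G] [IsAddTorsionFree G] {ι : Type} [Fintype ι]

/-- integer points of a polyhedron -/
def PH (A : ι → G →+ ℤ) (I : Finset ι) (b : ι → ℤ) : Set G :=
  {g | ∀ i, 0 ≤ b i + A i g ∧ (i ∉ I → b i + A i g = 0)}

theorem poly_rat (A : ι → G →+ ℤ) (ℓ : G →+ ℤ) (c : ℤ) (I : Finset ι) :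
    ∀ b, Adm (PH A I b) (fun g => ℓ g + c) → IsRat (gf (PH A I b) fun g => ℓ g + c) := by
  induction I using Finset.strongInduction with
  | H I ih =>
  have step : ∀ (N : ℕ) (v : ι → ℤ), (∀ i, 0 ≤ v i ∧ (i ∉ I → v i = 0)) → ∑ i, v i = N →
      ∀ b, Adm (PH A I b) (fun g => ℓ g + c) → IsRat (gf (PH A I b) (fun g => ℓ g + c) -
        gf (PH A I (b - v)) fun g => ℓ g + c) := by
    intro N
    induction N with
    | zero =>
      intro v hv hs b _
      obtain rfl : v = 0 := funext fun i =>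
        (Finset.sum_eq_zero_iff_of_nonneg fun i _ => (hv i).1).1 hs i (Finset.mem_univ _)
      simpa using IsRat.zero
    | succ N ihN =>
      intro v hv hs b hb
      obtain ⟨i, -, hi⟩ := Finset.exists_ne_zero_of_sum_ne_zero (s := Finset.univ) (f := v)
        (by rw [hs]; positivity)
      have hiI : i ∈ I := by_contra fun h => hi ((hv i).2 h)
      have e1 : {g | g ∈ PH A I b ∧ (b i + A i g = 0) = True} = PH A (I.erase i) b := by
        ext g
        simp only [PH, Set.mem_ofPred_eq, eq_iff_iff, iff_true, Finset.mem_erase, not_and]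
        exact ⟨fun h j => ⟨(h.1 j).1, fun h' => by
          by_cases e : j = i
          · exact e ▸ h.2
          · exact (h.1 j).2 (h' e)⟩,
          fun h => ⟨fun j => ⟨(h j).1, fun h' => (h j).2 fun _ => h'⟩, (h i).2 fun e => (e rfl).elim⟩⟩
      have e2 : {g | g ∈ PH A I b ∧ (b i + A i g = 0) = False} = PH A I (b - Pi.single i 1) := by
        ext g
        simp only [PH, Set.mem_ofPred_eq, eq_iff_iff, iff_false, Pi.sub_apply]
        constructor
        · rintro ⟨h1, h2⟩ j
          have := h1 j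
          by_cases e : j = i
          · subst e
            simp only [Pi.single_eq_same, hiI, not_true_eq_false, false_imp_iff, and_true]
            omega
          · simpa [e] using this
        · intro h
          have h1 := (h i).1
          rw [Pi.single_eq_same] at h1
          refine ⟨fun j => ?_, by omega⟩
          by_cases e : j = i
          · subst e
            exact ⟨by omega, fun h => (h hiI).elim⟩
          · simpa [e] using h j
      have h1 := gf_split hb fun g => b i + A i g = 0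
      rw [Fintype.sum_Prop, e1, e2] at h1
      have h2 := ihN (v - Pi.single i 1) (fun j => by
        by_cases e : j = i
        · subst e
          have := (hv j).1
          simp only [Pi.sub_apply, Pi.single_eq_same, hiI, not_true_eq_false, false_imp_iff,
            and_true]
          omega
        · simpa [e] using hv j) (by simp [Finset.sum_sub_distrib, hs]) _
          (hb.mono (by rw [← e2]; exact fun g hg => hg.1))
      have h3 := ih _ (Finset.erase_ssubset hiI) b (hb.mono (by rw [← e1]; exact fun g hg => hg.1))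
      rw [sub_sub, add_sub_cancel] at h2
      rw [h1, add_sub_assoc]
      exact h3.add h2
  intro b hb
  by_cases hfin : (PH A I b).Finite
  · exact gf_finite hfin _
  let f := Set.Infinite.natEmbedding _ hfin
  obtain ⟨m, n, hmn, hle⟩ := wellQuasiOrdered_le (α := ι → ℕ)
    fun n i => (b i + A i (f n)).toNat
  set h : G := (f n).1 - (f m).1 with hh
  have h0 : h ≠ 0 := fun e => hmn.ne' (f.injective (Subtype.ext (sub_eq_zero.1 e)))
  have hv : ∀ i, 0 ≤ A i h ∧ (i ∉ I → A i h = 0) := fun i => by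
    have a1 := (f m).2 i
    have a2 := (f n).2 i
    have a3 := hle i
    rw [hh, map_sub]
    simp only at a3
    exact ⟨by omega, fun e => by have := a1.2 e; have := a2.2 e; omega⟩
  have hk : ∀ k : ℕ, (f m).1 + k • h ∈ PH A I b := fun k i => by
    have a1 := (f m).2 i
    rw [map_add, map_nsmul, nsmul_eq_mul, ← add_assoc]
    exact ⟨add_nonneg a1.1 (mul_nonneg (by positivity) (hv i).1),
      fun e => by rw [a1.2 e, (hv i).2 e]; simp⟩
  have hpos : 0 < ℓ h := by
    rcases lt_trichotomy 0 (ℓ h) with e | e | e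
    · exact e
    · refine (Set.infinite_of_injective_forall_mem (f := fun k : ℕ => (f m).1 + k • h)
        (s := {g | g ∈ PH A I b ∧ ℓ g + c = ℓ (f m) + c})
        (fun k l e => Nat.cast_injective (R := ℤ) (smul_left_injective ℤ h0
          (by simpa using e))) (fun k => ⟨hk k, ?_⟩)
        (hb.1 (ℓ (f m) + c))).elim
      simp [← e]
    · have := hb.2 _ (hk ((ℓ (f m) + c).toNat + 1))
      simp only [map_add, map_nsmul, nsmul_eq_mul] at this
      have a1 := hb.2 _ (f m).2
      push_cast at this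
      rw [Int.toNat_of_nonneg a1] at this
      nlinarith
  obtain ⟨d, hd⟩ := Int.eq_ofNat_of_zero_le hpos.le
  have h1 := step (∑ i, A i h).toNat (fun i => A i h) hv
    (Int.toNat_of_nonneg (Finset.sum_nonneg fun i _ => (hv i).1)).symm b hb
  have h2 : gf (PH A I (b - fun i => A i h)) (fun g => ℓ g + c) =
      X ^ d * gf (PH A I b) fun g => ℓ g + c := by
    ext k
    have e1 : {g | g ∈ PH A I (b - fun i => A i h) ∧ ℓ g + c = k} =
        (· + h) '' {g | g ∈ PH A I b ∧ ℓ g + c = k - d} := by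
      ext g
      simp only [PH, Set.image_add_right, Set.mem_preimage, Set.mem_ofPred_eq, map_add, map_neg,
        Pi.sub_apply, hd]
      refine and_congr (forall_congr' fun i => ?_) (by omega)
      rw [show b i - A i h + A i g = b i + (A i g + -A i h) by ring]
    rw [coeff_X_pow_mul', gf, gf, coeff_mk, e1,
      Set.ncard_image_of_injective _ (add_left_injective h)]
    split_ifs with e
    · rw [coeff_mk, Nat.cast_sub e]
    · rw [Set.eq_empty_of_forall_notMem (s := {g | g ∈ PH A I b ∧ ℓ g + c = k - d})]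
      · simp
      · rintro g ⟨a1, a2⟩
        have := hb.2 g a1
        simp only at this
        omega
  rw [h2, ← one_sub_mul] at h1
  refine IsRat.of_mul (by
    have := IsRat.poly (1 - Polynomial.X ^ d)
    rwa [← Polynomial.coeToPowerSeries.ringHom_apply, map_sub, map_pow, map_one,
      Polynomial.coeToPowerSeries.ringHom_apply, Polynomial.coe_X] at this) ?_ h1
  have : d ≠ 0 := by omega
  simp [this]

end poly

theorem def_rat {e : ℕ} {S : Set (Fin (e + 1) → ℤ)} (hS : Def (· ∈ S))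
    (h : Adm S fun g => g 0) : IsRat (gf S fun g => g 0) := by
  obtain ⟨ι, _, z, c, hz, hc, h1⟩ := hS.fam
  obtain ⟨M, hM, hA⟩ := nf_fin (X := Unit) (z := fun i p => z i p.2) fun i => (hz i).comp Tm.snd'
  rw [gf_split h (T := (Fin (e + 1) → Finset.Ico 0 M) × (ι → Prop)) fun g =>
    (fun j => ⟨g j % M, Finset.mem_Ico.2 ⟨Int.emod_nonneg _ hM.ne', Int.emod_lt_of_pos _ hM⟩⟩,
      fun i => 0 ≤ z i g)]
  refine IsRat.sum _ ?_
  rintro ⟨ρ, s⟩ -
  rcases Set.eq_empty_or_nonempty {g | g ∈ S ∧ ((fun j => ⟨g j % M, Finset.mem_Ico.2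
    ⟨Int.emod_nonneg _ hM.ne', Int.emod_lt_of_pos _ hM⟩⟩ : Fin (e + 1) → Finset.Ico 0 M),
      fun i => 0 ≤ z i g) = (ρ, s)} with e1 | ⟨g0, hg0, e1⟩
  · rw [e1]; exact gf_finite Set.finite_empty _
  choose A hA using fun i => hA i g0
  simp only at hA
  let ψ : (Fin (e + 1) → ℤ) → Fin (e + 1) → ℤ := fun g => M • g + g0
  have hψ : Function.Injective ψ := fun a b h => smul_right_injective _ hM.ne' (add_right_cancel h)
  rw [← e1]
  set T := {g | g ∈ S ∧ ((fun j => ⟨g j % M, Finset.mem_Ico.2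
    ⟨Int.emod_nonneg _ hM.ne', Int.emod_lt_of_pos _ hM⟩⟩ : Fin (e + 1) → Finset.Ico 0 M),
      fun i => 0 ≤ z i g) = (fun j => ⟨g0 j % M, Finset.mem_Ico.2
    ⟨Int.emod_nonneg _ hM.ne', Int.emod_lt_of_pos _ hM⟩⟩, fun i => 0 ≤ z i g0)} with hT
  have e2 : T = ψ '' PH (fun i => if 0 ≤ z i g0 then A i else -A i) Finset.univ
      (fun i => if 0 ≤ z i g0 then z i g0 else -1 - z i g0) := by
    have e3 : ∀ g, g ∈ PH (fun i => if 0 ≤ z i g0 then A i else -A i) Finset.univ
        (fun i => if 0 ≤ z i g0 then z i g0 else -1 - z i g0) ↔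
        ∀ i, (0 ≤ z i (ψ g) ↔ 0 ≤ z i g0) := fun g => forall_congr' fun i => by
      simp only [ψ, hA i ()]
      split_ifs with e
      · simp [e]
      · simp only [AddMonoidHom.neg_apply, Finset.mem_univ, not_true_eq_false, false_imp_iff,
          and_true, e, iff_false]
        omega
    ext g
    rw [Set.mem_image]
    conv_lhs => simp only [hT, Set.mem_ofPred_eq, Prod.mk.injEq, funext_iff, Subtype.mk.injEq,
      eq_iff_iff]
    simp only [e3]
    constructor
    · rintro ⟨-, a1, a2⟩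
      have : ψ (fun j => (g j - g0 j) / M) = g := funext fun j => by
        simp only [ψ, Pi.add_apply, Pi.smul_apply, smul_eq_mul]
        rw [Int.mul_ediv_cancel' (Int.ModEq.dvd (a1 j).symm)]
        ring
      exact ⟨_, by rw [this]; exact a2, this⟩
    · rintro ⟨g, a1, rfl⟩
      exact ⟨h1 g0 _ (fun i => (a1 i).symm) (fun i => by rw [(tm_C.1 (hc i)).const' g0]) hg0,
        fun j => by simp [ψ], a1⟩
  have h2 : Adm T fun g => g 0 := h.mono fun g hg => hg.1
  rw [e2] at h2 ⊢
  have e4 : ∀ (P : Set (Fin (e + 1) → ℤ)) (n : ℤ), {g | g ∈ ψ '' P ∧ g 0 = n} =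
      ψ '' {g | g ∈ P ∧ (M • Pi.evalAddMonoidHom (fun _ => ℤ) 0) g + g0 0 = n} := fun P n => by
    ext g
    simp only [Set.mem_image, Set.mem_ofPred_eq]
    exact ⟨fun ⟨⟨a, a1, a2⟩, a3⟩ => ⟨a, ⟨a1, by rw [← a3, ← a2]; rfl⟩, a2⟩,
      fun ⟨a, ⟨a1, a3⟩, a2⟩ => ⟨⟨a, a1, a2⟩, by rw [← a3, ← a2]; rfl⟩⟩
  convert poly_rat _ (M • Pi.evalAddMonoidHom (fun _ => ℤ) 0) (g0 0) _ _
    ⟨fun n => Set.Finite.of_finite_image (e4 _ n ▸ h2.1 n) hψ.injOn,
      fun g hg => h2.2 _ ⟨g, hg, rfl⟩⟩ using 1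
  ext n
  simp only [gf, coeff_mk, e4, Set.ncard_image_of_injective _ hψ]

theorem CF.isRat {φ : ℤ → ℚ} (h : CF φ) : IsRat (mk fun n : ℕ => φ n) := by
  induction h with
  | @cnt e D hD hf =>
    have e1 : ∀ n : ℤ, 0 ≤ n → {g : Fin (e + 1) → ℤ | (0 ≤ g 0 ∧ D (g 0, Fin.tail g)) ∧ g 0 = n} =
        Fin.cons n '' {δ | D (n, δ)} := fun n hn => by
      ext g
      constructor
      · rintro ⟨⟨-, h⟩, rfl⟩
        exact ⟨_, h, by simp⟩
      · rintro ⟨δ, h, rfl⟩
        exact ⟨⟨hn, by simpa using h⟩, rfl⟩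
    have := def_rat (S := {g : Fin (e + 1) → ℤ | 0 ≤ g 0 ∧ D (g 0, Fin.tail g)})
      ((Def.le (Tm.const 0) (Tm.apply 0)).and (hD.comp (Tm.prodMk (Tm.apply 0)
        (Tm.pi fun i => Tm.apply _)))) ⟨fun n => by
          by_cases hn : 0 ≤ n
          · exact e1 n hn ▸ (hf n).image _
          · exact Set.finite_empty.subset fun g hg => hn (hg.2 ▸ hg.1.1), fun g hg => hg.1⟩
    convert this using 1
    ext n
    simp only [gf, coeff_mk, Set.mem_ofPred_eq, e1 n (by positivity),
      Set.ncard_image_of_injective _ (Fin.cons_right_injective (α := fun _ => ℤ) _)]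
  | add _ _ h1 h2 => convert h1.add h2 using 1; ext; simp
  | smul c _ h1 => convert h1.smul c using 1; ext; simp

/-- a constructible function of a complex and an integer variable is generically constant in the
complex variable, uniformly in the integer -/
theorem CF.unif {φ : ℤ × ℂ → ℚ} (h : CF φ) :
    ∃ E : Finset ℂ, ∀ p ∉ E, ∀ q ∉ E, ∀ n, φ (n, p) = φ (n, q) := by
  induction h with
  | @cnt e D hD hf =>
    obtain ⟨ι, _, z, c, hz, hc, h⟩ := hD.fam
    choose v E hE using fun i => (CF.ind (Def.eq ((hc i).comp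
      (g := fun p : ℂ => ((0, p), 0)) (by fun_prop)) (Tm.const 0))).cof
    have key : ∀ p ∉ Finset.univ.biUnion E, ∀ q ∉ Finset.univ.biUnion E, ∀ n δ,
        D ((n, p), δ) → D ((n, q), δ) := fun p hp q hq n δ => h _ _ (fun i => ?_) fun i => ?_
    · exact ⟨_, fun p hp q hq n => by
        simp only
        rw [Set.ext (a := {δ | D ((n, p), δ)}) (b := {δ | D ((n, q), δ)}) fun δ =>
          ⟨key p hp q hq n δ, key q hq p hp n δ⟩]⟩
    · have := (tm_Z.1 ((hz i).comp (g := fun p : (ℤ × (Fin e → ℤ)) × ℂ => ((p.1.1, p.2), p.1.2))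
        (by fun_prop))).indep (n, δ) p q
      simp only at this
      rw [this]
    · have a1 := fun p => (tm_C.1 ((hc i).comp
        (g := fun p : ℂ × ℤ × (Fin e → ℤ) => ((p.2.1, p.1), p.2.2))
        (by fun_prop))).indep p (n, δ) (0, 0)
      simp only at a1
      simp only [Finset.mem_biUnion, Finset.mem_univ, true_and, not_exists] at hp hq
      have a2 := (hE i p (hp i)).trans (hE i q (hq i)).symm
      rw [a1, a1]
      by_cases b1 : c i ((0, p), 0) = 0 <;> by_cases b2 : c i ((0, q), 0) = 0 <;>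
        simp_all
  | add _ _ h1 h2 =>
    obtain ⟨E, h1⟩ := h1
    obtain ⟨E', h2⟩ := h2
    refine ⟨E ∪ E', fun p hp q hq n => ?_⟩
    rw [Finset.notMem_union] at hp hq
    simp only [h1 p hp.1 q hq.1, h2 p hp.2 q hq.2]
  | smul c _ h1 =>
    obtain ⟨E, h1⟩ := h1
    exact ⟨E, fun p hp q hq n => by simp only [h1 p hp q hq]⟩

end Pool.Agent.Lib.MP_d4c0ca_ag
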