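import Pool.Agent.Lib.MP_d4c0ca_ag.GF

/-! Euler products over the complex line. -/

namespace Pool.Agent.Lib.MP_d4c0ca_ag

open PowerSeries
open scoped Classical

/-- logarithmic derivative -/
def LD (F l : ℚ⟦X⟧) : Prop := X * d⁄dX ℚ F = l * F

theorem LD.mul {F G l m : ℚ⟦X⟧} (h : LD F l) (h' : LD G m) : LD (F * G) (l + m) := by
  unfold LD at *
  rw [Derivation.leibniz, smul_eq_mul, smul_eq_mul]
  linear_combination G * h + F * h'

theorem LD.prod {ι : Type} (s : Finset ι) {F l : ι → ℚ⟦X⟧} (h : ∀ i, LD (F i) (l i)) :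
    LD (∏ i ∈ s, F i) (∑ i ∈ s, l i) := by
  induction s using Finset.induction_on with
  | empty => simp [LD]
  | insert a s ha ih => simpa [Finset.prod_insert ha, Finset.sum_insert ha] using (h a).mul ih

theorem LD.eq {U W l : ℚ⟦X⟧} (h : LD U l) (h' : LD W l) (h0 : constantCoeff W ≠ 0) :
    ∃ c, U = C c * W := by
  have h1 : U = U * W⁻¹ * W := by rw [mul_assoc, PowerSeries.inv_mul_cancel _ h0, mul_one]
  generalize U * W⁻¹ = R at h1
  subst h1
  unfold LD at *
  rw [Derivation.leibniz, smul_eq_mul, smul_eq_mul] at h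
  have h2 : X * W * d⁄dX ℚ R = 0 := by linear_combination h - R * h'
  have h3 := (mul_eq_zero.1 h2).resolve_left
    (mul_ne_zero X_ne_zero fun e => h0 (by rw [e, map_zero]))
  exact ⟨constantCoeff R, by rw [derivative.ext (f := R) (g := C (constantCoeff R))
    (by simpa using h3) (by simp)]; simp⟩

theorem euler_product {A : ℚ⟦X⟧} {Z B : ℂ → ℚ⟦X⟧} {E : Finset ℂ} (hZ : ∀ p, IsRat (Z p))
    (h0 : ∀ p, constantCoeff (Z p) ≠ 0) (hA : ∀ p, A = Z p * B p)
    (hE : ∀ p ∉ E, ∀ q ∉ E, Z p = Z q)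
    (hI : ∀ n : ℕ, n * coeff n A = int1 fun p => coeff n (X * d⁄dX ℚ (Z p) * B p)) : IsRat A := by
  obtain ⟨g, hg⟩ := Infinite.exists_notMem_finset E
  let l : ℂ → ℚ⟦X⟧ := fun p => X * d⁄dX ℚ (Z p) * (Z p)⁻¹
  have h1 : ∀ p, LD (Z p) (l p) := fun p => by
    rw [LD, mul_assoc, PowerSeries.inv_mul_cancel _ (h0 p), mul_one]
  have h2 : ∀ p, X * d⁄dX ℚ (Z p) * B p = l p * A := fun p => by rw [h1 p, hA p, mul_assoc]
  have h3 : LD A (l g + ∑ p ∈ E, (l p - l g)) := by
    ext n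
    have : coeff n (X * d⁄dX ℚ A) = n * coeff n A := by
      cases n with
      | zero => simp
      | succ n => rw [coeff_succ_X_mul, coeff_derivative]; push_cast; ring
    rw [this, hI, int1_eq (c := coeff n (l g * A)) (E := E) fun p hp => by
      rw [h2]; simp only [l, hE p hp g hg]]
    simp only [h2, add_mul, Finset.sum_mul, sub_mul, map_add, map_sum, map_sub]
  have h4 := h3.mul (LD.prod E fun _ => h1 g)
  rw [add_assoc, ← Finset.sum_add_distrib] at h4
  simp only [sub_add_cancel] at h4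
  obtain ⟨c, hc⟩ := h4.eq ((h1 g).mul (LD.prod E h1)) (by simp [h0, Finset.prod_eq_zero_iff])
  refine IsRat.of_mul (IsRat.prod E fun _ _ => hZ g) (by simp [h0]) ?_
  rw [mul_comm, hc]
  exact ((hZ g).mul (IsRat.prod E fun p _ => hZ p)).smul c

end Pool.Agent.Lib.MP_d4c0ca_ag
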