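import Pool.Agent.Lib.MP_d4c0ca_ag.Pres
import Pool.Agent.Lib.MP_d4c0ca_ag.Prod

/-! Definable families of quotients and the global generating series. -/

namespace Pool.Agent.Lib.MP_d4c0ca_ag

open MvPolynomial Module Finset.HasAntidiagonal
open scoped Classical

variable {σ ι : Type} {Z Y : Type} [Str Z] [Str Y]

noncomputable instance : Str (MvPolynomial σ ℂ) := ⟨∅, ∅, Set.range coeff⟩

instance : NoR (MvPolynomial σ ℂ) := ⟨fun _ h => h⟩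
instance : NoZ (MvPolynomial σ ℂ) := ⟨fun _ h => h⟩

theorem tm_S {f : Z → MvPolynomial σ ℂ} : Tm f ↔ ∀ α, Tm fun x => coeff α (f x) :=
  ⟨fun h α => tm_C.2 (h.2.2 _ ⟨α, rfl⟩), fun h => ⟨fun _ h => h.elim, fun _ h => h.elim, by
    rintro _ ⟨α, rfl⟩; exact tm_C.1 (h α)⟩⟩

instance : TmMod (MvPolynomial σ ℂ) :=
  ⟨tm_S.2 fun α => by
      simpa only [coeff_add] using (tm_S.1 Tm.fst' α).addC (tm_S.1 Tm.snd' α),
    tm_S.2 fun α => by
      simpa only [coeff_smul, smul_eq_mul] using Tm.fst'.mulC (tm_S.1 Tm.snd' α)⟩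

theorem Tm.mulS {f g : Z → MvPolynomial σ ℂ} (hf : Tm f) (hg : Tm g) : Tm fun x => f x * g x :=
  tm_S.2 fun α => by
    simpa only [coeff_mul] using Tm.sumC _ fun p => (tm_S.1 hf _).mulC (tm_S.1 hg _)

theorem Tm.powS {f : Z → MvPolynomial σ ℂ} (hf : Tm f) (n : ℕ) : Tm fun x => f x ^ n := by
  induction n with
  | zero => simpa using Tm.const (1 : MvPolynomial σ ℂ)
  | succ n ih => simpa [pow_succ] using ih.mulS hf

theorem Tm.smulF {g : Z → MvPolynomial σ ℂ} {f : Z → ι → MvPolynomial σ ℂ} (hg : Tm g)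
    (hf : Tm f) : Tm fun x => g x • f x := Tm.pi fun i => hg.mulS (hf.app i)

theorem tm_pencil (ℓ0 ℓ1 : MvPolynomial σ ℂ) : Tm fun p : ℂ => ℓ1 - p • ℓ0 := by
  simpa [sub_eq_add_neg] using (Tm.const ℓ1).addV (Tm.id'.negC.smulV (Tm.const ℓ0))

variable [Finite ι] [Fintype σ] {M : Sub σ ι}

theorem Def.allV (d : ℕ) {P : Z → (ι → MvPolynomial σ ℂ) → Prop}
    (hP : Def fun q : Z × (ι → MvPolynomial σ ℂ) => P q.1 q.2) :
    Def fun x => ∀ f ∈ V σ ι d, P x f := by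
  obtain ⟨m, b, hb⟩ := Submodule.fg_iff_exists_fin_generating_family.1
    (Module.Finite.iff_fg.1 (V_finite (σ := σ) (ι := ι) d))
  refine (Def.all (P := fun x (c : Fin m → ℂ) => P x (0 + ∑ l, c l • b l))
    (hP.comp (Tm.fst'.prodMk ((tm_comb 0 b).comp Tm.snd')))).congr fun x => ?_
  simp only [← hb, Submodule.mem_span_range_iff_exists_fun, zero_add]
  exact ⟨fun h f ⟨c, hc⟩ => hc ▸ h c, fun h c => h _ ⟨c, rfl⟩⟩

/-- a definable parametrisation of the Quot scheme -/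
structure UF (M : Sub σ ι) (n : ℕ) where
  k : ℕ
  A : (Fin k → ℂ) → Prop
  β : (Fin k → ℂ) → Sub σ ι
  Z : ℕ → (Fin k → ℂ) × (ι → MvPolynomial σ ℂ) → Prop
  hA : Def A
  hB : Set.BijOn β {a | A a} (QuotPts M n)
  hZ : ∀ d, Def (Z d)
  mem : ∀ d a, A a → ∀ f ∈ V σ ι d, (f ∈ β a ↔ Z d (a, f))

namespace UF

variable {n : ℕ} (U : UF M n)

/-- Euler characteristic of a subset of the Quot scheme -/
noncomputable def chi (P : Sub σ ι → Prop) : ℚ := EI fun a => ind (U.A a ∧ P (U.β a))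

theorem def_nzd {g : Z → MvPolynomial σ ℂ} (hg : Tm g) (h1 : ∀ x, (g x).IsHomogeneous 1)
    {a : Z → Fin U.k → ℂ} (ha : Tm a) : Def fun x => U.A (a x) ∧ Nzd (g x) (U.β (a x)) :=
  ((U.hA.comp ha).and (Def.allV n (P := fun x f => U.Z (1 + n) (a x, g x • f) → U.Z n (a x, f))
    (Def.imp ((U.hZ _).comp ((ha.comp Tm.fst').prodMk ((hg.comp Tm.fst').smulF Tm.snd')))
      ((U.hZ _).comp ((ha.comp Tm.fst').prodMk Tm.snd'))))).congr fun x =>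
    and_congr_right fun h => by
      rw [nzd_iff_V (U.hB.mapsTo h) (h1 x)]
      exact forall₂_congr fun f hf => by rw [U.mem _ _ h _ hf, U.mem _ _ h _ (smul_mem_V (h1 x) hf)]

theorem def_nil {g : Z → MvPolynomial σ ℂ} (hg : Tm g) (h1 : ∀ x, (g x).IsHomogeneous 1)
    {a : Z → Fin U.k → ℂ} (ha : Tm a) : Def fun x => U.A (a x) ∧ Nil (g x) (U.β (a x)) :=
  ((U.hA.comp ha).and (Def.allV n (P := fun x f => U.Z (1 * n + n) (a x, g x ^ n • f))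
    ((U.hZ _).comp ((ha.comp Tm.fst').prodMk
      (((hg.comp Tm.fst').powS n).smulF Tm.snd'))))).congr fun x =>
    and_congr_right fun h => by
      rw [nil_iff_V (U.hB.mapsTo h) (h1 x)]
      exact forall₂_congr fun f hf => by rw [U.mem _ _ h _ (smul_mem_V ((h1 x).pow n) hf)]

variable {j k : ℕ} (U' : UF M j) (U'' : UF M k)

theorem def_spl (hM : Graded M) (e : j + k = n) {g : Z → MvPolynomial σ ℂ} (hg : Tm g)
    (h1 : ∀ x, (g x).IsHomogeneous 1) {a : Z → Fin U.k → ℂ} (ha : Tm a)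
    {b : Z → Fin U'.k → ℂ} (hb : Tm b) {c : Z → Fin U''.k → ℂ} (hc : Tm c) :
    Def fun x => U.A (a x) ∧ U'.A (b x) ∧ U''.A (c x) ∧
      Spl M (g x) j k (U.β (a x)) (U'.β (b x)) (U''.β (c x)) := by
  refine ((U.hA.comp ha).and ((U'.def_nil hg h1 hb).and ((U''.def_nzd hg h1 hc).and
    (Def.allV (n + 1) (P := fun x f => U.Z (n + 1) (a x, f) ↔ U'.Z (n + 1) (b x, f) ∧
      U''.Z (n + 1) (c x, f)) (Def.iff ((U.hZ _).comp (by fun_prop))
        (Def.and ((U'.hZ _).comp (by fun_prop)) ((U''.hZ _).comp (by fun_prop)))))))).congr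
    fun x => and_congr_right fun a1 => ?_
  constructor
  · rintro ⟨⟨a2, a3⟩, ⟨a4, a5⟩, a6⟩
    refine ⟨a2, a4, ⟨U'.hB.mapsTo a2, a3⟩, ⟨U''.hB.mapsTo a4, a5⟩, quot_ext (U.hB.mapsTo a1)
      (e ▸ inf_quot hM (U'.hB.mapsTo a2) (U''.hB.mapsTo a4) (h1 x) a3 a5) fun f hf => ?_⟩
    rw [Submodule.mem_inf, U.mem _ _ a1 _ hf, U'.mem _ _ a2 _ hf, U''.mem _ _ a4 _ hf, a6 f hf]
  · rintro ⟨a2, a4, ⟨-, a3⟩, ⟨-, a5⟩, a6⟩
    refine ⟨⟨a2, a3⟩, ⟨a4, a5⟩, fun f hf => ?_⟩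
    rw [← U.mem _ _ a1 _ hf, ← U'.mem _ _ a2 _ hf, ← U''.mem _ _ a4 _ hf, a6, Submodule.mem_inf]

include U' U'' in
theorem def_spl' (hM : Graded M) (e : j + k = n) {g : Z → MvPolynomial σ ℂ} (hg : Tm g)
    (h1 : ∀ x, (g x).IsHomogeneous 1) {a : Z → Fin U.k → ℂ} (ha : Tm a) :
    Def fun x => U.A (a x) ∧ ∃ K' K'', Spl M (g x) j k (U.β (a x)) K' K'' :=
  (Def.ex (P := fun x (q : (Fin U'.k → ℂ) × (Fin U''.k → ℂ)) => U.A (a x) ∧ U'.A q.1 ∧ U''.A q.2 ∧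
      Spl M (g x) j k (U.β (a x)) (U'.β q.1) (U''.β q.2))
    (U.def_spl U' U'' hM e (hg.comp Tm.fst') (fun _ => h1 _) (ha.comp Tm.fst') (by fun_prop)
      (by fun_prop))).congr fun x => ⟨fun ⟨_, h, _, _, h'⟩ => ⟨h, _, _, h'⟩,
        fun ⟨h, K', K'', h'⟩ => by
          obtain ⟨b, b1, rfl⟩ := U'.hB.surjOn h'.1.1
          obtain ⟨c, c1, rfl⟩ := U''.hB.surjOn h'.2.1.1
          exact ⟨(b, c), h, b1, c1, h'⟩⟩

theorem chi_spl (hM : Graded M) (e : j + k = n) {g : MvPolynomial σ ℂ} (h1 : g.IsHomogeneous 1)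
    {P : Sub σ ι → Prop} (hP : Def fun a => U.A a ∧ P (U.β a))
    (hP' : Def fun a => U''.A a ∧ P (U''.β a))
    (h : ∀ K K' K'', Spl M g j k K K' K'' → (P K ↔ P K'')) :
    U.chi (fun K => P K ∧ ∃ K' K'', Spl M g j k K K' K'') =
      U'.chi (Nil g) * U''.chi fun K => P K ∧ Nzd g K := by
  have a1 := U'.def_nil (Tm.const g) (fun _ => h1) Tm.id'
  have a2 : Def fun a => U''.A a ∧ P (U''.β a) ∧ Nzd g (U''.β a) :=
    (hP'.and (U''.def_nzd (Tm.const g) (fun _ => h1) Tm.id')).congr fun _ => by tauto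
  rw [chi, EI_bij_ind (R := fun a (q : (Fin U'.k → ℂ) × (Fin U''.k → ℂ)) =>
    (U.A a ∧ P (U.β a)) ∧ U.A a ∧ U'.A q.1 ∧ U''.A q.2 ∧ Spl M g j k (U.β a) (U'.β q.1) (U''.β q.2))
    (B := fun q => (U'.A q.1 ∧ Nil g (U'.β q.1)) ∧ U''.A q.2 ∧ P (U''.β q.2) ∧ Nzd g (U''.β q.2))
    ((hP.comp Tm.fst').and (U.def_spl U' U'' hM e (Tm.const g) (fun _ => h1) Tm.fst' (by fun_prop)
      (by fun_prop)))
    ((hP.and (U.def_spl' U' U'' hM e (Tm.const g) (fun _ => h1) Tm.id')).congr fun _ => by tauto),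
    EI_prod (CF.ind ((a1.comp Tm.fst').and (a2.comp Tm.snd')))]
  · simp only [ind_and (U'.A _ ∧ _), EI_smul (CF.ind a2)]
    rw [mul_comm, chi, chi, ← EI_smul (CF.ind a1)]
    simp only [mul_comm]
  · rintro a ⟨b0, b1, K', K'', h'⟩
    obtain ⟨b, b2, rfl⟩ := U'.hB.surjOn h'.1.1
    obtain ⟨c, c1, rfl⟩ := U''.hB.surjOn h'.2.1.1
    exact ⟨(b, c), ⟨b0, b1⟩, b0, b2, c1, h'⟩
  · rintro ⟨b, c⟩ ⟨⟨b1, b2⟩, b3, b4, b5⟩
    obtain ⟨a, b6, b7⟩ := U.hB.surjOn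
      (e ▸ inf_quot hM (U'.hB.mapsTo b1) (U''.hB.mapsTo b3) h1 b2 b5)
    have : Spl M g j k (U.β a) (U'.β b) (U''.β c) :=
      ⟨⟨U'.hB.mapsTo b1, b2⟩, ⟨U''.hB.mapsTo b3, b5⟩, b7⟩
    exact ⟨a, ⟨b6, (h _ _ _ this).2 b4⟩, b6, b1, b3, this⟩
  · rintro a q q' ⟨-, -, b1, b2, b3⟩ ⟨-, -, c1, c2, c3⟩
    obtain ⟨-, e1, e2⟩ := c3.unique h1 b3
    exact Prod.ext (U'.hB.injOn c1 b1 e1) (U''.hB.injOn c2 b2 e2)
  · rintro a a' q ⟨-, b1, -, -, b3⟩ ⟨-, c1, -, -, c3⟩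
    exact U.hB.injOn c1 b1 (c3.2.2.trans b3.2.2.symm)
  · rintro a q ⟨⟨b0, b1⟩, -, b2, b3, b4⟩
    exact ⟨⟨b0, b1, _, _, b4⟩, ⟨b2, b4.1.2⟩, b3, (h _ _ _ b4).1 b1, b4.2.1.2⟩

end UF

theorem sum_spl {n : ℕ} {K : Sub σ ι} {g : MvPolynomial σ ℂ}
    (hg : g.IsHomogeneous 1) {j : ℕ} (hj : j ≤ n) (h : ∃ K' K'', Spl M g j (n - j) K K' K'')
    (u : ℕ → ℚ) : ∑ x ∈ antidiagonal n, u x.1 * ind (∃ K' K'', Spl M g x.1 x.2 K K' K'') =
      u j := by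
  rw [Finset.sum_eq_single (j, n - j), ind_pos h, mul_one]
  · rintro ⟨a, b⟩ h1 h2
    rw [ind_neg, mul_zero]
    rintro ⟨K1, K2, h3⟩
    obtain ⟨K', K'', h⟩ := h
    obtain ⟨rfl, -⟩ := h3.unique hg h
    rw [mem_antidiagonal] at h1
    exact h2 (Prod.ext rfl (by simp only at h1 ⊢; omega))
  · exact fun h => (h (by simp [hj])).elim

theorem chi_series (hM : Graded M) (U : ∀ n, UF M n) {g : MvPolynomial σ ℂ}
    (hg : g.IsHomogeneous 1) {P : Sub σ ι → Prop} (hP : ∀ n, Def fun a => (U n).A a ∧ P ((U n).β a))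
    (h : ∀ j k K K' K'', Spl M g j k K K' K'' → (P K ↔ P K'')) :
    (PowerSeries.mk fun n => (U n).chi P) = (PowerSeries.mk fun n => (U n).chi (Nil g)) *
      PowerSeries.mk fun n => (U n).chi fun K => P K ∧ Nzd g K := by
  ext n
  simp only [PowerSeries.coeff_mul, PowerSeries.coeff_mk]
  rw [← Finset.sum_congr rfl fun x hx => (U n).chi_spl (U x.1) (U x.2) hM
    (mem_antidiagonal.1 hx) hg (hP _) (hP _) (h _ _)]
  simp only [UF.chi]
  rw [← EI_sum _ fun x hx => CF.ind (((hP n).and ((U n).def_spl' (U x.1) (U x.2) hM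
    (mem_antidiagonal.1 hx) (Tm.const g) (fun _ => hg) Tm.id')).congr fun _ => by tauto)]
  congr 1
  funext a
  by_cases e : (U n).A a
  · obtain ⟨ℓ, L, a1, a2, a3⟩ := exists_AQ' ((U n).hB.mapsTo e)
    obtain ⟨j, a4, K', K'', a5, -⟩ := a2.spl hM a1 hg
    simp only [← and_assoc, ind_and (_ ∧ _)]
    rw [sum_spl hg a4 ⟨K', K'', a3 ▸ a5⟩ fun _ => ind ((U n).A a ∧ P ((U n).β a))]
  · simp [e]

theorem chi_zero (hM : Graded M) (U : UF M 0) {P : Sub σ ι → Prop} (hP : P ⊤) : U.chi P = 1 := by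
  have h0 : hom (⊤ : Sub σ ι) = ⊤ := eq_top_iff.2 fun _ _ _ => trivial
  have h1 : ∀ L : Sub σ ι, Subsingleton (Q L) ↔ L = ⊤ := fun L => by
    rw [Submodule.Quotient.subsingleton_iff, Submodule.restrictScalars_eq_top_iff]
  have := (h1 ⊤).2 rfl
  obtain ⟨a, h2, h3⟩ := U.hB.surjOn (h0 ▸ AQ.quot (ℓ := 0) (L := ⊤) ⟨le_top, fun _ => trivial,
    inferInstance, finrank_zero_of_subsingleton⟩ (isHomogeneous_zero _ _ _) hM)
  rw [UF.chi, ← EI_point a fun _ => 1]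
  congr 1
  funext b
  rw [mul_one]
  refine ind_congr ⟨fun h => U.hB.injOn h.1 h2 ?_, fun h => h ▸ ⟨h2, h3 ▸ hP⟩⟩
  obtain ⟨ℓ, L, -, ⟨-, -, a1, a2⟩, a3⟩ := exists_AQ' (U.hB.mapsTo h.1)
  rw [h3, ← a3, (h1 L).1 (finrank_zero_iff.1 a2), h0]

variable {ℓ0 ℓ1 : MvPolynomial σ ℂ}

theorem NN.local (h : NN M ℓ0 ℓ1) (hM : Graded M) (U : ∀ n, UF M n) :
    ∃ Φ : ℤ × ℂ → ℚ, CF Φ ∧ ∀ p (j : ℕ), (U j).chi (Nil (ℓ1 - p • ℓ0)) = Φ (j, p) := by
  obtain ⟨m, b, q, ρ, T, h1⟩ := h.lattices hM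
  obtain ⟨Φ, h2, h3⟩ := local_count ρ T
  refine ⟨Φ, h2, fun p j => h3 p j _ _ (fun a => cmp b (ℓ1 - C p) (aff ℓ0 ((U j).β a)))
    (fun κ _ e0 e => ?_) ((h1 p j).comp ⟨fun a ha => ⟨(U j).hB.mapsTo ha.1, ha.2⟩,
      (U j).hB.injOn.mono fun a ha => ha.1, fun K hK => ?_⟩)⟩
  · have a1 := fun f => (aff_aff ℓ0 (⊥ : Sub σ ι)).homog h.1 f
    choose D hD using a1
    have := Fintype.finite (inferInstance : Fintype κ)
    obtain ⟨d, hd⟩ := (Set.finite_range fun l : Option κ =>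
      D (pres b (ℓ1 - C p) (l.elim e0 e))).bddAbove
    choose g a2 a3 using fun l : Option κ => hD _ d (hd ⟨l, rfl⟩)
    refine ((((U j).def_nil (Tm.const _) (fun _ => h.pencil p) Tm.fst')).and (((U j).hZ d).comp
      (Tm.fst'.prodMk ((tm_comb (g none) fun l => g (some l)).comp Tm.snd')))).congr
        fun x => and_congr_right fun hx => ?_
    have a4 : g none + ∑ l, x.2 l • g (some l) ∈ V σ ι d :=
      add_mem (a2 _) (sum_mem fun l _ => Submodule.smul_mem _ _ (a2 _))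
    obtain ⟨L, b1, b2⟩ := exists_AQ ((U j).hB.mapsTo hx.1) h.1 (h.nzd ((U j).hB.mapsTo hx.1) hx.2)
    rw [← (U j).mem d _ hx.1 _ a4, mem_cmp, ← b2, aff_hom b1.2.1 h.1, mem_hom_V a4]
    have a5 : pres b (ℓ1 - C p) (e0 + ∑ l, x.2 l • e l) - (g none + ∑ l, x.2 l • g (some l)) ∈ L := by
      rw [map_add, map_sum, add_sub_add_comm, ← Finset.sum_sub_distrib]
      refine aff_le bot_le b1.2.1 (add_mem (a3 none) (sum_mem fun l _ => ?_))
      rw [map_smul, ← smul_sub]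
      exact csmul_mem _ _ (a3 (some l))
    exact ⟨fun e => (L.sub_mem_iff_left e).1 a5, fun e => (L.sub_mem_iff_right e).1 a5⟩
  · obtain ⟨a, a1, rfl⟩ := (U j).hB.surjOn hK.1
    exact ⟨a, ⟨a1, hK.2⟩, rfl⟩

theorem NN.isRat (h : NN M ℓ0 ℓ1) (hM : Graded M) (U : ∀ n, UF M n) (p : ℂ) :
    IsRat (PowerSeries.mk fun n => (U n).chi (Nil (ℓ1 - p • ℓ0))) := by
  obtain ⟨Φ, h1, h2⟩ := h.local hM U
  simpa only [h2] using (h1.comp (g := fun n : ℤ => (n, p)) (by fun_prop)).isRat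

theorem global_rat (hM : Graded M) {C : ℕ} (hC : ∀ d, hilb M d ≤ C * (d + 1)) (U : ∀ n, UF M n) :
    IsRat (PowerSeries.mk fun n => (U n).chi fun _ => True) := by
  obtain ⟨ℓ0, ℓ1, h⟩ := exists_NN hM hC
  rw [chi_series hM U (h.symm.pencil 0) (fun n => by simpa using (U n).hA) (by simp)]
  refine (h.symm.isRat hM U 0).mul ?_
  simp only [zero_smul, sub_zero, true_and]
  have hP := fun n => (U n).def_nzd (Tm.const ℓ0) (fun _ => h.1) Tm.id'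
  have hc : ∀ p j k K K' K'', Spl M (ℓ1 - p • ℓ0) j k K K' K'' → (Nzd ℓ0 K ↔ Nzd ℓ0 K'') :=
    fun p j k K K' K'' hs => ⟨fun H f hf => by
      obtain ⟨J, hJ⟩ := hs.mem.1 hf
      exact hs.mem.2 ⟨J, H _ (by rwa [smul_comm])⟩, fun H f hf => by
        rw [hs.2.2] at hf ⊢
        exact ⟨h.nzd hs.1.1 hs.1.2 f hf.1, H f hf.2⟩⟩
  obtain ⟨Φ, h1, h2⟩ := h.local hM U
  obtain ⟨E, hE⟩ := h1.unif
  refine euler_product (E := E) (h.isRat hM U) (fun p => ?_)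
    (fun p => chi_series hM U (h.pencil p) hP (hc p)) (fun p hp q hq => ?_) fun n => ?_
  · rw [← PowerSeries.coeff_zero_eq_constantCoeff_apply, PowerSeries.coeff_mk,
      chi_zero hM _ ⟨0, fun _ => trivial⟩]
    exact one_ne_zero
  · simp only [h2, hE p hp q hq]
  have e1 : ∀ (F : PowerSeries ℚ) (j : ℕ), PowerSeries.coeff j
      (PowerSeries.X * PowerSeries.derivative ℚ F) = j * PowerSeries.coeff j F := fun F j => by
    cases j with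
    | zero => simp
    | succ n => rw [PowerSeries.coeff_succ_X_mul, PowerSeries.coeff_derivative]; push_cast; ring
  have e2 : ∀ x ∈ antidiagonal n, Def fun q : (Fin (U n).k → ℂ) × ℂ => (U n).A q.1 ∧
      Nzd ℓ0 ((U n).β q.1) ∧ ∃ K' K'', Spl M (ℓ1 - q.2 • ℓ0) x.1 x.2 ((U n).β q.1) K' K'' :=
    fun x hx => (((hP n).comp Tm.fst').and ((U n).def_spl' (U x.1) (U x.2) hM
      (mem_antidiagonal.1 hx) ((tm_pencil ℓ0 ℓ1).comp Tm.snd') (fun _ => h.pencil _)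
      Tm.fst')).congr fun _ => by tauto
  have e3 := CF.sum (antidiagonal n) fun x hx => (CF.ind (e2 x hx)).smul (x.1 : ℚ)
  have e4 : ∀ p : ℂ, PowerSeries.coeff n (PowerSeries.X * PowerSeries.derivative ℚ
      (PowerSeries.mk fun n => (U n).chi (Nil (ℓ1 - p • ℓ0))) * PowerSeries.mk fun n =>
        (U n).chi fun K => Nzd ℓ0 K ∧ Nzd (ℓ1 - p • ℓ0) K) = EI fun a =>
        ∑ x ∈ antidiagonal n, (x.1 : ℚ) * ind ((U n).A a ∧ Nzd ℓ0 ((U n).β a) ∧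
          ∃ K' K'', Spl M (ℓ1 - p • ℓ0) x.1 x.2 ((U n).β a) K' K'') := fun p => by
    have e5 := fun x hx => CF.ind ((e2 x hx).comp (h := fun a => (a, p)) (by fun_prop))
    rw [PowerSeries.coeff_mul, EI_sum _ fun x hx => (e5 x hx).smul _]
    refine Finset.sum_congr rfl fun x hx => ?_
    rw [e1, PowerSeries.coeff_mk, PowerSeries.coeff_mk, mul_assoc, EI_smul (e5 x hx),
      ← (U n).chi_spl (U x.1) (U x.2) hM (mem_antidiagonal.1 hx) (h.pencil p) (hP _) (hP _)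
        (hc p _ _)]
    rfl
  simp only [e4]
  rw [← EI_int1 (CF.EI (e3.comp (g := fun q : ℂ × (Fin (U n).k → ℂ) => (q.2, q.1))
    (by fun_prop))), ← EI_comm e3, PowerSeries.coeff_mk, UF.chi, ← EI_smul (CF.ind (hP n))]
  congr 1
  funext a
  rw [EI_int1 (e3.comp (g := fun p => (a, p)) (by fun_prop))]
  by_cases e : (U n).A a ∧ Nzd ℓ0 ((U n).β a)
  · obtain ⟨μ, E, a1, a2, a3⟩ := h.mult hM ((U n).hB.mapsTo e.1) e.2
    simp only [e.1, e.2, true_and, fun p => sum_spl (h.pencil p) (a3 p).1 (a3 p).2 Nat.cast]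
    rw [int1_fin (E := E) fun p hp => by simp [a1 p hp], ← Nat.cast_sum, a2]
    simp
  · simp only [← and_assoc, e, false_and, ind_false, mul_zero, Finset.sum_const_zero, int1_const]

end Pool.Agent.Lib.MP_d4c0ca_ag
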