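import Pool.Agent.Lib.MP_d4c0ca_ag.Defs

/-! Graded and affine descriptions of finite length quotients. -/

namespace Pool.Agent.Lib.MP_d4c0ca_ag

open MvPolynomial Module
open scoped Classical

variable {σ ι : Type}

/-- submodules of the free module -/
abbrev Sub (σ ι : Type) := Submodule (MvPolynomial σ ℂ) (ι → MvPolynomial σ ℂ)

/-- homogeneous components -/
noncomputable def hc (d : ℕ) : (ι → MvPolynomial σ ℂ) →ₗ[ℂ] (ι → MvPolynomial σ ℂ) :=
  (homogeneousComponent d).compLeft ι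

theorem mem_V {d : ℕ} {f : ι → MvPolynomial σ ℂ} : f ∈ V σ ι d ↔ ∀ i, (f i).IsHomogeneous d := by
  simp [V, Submodule.mem_pi]

theorem hc_mem (d : ℕ) (f : ι → MvPolynomial σ ℂ) : hc d f ∈ V σ ι d :=
  mem_V.2 fun _ => homogeneousComponent_isHomogeneous _ _

theorem hc_of_mem {d : ℕ} {f : ι → MvPolynomial σ ℂ} (h : f ∈ V σ ι d) (e : ℕ) :
    hc e f = if e = d then f else 0 := by
  funext i
  refine (homogeneousComponent_of_mem (mem_V.1 h i)).trans ?_
  split_ifs <;> rfl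

theorem smul_mem_V {d k : ℕ} {g : MvPolynomial σ ℂ} (hg : g.IsHomogeneous k)
    {f : ι → MvPolynomial σ ℂ} (h : f ∈ V σ ι d) : g • f ∈ V σ ι (k + d) :=
  mem_V.2 fun i => hg.mul (mem_V.1 h i)

theorem graded_iff {K : Sub σ ι} : Graded K ↔ ∀ f ∈ K, ∀ d, hc d f ∈ K := Iff.rfl

theorem csmul_mem (K : Sub σ ι) (c : ℂ) {f : ι → MvPolynomial σ ℂ} (h : f ∈ K) : c • f ∈ K :=
  K.smul_of_tower_mem c h

variable [Finite ι]

theorem sum_hc (f : ι → MvPolynomial σ ℂ) :
    ∃ D, (∀ e, D ≤ e → hc e f = 0) ∧ ∑ e ∈ Finset.range D, hc e f = f := by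
  obtain ⟨D, hD⟩ := (Set.finite_range fun i => (f i).totalDegree).bddAbove
  refine ⟨D + 1, fun e he => funext fun i => homogeneousComponent_eq_zero _ _
    (lt_of_le_of_lt (hD ⟨i, rfl⟩) he), funext fun i => ?_⟩
  rw [Finset.sum_apply, ← sum_homogeneousComponent (f i)]
  refine (Finset.sum_subset (Finset.range_subset_range.2 (Nat.succ_le_succ (hD ⟨i, rfl⟩)))
    fun e _ he => homogeneousComponent_eq_zero _ _ (by simpa using he)).symm.trans ?_
  rw [sum_homogeneousComponent]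

theorem mem_of_hc {P : Submodule ℂ (ι → MvPolynomial σ ℂ)} {f : ι → MvPolynomial σ ℂ}
    (h : ∀ d, hc d f ∈ P) : f ∈ P := by
  obtain ⟨D, -, h2⟩ := sum_hc f
  exact h2 ▸ sum_mem fun e _ => h e

theorem mem_of_hc' {K : Sub σ ι} {f : ι → MvPolynomial σ ℂ} (h : ∀ d, hc d f ∈ K) : f ∈ K :=
  mem_of_hc (P := K.restrictScalars ℂ) h

theorem hc_smul {k : ℕ} {g : MvPolynomial σ ℂ} (hg : g.IsHomogeneous k)
    (f : ι → MvPolynomial σ ℂ) (d : ℕ) :
    hc d (g • f) = if k ≤ d then g • hc (d - k) f else 0 := by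
  obtain ⟨D, h1, h2⟩ := sum_hc f
  conv_lhs => rw [← h2, Finset.smul_sum, map_sum]
  simp only [hc_of_mem (smul_mem_V hg (hc_mem _ f))]
  split_ifs with h
  · rw [Finset.sum_eq_single (d - k), if_pos (by omega)]
    · exact fun e _ he => if_neg (by omega)
    · intro he
      rw [h1 _ (by simpa using he)]; simp
  · exact Finset.sum_eq_zero fun e _ => if_neg (by omega)

theorem hc_smul_add {k : ℕ} {g : MvPolynomial σ ℂ} (hg : g.IsHomogeneous k)
    (f : ι → MvPolynomial σ ℂ) (d : ℕ) : hc (k + d) (g • f) = g • hc d f := by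
  rw [hc_smul hg, if_pos (by omega), Nat.add_sub_cancel_left]

/-- the largest graded submodule -/
noncomputable def hom (L : Sub σ ι) : Sub σ ι where
  carrier := {f | ∀ d, hc d f ∈ L}
  add_mem' := fun h1 h2 d => by rw [map_add]; exact add_mem (h1 d) (h2 d)
  zero_mem' := fun d => by simp
  smul_mem' := fun g f hf => by
    induction g using MvPolynomial.induction_on generalizing f with
    | C c => exact fun d => by rw [← algebraMap_eq, algebraMap_smul, map_smul]; exact csmul_mem _ _ (hf d)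
    | add p q hp hq =>
      exact fun d => by rw [add_smul, map_add]; exact add_mem (hp f hf d) (hq f hf d)
    | mul_X p s hp =>
      rw [mul_smul]
      refine hp _ fun d => ?_
      rw [hc_smul (isHomogeneous_X ℂ s)]
      split_ifs
      exacts [L.smul_mem _ (hf _), zero_mem _]

theorem mem_hom {L : Sub σ ι} {f} : f ∈ hom L ↔ ∀ d, hc d f ∈ L := Iff.rfl

theorem hom_le (L : Sub σ ι) : hom L ≤ L := fun _ => mem_of_hc'

theorem mem_hom_V {L : Sub σ ι} {d : ℕ} {f} (hf : f ∈ V σ ι d) : f ∈ hom L ↔ f ∈ L :=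
  ⟨fun h => hom_le L h, fun h e => by
    rw [hc_of_mem hf]; split_ifs; exacts [h, zero_mem _]⟩

theorem hom_graded (L : Sub σ ι) : Graded (hom L) := fun f hf d =>
  (mem_hom_V (hc_mem d f)).2 (hf d)

theorem Graded.le_hom {K L : Sub σ ι} (hK : Graded K) (h : K ≤ L) : K ≤ hom L :=
  fun f hf d => h (hK f hf d)

theorem hom_inf (L L' : Sub σ ι) : hom (L ⊓ L') = hom L ⊓ hom L' :=
  Submodule.ext fun _ => forall_and

/-- `g` acts injectively on the quotient -/
def Nzd (g : MvPolynomial σ ℂ) (K : Sub σ ι) : Prop := ∀ f, g • f ∈ K → f ∈ K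

/-- `g` acts nilpotently on the quotient -/
def Nil (g : MvPolynomial σ ℂ) (K : Sub σ ι) : Prop := ∃ J : ℕ, ∀ f, g ^ J • f ∈ K

/-- `g` acts as the identity on the quotient -/
def Aff (g : MvPolynomial σ ℂ) (K : Sub σ ι) : Prop := ∀ f, g • f - f ∈ K

omit [Finite ι] in
theorem Nzd.pow {g : MvPolynomial σ ℂ} {K : Sub σ ι} (h : Nzd g K) (n : ℕ) : Nzd (g ^ n) K := by
  induction n with
  | zero => exact fun f hf => by simpa using hf
  | succ n ih => exact fun f hf => h f (ih _ (by rwa [← mul_smul, ← pow_succ]))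

omit [Finite ι] in
theorem Aff.pow {g : MvPolynomial σ ℂ} {K : Sub σ ι} (h : Aff g K) (n : ℕ) : Aff (g ^ n) K := by
  induction n with
  | zero => exact fun f => by simp
  | succ n ih => exact fun f => by simpa [pow_succ, mul_smul] using add_mem (ih (g • f)) (h f)

omit [Finite ι] in
theorem Aff.iff {g : MvPolynomial σ ℂ} {K : Sub σ ι} (h : Aff g K) {f} : g • f ∈ K ↔ f ∈ K :=
  ⟨fun e => (K.sub_mem_iff_right e).1 (h f), fun e => (K.sub_mem_iff_left e).1 (h f)⟩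

variable {ℓ : MvPolynomial σ ℂ}

theorem Aff.homog {L : Sub σ ι} (h : Aff ℓ L) (hℓ : ℓ.IsHomogeneous 1) (f : ι → MvPolynomial σ ℂ) :
    ∃ D, ∀ d, D ≤ d → ∃ g ∈ V σ ι d, f - g ∈ L := by
  obtain ⟨D, -, h2⟩ := sum_hc f
  refine ⟨D, fun d hd => ⟨∑ e ∈ Finset.range D, ℓ ^ (d - e) • hc e f, sum_mem fun e he => ?_, ?_⟩⟩
  · have := smul_mem_V (hℓ.pow (d - e)) (hc_mem e f)
    rwa [one_mul, Nat.sub_add_cancel (by simp at he; omega)] at this
  · nth_rewrite 1 [← h2]
    rw [← Finset.sum_sub_distrib]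
    exact sum_mem fun e _ => sub_mem_comm_iff.1 (h.pow _ _)

theorem Aff.eq_of_hom {L L' : Sub σ ι} (h : Aff ℓ L) (h' : Aff ℓ L') (hℓ : ℓ.IsHomogeneous 1)
    (e : hom L ≤ hom L') : L ≤ L' := fun f hf => by
  obtain ⟨D, hD⟩ := Aff.homog (L := L ⊓ L') (fun f => ⟨h f, h' f⟩) hℓ f
  obtain ⟨g, h1, h2, h3⟩ := hD D le_rfl
  exact (L'.sub_mem_iff_left (hom_le _ (e ((mem_hom_V h1).2 ((L.sub_mem_iff_right hf).1 h2))))).1 h3

theorem nzd_hom {L : Sub σ ι} {k : ℕ} {g : MvPolynomial σ ℂ} (hg : g.IsHomogeneous k)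
    (h : Nzd g L) : Nzd g (hom L) := fun f hf d => h _ (hc_smul_add hg f d ▸ hf _)

theorem Aff.nzd_iff {L : Sub σ ι} (h : Aff ℓ L) (hℓ : ℓ.IsHomogeneous 1) {k : ℕ}
    {g : MvPolynomial σ ℂ} (hg : g.IsHomogeneous k) : Nzd g (hom L) ↔ Nzd g L := by
  refine ⟨fun H f hf => ?_, nzd_hom hg⟩
  obtain ⟨D, hD⟩ := h.homog hℓ f
  obtain ⟨u, h1, h2⟩ := hD D le_rfl
  refine (L.sub_mem_iff_left (hom_le _ (H u ((mem_hom_V (smul_mem_V hg h1)).2 ?_)))).1 h2
  exact (L.sub_mem_iff_right hf).1 (smul_sub g f u ▸ L.smul_mem g h2)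

theorem nil_hom_iff {L : Sub σ ι} {k : ℕ} {g : MvPolynomial σ ℂ} (hg : g.IsHomogeneous k) :
    Nil g (hom L) ↔ Nil g L := by
  refine exists_congr fun J => ⟨fun H f => hom_le _ (H f), fun H f d => ?_⟩
  rw [hc_smul (hg.pow J)]
  split_ifs
  exacts [H _, zero_mem _]

theorem exists_aff {K : Sub σ ι} (hK : Graded K) (hℓ : ℓ.IsHomogeneous 1) (h : Nzd ℓ K) :
    ∃ L, Aff ℓ L ∧ hom L = K := by
  refine ⟨K ⊔ LinearMap.range ((ℓ - 1) • LinearMap.id), fun f => Submodule.mem_sup_right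
    ⟨f, by simp [sub_smul]⟩, le_antisymm (fun f hf => mem_of_hc' fun d => ?_)
      (hK.le_hom le_sup_left)⟩
  obtain ⟨k, hk, _, ⟨g, rfl⟩, e⟩ := Submodule.mem_sup.1 (hf d)
  have h1 : ∀ e, (if e = d then hc d f else 0) -
      ((if 1 ≤ e then ℓ • hc (e - 1) g else 0) - hc e g) ∈ K := fun e' => by
    rw [← hc_of_mem (hc_mem d f), ← e, ← hc_smul hℓ]
    simpa [sub_smul] using graded_iff.1 hK k hk e'
  have h2 : ∀ e, e < d → hc e g ∈ K := fun e => by
    induction e with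
    | zero => exact fun he => by simpa [he.ne] using h1 0
    | succ e ih =>
      intro he
      have := h1 (e + 1)
      rw [if_neg he.ne, if_pos (by omega), zero_sub, neg_sub, Nat.add_sub_cancel] at this
      exact (K.sub_mem_iff_left (K.smul_mem ℓ (ih (by omega)))).1 this
  obtain ⟨D, hD, -⟩ := sum_hc g
  have h3 : hc d g ∈ K := by
    refine Nat.decreasingInduction (n := d + D) (motive := fun e _ => d ≤ e → hc e g ∈ K)
      (fun e _ ih he => h _ ?_) (fun _ => by simp [hD]) (Nat.le_add_right _ _) le_rfl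
    have := h1 (e + 1)
    rw [if_neg (by omega), if_pos (by omega), zero_sub, neg_sub, Nat.add_sub_cancel] at this
    exact (K.sub_mem_iff_right (ih (by omega))).1 this
  have := h1 d
  rw [if_pos rfl] at this
  refine (K.sub_mem_iff_left (sub_mem ?_ h3)).1 this
  split_ifs with h4
  exacts [K.smul_mem _ (h2 _ (by omega)), zero_mem _]

omit [Finite ι] in
theorem hilb_congr {K K' : Sub σ ι} {d : ℕ} (h : ∀ f ∈ V σ ι d, f ∈ K ↔ f ∈ K') :
    hilb K d = hilb K' d := by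
  have : ∀ K : Sub σ ι, hilb K d = finrank ℂ (V σ ι d ⧸ (K.restrictScalars ℂ).comap
      (V σ ι d).subtype) := fun K => by
    have := (LinearMap.quotKerEquivRange ((K.restrictScalars ℂ).mkQ ∘ₗ
      (V σ ι d).subtype)).finrank_eq
    rw [LinearMap.range_comp, Submodule.range_subtype, LinearMap.ker_comp,
      Submodule.ker_mkQ] at this
    exact this.symm
  rw [this, this, show (K.restrictScalars ℂ).comap (V σ ι d).subtype =
    (K'.restrictScalars ℂ).comap (V σ ι d).subtype from Submodule.ext fun f => h f.1 f.2]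

variable [Fintype σ]

omit [Finite ι] in
theorem V_succ {d : ℕ} {f : ι → MvPolynomial σ ℂ} (h : f ∈ V σ ι (d + 1)) :
    ∃ g : σ → ι → MvPolynomial σ ℂ, (∀ s, g s ∈ V σ ι d) ∧
      f = ∑ s, (X s : MvPolynomial σ ℂ) • g s := by
  refine ⟨fun s => ((d + 1 : ℕ) : ℂ)⁻¹ • fun i => pderiv s (f i), fun s => Submodule.smul_mem _ _
    (mem_V.2 fun i => (mem_V.1 h i).pderiv), funext fun i => ?_⟩
  simp only [Finset.sum_apply, Pi.smul_apply, smul_eq_mul, mul_smul_comm, ← Finset.smul_sum,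
    (mem_V.1 h i).sum_X_mul_pderiv]
  rw [← Nat.cast_smul_eq_nsmul ℂ, smul_smul, inv_mul_cancel₀ (by exact_mod_cast d.succ_ne_zero),
    one_smul]

theorem lin_eq (hℓ : ℓ.IsHomogeneous 1) : ∃ c : σ → ℂ, ℓ = ∑ s, c s • X s := by
  have : ℓ ∈ homogeneousSubmodule σ ℂ 1 := hℓ
  rw [homogeneousSubmodule_one_eq_span_X, Submodule.mem_span_range_iff_exists_fun] at this
  obtain ⟨c, hc⟩ := this
  exact ⟨c, hc.symm⟩

theorem lin_hom (c : σ → ℂ) : (∑ s, c s • X s : MvPolynomial σ ℂ).IsHomogeneous 1 :=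
  (homogeneousSubmodule σ ℂ 1).sum_mem fun s _ => Submodule.smul_mem _ _ (isHomogeneous_X ℂ s)

instance V_finite (d : ℕ) : Module.Finite ℂ (V σ ι d) :=
  Module.Finite.iff_fg.2 (Submodule.fg_pi fun _ => homogeneousSubmodule_fg σ ℂ d)

theorem exists_nzd {κ : Type} [Finite κ] (K : κ → Sub σ ι)
    (h : ∀ j f, (∀ s : σ, (X s : MvPolynomial σ ℂ) • f ∈ K j) → f ∈ K j) :
    ∃ ℓ : MvPolynomial σ ℂ, ℓ.IsHomogeneous 1 ∧ ∀ j, Nzd ℓ (K j) := by
  have := fun j => (associatedPrimes.finite (MvPolynomial σ ℂ)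
    ((ι → MvPolynomial σ ℂ) ⧸ K j)).to_subtype
  obtain ⟨c, hc⟩ := Submodule.exists_forall_notMem_of_forall_ne_top
    (ι := Σ j, associatedPrimes (MvPolynomial σ ℂ) ((ι → MvPolynomial σ ℂ) ⧸ K j))
    (fun P => (P.2.1.restrictScalars ℂ).comap (Fintype.linearCombination ℂ X)) fun P hP => by
      obtain ⟨h1, x, h2⟩ := isAssociatedPrime_iff.1 P.2.2
      obtain ⟨x, rfl⟩ := Submodule.Quotient.mk_surjective _ x
      refine h1.ne_top ?_
      rw [h2, (Submodule.Quotient.mk_eq_zero _).2 (h _ x fun s => ?_)]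
      · simp
      · have : Pi.single s 1 ∈ (P.2.1.restrictScalars ℂ).comap (Fintype.linearCombination ℂ X) :=
          hP ▸ Submodule.mem_top
        simpa [h2, ← Submodule.Quotient.mk_smul] using this
  refine ⟨_, lin_hom c, fun j f hf => by_contra fun h0 => ?_⟩
  have : ∑ s, c s • X s ∈ ⋃ p ∈ associatedPrimes (MvPolynomial σ ℂ)
      ((ι → MvPolynomial σ ℂ) ⧸ K j), (p : Set (MvPolynomial σ ℂ)) := by
    rw [biUnion_associatedPrimes_eq_zero_divisors]
    exact ⟨Submodule.Quotient.mk f, (Submodule.Quotient.mk_eq_zero _).not.2 h0,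
      (Submodule.Quotient.mk_eq_zero _).2 hf⟩
  obtain ⟨P, h1, h2⟩ := Set.mem_iUnion₂.1 this
  exact hc ⟨j, P, h1⟩ h2

end Pool.Agent.Lib.MP_d4c0ca_ag
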