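import Mathlib

/-! Triangular bases of lattices over the polynomial ring. -/

namespace Pool.Agent.Lib.MP_d4c0ca_ag

open Matrix Polynomial

variable {m : ℕ}

section general

variable {R : Type} [CommRing R]

/-- upper triangular matrix with powers of `t` on the diagonal -/
def tri (t : R) (a : Fin m → ℕ) (h : Fin m × Fin m → R) : Matrix (Fin m) (Fin m) R :=
  fun i k => if i < k then h (i, k) else if i = k then t ^ a k else 0

theorem tri_diag (t : R) (a : Fin m → ℕ) (h : Fin m × Fin m → R) (k : Fin m) :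
    tri t a h k k = t ^ a k := by simp [tri]

theorem tri_low (t : R) (a : Fin m → ℕ) (h : Fin m × Fin m → R) {i k : Fin m} (hk : k < i) :
    tri t a h i k = 0 := by simp [tri, hk.ne', hk.not_gt]

theorem tri_det (t : R) (a : Fin m → ℕ) (h : Fin m × Fin m → R) :
    (tri t a h).det = t ^ ∑ k, a k := by
  rw [det_of_isUpperTriangular (M := tri t a h) fun i k hk => tri_low t a h hk,
    ← Finset.prod_pow_eq_pow_sum]
  simp only [tri_diag]

theorem tri_map {R' : Type} [CommRing R'] (f : R →+* R') (t : R) (a : Fin m → ℕ)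
    (h : Fin m × Fin m → R) : (tri t a h).map f = tri (f t) a fun p => f (h p) := by
  ext i k
  simp only [tri, map_apply]
  split_ifs <;> simp

/-- the lattice spanned by the columns -/
def lat (t : R) (a : Fin m → ℕ) (h : Fin m × Fin m → R) : Submodule R (Fin m → R) :=
  LinearMap.range (tri t a h).mulVecLin

theorem mem_lat {t : R} {a : Fin m → ℕ} {h : Fin m × Fin m → R} {v : Fin m → R} :
    v ∈ lat t a h ↔ ∃ y, tri t a h *ᵥ y = v := Iff.rfl

theorem pow_mem_lat (t : R) (a : Fin m → ℕ) (h : Fin m × Fin m → R) (v : Fin m → R) :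
    t ^ (∑ k, a k) • v ∈ lat t a h :=
  ⟨(tri t a h).adjugate *ᵥ v, by
    rw [mulVecLin_apply, mulVec_mulVec, mul_adjugate, tri_det, smul_mulVec, one_mulVec]⟩

theorem lat_le_iff {t : R} {a : Fin m → ℕ} {h : Fin m × Fin m → R} {Λ : Submodule R (Fin m → R)} :
    lat t a h ≤ Λ ↔ ∀ k, (tri t a h).col k ∈ Λ := by
  rw [lat, range_mulVecLin, Submodule.span_le, Set.range_subset_iff]
  rfl

theorem lat_congr {t : R} {a : Fin m → ℕ} {h h' : Fin m × Fin m → R}
    (e : ∀ p, t ^ (∑ k, a k) ∣ h p - h' p) : lat t a h = lat t a h' := by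
  have key : ∀ h h' : Fin m × Fin m → R, (∀ p, t ^ (∑ k, a k) ∣ h p - h' p) →
      lat t a h ≤ lat t a h' := fun h h' e => lat_le_iff.2 fun k => by
    choose u hu using e
    have : (tri t a h).col k = (tri t a h').col k +
        t ^ (∑ k, a k) • fun i => if i < k then u (i, k) else 0 := by
      funext i
      simp only [col_apply, tri, Pi.add_apply, Pi.smul_apply, smul_eq_mul]
      split_ifs <;> simp [← hu]
    rw [this]
    exact add_mem (lat_le_iff.1 le_rfl k) (pow_mem_lat _ _ _ _)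
  exact le_antisymm (key _ _ e) (key _ _ fun p => dvd_sub_comm.1 (e p))

theorem tri_top (t : R) (a : Fin m → ℕ) (h : Fin m × Fin m → R) {y : Fin m → R} {k : Fin m}
    (hy : ∀ i, k < i → y i = 0) : (tri t a h *ᵥ y) k = t ^ a k * y k := by
  rw [mulVec, dotProduct, Finset.sum_eq_single k, tri_diag]
  · intro i _ hi
    rcases lt_or_gt_of_ne hi with hi | hi
    · rw [tri_low _ _ _ hi, zero_mul]
    · rw [hy i hi, mul_zero]
  · simp

theorem exists_top {y : Fin m → R} (hy : y ≠ 0) : ∃ k, y k ≠ 0 ∧ ∀ i, k < i → y i = 0 := by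
  classical
  obtain ⟨k, hk, hm⟩ := (Finset.univ.filter fun i => y i ≠ 0).exists_max_image id
    (by obtain ⟨i, hi⟩ := Function.ne_iff.1 hy; exact ⟨i, by simpa using hi⟩)
  exact ⟨k, by simpa using hk, fun i hi => by_contra fun e => (hm i (by simpa using e)).not_gt hi⟩

theorem desc_ind (P : (Fin m → R) → Prop) (N : AddSubgroup (Fin m → R))
    (h : ∀ k v, P v → (∀ i, k < i → v i = 0) → ∃ u ∈ N, P (v - u) ∧ ∀ i, k ≤ i → (v - u) i = 0) :
    ∀ v, P v → v ∈ N := by
  have : ∀ n : ℕ, ∀ v, P v → (∀ i : Fin m, n ≤ i.1 → v i = 0) → v ∈ N := by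
    intro n
    induction n with
    | zero => exact fun v _ hv => by rw [show v = 0 from funext fun i => hv i (by omega)]; simp
    | succ n ih =>
      intro v h1 h2
      by_cases hn : n < m
      · obtain ⟨u, a1, a2, a3⟩ := h ⟨n, hn⟩ v h1 fun i hi => h2 i hi
        simpa using add_mem (ih _ a2 fun i hi => a3 i hi) a1
      · exact ih v h1 fun i hi => by omega
  exact fun v hv => this m v hv fun i hi => by omega

end general

theorem lat_eq {a a' : Fin m → ℕ} {h h' : Fin m × Fin m → ℂ[X]} (e : lat X a h ≤ lat X a' h')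
    (e' : ∑ k, a k = ∑ k, a' k) : a = a' ∧ lat X a h = lat X a' h' := by
  choose y hy using lat_le_iff.1 e
  simp only [mulVecLin_apply] at hy
  refine ⟨(funext fun k => (Finset.sum_eq_sum_iff_of_le fun k _ => ?_).1 e'.symm k
    (Finset.mem_univ _)).symm, le_antisymm e (lat_le_iff.2 fun k => ?_)⟩
  · have h1 : ∀ i, k < i → y k i = 0 := by
      by_cases h0 : y k = 0
      · simp [h0]
      obtain ⟨i, h1, h2⟩ := exists_top h0
      refine fun j hj => h2 j (lt_of_le_of_lt (not_lt.1 fun h3 => ?_) hj)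
      have := tri_top X a' h' h2
      rw [hy, col_apply, tri_low _ _ _ h3] at this
      exact mul_ne_zero (pow_ne_zero _ X_ne_zero) h1 this.symm
    have := tri_top X a' h' h1
    rw [hy, col_apply, tri_diag] at this
    simpa using natDegree_le_of_dvd ⟨_, this⟩ (pow_ne_zero _ X_ne_zero)
  · have h1 : tri X a' h' * (Matrix.of y)ᵀ = tri X a h := by
      ext1 i k
      exact congrFun (hy k) i
    have h2 := congrArg det h1
    rw [det_mul, tri_det, tri_det, e', mul_eq_left₀ (pow_ne_zero _ X_ne_zero)] at h2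
    refine ⟨((Matrix.of y)ᵀ.adjugate).col k, ?_⟩
    have h3 : tri X a h * (Matrix.of y)ᵀ.adjugate = tri X a' h' := by
      rw [← h1, Matrix.mul_assoc, mul_adjugate, h2]
      simp
    rw [← h3]
    rfl

theorem exists_lat {Λ : Submodule ℂ[X] (Fin m → ℂ[X])} {J : ℕ}
    (hJ : ∀ v, (X : ℂ[X]) ^ J • v ∈ Λ) : ∃ a h, lat X a h = Λ := by
  have : ∀ k : Fin m, ∃ (a : ℕ) (c : Fin m → ℂ[X]), c ∈ Λ ∧ (∀ i, k < i → c i = 0) ∧ c k = X ^ a ∧
      ∀ v ∈ Λ, (∀ i, k < i → v i = 0) → X ^ a ∣ v k := fun k => by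
    let N : Submodule ℂ[X] (Fin m → ℂ[X]) := Λ ⊓ Submodule.pi {i | k < i} fun _ => ⊥
    have hN : ∀ v, v ∈ N ↔ v ∈ Λ ∧ ∀ i, k < i → v i = 0 := fun v => by simp [N, Submodule.mem_pi]
    let I : Ideal ℂ[X] := N.map (LinearMap.proj k)
    obtain ⟨g, hg⟩ := (IsPrincipalIdealRing.principal I).principal
    have h1 : ∀ v ∈ N, g ∣ v k := fun v hv =>
      Ideal.mem_span_singleton.1 (hg.le ⟨v, hv, rfl⟩)
    have h2 := h1 (X ^ J • Pi.single k 1) ((hN _).2 ⟨hJ _, fun i hi => by simp [hi.ne']⟩)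
    simp only [Pi.smul_apply, Pi.single_eq_same, smul_eq_mul, mul_one] at h2
    obtain ⟨a, -, ha⟩ := (dvd_prime_pow prime_X J).1 h2
    obtain ⟨c, h3, h4⟩ : X ^ a ∈ I := hg ▸ Ideal.mem_span_singleton.2 ha.dvd
    exact ⟨a, c, ((hN c).1 h3).1, ((hN c).1 h3).2, h4, fun v h5 h6 =>
      ha.symm.dvd.trans (h1 v ((hN v).2 ⟨h5, h6⟩))⟩
  choose a c h1 h2 h3 h4 using this
  have hc : ∀ k, (tri X a fun p => c p.2 p.1).col k = c k := fun k => funext fun i => by
    simp only [col_apply, tri]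
    split_ifs with e e'
    · rfl
    · rw [e', h3]
    · rw [h2 k i (lt_of_le_of_ne (not_lt.1 e) (Ne.symm e'))]
  refine ⟨a, fun p => c p.2 p.1, le_antisymm (lat_le_iff.2 fun k => hc k ▸ h1 k)
    (desc_ind (· ∈ Λ) (lat X a fun p => c p.2 p.1).toAddSubgroup fun k v hv hk => ?_)⟩
  obtain ⟨q, hq⟩ := h4 k v hv hk
  refine ⟨q • c k, Submodule.smul_mem _ _ (hc k ▸ lat_le_iff.1 le_rfl k),
    sub_mem hv (Λ.smul_mem _ (h1 k)), fun i hi => ?_⟩
  rcases hi.lt_or_eq with hi | rfl
  · simp [hk i hi, h2 k i hi]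
  · simp [hq, h3, mul_comm]

theorem equiv_lat (a : Fin m → ℕ) (h : Fin m × Fin m → ℂ[X]) :
    Nonempty (((Fin m → ℂ[X]) ⧸ lat X a h) ≃ₗ[ℂ] ∀ k, Fin (a k) → ℂ) := by
  let W : Submodule ℂ (Fin m → ℂ[X]) := Submodule.pi Set.univ fun k => degreeLT ℂ (a k)
  have hW : ∀ v, v ∈ W ↔ ∀ k, (v k).degree < a k := fun v => by
    simp [W, Submodule.mem_pi, mem_degreeLT]
  have hc : IsCompl ((lat X a h).restrictScalars ℂ) W := by
    refine ⟨Submodule.disjoint_def.2 ?_, codisjoint_iff.2 (eq_top_iff.2 fun v _ =>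
      desc_ind (fun _ => True) ((lat X a h).restrictScalars ℂ ⊔ W).toAddSubgroup
        (fun k v _ hk => ?_) v trivial)⟩
    · rintro _ ⟨y, rfl⟩ hy
      by_cases h0 : y = 0
      · simp [h0]
      obtain ⟨k, h1, h2⟩ := exists_top h0
      have := (hW _).1 hy k
      rw [mulVecLin_apply, tri_top _ _ _ h2, degree_mul, degree_X_pow] at this
      exact (this.not_ge (le_add_of_nonneg_right (zero_le_degree_iff.2 h1))).elim
    · have hm : (X ^ a k : ℂ[X]).Monic := monic_X_pow _
      refine ⟨(v k /ₘ X ^ a k) • (tri X a h).col k + Pi.single k (v k %ₘ X ^ a k),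
        Submodule.add_mem_sup ((lat X a h).smul_mem _ (lat_le_iff.1 le_rfl k))
          ((hW _).2 fun i => ?_), trivial, fun i hi => ?_⟩
      · by_cases e : i = k
        · subst e
          simpa using degree_modByMonic_lt (v i) hm
        · simp [e]
      · rcases hi.lt_or_eq with hi | rfl
        · simp [hk i hi, tri_low _ _ _ hi, hi.ne']
        · have := modByMonic_add_div (v k) (X ^ a k)
          simp only [Pi.sub_apply, Pi.add_apply, Pi.smul_apply, col_apply, tri_diag, smul_eq_mul,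
            Pi.single_eq_same]
          linear_combination -this
  let e : W ≃ₗ[ℂ] ∀ k, degreeLT ℂ (a k) :=
    { toFun := fun v k => ⟨v.1 k, v.2 k trivial⟩
      invFun := fun v => ⟨fun k => v k, fun k _ => (v k).2⟩
      map_add' := fun _ _ => rfl
      map_smul' := fun _ _ => rfl }
  exact ⟨(Submodule.Quotient.restrictScalarsEquiv ℂ (lat X a h)).symm.trans
    ((Submodule.quotientEquivOfIsCompl _ _ hc).trans
      (e.trans (LinearEquiv.piCongrRight fun k => degreeLTEquiv ℂ (a k))))⟩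

theorem finrank_lat (a : Fin m → ℕ) (h : Fin m × Fin m → ℂ[X]) :
    Module.finrank ℂ ((Fin m → ℂ[X]) ⧸ lat X a h) = ∑ k, a k := by
  obtain ⟨e⟩ := equiv_lat a h
  simp [e.finrank_eq, Module.finrank_pi_fintype]

theorem finite_lat (a : Fin m → ℕ) (h : Fin m × Fin m → ℂ[X]) :
    Module.Finite ℂ ((Fin m → ℂ[X]) ⧸ lat X a h) := by
  obtain ⟨e⟩ := equiv_lat a h
  exact Module.Finite.equiv e.symm

/-- passage from power series to polynomials -/
theorem mem_lat_coe {a : Fin m → ℕ} {h : Fin m × Fin m → ℂ[X]} {v : Fin m → ℂ[X]} :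
    (fun i => (v i : PowerSeries ℂ)) ∈ lat PowerSeries.X a (fun p => (h p : PowerSeries ℂ)) ↔
      v ∈ lat X a h := by
  let f : ℂ[X] →+* PowerSeries ℂ := coeToPowerSeries.ringHom
  have e : (tri X a h).map f = tri PowerSeries.X a fun p => (h p : PowerSeries ℂ) := by
    rw [tri_map]; simp [f]
  simp only [mem_lat, ← e]
  constructor
  · rintro ⟨y, hy⟩
    have h1 : ∀ i, X ^ (∑ k, a k) ∣ ((tri X a h).adjugate *ᵥ v) i := fun i => by
      have h2 : f (((tri X a h).adjugate *ᵥ v) i) = PowerSeries.X ^ (∑ k, a k) * y i := by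
        rw [RingHom.map_mulVec, show f ∘ v = _ from hy.symm, mulVec_mulVec, ← RingHom.mapMatrix_apply,
          RingHom.map_adjugate, RingHom.mapMatrix_apply, adjugate_mul, e, tri_det, smul_mulVec,
          one_mulVec]
        rfl
      rw [X_pow_dvd_iff]
      intro d hd
      rw [← coeff_coe]
      exact PowerSeries.X_pow_dvd_iff.1 ⟨_, h2⟩ d hd
    choose u hu using h1
    refine ⟨u, smul_right_injective _ (pow_ne_zero (∑ k, a k) (X_ne_zero (R := ℂ))) ?_⟩
    simp only
    rw [← mulVec_smul, show (X : ℂ[X]) ^ (∑ k, a k) • u = _ from (funext hu).symm, mulVec_mulVec,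
      mul_adjugate, tri_det, smul_mulVec, one_mulVec]
  · rintro ⟨y, rfl⟩
    exact ⟨f ∘ y, funext fun i => (RingHom.map_mulVec f _ _ i).symm⟩

end Pool.Agent.Lib.MP_d4c0ca_ag
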