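import Pool.Agent.Lib.MP_d4c0ca_ag.QE

/-! Euler integrals over balls of Laurent series. -/

namespace Pool.Agent.Lib.MP_d4c0ca_ag

open Polynomial KK
open scoped Classical

variable {X Y W : Type} [Str X] [Str Y] [Str W]

theorem Def.ballK {c y : X → KK} {γ : X → ℤ} (hc : Tm c) (hγ : Tm γ) (hy : Tm y) :
    Def fun x => Ball (c x) (γ x) (y x) :=
  (Def.or (Def.eq (hy.subK hc) (Tm.const 0)) (Def.le hγ (hy.subK hc).ord)).congr
    fun _ => ball_iff.symm

theorem Def.ballSg {c y : X → KK} {γ : X → ℤ} {w : X → ℂ} (hc : Tm c) (hγ : Tm γ) (hw : Tm w)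
    (hy : Tm y) : Def fun x => Ball (c x + sg (γ x) (w x)) (γ x + 1) (y x) :=
  (Def.or (Def.and (Def.ne hw (Tm.const 0)) (Def.and (Def.eq (hy.subK hc).ord hγ)
    (Def.eq (hy.subK hc).ac hw))) (Def.and (Def.eq hw (Tm.const 0))
      (Def.ballK hc (hγ.addZ (Tm.const 1)) hy))).congr fun _ => ball_sg_iff.symm

theorem def_cen (F : Finset (KR X)[X]) : Def fun p : X × KK => Cen F p.1 p.2 :=
  Def.bex _ fun g _ => Def.and ((def_mapK_zero g).comp Tm.fst').not
    (Def.eq (tm_eval g) (Tm.const 0))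

/-- a ball without centres -/
def Free (s : Finset KK) (b : KK) (δ : ℤ) : Prop := ∀ c ∈ s, ¬ Ball b δ c

/-- a definable family of finite sets of bounded size -/
def Cens (s : X → Finset Y) : Prop :=
  Def (fun p : X × Y => p.2 ∈ s p.1) ∧ ∃ N, ∀ x, (s x).card ≤ N

theorem Cens.free {s : X → Finset KK} (h : Cens s) :
    Def fun p : X × KK × ℤ × ℂ => Free (s p.1) (p.2.1 + sg p.2.2.1 p.2.2.2) (p.2.2.1 + 1) :=
  Def.all (Def.imp (h.1.comp (h := fun q : (X × KK × ℤ × ℂ) × KK => (q.1.1, q.2)) (by fun_prop))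
    (Def.ballSg (by fun_prop) (by fun_prop) (by fun_prop) (by fun_prop)).not)

theorem Cens.card [Proj Y] [DEq Y] {s : X → Finset Y} (h : Cens s) (g : ℕ → ℚ) :
    CF fun x => g (s x).card := by
  obtain ⟨h, N, hN⟩ := h
  have h1 : ∀ k, Def fun x => k ≤ (s x).card := fun k =>
    (h.atLeast k).congr fun x => (le_card_iff (s x) k).symm
  refine (CF.sum (Finset.range (N + 1)) fun k _ =>
    (CF.ind ((h1 k).and (h1 (k + 1)).not)).smul (g k)).congr fun x => ?_
  rw [Finset.sum_eq_single (s x).card]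
  · rw [ind_pos (by omega), mul_one]
  · exact fun k _ hk => by rw [ind_neg (by omega), mul_zero]
  · exact fun hk => (hk (Finset.mem_range.2 (Nat.lt_succ_of_le (hN x)))).elim

/-- preparation of a constructible function along centres -/
def Prep (φ : X × KK → ℚ) (s : X → Finset KK) : Prop :=
  (∀ x b δ y y', Free (s x) b δ → Ball b δ y → Ball b δ y' → φ (x, y) = φ (x, y')) ∧
  CF fun p : X × KK × ℤ × ℂ => ind (Free (s p.1) (p.2.1 + sg p.2.2.1 p.2.2.2) (p.2.2.1 + 1)) *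
    φ (p.1, p.2.1 + sg p.2.2.1 p.2.2.2)

theorem Prep.mono {φ : X × KK → ℚ} {s s' : X → Finset KK} (h : Prep φ s) (h' : Cens s')
    (hs : ∀ x, s x ⊆ s' x) : Prep φ s' := by
  have : ∀ x b δ, Free (s' x) b δ → Free (s x) b δ := fun x b δ h c hc => h c (hs x hc)
  refine ⟨fun x b δ y y' h1 => h.1 x b δ y y' (this _ _ _ h1),
    ((CF.ind h'.free).mul h.2).congr fun p => ?_⟩
  rw [← mul_assoc, ← ind_and, ind_congr (and_iff_left_of_imp (this _ _ _))]

theorem CF.prep {φ : X × KK → ℚ} (h : CF φ) : ∃ s, Cens s ∧ Prep φ s := by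
  induction h with
  | @cnt e D hD hf =>
    obtain ⟨F, hF, P, hP, e1⟩ := (hD.comp (h := fun p : (X × (Fin e → ℤ)) × KK =>
      ((p.1.1, p.2), p.1.2)) (by fun_prop)).pf
    choose s hs hN using fun x : X => cen_finset F (x, 0)
    have e2 : ∀ x δ, evK (x, δ) = evK (X := X × (Fin e → ℤ)) (x, 0) := fun x δ =>
      RingHom.ext fun a => (tm_K.1 a.2).indep x δ 0
    have hc : Cens s := ⟨((def_cen F).comp (h := fun p : X × KK => ((p.1, 0), p.2))
      (by fun_prop)).congr fun p => (hs _ _).symm, _, hN⟩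
    have key : ∀ x b γ y y', Free (s x) b γ → Ball b γ y → Ball b γ y' → ∀ δ,
        D ((x, y), δ) ↔ D ((x, y'), δ) := fun x b γ y y' h1 h2 h3 δ => by
      have h4 := rvF_const hF (x := (x, δ)) (fun c hc => h1 c ((hs x c).2 (by
        rwa [Cen, ← e2 x δ]))) h2 h3
      exact (e1 (x, δ) y).trans (h4 ▸ (e1 (x, δ) y').symm)
    refine ⟨s, hc, fun x b γ y y' h1 h2 h3 => by simp only [key x b γ y y' h1 h2 h3], ?_⟩
    have e3 : ∀ p : X × KK × ℤ × ℂ, {δ | Free (s p.1) (p.2.1 + sg p.2.2.1 p.2.2.2) (p.2.2.1 + 1) ∧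
        ∃ y, Ball (p.2.1 + sg p.2.2.1 p.2.2.2) (p.2.2.1 + 1) y ∧ D ((p.1, y), δ)} =
        {δ | Free (s p.1) (p.2.1 + sg p.2.2.1 p.2.2.2) (p.2.2.1 + 1) ∧
          D ((p.1, p.2.1 + sg p.2.2.1 p.2.2.2), δ)} := fun p => by
      ext δ
      exact and_congr_right fun h => ⟨fun ⟨y, h1, h2⟩ =>
        (key _ _ _ _ _ h h1 (Ball.refl _ _) δ).1 h2, fun h1 => ⟨_, Ball.refl _ _, h1⟩⟩
    refine (CF.cnt (D := fun q : (X × KK × ℤ × ℂ) × (Fin e → ℤ) =>
      Free (s q.1.1) (q.1.2.1 + sg q.1.2.2.1 q.1.2.2.2) (q.1.2.2.1 + 1) ∧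
        ∃ y, Ball (q.1.2.1 + sg q.1.2.2.1 q.1.2.2.2) (q.1.2.2.1 + 1) y ∧ D ((q.1.1, y), q.2))
      ((hc.free.comp Tm.fst').and (Def.ex (Def.and (Def.ballSg (by fun_prop) (by fun_prop)
        (by fun_prop) (by fun_prop)) (hD.comp (by fun_prop))))) fun p => ?_).congr fun p => ?_
    · rw [e3]
      exact (hf _).subset fun δ h => h.2
    · rw [e3]
      by_cases h : Free (s p.1) (p.2.1 + sg p.2.2.1 p.2.2.2) (p.2.2.1 + 1)
      · simp [h]
      · simp [h]
  | add _ _ h1 h2 =>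
    obtain ⟨s, ⟨a1, N, a2⟩, a3⟩ := h1
    obtain ⟨s', ⟨b1, N', b2⟩, b3⟩ := h2
    have hc : Cens fun x => s x ∪ s' x := ⟨(a1.or b1).congr fun _ => Finset.mem_union.symm,
      N + N', fun x => (Finset.card_union_le _ _).trans (add_le_add (a2 x) (b2 x))⟩
    obtain ⟨a4, a5⟩ := a3.mono hc fun _ => Finset.subset_union_left
    obtain ⟨b4, b5⟩ := b3.mono hc fun _ => Finset.subset_union_right
    exact ⟨_, hc, fun x b δ y y' h1 h2 h3 => by
      simp only [a4 x b δ y y' h1 h2 h3, b4 x b δ y y' h1 h2 h3],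
      (a5.add b5).congr fun _ => by ring⟩
  | smul c _ h1 =>
    obtain ⟨s, a1, a2, a3⟩ := h1
    exact ⟨s, a1, fun x b δ y y' h1 h2 h3 => by simp only [a2 x b δ y y' h1 h2 h3],
      (a3.smul c).congr fun _ => by ring⟩

/-- Euler integral over the truncations of a ball -/
noncomputable def J : ℕ → ℤ → KK → (KK → ℚ) → ℚ
  | 0, _, c, ψ => ψ c
  | n + 1, γ, c, ψ => int1 fun w => J n (γ + 1) (c + sg γ w) ψ

theorem J_formula {s : Finset KK} {ψ : KK → ℚ} {a : ℤ}
    (h1 : ∀ b δ y y', Free s b δ → Ball b δ y → Ball b δ y' → ψ y = ψ y')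
    (h2 : ∀ c γ, Cof fun w => ind (Free s (c + sg γ w) (γ + 1)) * ψ (c + sg γ w))
    (h3 : ∀ y y', Ball y a y' → ψ y = ψ y') (n : ℕ) : ∀ (γ : ℤ) (b : KK), γ + n = a →
      J n γ b ψ = ind (Free s b γ) * ψ b + ∑ c ∈ s.filter (Ball b γ),
        (ψ c * ((s.filter (Ball c a)).card : ℚ)⁻¹ + ∑ δ ∈ Finset.Ico γ a,
          (int1 fun w => ind (Free s (c + sg δ w) (δ + 1)) * ψ (c + sg δ w)) *
            ((s.filter (Ball c δ)).card : ℚ)⁻¹) := by
  have avg : ∀ (b : KK) (γ : ℤ) (u : KK → ℚ) (v : ℚ), (Free s b γ → False) →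
      (∀ c, Ball b γ c → u c = v) →
      ∑ c ∈ s.filter (Ball b γ), u c * ((s.filter (Ball c γ)).card : ℚ)⁻¹ = v := by
    intro b γ u v hb hu
    rw [Finset.sum_congr rfl (g := fun _ => v * ((s.filter (Ball b γ)).card : ℚ)⁻¹)
      fun c hc => ?_, Finset.sum_const, nsmul_eq_mul, mul_comm, mul_assoc, inv_mul_cancel₀, mul_one]
    · rw [Nat.cast_ne_zero, Finset.card_ne_zero, Finset.filter_nonempty_iff]
      by_contra h
      push Not at h
      exact hb h
    · have := (Finset.mem_filter.1 hc).2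
      rw [hu c this, Finset.filter_congr (q := Ball b γ) fun y _ =>
        ⟨this.trans, this.symm.trans⟩]
  have emp : ∀ b γ, Free s b γ → s.filter (Ball b γ) = ∅ := fun b γ h =>
    Finset.filter_eq_empty_iff.2 h
  induction n with
  | zero =>
    intro γ b h
    obtain rfl : γ = a := by simpa using h
    by_cases hb : Free s b γ
    · simp [J, emp b γ hb, ind_pos hb]
    · simp [J, ind_neg hb, avg b γ ψ (ψ b) hb fun c hc => (h3 _ _ hc).symm]
  | succ n ih =>
    intro γ b h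
    have hγ : γ < a := by omega
    set G : KK → ℚ := fun c => ψ c * ((s.filter (Ball c a)).card : ℚ)⁻¹ +
      ∑ δ ∈ Finset.Ico (γ + 1) a, (int1 fun w => ind (Free s (c + sg δ w) (δ + 1)) *
        ψ (c + sg δ w)) * ((s.filter (Ball c δ)).card : ℚ)⁻¹ with hG
    have e1 : ∀ w, ∑ c ∈ s.filter (Ball (b + sg γ w) (γ + 1)), G c =
        ∑ c ∈ s.filter (Ball b γ), ind (w = coef γ c - coef γ b) * G c := fun w => by
      rw [Finset.sum_filter, Finset.sum_filter]
      refine Finset.sum_congr rfl fun c _ => ?_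
      rw [ball_sg]
      by_cases e : Ball b γ c
      · by_cases e' : w = coef γ c - coef γ b
        · simp [e, e']
        · rw [if_neg (fun h => e' (by rw [h.2]; ring)), if_pos e, ind_neg e', zero_mul]
      · simp [e]
    have e2 : ∀ (v : ℂ) (u : ℚ), ∀ w ∉ ({v} : Finset ℂ), ind (w = v) * u = 0 := fun v u w hw => by
      rw [ind_neg (by simpa using hw), zero_mul]
    obtain ⟨e3, e4⟩ := Cof.sum (s.filter (Ball b γ))
      (ψ := fun c w => ind (w = coef γ c - coef γ b) * G c) fun c _ => ⟨0, _, e2 _ _⟩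
    simp only [J, ih (γ + 1) _ (by push_cast at h; omega), ← hG, e1]
    rw [int1_add (h2 b γ) e3, e4]
    simp only [int1_fin (e2 _ _), Finset.sum_singleton, ind_true, one_mul,
      ← Finset.insert_Ico_add_one_left_eq_Ico hγ, Finset.sum_insert
        (s := Finset.Ico (γ + 1) a) (a := γ) (by simp)]
    by_cases hb : Free s b γ
    · rw [emp b γ hb, Finset.sum_empty, Finset.sum_empty, ← int1_const (ind (Free s b γ) * ψ b)]
      congr 2
      funext w
      have : Ball b γ (b + sg γ w) := (ball_sg.1 (Ball.refl _ _)).1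
      rw [ind_pos hb, ind_pos (p := Free s (b + sg γ w) (γ + 1))
        fun c hc h => hb c hc (ball_sg.1 h).1, h1 b γ _ _ hb this (Ball.refl _ _)]
    · rw [ind_neg hb, zero_mul, zero_add, ← avg b γ (fun c => int1 fun w =>
        ind (Free s (c + sg γ w) (γ + 1)) * ψ (c + sg γ w)) (int1 fun w =>
        ind (Free s (b + sg γ w) (γ + 1)) * ψ (b + sg γ w)) hb fun c hc => ?_,
        ← Finset.sum_add_distrib]
      · exact Finset.sum_congr rfl fun c _ => by simp only [hG]; ring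
      · rw [← int1_equiv (h2 b γ) (Equiv.addRight (coef γ c - coef γ b))]
        congr 1
        funext w
        have e5 : Ball (b + sg γ (w + (coef γ c - coef γ b))) (γ + 1) (c + sg γ w) :=
          ball_sg.2 ⟨hc.trans (ball_sg.1 (Ball.refl _ _)).1, by simp [coef_sg]; ring⟩
        have e6 : Free s (c + sg γ w) (γ + 1) ↔
            Free s (b + sg γ (w + (coef γ c - coef γ b))) (γ + 1) :=
          forall₂_congr fun y _ => not_congr ⟨e5.trans, e5.symm.trans⟩
        simp only [Equiv.coe_addRight, ← e6]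
        by_cases e : Free s (c + sg γ w) (γ + 1)
        · rw [h1 _ _ _ _ e (Ball.refl _ _) e5.symm]
        · simp [e]

theorem CF.J {φ : X × KK → ℚ} (h : CF φ) {γ n : X → ℤ} (hγ : Tm γ) (hn : Tm n)
    (inv : ∀ x y y', 0 ≤ n x → Ball y (γ x + n x) y' → φ (x, y) = φ (x, y')) :
    CF fun x => J (n x).toNat (γ x) 0 fun y => φ (x, y) := by
  obtain ⟨s, hs, h1, h2⟩ := h.prep
  obtain ⟨hs1, N, hN⟩ := id hs
  have h3 := (h2.comp (g := fun q : (X × KK × ℤ) × ℂ => (q.1.1, q.1.2.1, q.1.2.2, q.2))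
    (by fun_prop)).cof_int1
  have h4 : CF fun q : X × KK × ℤ => (((s q.1).filter (Ball q.2.1 q.2.2)).card : ℚ)⁻¹ :=
    Cens.card (s := fun q : X × KK × ℤ => (s q.1).filter (Ball q.2.1 q.2.2))
      ⟨((hs1.comp (h := fun q : (X × KK × ℤ) × KK => (q.1.1, q.2)) (by fun_prop)).and
        (Def.ballK (by fun_prop) (by fun_prop) (by fun_prop))).congr
          fun _ => Finset.mem_filter.symm,
        N, fun q => (Finset.card_filter_le _ _).trans (hN _)⟩ fun k => (k : ℚ)⁻¹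
  have h5 := CF.sumZ ((h3.2.mul h4).comp (g := fun q : (X × KK) × ℤ => (q.1.1, q.1.2, q.2))
    (by fun_prop)) (B := fun q => γ q.1.1 ≤ q.2 ∧ q.2 < γ q.1.1 + n q.1.1)
    (Def.and (Def.le (by fun_prop) (by fun_prop)) (Def.lt (by fun_prop) (by fun_prop)))
    (fun q => Finset.Ico (γ q.1) (γ q.1 + n q.1)) fun _ _ => Finset.mem_Ico
  have h6 := CF.sumB ((h.mul (h4.comp (g := fun q : X × KK => (q.1, q.2, γ q.1 + n q.1))
    (by fun_prop))).add h5) (B := fun q => q.2 ∈ s q.1 ∧ Ball 0 (γ q.1) q.2)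
    (hs1.and (Def.ballK (by fun_prop) (by fun_prop) (by fun_prop)))
    (fun x => (s x).filter (Ball 0 (γ x))) (fun _ _ => Finset.mem_filter)
    fun x => (Finset.card_filter_le _ _).trans (hN _)
  have h7 : Def fun x => Free (s x) 0 (γ x) :=
    Def.all (Def.imp hs1 (Def.ballK (by fun_prop) (by fun_prop) (by fun_prop)).not)
  have h0 := h.comp (g := fun x => (x, 0)) (by fun_prop)
  refine (CF.ite (Def.le (Tm.const 0) hn) (((CF.ind h7).mul h0).add h6) h0).congr fun x => ?_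
  split_ifs with e
  · exact (J_formula (h1 x) (fun c δ => h3.1 (x, c, δ)) (fun y y' => inv x y y' e) _ _ _
      (by rw [Int.toNat_of_nonneg e])).symm
  · rw [Int.toNat_of_nonpos (by omega)]; rfl

theorem J_eq (n : ℕ) : ∀ (γ : ℤ) (c : KK) (ψ : KK → ℚ),
    J n γ c ψ = euler n fun w => ψ (c + ∑ l : Fin n, sg (γ + l) (w l)) := by
  induction n with
  | zero => intro γ c ψ; simp [J, euler]
  | succ n ih =>
    intro γ c ψ
    simp only [J, euler, ih, Fin.sum_univ_succ, Fin.cons_zero, Fin.cons_succ, Fin.val_succ,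
      Fin.val_zero, Nat.cast_zero, add_zero, Nat.cast_add, Nat.cast_one, add_assoc,
      add_comm (1 : ℤ)]

end Pool.Agent.Lib.MP_d4c0ca_ag
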