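import Mathlib

/-! The field of formal Laurent series over the complex numbers, with a small interface. -/

namespace Pool.Agent.Lib.MP_d4c0ca_ag

def KK : Type := HahnSeries ℤ ℂ

noncomputable instance : Field KK := inferInstanceAs (Field (HahnSeries ℤ ℂ))

namespace KK

/-- coefficients -/
def coef (i : ℤ) (x : KK) : ℂ := HahnSeries.coeff (Γ := ℤ) (R := ℂ) x i

/-- order, zero for zero -/
noncomputable def ord (x : KK) : ℤ := HahnSeries.order (Γ := ℤ) (R := ℂ) x

/-- angular component -/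
noncomputable def ac (x : KK) : ℂ := HahnSeries.leadingCoeff (Γ := ℤ) (R := ℂ) x

/-- monomials -/
noncomputable def sg (i : ℤ) (w : ℂ) : KK := HahnSeries.single (Γ := ℤ) (R := ℂ) i w

/-- power series as Laurent series -/
noncomputable def ofP : PowerSeries ℂ →+* KK := HahnSeries.ofPowerSeries ℤ ℂ

theorem ext {x y : KK} (h : ∀ i, coef i x = coef i y) : x = y :=
  HahnSeries.ext (Γ := ℤ) (R := ℂ) (funext h)

@[simp] theorem coef_zero (i : ℤ) : coef i 0 = 0 := rfl

@[simp] theorem coef_add (i : ℤ) (x y : KK) : coef i (x + y) = coef i x + coef i y :=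
  HahnSeries.coeff_add (Γ := ℤ) (R := ℂ)

@[simp] theorem coef_neg (i : ℤ) (x : KK) : coef i (-x) = -coef i x :=
  HahnSeries.coeff_neg (Γ := ℤ) (R := ℂ)

@[simp] theorem coef_sub (i : ℤ) (x y : KK) : coef i (x - y) = coef i x - coef i y := by
  rw [sub_eq_add_neg, coef_add, coef_neg, sub_eq_add_neg]

theorem coef_sum {ι : Type} (i : ℤ) (s : Finset ι) (f : ι → KK) :
    coef i (∑ j ∈ s, f j) = ∑ j ∈ s, coef i (f j) := by
  classical
  induction s using Finset.induction_on with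
  | empty => simp
  | insert a s ha ih => simp [Finset.sum_insert ha, ih]

@[simp] theorem ord_zero : ord 0 = 0 := HahnSeries.order_zero (Γ := ℤ) (R := ℂ)

@[simp] theorem ac_zero : ac 0 = 0 := HahnSeries.leadingCoeff_zero (Γ := ℤ) (R := ℂ)

@[simp] theorem ac_eq_zero {x : KK} : ac x = 0 ↔ x = 0 :=
  HahnSeries.leadingCoeff_eq_zero (Γ := ℤ) (R := ℂ)

theorem coef_ord (x : KK) : coef (ord x) x = ac x :=
  (HahnSeries.leadingCoeff_eq (Γ := ℤ) (R := ℂ) (x := x)).symm

theorem coef_of_lt_ord {x : KK} {i : ℤ} (h : i < ord x) : coef i x = 0 :=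
  HahnSeries.coeff_eq_zero_of_lt_order (Γ := ℤ) (R := ℂ) h

theorem ord_le_of_ne {x : KK} {i : ℤ} (h : coef i x ≠ 0) : ord x ≤ i :=
  HahnSeries.order_le_of_coeff_ne_zero (Γ := ℤ) (R := ℂ) h

theorem ord_mul {x y : KK} (hx : x ≠ 0) (hy : y ≠ 0) : ord (x * y) = ord x + ord y :=
  HahnSeries.order_mul (Γ := ℤ) (R := ℂ) hx hy

theorem ac_mul (x y : KK) : ac (x * y) = ac x * ac y :=
  HahnSeries.leadingCoeff_mul (Γ := ℤ) (R := ℂ) x y

theorem rv_eq {x : KK} {m : ℤ} (h1 : ∀ i < m, coef i x = 0) (h2 : coef m x ≠ 0) :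
    ord x = m ∧ ac x = coef m x := by
  have hx : x ≠ 0 := by rintro rfl; simp at h2
  have : ord x = m := by
    refine le_antisymm (ord_le_of_ne h2) (not_lt.1 fun h => ?_)
    have := h1 _ h
    rw [coef_ord] at this
    exact hx (ac_eq_zero.1 this)
  exact ⟨this, by rw [← this, coef_ord]⟩

theorem coef_sg (i j : ℤ) (w : ℂ) : coef j (sg i w) = if j = i then w else 0 := by
  unfold coef sg
  rw [HahnSeries.coeff_single]
  congr

theorem coef_sg_mul (i j : ℤ) (w : ℂ) (x : KK) : coef j (sg i w * x) = w * coef (j - i) x := by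
  have := HahnSeries.coeff_single_mul_add (Γ := ℤ) (R := ℂ) (r := w) (x := x) (a := j - i) (b := i)
  rw [sub_add_cancel] at this
  exact this

theorem sg_mul_sg (i j : ℤ) (v w : ℂ) : sg i v * sg j w = sg (i + j) (v * w) :=
  HahnSeries.single_mul_single (Γ := ℤ) (R := ℂ)

@[simp] theorem sg_zero_one : sg 0 1 = 1 := HahnSeries.single_zero_one (Γ := ℤ) (R := ℂ)

@[simp] theorem sg_zero (i : ℤ) : sg i 0 = 0 := by
  refine ext fun j => ?_
  simp [coef_sg]

theorem sg_add (i : ℤ) (v w : ℂ) : sg i (v + w) = sg i v + sg i w := by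
  refine ext fun j => ?_
  simp only [coef_sg, coef_add]
  split_ifs <;> simp

theorem rv_sg (i : ℤ) {w : ℂ} (hw : w ≠ 0) : ord (sg i w) = i ∧ ac (sg i w) = w := by
  have := rv_eq (x := sg i w) (m := i) (fun j hj => by simp [coef_sg, hj.ne])
    (by simpa [coef_sg] using hw)
  simpa [coef_sg] using this

theorem sg_ne_zero (i : ℤ) {w : ℂ} (hw : w ≠ 0) : sg i w ≠ 0 := fun h => by
  have := (rv_sg i hw).2
  rw [h, ac_zero] at this
  exact hw this.symm

theorem sg_pow (i : ℤ) (w : ℂ) (n : ℕ) : sg i w ^ n = sg (n * i) (w ^ n) := by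
  induction n with
  | zero => simp
  | succ n ih => rw [pow_succ, ih, sg_mul_sg, pow_succ]; congr 1; push_cast; ring

theorem coef_ofP (f : PowerSeries ℂ) (n : ℕ) : coef n (ofP f) = PowerSeries.coeff n f :=
  HahnSeries.ofPowerSeries_apply_coeff (Γ := ℤ) f n

theorem coef_ofP_neg (f : PowerSeries ℂ) {i : ℤ} (hi : i < 0) : coef i (ofP f) = 0 := by
  have := PowerSeries.coeff_coe f i
  rw [if_pos hi] at this
  exact this

theorem ofP_injective : Function.Injective ofP := HahnSeries.ofPowerSeries_injective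

theorem exists_ofP {y : KK} (h : ∀ i < 0, coef i y = 0) : ∃ f, ofP f = y := by
  refine ⟨PowerSeries.mk fun n => coef n y, ext fun i => ?_⟩
  by_cases hi : i < 0
  · rw [coef_ofP_neg _ hi, h i hi]
  · obtain ⟨n, rfl⟩ := Int.eq_ofNat_of_zero_le (not_lt.1 hi)
    rw [coef_ofP, PowerSeries.coeff_mk]

theorem ofP_C (w : ℂ) : ofP (PowerSeries.C w) = sg 0 w :=
  HahnSeries.ofPowerSeries_C (Γ := ℤ) w

theorem ofP_X : ofP PowerSeries.X = sg 1 1 := HahnSeries.ofPowerSeries_X (Γ := ℤ)

instance : CharZero KK :=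
  charZero_of_injective_ringHom (f := ofP.comp PowerSeries.C)
    (ofP_injective.comp PowerSeries.C_injective)

theorem natCast_eq (n : ℕ) : (n : KK) = sg 0 n := by
  rw [← ofP_C]; simp

theorem rv_one : ord 1 = 0 ∧ ac 1 = 1 := by
  simpa using rv_sg 0 one_ne_zero

theorem ord_pow {x : KK} (hx : x ≠ 0) (n : ℕ) : ord (x ^ n) = n * ord x := by
  induction n with
  | zero => simp [rv_one.1]
  | succ n ih => rw [pow_succ, ord_mul (pow_ne_zero _ hx) hx, ih]; push_cast; ring

theorem ac_pow (x : KK) (n : ℕ) : ac (x ^ n) = ac x ^ n := by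
  induction n with
  | zero => simp [rv_one.2]
  | succ n ih => rw [pow_succ, ac_mul, ih, pow_succ]

end KK

end Pool.Agent.Lib.MP_d4c0ca_ag
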