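import Pool.Agent.Lib.MP_d4c0ca_ag.Spec
import Pool.Agent.Lib.MP_d4c0ca_ag.Herm

/-! Counting stable lattices. -/

namespace Pool.Agent.Lib.MP_d4c0ca_ag

open KK Matrix Polynomial
open scoped Classical

variable {Z Y : Type} [Str Z] [Str Y] {m : ℕ}

/-- sorts that are complex vector spaces -/
class TmMod (Y : Type) [Str Y] [AddCommGroup Y] [Module ℂ Y] : Prop where
  add : Tm fun p : Y × Y => p.1 + p.2
  smul : Tm fun p : ℂ × Y => p.1 • p.2

instance : TmMod ℂ := ⟨by fun_prop, by simp only [smul_eq_mul]; fun_prop⟩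

section
variable [AddCommGroup Y] [Module ℂ Y] [TmMod Y]

theorem Tm.addV {f g : Z → Y} (hf : Tm f) (hg : Tm g) : Tm fun x => f x + g x :=
  TmMod.add.comp (hf.prodMk hg)

theorem Tm.smulV {f : Z → ℂ} {g : Z → Y} (hf : Tm f) (hg : Tm g) : Tm fun x => f x • g x :=
  TmMod.smul.comp (hf.prodMk hg)

theorem Tm.sumV {ι : Type} (s : Finset ι) {f : ι → Z → Y} (hf : ∀ i, Tm (f i)) :
    Tm fun x => ∑ i ∈ s, f i x := by
  induction s using Finset.induction_on with
  | empty => simpa using Tm.const (0 : Y)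
  | insert a s ha ih => simpa [Finset.sum_insert ha] using (hf a).addV ih

theorem tm_comb {ι : Type} [Fintype ι] (e0 : Y) (e : ι → Y) :
    Tm fun c : ι → ℂ => e0 + ∑ l, c l • e l :=
  (Tm.const _).addV (Tm.sumV _ fun l => (Tm.apply l).smulV (Tm.const _))

instance {ι : Type} : TmMod (ι → Y) :=
  ⟨Tm.pi fun i => (Tm.fst'.app i).addV (Tm.snd'.app i),
    Tm.pi fun i => Tm.fst'.smulV (Tm.snd'.app i)⟩

theorem EI_affine [Pure ℂ Y] [Module.Finite ℂ Y] {P : Y → Prop} (T : Submodule ℂ Y) (w0 : Y)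
    (h : ∀ w, P w ↔ w - w0 ∈ T) : EI (fun w => ind (P w)) = 1 := by
  have := (chart Y).deq
  let b := Module.finBasis ℂ T
  have e : ∀ c : Fin (Module.finrank ℂ T) → ℂ, ∑ l, c l • (b l : Y) = (b.equivFun.symm c : T) :=
    fun c => by simp
  rw [← EI_bij_ind (R := fun (c : Fin (Module.finrank ℂ T) → ℂ) w => w0 + ∑ l, c l • (b l : Y) = w)
    (Def.eq ((tm_comb _ _).comp Tm.fst') Tm.snd') (A := fun _ => True) (Def.const _)
    (fun _ _ => ⟨_, rfl⟩) (fun w hw => ⟨b.equivFun ⟨_, (h w).1 hw⟩, by rw [e]; simp⟩)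
    (fun _ _ _ a b => b.symm.trans a) (fun c c' w a1 a2 => ?_) fun c w a => ⟨trivial, ?_⟩]
  · simpa using EI_const 1
  · rw [← a1, e, e] at a2
    exact b.equivFun.symm.injective (Subtype.ext (add_left_cancel a2))
  · rw [h, ← a, e, add_sub_cancel_left]
    exact Subtype.prop _

end

theorem Tm.mulVecK {A : Z → Matrix (Fin m) (Fin m) KK} {v : Z → Fin m → KK}
    (hA : ∀ i k, Tm fun x => A x i k) (hv : Tm v) : Tm fun x => A x *ᵥ v x :=
  Tm.pi fun i => Tm.sumK Finset.univ fun k => (hA i k).mulK (hv.app k)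

/-- evaluation of a polynomial at a Laurent series -/
noncomputable def evP (s : KK) : ℂ[X] →+* KK := eval₂RingHom (ofP.comp PowerSeries.C) s

theorem tm_evP (g : ℂ[X]) : Tm fun s => evP s g := by
  simp only [evP, coe_eval₂RingHom, eval₂_eq_sum_range]
  fun_prop

theorem evP_shift (p : ℂ) (g : ℂ[X]) :
    evP (sg 0 p + sg 1 1) g = ofP (taylor p g : ℂ[X]) := by
  have : evP (sg 0 p + sg 1 1) =
      ofP.comp (coeToPowerSeries.ringHom.comp (taylorAlgHom p).toRingHom) := by
    ext c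
    · simp [evP]
    · simp [evP, ofP_C, ofP_X, add_comm]
  rw [this]
  rfl

theorem ball_param {γ : ℤ} {y : KK} : Ball 0 γ y ↔ ∃ W, y = sg γ 1 * ofP W := by
  constructor
  · intro h
    obtain ⟨W, hW⟩ := exists_ofP (y := sg (-γ) 1 * y) fun i hi => by
      simp [coef_sg_mul, h (i + γ) (by omega)]
    exact ⟨W, by rw [hW, ← mul_assoc, sg_mul_sg]; simp⟩
  · rintro ⟨W, rfl⟩ i hi
    simp [coef_sg_mul, coef_ofP_neg W (sub_neg.2 hi)]

/-- membership in the lattice with unipotent part `U` and diagonal exponents `a` -/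
def Mem (a : Fin m → ℤ) (U : Fin m × Fin m → KK) (v : Fin m → KK) : Prop :=
  ∃ z, (∀ i, Ball 0 (a i) (z i)) ∧ tri 1 0 U *ᵥ z = v

theorem Def.mem {a : Z → Fin m → ℤ} {U : Z → Fin m × Fin m → KK} {v : Z → Fin m → KK}
    (ha : Tm a) (hU : Tm U) (hv : Tm v) : Def fun x => Mem (a x) (U x) (v x) :=
  Def.ex (Def.and (Def.allF fun i => Def.ballK (Tm.const _) ((ha.comp Tm.fst').app i)
    (Tm.snd'.app i)) (Def.eq (Tm.mulVecK (fun _ _ => Tm.ite _ ((hU.comp Tm.fst').app _)
      (Tm.const _)) Tm.snd') (hv.comp Tm.fst')))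

theorem mem_iff (a : Fin m → ℕ) (h : Fin m × Fin m → PowerSeries ℂ) (v : Fin m → KK) :
    Mem (fun i => a i) (fun p => sg (-a p.2) 1 * ofP (h p)) v ↔
      ∃ y ∈ lat PowerSeries.X a h, v = fun i => ofP (y i) := by
  have e : ∀ W : Fin m → PowerSeries ℂ, tri 1 0 (fun p => sg (-a p.2) 1 * ofP (h p)) *ᵥ
      (fun i => sg (a i) 1 * ofP (W i)) = fun i => ofP ((tri PowerSeries.X a h *ᵥ W) i) := by
    intro W
    funext i
    simp only [mulVec, dotProduct, map_sum, map_mul, tri]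
    refine Finset.sum_congr rfl fun k _ => ?_
    split_ifs
    · rw [mul_mul_mul_comm, sg_mul_sg]; simp
    · simp [ofP_X, sg_pow]
    · simp
  simp only [Mem, ball_param]
  constructor
  · rintro ⟨z, h1, rfl⟩
    choose W hW using h1
    exact ⟨_, ⟨W, rfl⟩, by rw [funext hW, e]; rfl⟩
  · rintro ⟨_, ⟨W, rfl⟩, rfl⟩
    exact ⟨_, fun i => ⟨W i, rfl⟩, e W⟩

variable {κ σ : Type} [Finite κ] [Finite σ] (ρ : κ → Fin m → ℂ[X])
  (T : σ → Matrix (Fin m) (Fin m) ℂ[X])

/-- the condition on Hermite data -/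
def Cond (s : KK) (j : ℤ) (a : Fin m → ℤ) (U : Fin m × Fin m → KK) : Prop :=
  ((∀ i, 0 ≤ a i) ∧ ∑ i, a i = j ∧ ∀ p : Fin m × Fin m, Ball 0 (-a p.2) (U p)) ∧
    (∀ q, Mem a U fun i => evP s (ρ q i)) ∧ ∀ i v, Mem a U v → Mem a U ((T i).map (evP s) *ᵥ v)

theorem def_cond : Def fun x : ((KK × ℤ) × (Fin m → ℤ)) × (Fin m × Fin m → KK) =>
    Cond ρ T x.1.1.1 x.1.1.2 x.1.2 x.2 :=
  Def.and (Def.and (Def.allF fun i => Def.le (Tm.const _) (by fun_prop))
    (Def.and (Def.eq (by fun_prop) (by fun_prop)) (Def.allF fun p => Def.ballK (Tm.const _)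
      (by fun_prop) (by fun_prop)))) (Def.and (Def.allF fun q => Def.mem (by fun_prop)
        (by fun_prop) (Tm.pi fun i => (tm_evP _).comp (by fun_prop))) (Def.allF fun i => Def.all
          (Def.imp (Def.mem (by fun_prop) (by fun_prop) (by fun_prop))
            (Def.mem (by fun_prop) (by fun_prop)
              (Tm.mulVecK (fun _ _ => (tm_evP _).comp (by fun_prop)) Tm.snd')))))

omit [Finite κ] [Finite σ] in
theorem cond_inv {s : KK} {j : ℤ} {a : Fin m → ℤ} {U U' : Fin m × Fin m → KK}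
    (h : ∀ p, Ball (U p) (-a p.2 + j) (U' p)) (hc : Cond ρ T s j a U) : Cond ρ T s j a U' := by
  obtain ⟨⟨h1, rfl, h3⟩, h4⟩ := hc
  lift a to Fin m → ℕ using h1
  have h5 : ∀ p, Ball 0 (-a p.2) (U' p) := fun p => (h3 p).trans ((h p).mono
    (le_add_of_nonneg_right (by positivity)))
  refine ⟨⟨fun i => by positivity, rfl, h5⟩, ?_⟩
  choose u hu using fun p => ball_param.1 (h3 p)
  choose u' hu' using fun p => ball_param.1 (h5 p)
  have : lat PowerSeries.X a u = lat PowerSeries.X a u' := lat_congr fun p => by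
    rw [PowerSeries.X_pow_dvd_iff]
    intro d hd
    have := h p (d - a p.2) (by
      have : (d : ℤ) < ∑ k, (a k : ℤ) := by exact_mod_cast hd
      simp only
      omega)
    rw [hu, hu'] at this
    simp only [coef_sg_mul, one_mul, sub_neg_eq_add, sub_add_cancel, coef_ofP] at this
    simp [this]
  rw [funext hu] at h4
  rw [funext hu']
  simp only [mem_iff] at h4 ⊢
  rwa [← this]

/-- polynomial with given coefficients -/
noncomputable def pol {n : ℕ} (w : Fin n → ℂ) : ℂ[X] := ∑ l, w l • X ^ l.1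

theorem pt_eq {n : ℕ} (γ : ℤ) (w : Fin n → ℂ) : pt γ w = sg γ 1 * ofP (pol w) := by
  have : ofP (pol w : ℂ[X]) = ofP.comp coeToPowerSeries.ringHom (pol w) := rfl
  rw [this, pol, map_sum]
  simp [pt, Finset.mul_sum, smul_eq_C_mul, ofP_C, ofP_X, sg_pow, sg_mul_sg]

theorem exists_pol (n : ℕ) (g : ℂ[X]) : ∃ w : Fin n → ℂ, X ^ n ∣ pol w - g := by
  refine ⟨fun l => g.coeff l, X_pow_dvd_iff.2 fun d hd => ?_⟩
  simp only [pol, coeff_sub, finsetSum_coeff, coeff_smul, coeff_X_pow, smul_eq_mul]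
  rw [Finset.sum_eq_single ⟨d, hd⟩]
  · simp
  · exact fun l _ hl => by rw [if_neg fun e => hl (Fin.ext e.symm), mul_zero]
  · simp

/-- stable lattices -/
def Stab (p : ℂ) (Λ : Submodule ℂ[X] (Fin m → ℂ[X])) : Prop :=
  (∀ q, (fun i => taylor p (ρ q i)) ∈ Λ) ∧ ∀ i, ∀ v ∈ Λ, (T i).map (taylor p) *ᵥ v ∈ Λ

omit [Finite κ] [Finite σ] in
theorem cond_iff (p : ℂ) (a : Fin m → ℕ) (h : Fin m × Fin m → ℂ[X]) (j : ℕ) (hj : ∑ i, a i = j) :
    Cond ρ T (sg 0 p + sg 1 1) j (fun i => a i) (fun q => sg (-a q.2) 1 * ofP (h q)) ↔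
      Stab ρ T p (lat X a h) := by
  have e0 : ∀ v : Fin m → ℂ[X], (∃ y ∈ lat PowerSeries.X a fun q => (h q : PowerSeries ℂ),
      (fun i => ofP (v i)) = fun i => ofP (y i)) ↔ v ∈ lat X a h := fun v => by
    rw [← mem_lat_coe]
    exact ⟨fun ⟨y, h1, h2⟩ => by
      rwa [show (fun i => (v i : PowerSeries ℂ)) = y from
        funext fun i => ofP_injective (congrFun h2 i)], fun h => ⟨_, h, rfl⟩⟩
  let f : ℂ[X] →+* PowerSeries ℂ := coeToPowerSeries.ringHom
  have e1 : ∀ i (y : Fin m → PowerSeries ℂ), (T i).map (evP (sg 0 p + sg 1 1)) *ᵥ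
      (fun k => ofP (y k)) = fun k => ofP (((((T i).map (taylor p)).map f) *ᵥ y) k) := fun i y => by
    funext k
    rw [RingHom.map_mulVec]
    congr 1
    ext1 k l
    exact evP_shift _ _
  simp only [Cond, mem_iff, evP_shift, e0, Stab]
  rw [and_iff_right ⟨fun i => by positivity, by exact_mod_cast hj,
    fun q => ball_param.2 ⟨_, rfl⟩⟩]
  refine and_congr_right fun _ => forall_congr' fun i => ⟨fun H v hv => ?_, ?_⟩
  · have := H _ ((e0 v).2 hv)
    rw [e1] at this
    rw [← e0]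
    convert this using 4 with y
    funext k
    congr 1
    exact RingHom.map_mulVec f ((T i).map (taylor p)) v k
  · rintro H _ ⟨y, hy, rfl⟩
    refine ⟨_, ?_, e1 i y⟩
    refine (show _ ≤ Submodule.comap (((T i).map (taylor p)).map f).mulVecLin
      (lat PowerSeries.X a fun p => ↑(h p)) from lat_le_iff.2 fun k => ?_) hy
    have := mem_lat_coe.2 (H _ (lat_le_iff.1 le_rfl k))
    rw [Submodule.mem_comap]
    convert this using 1
    funext l
    refine Eq.trans ?_ (RingHom.map_mulVec f ((T i).map (taylor p)) ((tri X a h).col k) l).symm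
    rw [mulVecLin_apply]
    congr 1
    have := tri_map f X a h
    simp only [f, coeToPowerSeries.ringHom_apply, coe_X] at this
    rw [← this]
    rfl

/-- definability of a family of submodules -/
def LinDef {R N : Type} [Ring R] [AddCommGroup N] [Module R N] [Module ℂ N] (A : Y → Prop)
    (Λ : Y → Submodule R N) : Prop :=
  ∀ (ι : Type) [Fintype ι] (e0 : N) (e : ι → N),
    Def fun p : Y × (ι → ℂ) => A p.1 ∧ e0 + ∑ l, p.2 l • e l ∈ Λ p.1

theorem local_count : ∃ Φ : ℤ × ℂ → ℚ, CF Φ ∧ ∀ (p : ℂ) (j : ℕ) (Y : Type) [Str Y] [Pure ℂ Y]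
    (A : Y → Prop) (Λ : Y → Submodule ℂ[X] (Fin m → ℂ[X])), LinDef A Λ →
    Set.BijOn Λ {y | A y} {L | Stab ρ T p L ∧ (∃ J : ℕ, ∀ v, (X : ℂ[X]) ^ J • v ∈ L) ∧
      Module.finrank ℂ ((Fin m → ℂ[X]) ⧸ L) = j} → EI (fun y => ind (A y)) = Φ (j, p) := by
  have h1 := CF.sumZ (CF.balls (CF.ind (def_cond ρ T)) (γ := fun x q => -x.2 q.2)
    (n := fun x => x.1.2) (by fun_prop) (by fun_prop) fun x U U' _ h => ind_congr
      ⟨cond_inv ρ T h, cond_inv ρ T fun p => (h p).symm⟩)
    (B := fun x => (∀ i, 0 ≤ x.2 i) ∧ ∑ i, x.2 i = x.1.2)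
    (Def.and (Def.allF fun i => Def.le (Tm.const _) (by fun_prop))
      (Def.eq (by fun_prop) (by fun_prop)))
    (fun x => (Fintype.piFinset fun _ => Finset.Icc 0 x.2).filter fun a => ∑ i, a i = x.2)
    fun x a => by
      simp only [Finset.mem_filter, Fintype.mem_piFinset, Finset.mem_Icc]
      exact ⟨fun h => ⟨fun i => (h.1 i).1, h.2⟩, fun h => ⟨fun i => ⟨h.1 i, h.2 ▸
        Finset.single_le_sum (fun i _ => h.1 i) (Finset.mem_univ i)⟩, h.2⟩⟩
  refine ⟨_, h1.pull (h := fun x : ℤ × ℂ => (sg 0 x.2 + sg 1 1, x.1))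
    (((PK.emb Tm.snd').add (PK.const _)).pm.prodMk Tm.fst'.pm), fun p j Y _ _ A Λ hD hB => ?_⟩
  let R : (Fin m → ℕ) → Y → (Fin m × Fin m → Fin j → ℂ) → Prop := fun a y w =>
    A y ∧ lat X a (fun q => pol (w q)) ≤ Λ y
  have hcol : ∀ (a : Fin m → ℕ) k (w : Fin m × Fin m → Fin j → ℂ),
      (tri X a fun q => pol (w q)).col k = Pi.single k (X ^ a k) + ∑ l : Fin m × Fin j,
        w (l.1, k) l.2 • (Pi.single l.1 (if l.1 < k then X ^ l.2.1 else 0) : Fin m → ℂ[X]) :=
      fun a k w => by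
    funext i
    simp only [col_apply, tri, Pi.add_apply, Finset.sum_apply, Pi.smul_apply, Fintype.sum_prod_type,
      pol]
    rw [Finset.sum_eq_single i (fun l _ hl => by simp [hl.symm]) (by simp)]
    split_ifs with e e'
    · simp [e.ne]
    · simp [e']
    · simp [e']
  have hA : Def A := ((hD Empty 0 Empty.elim).comp (h := fun y => (y, 0)) (by fun_prop)).congr
    fun y => by simp
  have hR : ∀ a, Def fun q : Y × (Fin m × Fin m → Fin j → ℂ) => R a q.1 q.2 := fun a =>
    ((hA.comp Tm.fst').and (Def.allF fun k => (hD (Fin m × Fin j) (Pi.single k (X ^ a k))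
      fun l => Pi.single l.1 (if l.1 < k then X ^ l.2.1 else 0)).comp
        (h := fun q : Y × (Fin m × Fin m → Fin j → ℂ) => (q.1, fun l => q.2 (l.1, k) l.2))
        (by fun_prop))).congr fun q => by
          simp only [R, lat_le_iff, hcol]
          exact and_congr_right fun h => by simp only [h, true_and]
  have hRe : ∀ a y w, ∑ i, a i = j → R a y w → ∀ a' h', lat X a' h' = Λ y →
      a = a' ∧ lat X a (fun q => pol (w q)) = Λ y := fun a y w ha h a' h' e => by
    have := (hB.mapsTo h.1).2.2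
    rw [← e, finrank_lat] at this
    rw [← e]
    exact lat_eq (e ▸ h.2) (ha.trans this.symm)
  have e1 : ∀ y, ind (A y) = ∑ a ∈ Finset.piAntidiag Finset.univ j, EI fun w => ind (R a y w) := by
    intro y
    by_cases hy : A y
    · obtain ⟨-, ⟨J, hJ⟩, h2⟩ := hB.mapsTo hy
      obtain ⟨a, h, e⟩ := exists_lat hJ
      rw [← e, finrank_lat] at h2
      rw [Finset.sum_eq_single a, ind_pos hy]
      · choose w0 hw using fun q => exists_pol j (h q)
        have h3 : lat X a (fun q => pol (w0 q)) = Λ y := (lat_congr (h2 ▸ hw)).trans e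
        refine (EI_affine (⨅ k, ((Λ y).restrictScalars ℂ).comap (∑ l : Fin m × Fin j,
          ((LinearMap.proj (φ := fun _ => ℂ) l.2).comp
            (LinearMap.proj (R := ℂ) (φ := fun _ => Fin j → ℂ) (l.1, k))).smulRight
            (Pi.single l.1 (if l.1 < k then X ^ l.2.1 else 0)))) w0 fun w => ?_).symm
        simp only [R, hy, true_and, lat_le_iff, Submodule.mem_iInf, Submodule.mem_comap,
          LinearMap.sum_apply, LinearMap.smulRight_apply, LinearMap.comp_apply,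
          LinearMap.proj_apply, Pi.sub_apply, sub_smul, Finset.sum_sub_distrib,
          Submodule.restrictScalars_mem]
        refine forall_congr' fun k => ?_
        rw [← (Λ y).sub_mem_iff_left (lat_le_iff.1 h3.le k), hcol, hcol, add_sub_add_left_eq_sub]
      · intro a' ha' hne
        rw [← EI_const (Y := Fin m × Fin m → Fin j → ℂ) 0]
        congr 1
        funext w
        exact ind_neg fun hr => hne (hRe a' y w (by simpa using ha') hr a h e).1
      · exact fun h => (h (by simpa using h2)).elim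
    · simp [R, hy, EI_const]
  have e2 : ∀ a ∈ Finset.piAntidiag Finset.univ j, ∀ w, (EI fun y => ind (R a y w)) =
      ind (Stab ρ T p (lat X a fun q => pol (w q))) := fun a ha w => by
    replace ha : ∑ i, a i = j := by simpa using ha
    by_cases hs : Stab ρ T p (lat X a fun q => pol (w q))
    · obtain ⟨y0, h1, h2⟩ := hB.surjOn ⟨hs, ⟨_, pow_mem_lat _ _ _⟩, (finrank_lat _ _).trans ha⟩
      rw [ind_pos hs, ← EI_point y0 fun _ => 1]
      congr 1
      funext y
      rw [mul_one]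
      refine ind_congr ⟨fun h => ?_, fun h => h ▸ ⟨h1, h2.ge⟩⟩
      obtain ⟨a', h', e⟩ := exists_lat (hB.mapsTo h.1).2.1.choose_spec
      exact hB.injOn h.1 h1 ((hRe a y w ha h a' h' e).2.symm.trans h2.symm)
    · rw [ind_neg hs, ← EI_const (Y := Y) 0]
      congr 1
      funext y
      refine ind_neg fun h => hs ?_
      obtain ⟨a', h', e⟩ := exists_lat (hB.mapsTo h.1).2.1.choose_spec
      rw [(hRe a y w ha h a' h' e).2]
      exact (hB.mapsTo h.1).1
  rw [funext e1, EI_sum _ fun a _ => CF.EI (CF.ind (hR a))]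
  refine Finset.sum_bij (fun a _ i => (a i : ℤ)) (fun a ha => ?_)
    (fun a _ a' _ h => funext fun i => Nat.cast_injective (congrFun h i)) (fun a ha => ?_)
    fun a ha => ?_
  · replace ha : ∑ i, a i = j := by simpa using ha
    simp only [Finset.mem_filter, Fintype.mem_piFinset, Finset.mem_Icc]
    refine ⟨fun i => ⟨by positivity, ?_⟩, by exact_mod_cast ha⟩
    exact_mod_cast ha ▸ Finset.single_le_sum (fun i _ => Nat.zero_le (a i)) (Finset.mem_univ i)
  · simp only [Finset.mem_filter, Fintype.mem_piFinset, Finset.mem_Icc] at ha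
    lift a to Fin m → ℕ using fun i => (ha.1 i).1
    simp only at ha
    exact ⟨a, by simpa using (by exact_mod_cast ha.2 : ∑ i, a i = j), rfl⟩
  · rw [EI_comm (CF.ind (hR a)), funext (e2 a ha)]
    simp only [pt_eq, cond_iff ρ T p a _ j (by simpa using ha)]
    rfl

end Pool.Agent.Lib.MP_d4c0ca_ag
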