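import Pool.Agent.Lib.MP_d4c0ca_ag.Rep

/-! Comparison of constructible and definable parametrisations; the main theorem. -/

namespace Pool.Agent.Lib.MP_d4c0ca_ag

open MvPolynomial Module
open scoped Classical

variable {σ ι κ : Type} {Z Y : Type} [Str Z] [Str Y]

theorem tm_evalMv {h : Z → κ → ℂ} (hh : ∀ i, Tm fun x => h x i) (p : MvPolynomial κ ℂ) :
    Tm fun x => eval (h x) p := by
  induction p using MvPolynomial.induction_on with
  | C c => simpa using Tm.const c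
  | add p q hp hq => simpa using hp.addC hq
  | mul_X p s hp => simpa using hp.mulC (hh s)

theorem Constructible.def {A : Set (κ → ℂ)} (hA : Constructible A) {h : Z → κ → ℂ}
    (hh : ∀ i, Tm fun x => h x i) : Def fun x => h x ∈ A := by
  obtain ⟨T, hT⟩ := hA
  exact Def.of_fam (ι := T) (a := fun p x => eval (h x) p.1 = 0)
    (fun p => Def.eq (tm_evalMv hh _) (Tm.const _)) fun x y e =>
      hT _ _ fun p hp => e ⟨p, hp⟩

theorem TC.mv [NoR Z] {h : Z → κ → ℂ} (hh : ∀ g ∈ Str.C, ∃ i, g = fun x => h x i) {c : Z → ℂ}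
    (hc : TC c) : ∃ p : MvPolynomial κ ℂ, ∀ x, c x = eval (h x) p := by
  induction hc with
  | gen hf =>
    obtain ⟨i, rfl⟩ := hh _ hf
    exact ⟨X i, fun x => by simp⟩
  | @ac f hf =>
    by_cases e : Nonempty Z
    · obtain ⟨x0⟩ := e
      exact ⟨C (f x0).ac, fun x => by simp [hf.const' x x0]⟩
    · exact ⟨0, fun x => (e ⟨x⟩).elim⟩
  | const c => exact ⟨C c, fun x => by simp⟩
  | add _ _ h1 h2 =>
    obtain ⟨p, hp⟩ := h1
    obtain ⟨q, hq⟩ := h2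
    exact ⟨p + q, fun x => by simp [hp, hq]⟩
  | mul _ _ h1 h2 =>
    obtain ⟨p, hp⟩ := h1
    obtain ⟨q, hq⟩ := h2
    exact ⟨p * q, fun x => by simp [hp, hq]⟩

theorem Def.constructible [NoR Z] [NoZ Z] {h : Z → κ → ℂ}
    (hh : ∀ g ∈ Str.C, ∃ i, g = fun x => h x i) {P : Z → Prop} (hP : Def P) :
    ∃ A : Set (κ → ℂ), Constructible A ∧ ∀ x, P x ↔ h x ∈ A := by
  obtain ⟨ι, _, z, c, hz, hc, h1⟩ := hP.fam
  choose p hp using fun i => (tm_C.1 (hc i)).mv hh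
  refine ⟨{y | ∃ x, P x ∧ ∀ i, eval (h x) (p i) = 0 ↔ eval y (p i) = 0},
    ⟨Finset.univ.image p, ?_⟩, fun x => ⟨fun hx => ⟨x, hx, fun _ => Iff.rfl⟩, ?_⟩⟩
  · rintro y y' e ⟨x, a1, a2⟩
    exact ⟨x, a1, fun i => (a2 i).trans (e _ (by simp))⟩
  · rintro ⟨x', a1, a2⟩
    exact h1 x' x (fun i => by rw [(tm_Z.1 (hz i)).const' x' x]) (by simpa only [hp] using a2) a1

theorem int1_cast (ψ : ℂ → ℤ) : ((int1 ψ : ℤ) : ℚ) = int1 fun w => (ψ w : ℚ) := by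
  by_cases h : Cof ψ
  · obtain ⟨c, E, h⟩ := h
    rw [int1_eq h, int1_eq (c := (c : ℚ)) (E := E) fun w hw => by rw [h w hw]]
    simp
  have h1 : ¬ ∃ c, {w | ψ w ≠ c}.Finite := fun ⟨c, hc⟩ =>
    h ⟨c, hc.toFinset, fun w hw => by simpa using hw⟩
  have h2 : ¬ ∃ c, {w | (ψ w : ℚ) ≠ c}.Finite := fun ⟨c, hc⟩ => by
    obtain ⟨w, hw⟩ := hc.exists_notMem
    obtain rfl : (ψ w : ℚ) = c := by simpa using hw
    exact h1 ⟨ψ w, by simpa using hc⟩
  rw [int1, int1, gval, gval, dif_neg h1, dif_neg h2, finsum_of_infinite_support,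
    finsum_of_infinite_support]
  · simp
  · exact fun e => h2 ⟨0, by simpa [Function.support] using e⟩
  · exact fun e => h1 ⟨0, by simpa [Function.support] using e⟩

theorem euler_cast (k : ℕ) (φ : (Fin k → ℂ) → ℤ) :
    ((euler k φ : ℤ) : ℚ) = euler k fun x => (φ x : ℚ) := by
  induction k with
  | zero => rfl
  | succ k ih => simp only [euler, int1_cast, ih]

theorem chi_cast {k : ℕ} {A : Set (Fin k → ℂ)} (hA : Def (· ∈ A)) :
    (chi A : ℚ) = EI fun x => ind (x ∈ A) := by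
  rw [chi, euler_cast, EI_euler (CF.ind hA)]
  congr 1
  funext x
  by_cases e : x ∈ A <;> simp [e]

variable [Fintype ι] [Fintype σ] {M : Sub σ ι} {n : ℕ}

theorem UF.chi_eq (U U' : UF M n) : U.chi (fun _ => True) = U'.chi fun _ => True := by
  simp only [UF.chi, and_true]
  refine EI_bij_ind (R := fun a b => U.A a ∧ U'.A b ∧ U.β a = U'.β b) ?_ U.hA ?_ ?_ ?_ ?_ ?_
  · refine ((U.hA.comp Tm.fst').and ((U'.hA.comp Tm.snd').and (Def.allV (n + 1)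
      (P := fun x f => U.Z (n + 1) (x.1, f) ↔ U'.Z (n + 1) (x.2, f))
      (Def.iff ((U.hZ _).comp (by fun_prop)) ((U'.hZ _).comp (by fun_prop)))))).congr fun x =>
        and_congr_right fun a1 => and_congr_right fun a2 => ⟨fun h => quot_ext (U.hB.mapsTo a1)
          (U'.hB.mapsTo a2) fun f hf => ?_, fun h f hf => ?_⟩
    · rw [U.mem _ _ a1 _ hf, U'.mem _ _ a2 _ hf, h f hf]
    · rw [← U.mem _ _ a1 _ hf, ← U'.mem _ _ a2 _ hf, h]
  · intro a ha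
    obtain ⟨b, h1, h2⟩ := U'.hB.surjOn (U.hB.mapsTo ha)
    exact ⟨b, ha, h1, h2.symm⟩
  · intro b hb
    obtain ⟨a, h1, h2⟩ := U.hB.surjOn (U'.hB.mapsTo hb)
    exact ⟨a, h1, hb, h2⟩
  · exact fun a b b' h h' => U'.hB.injOn h'.2.1 h.2.1 (h'.2.2.symm.trans h.2.2)
  · exact fun a a' b h h' => U.hB.injOn h'.1 h.1 (h'.2.2.trans h.2.2.symm)
  · exact fun a b h => ⟨h.1, h.2.1⟩

omit [Fintype ι] [Fintype σ] in
theorem UF.param (U : UF M n) : Param M n {a | U.A a} U.β := by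
  refine ⟨?_, U.hB, fun d => ?_⟩
  · obtain ⟨A, h1, h2⟩ := U.hA.constructible (h := id) (by
      rintro _ ⟨i, g, rfl, rfl⟩; exact ⟨i, rfl⟩)
    exact (Set.ext h2 : {a | U.A a} = A) ▸ h1
  · obtain ⟨A, h1, h2⟩ := (U.hZ d).constructible
      (h := fun q => Sum.elim q.1 fun p : ι × (σ →₀ ℕ) => coeff p.2 (q.2 p.1)) (by
        rintro _ (⟨_, ⟨i, g, rfl, rfl⟩, rfl⟩ | ⟨_, ⟨i, _, ⟨α, rfl⟩, rfl⟩, rfl⟩)
        exacts [⟨Sum.inl i, rfl⟩, ⟨Sum.inr (i, α), rfl⟩])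
    exact ⟨A, h1, fun a ha f hf => (U.mem d a ha f hf).trans (h2 _)⟩

theorem Param.chi_eq {k : ℕ} {A : Set (Fin k → ℂ)} {β : (Fin k → ℂ) → Sub σ ι}
    (h : Param M n A β) (U : UF M n) : (chi A : ℚ) = U.chi fun _ => True := by
  obtain ⟨h1, h2, h3⟩ := h
  choose R h3 h4 using h3
  have hA : Def (· ∈ A) := h1.def (h := id) fun i => Tm.apply i
  rw [← UF.chi_eq ⟨k, (· ∈ A), β, fun d q => Sum.elim q.1 (fun p : ι × (σ →₀ ℕ) =>
    coeff p.2 (q.2 p.1)) ∈ R d, hA, h2, fun d => (h3 d).def (by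
      rintro (i | p)
      exacts [Tm.fst'.app i, tm_S.1 (Tm.snd'.app p.1) p.2]), h4⟩ U, chi_cast hA]
  simp [UF.chi]

theorem main (hM : Graded M) (hdim : ∃ C : ℕ, ∀ d, hilb M d ≤ C * (d + 1)) :
    ∃ a : ℕ → ℤ,
      (∀ n, (∃ (k : ℕ) (A : Set (Fin k → ℂ)) (β : (Fin k → ℂ) → Sub σ ι), Param M n A β) ∧
        ∀ (k : ℕ) (A : Set (Fin k → ℂ)) (β : (Fin k → ℂ) → Sub σ ι), Param M n A β →
          chi A = a n) ∧
      ∃ P R : Polynomial ℚ, R.coeff 0 ≠ 0 ∧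
        (R : PowerSeries ℚ) * PowerSeries.mk (fun n => (a n : ℚ)) = P := by
  obtain ⟨C, hC⟩ := hdim
  have U := fun n => (exists_UF hM n).some
  refine ⟨fun n => chi {a | (U n).A a}, fun n => ⟨⟨_, _, _, (U n).param⟩, fun k A β h => ?_⟩, ?_⟩
  · exact Int.cast_injective (α := ℚ) ((h.chi_eq (U n)).trans ((U n).param.chi_eq (U n)).symm)
  · simp only [fun n => (U n).param.chi_eq (U n)]
    exact global_rat hM hC U

end Pool.Agent.Lib.MP_d4c0ca_ag
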