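import Pool.Agent.Lib.MP_d4c0ca_ag.Split

/-! Noether normalisation for modules with one-dimensional support. -/

namespace Pool.Agent.Lib.MP_d4c0ca_ag

open MvPolynomial Module
open scoped Classical

variable {σ ι : Type} [Finite ι] [Fintype σ] {M : Sub σ ι} {ℓ ℓ0 ℓ1 : MvPolynomial σ ℂ} {n : ℕ}

/-- multiples of `g` -/
noncomputable def mu (g : MvPolynomial σ ℂ) : Sub σ ι := LinearMap.range (g • LinearMap.id)

omit [Finite ι] [Fintype σ] in
theorem mem_mu {g : MvPolynomial σ ℂ} {f : ι → MvPolynomial σ ℂ} : f ∈ mu g ↔ ∃ u, g • u = f :=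
  Iff.rfl

omit [Fintype σ] in
theorem Graded.sup_mu {K : Sub σ ι} (hK : Graded K) (hℓ : ℓ.IsHomogeneous 1) :
    Graded (K ⊔ mu ℓ) := graded_iff.2 fun f hf d => by
  obtain ⟨k, hk, _, ⟨u, rfl⟩, rfl⟩ := Submodule.mem_sup.1 hf
  rw [map_add]
  refine Submodule.add_mem_sup (hK k hk d) ?_
  simp only [LinearMap.smul_apply, LinearMap.id_apply, hc_smul hℓ]
  split_ifs
  exacts [⟨_, rfl⟩, zero_mem _]

theorem hilb_anti {K K' : Sub σ ι} (h : K ≤ K') (d : ℕ) : hilb K' d ≤ hilb K d := by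
  have := Submodule.finrank_map_le (Submodule.factor
    (show K.restrictScalars ℂ ≤ K'.restrictScalars ℂ from h)) ((V σ ι d).map (cl K))
  rwa [← Submodule.map_comp, Submodule.factor_comp_mk] at this

theorem hilb_step {K : Sub σ ι} (hℓ : ℓ.IsHomogeneous 1) (h : Nzd ℓ K) (d : ℕ) :
    hilb K d + hilb (K ⊔ mu ℓ) (d + 1) ≤ hilb K (d + 1) := by
  let φ := Submodule.factor (show K.restrictScalars ℂ ≤ (K ⊔ mu ℓ).restrictScalars ℂ from
    (le_sup_left : K ≤ K ⊔ mu ℓ))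
  have h1 := LinearMap.finrank_range_add_finrank_ker (φ.domRestrict ((V σ ι (d + 1)).map (cl K)))
  rw [LinearMap.range_domRestrict, ← Submodule.map_comp, Submodule.factor_comp_mk] at h1
  have h2 : ((V σ ι d).map (cl K)).map (act K ℓ) ≤ (V σ ι (d + 1)).map (cl K) := by
    rintro _ ⟨_, ⟨f, hf, rfl⟩, rfl⟩
    exact ⟨ℓ • f, add_comm 1 d ▸ smul_mem_V hℓ hf, rfl⟩
  have h3 : (((V σ ι d).map (cl K)).map (act K ℓ)).comap ((V σ ι (d + 1)).map (cl K)).subtype ≤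
      LinearMap.ker (φ.domRestrict ((V σ ι (d + 1)).map (cl K))) := by
    rintro ⟨_, hx⟩ ⟨_, ⟨f, hf, rfl⟩, rfl⟩
    exact cl_zero.2 (Submodule.mem_sup_right ⟨f, rfl⟩)
  have h4 := Submodule.finrank_mono h3
  rw [(Submodule.comapSubtypeEquivOfLe h2).finrank_eq,
    ← (Submodule.equivMapOfInjective _ (nzd_iff_inj.1 h) _).finrank_eq] at h4
  exact (add_comm _ _).trans_le ((Nat.add_le_add_left h4 _).trans h1.le)

theorem exists_sat (hM : Graded M) : ∃ (M' : Sub σ ι) (ℓ : MvPolynomial σ ℂ), M ≤ M' ∧ Graded M' ∧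
    ℓ.IsHomogeneous 1 ∧ Nzd ℓ M' ∧ ∀ (T : Sub σ ι) (d : ℕ), (∀ f ∈ V σ ι d, f ∈ M' ⊔ T) →
      ∃ e, ∀ f ∈ V σ ι e, f ∈ M ⊔ T := by
  let c : ℕ → Sub σ ι := fun k => Nat.rec M
    (fun _ N => ⨅ s, N.comap ((X s : MvPolynomial σ ℂ) • LinearMap.id)) k
  have hc : ∀ k f, f ∈ c (k + 1) ↔ ∀ s, (X s : MvPolynomial σ ℂ) • f ∈ c k := fun k f => by
    simp [c]
  have hm : Monotone c := monotone_nat_of_le_succ fun k f hf =>
    (hc k f).2 fun s => (c k).smul_mem _ hf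
  obtain ⟨k, hk⟩ := monotone_stabilizes_iff_noetherian.2 inferInstance ⟨c, hm⟩
  obtain ⟨ℓ, h1, h2⟩ := exists_nzd (fun _ : Unit => c k) fun _ f hf =>
    (hk (k + 1) k.le_succ).ge ((hc k f).2 hf)
  refine ⟨c k, ℓ, hm k.zero_le, ?_, h1, h2 (), fun T => ?_⟩
  · clear hk h2
    induction k with
    | zero => exact hM
    | succ k ih =>
      exact graded_iff.2 fun f hf d => (hc k _).2 fun s =>
        hc_smul_add (isHomogeneous_X ℂ s) f d ▸ ih _ ((hc k f).1 hf s) _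
  · clear hk h2
    induction k with
    | zero => exact fun d h => ⟨d, h⟩
    | succ k ih =>
      refine fun d h => ih (d + 1) fun f hf => ?_
      obtain ⟨g, a1, rfl⟩ := V_succ hf
      refine sum_mem fun s _ => ?_
      obtain ⟨u, hu, v, hv, e⟩ := Submodule.mem_sup.1 (h _ (a1 s))
      rw [← e, smul_add]
      exact Submodule.add_mem_sup ((hc k u).1 hu s) (T.smul_mem _ hv)

/-- the support misses the codimension two linear space cut out by two linear forms -/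
def NN (M : Sub σ ι) (ℓ0 ℓ1 : MvPolynomial σ ℂ) : Prop :=
  ℓ0.IsHomogeneous 1 ∧ ℓ1.IsHomogeneous 1 ∧
    ∃ d0, ∀ d, d0 ≤ d → ∀ f ∈ V σ ι d, ∃ u v, f - ℓ0 • u - ℓ1 • v ∈ M

omit [Finite ι] [Fintype σ] in
theorem NN.symm (h : NN M ℓ0 ℓ1) : NN M ℓ1 ℓ0 := by
  obtain ⟨h0, h1, d, h⟩ := h
  refine ⟨h1, h0, d, fun e he f hf => ?_⟩
  obtain ⟨u, v, h⟩ := h e he f hf
  exact ⟨v, u, by rwa [sub_right_comm]⟩

theorem exists_NN (hM : Graded M) {C : ℕ} (hC : ∀ d, hilb M d ≤ C * (d + 1)) :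
    ∃ ℓ0 ℓ1, NN M ℓ0 ℓ1 := by
  obtain ⟨M0, ℓ0, a1, a2, a3, a4, a5⟩ := exists_sat hM
  obtain ⟨M1, ℓ1, b1, b2, b3, b4, b5⟩ := exists_sat (a2.sup_mu a3)
  obtain ⟨d, hd⟩ : ∃ d, hilb (M1 ⊔ mu ℓ1) d = 0 := by
    by_contra h
    push Not at h
    have h1 : ∀ d, d ≤ hilb M1 d := fun d => by
      induction d with
      | zero => simp
      | succ d ih =>
        have := hilb_step b3 b4 d
        have := h (d + 1)
        omega
    have h2 : ∀ d, d * (d + 1) ≤ 2 * hilb M0 d := fun d => by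
      induction d with
      | zero => simp
      | succ d ih =>
        have := hilb_step a3 a4 d
        have := hilb_anti b1 (d + 1)
        have := h1 (d + 1)
        nlinarith
    have := h2 (2 * C + 1)
    have := hilb_anti a1 (2 * C + 1)
    have := hC (2 * C + 1)
    nlinarith
  obtain ⟨e, he⟩ := b5 (mu ℓ1) d fun f hf => cl_zero.1 (by
    have := Submodule.finrank_eq_zero.1 hd
    exact (Submodule.eq_bot_iff _).1 this _ ⟨f, hf, rfl⟩)
  obtain ⟨e, he⟩ := a5 (mu ℓ0 ⊔ mu ℓ1) e (by simpa only [sup_assoc] using he)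
  refine ⟨ℓ0, ℓ1, a3, b3, e, fun d hd f hf => ?_⟩
  have : f ∈ M ⊔ (mu ℓ0 ⊔ mu ℓ1) := by
    induction hd generalizing f with
    | refl => exact he f hf
    | step _ ih =>
      obtain ⟨g, a1, rfl⟩ := V_succ hf
      exact sum_mem fun s _ => Submodule.smul_mem _ _ (ih _ (a1 s))
  obtain ⟨k, hk, _, h, rfl⟩ := Submodule.mem_sup.1 this
  obtain ⟨_, ⟨u, rfl⟩, _, ⟨v, rfl⟩, rfl⟩ := Submodule.mem_sup.1 h
  exact ⟨u, v, by simpa [← add_assoc, sub_sub] using hk⟩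

omit [Finite ι] [Fintype σ] in
theorem NN.pencil (h : NN M ℓ0 ℓ1) (p : ℂ) : (ℓ1 - p • ℓ0).IsHomogeneous 1 :=
  h.2.1.sub ((homogeneousSubmodule σ ℂ 1).smul_mem p h.1)

theorem NN.nzd (h : NN M ℓ0 ℓ1) {K : Sub σ ι} (hK : K ∈ QuotPts M n) {p : ℂ}
    (h' : Nil (ℓ1 - p • ℓ0) K) : Nzd ℓ0 K := by
  obtain ⟨ℓ, L, hℓ, h1, rfl⟩ := exists_AQ' hK
  obtain ⟨J, hJ⟩ := (nil_hom_iff (h.pencil p)).1 h'
  obtain ⟨h0, -, d, h⟩ := h
  have := h1.2.2.1
  refine nzd_hom h0 (nzd_iff_inj.2 (LinearMap.injective_iff_surjective.2 fun q => ?_))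
  obtain ⟨f, rfl⟩ := cl_surj L q
  have : ∀ k : ℕ, ∀ f, ∃ u v, f - ℓ0 • u - (ℓ1 - p • ℓ0) ^ k • v ∈ L := fun k => by
    induction k with
    | zero => exact fun f => ⟨0, f, by simp⟩
    | succ k ih =>
      intro f
      obtain ⟨u, v, a1⟩ := ih f
      obtain ⟨g, a2, a3⟩ := h1.surj hℓ (d := n + d) (by omega) v
      obtain ⟨u', v', a4⟩ := h _ (by omega) g a2
      refine ⟨u + (ℓ1 - p • ℓ0) ^ k • (u' + p • v'), v', ?_⟩
      convert add_mem a1 (L.smul_mem ((ℓ1 - p • ℓ0) ^ k) (add_mem a3 (h1.1 a4))) using 1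
      rw [pow_succ]
      generalize (ℓ1 - p • ℓ0) ^ k = w
      funext i
      simp only [Pi.sub_apply, Pi.add_apply, Pi.smul_apply, smul_eq_mul, smul_eq_C_mul]
      ring
  obtain ⟨u, v, a1⟩ := this J f
  exact ⟨cl L u, (cl_eq.2 ((L.sub_mem_iff_left (hJ v)).1 a1)).symm⟩

theorem NN.mult (h : NN M ℓ0 ℓ1) (hM : Graded M) {K : Sub σ ι} (hK : K ∈ QuotPts M n)
    (h' : Nzd ℓ0 K) : ∃ (μ : ℂ → ℕ) (E : Finset ℂ), (∀ p ∉ E, μ p = 0) ∧ ∑ p ∈ E, μ p = n ∧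
      ∀ p, μ p ≤ n ∧ ∃ K' K'', Spl M (ℓ1 - p • ℓ0) (μ p) (n - μ p) K K' K'' := by
  obtain ⟨L, h1, rfl⟩ := exists_AQ hK h.1 h'
  have := h1.2.2.1
  refine ⟨fun p => (act L ℓ1).charpoly.rootMultiplicity p, (act L ℓ1).charpoly.roots.toFinset,
    fun p hp => ?_, ?_, fun p => ?_⟩
  · simp only [← Polynomial.count_roots, Multiset.count_eq_zero]
    simpa using hp
  · simp only [← Polynomial.count_roots, Multiset.toFinset_sum_count_eq,
      IsAlgClosed.card_roots_eq_natDegree, LinearMap.charpoly_natDegree, h1.2.2.2]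
  · obtain ⟨j, a1, K', K'', a2, a3⟩ := h1.spl hM h.1 (h.pencil p)
    have : act L (ℓ1 - p • ℓ0) = act L ℓ1 - p • 1 := LinearMap.ext fun q => by
      obtain ⟨f, rfl⟩ := cl_surj L q
      rw [LinearMap.sub_apply, LinearMap.smul_apply, End.one_apply, act_cl, act_cl, ← map_smul,
        ← map_sub, cl_eq]
      convert neg_mem (csmul_mem L p (h1.2.1 f)) using 1
      rw [sub_smul, smul_assoc, smul_sub]
      abel
    rw [this, ← End.genEigenspace_nat, ← h1.2.2.2, ← End.maxGenEigenspace_eq_genEigenspace_finrank,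
      LinearMap.finrank_maxGenEigenspace_eq] at a3
    simp only [← a3]
    exact ⟨a1, K', K'', a2⟩

end Pool.Agent.Lib.MP_d4c0ca_ag
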