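import Mathlib

/-! Places of a function field in one variable over the complex numbers. -/

namespace Pool.Agent.Lib.MP_d4c0ca_ag

open Polynomial WithZero IsDedekindDomain FunctionField
open scoped IntermediateField

/-- normalised discrete valuations trivial on the constants -/
@[ext]
structure Place (F : Type) [Field F] [Algebra ℂ F] where
  v : Valuation F ℤᵐ⁰
  const : ∀ c : ℂ, v (algebraMap ℂ F c) ≤ 1
  unif : ∃ π, v π = exp (-1 : ℤ)

variable {F : Type} [Field F] [Algebra ℂ F]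

namespace Place

variable (P : Place F)

/-- order of vanishing -/
noncomputable def ord (h : F) : ℤ := - log (P.v h)

theorem v_eq {h : F} (hh : h ≠ 0) : P.v h = exp (- P.ord h) := by
  rw [ord, neg_neg, exp_log ((Valuation.ne_zero_iff _).2 hh)]

theorem ord_eq {h : F} {n : ℤ} (hh : P.v h = exp (-n)) : P.ord h = n := by
  rw [ord, hh, log_exp, neg_neg]

theorem ord_mul {a b : F} (ha : a ≠ 0) (hb : b ≠ 0) : P.ord (a * b) = P.ord a + P.ord b :=
  P.ord_eq (by rw [map_mul, P.v_eq ha, P.v_eq hb, ← exp_add]; congr 1; ring)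

theorem ord_inv (a : F) : P.ord a⁻¹ = - P.ord a := by
  simp [ord]

theorem v_const {c : ℂ} (hc : c ≠ 0) : P.v (algebraMap ℂ F c) = 1 := by
  refine le_antisymm (P.const c) ?_
  have h1 := P.const c⁻¹
  have h0 : P.v (algebraMap ℂ F c) ≠ 0 := (Valuation.ne_zero_iff _).2 (by simpa using hc)
  rwa [map_inv₀, map_inv₀, inv_le_one₀ (zero_lt_iff.2 h0)] at h1

theorem lt_one_iff {h : F} (hh : h ≠ 0) : P.v h < 1 ↔ 0 < P.ord h := by
  rw [P.v_eq hh, ← exp_zero, exp_lt_exp, neg_lt_zero]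

theorem one_lt_iff {h : F} (hh : h ≠ 0) : 1 < P.v h ↔ P.ord h < 0 := by
  rw [P.v_eq hh, ← exp_zero, exp_lt_exp, neg_pos]

theorem transcendental {h : F} (h0 : h ≠ 0) (h1 : P.v h ≠ 1) : Transcendental ℂ h := by
  intro ha
  obtain ⟨c, rfl⟩ : h ∈ (algebraMap ℂ F).range := by
    have := ha.isIntegral
    exact (minpoly.mem_range_of_degree_eq_one ℂ h
      (IsAlgClosed.degree_eq_one_of_irreducible ℂ (minpoly.irreducible this)))
  exact h1 (P.v_const (by rintro rfl; simp at h0))

theorem res_unique {h : F} {c c' : ℂ} (h1 : P.v (h - algebraMap ℂ F c) < 1)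
    (h2 : P.v (h - algebraMap ℂ F c') < 1) : c = c' := by
  by_contra hc
  have := P.v.map_sub_lt h2 h1
  rw [sub_sub_sub_cancel_left, ← map_sub, P.v_const (sub_ne_zero.2 hc)] at this
  exact lt_irrefl _ this

theorem le_one_of_res {h : F} {c : ℂ} (h1 : P.v (h - algebraMap ℂ F c) < 1) : P.v h ≤ 1 := by
  have := P.v.map_add_le h1.le (P.const c)
  rwa [sub_add_cancel] at this

end Place

section Inst

variable [Algebra ℂ[X] F] [IsScalarTower ℂ ℂ[X] F] [Algebra (RatFunc ℂ) F]
  [IsScalarTower ℂ[X] (RatFunc ℂ) F] [FunctionField ℂ F]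

omit [Algebra (RatFunc ℂ) F] [IsScalarTower ℂ[X] (RatFunc ℂ) F] [FunctionField ℂ F] in
theorem le_one_poly (P : Place F) (hg : P.v (algebraMap ℂ[X] F X) ≤ 1) (p : ℂ[X]) :
    P.v (algebraMap ℂ[X] F p) ≤ 1 := by
  induction p using Polynomial.induction_on with
  | C c => rw [← algebraMap_eq, ← IsScalarTower.algebraMap_apply]; exact P.const c
  | add p q hp hq => rw [map_add]; exact P.v.map_add_le hp hq
  | monomial n c h => rw [pow_succ, ← mul_assoc, map_mul, map_mul]; exact mul_le_one' h hg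

omit [Algebra (RatFunc ℂ) F] [IsScalarTower ℂ[X] (RatFunc ℂ) F] [FunctionField ℂ F] in
theorem le_one_int (P : Place F) (hg : P.v (algebraMap ℂ[X] F X) ≤ 1)
    (a : ringOfIntegers ℂ F) : P.v a ≤ 1 := by
  obtain ⟨p, hp, h⟩ : IsIntegral ℂ[X] (a : F) := a.2
  let φ : ℂ[X] →+* P.v.integer := (algebraMap ℂ[X] F).codRestrict _ (le_one_poly P hg)
  refine (Valuation.integer.integers P.v).mem_of_integral ⟨p.map φ, hp.map φ, ?_⟩
  rw [eval₂_map]
  exact h

/-- the place attached to a prime of the ring of integers -/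
noncomputable def ofPrime (p : HeightOneSpectrum (ringOfIntegers ℂ F)) : Place F where
  v := p.valuation F
  const c := by
    have : algebraMap ℂ F c = algebraMap (ringOfIntegers ℂ F) F
        (algebraMap ℂ[X] _ (C c)) := by
      rw [← IsScalarTower.algebraMap_apply, ← algebraMap_eq, ← IsScalarTower.algebraMap_apply]
    rw [this]
    exact p.valuation_le_one _
  unif := p.valuation_exists_uniformizer F

theorem ofPrime_lt (p : HeightOneSpectrum (ringOfIntegers ℂ F)) (a : ringOfIntegers ℂ F) :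
    (ofPrime p).v a < 1 ↔ a ∈ p.asIdeal := p.valuation_lt_one_iff_mem (K := F) a

theorem ofPrime_injective : Function.Injective (ofPrime (F := F)) := fun p q h =>
  HeightOneSpectrum.ext (Ideal.ext fun a => by rw [← ofPrime_lt, ← ofPrime_lt, h])

theorem exists_ofPrime (P : Place F) (hg : P.v (algebraMap ℂ[X] F X) ≤ 1) :
    ∃ p, ofPrime p = P := by
  have h1 := le_one_int P hg
  let I : Ideal (ringOfIntegers ℂ F) :=
    { carrier := {a | P.v a < 1}
      add_mem' := fun ha hb => P.v.map_add_lt ha hb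
      zero_mem' := by simp
      smul_mem' := fun c a ha => by
        simp only [smul_eq_mul, Set.mem_ofPred_eq, MulMemClass.coe_mul, map_mul] at ha ⊢
        exact (mul_le_of_le_one_left' (h1 c)).trans_lt ha }
  have hI : ∀ a : ringOfIntegers ℂ F, a ∈ I ↔ P.v a < 1 := fun _ => Iff.rfl
  have hI' : ∀ a : ringOfIntegers ℂ F, a ∉ I → P.v a = 1 := fun a ha =>
    le_antisymm (h1 a) (not_lt.1 ha)
  have hp : I.IsPrime := by
    refine ⟨fun h => ?_, fun {a b} h => ?_⟩
    · have : (1 : ringOfIntegers ℂ F) ∈ I := h ▸ Submodule.mem_top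
      simp [hI] at this
    · by_contra hc
      rw [not_or] at hc
      rw [hI, MulMemClass.coe_mul, map_mul, hI' a hc.1, hI' b hc.2, mul_one] at h
      exact lt_irrefl _ h
  obtain ⟨π, hπ⟩ := P.unif
  have hb : I ≠ ⊥ := fun h => by
    obtain ⟨a, b, hb, rfl⟩ := IsFractionRing.div_surjective (A := ringOfIntegers ℂ F) π
    have hb0 : b ≠ 0 := nonZeroDivisors.ne_zero hb
    have ha0 : a ≠ 0 := by rintro rfl; simp at hπ; exact exp_ne_zero hπ.symm
    have e1 := hI' a (by rwa [h])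
    have e2 := hI' b (by rwa [h])
    rw [map_div₀] at hπ
    erw [e1, e2] at hπ
    rw [div_one, ← exp_zero, exp_inj] at hπ
    omega
  let p : HeightOneSpectrum (ringOfIntegers ℂ F) := ⟨I, hp, hb⟩
  have unit : ∀ y, p.valuation F y = 1 → P.v y = 1 := fun y hy => by
    obtain ⟨n, d, h⟩ := p.exists_primeCompl_mul_eq_of_integer y hy.le
    have e1 : P.v (d : ringOfIntegers ℂ F) = 1 := hI' _ d.2
    have e2 : n ∉ I := by
      have := congrArg (p.valuation F) h
      rw [map_mul, hy, one_mul, p.valuation_eq_one_iff_notMem.2 d.2] at this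
      exact p.valuation_eq_one_iff_notMem.1 this.symm
    have := congrArg P.v h
    rw [map_mul] at this
    erw [e1, hI' n e2] at this
    rwa [mul_one] at this
  obtain ⟨ϖ, hϖ⟩ : ∃ ϖ : ringOfIntegers ℂ F, p.valuation F (ϖ : F) = exp (-1 : ℤ) :=
    p.valuation_exists_uniformizer' F
  have hϖ0 : (ϖ : F) ≠ 0 := by
    intro h
    rw [h, map_zero] at hϖ
    exact exp_ne_zero hϖ.symm
  have hϖ1 : 0 < P.ord ϖ := by
    rw [← P.lt_one_iff hϖ0, ← hI]
    refine (p.valuation_lt_one_iff_mem (K := F) ϖ).1 ?_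
    refine lt_of_eq_of_lt hϖ ?_
    rw [← exp_zero, exp_lt_exp]
    omega
  have key : ∀ y : F, y ≠ 0 → P.v y = exp (P.ord ϖ * log (p.valuation F y)) := fun y hy => by
    have h0 : p.valuation F y ≠ 0 := (Valuation.ne_zero_iff _).2 hy
    have := unit (y * (ϖ : F) ^ log (p.valuation F y)) (by
      rw [map_mul, map_zpow₀, hϖ, ← exp_zsmul]
      conv_lhs => arg 1; rw [← exp_log h0]
      rw [← exp_add]; simp)
    rw [map_mul, map_zpow₀, P.v_eq hϖ0, ← exp_zsmul, mul_eq_one_iff_eq_inv₀ exp_ne_zero,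
      ← exp_neg] at this
    rw [this]
    congr 1
    simp [mul_comm]
  have hπ0 : π ≠ 0 := by rintro rfl; simp at hπ; exact exp_ne_zero hπ.symm
  have h2 := key π hπ0
  rw [hπ, exp_inj] at h2
  have h3 : P.ord ϖ = 1 := Int.eq_one_of_mul_eq_one_right hϖ1.le
    (b := -log (p.valuation F π)) (by linarith)
  refine ⟨p, Place.ext (Valuation.ext fun y => ?_)⟩
  by_cases hy : y = 0
  · simp [hy]
  · rw [key y hy, h3, one_mul, exp_log ((Valuation.ne_zero_iff _).2 hy)]
    rfl

omit [Algebra ℂ F] [IsScalarTower ℂ ℂ[X] F] in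
theorem res_prime (p : HeightOneSpectrum (ringOfIntegers ℂ F)) (a : ringOfIntegers ℂ F) :
    ∃ c : ℂ, a - algebraMap ℂ[X] _ (C c) ∈ p.asIdeal := by
  have := p.isMaximal
  let : Algebra ℂ (ringOfIntegers ℂ F) := ((algebraMap ℂ[X] _).comp C).toAlgebra
  have : IsScalarTower ℂ ℂ[X] (ringOfIntegers ℂ F) := IsScalarTower.of_algebraMap_eq fun _ => rfl
  have : Module.Finite ℂ[X] (ringOfIntegers ℂ F) := inferInstance
  have : Algebra.FiniteType ℂ (ringOfIntegers ℂ F) :=
    Algebra.FiniteType.trans (S := ℂ[X]) inferInstance inferInstance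
  let := Ideal.Quotient.field p.asIdeal
  have : Module.Finite ℂ (ringOfIntegers ℂ F ⧸ p.asIdeal) := finite_of_finite_type_of_isJacobsonRing _ _
  obtain ⟨c, hc⟩ := (IsAlgClosed.algebraMap_bijective_of_isIntegral (k := ℂ)
    (K := ringOfIntegers ℂ F ⧸ p.asIdeal)).2 (Ideal.Quotient.mk _ a)
  exact ⟨c, Ideal.Quotient.eq.1 hc.symm⟩

theorem exists_res_inst (P : Place F) (hg : P.v (algebraMap ℂ[X] F X) ≤ 1) (h : F)
    (hh : P.v h ≤ 1) : ∃ c : ℂ, P.v (h - algebraMap ℂ F c) < 1 := by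
  obtain ⟨p, rfl⟩ := exists_ofPrime P hg
  obtain ⟨a, ha⟩ := p.exists_valuation_sub_lt_of_integer hh (1 : ℤᵐ⁰ˣ)
  obtain ⟨c, hc⟩ := res_prime p a
  refine ⟨c, ?_⟩
  rw [← ofPrime_lt] at hc
  have e : ((algebraMap ℂ[X] (ringOfIntegers ℂ F) (C c) : ringOfIntegers ℂ F) : F) =
      algebraMap ℂ F c := by
    rw [← algebraMap_eq]
    exact (IsScalarTower.algebraMap_apply ℂ ℂ[X] F c).symm
  rw [AddSubgroupClass.coe_sub, e] at hc
  have := (ofPrime p).v.map_sub_lt hc ha
  convert this using 2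
  show _ = (a : F) - _ - ((a : F) - h)
  ring

theorem fund_inst : ∃ S : Finset (Place F), (∀ P, P ∈ S ↔ P.v (algebraMap ℂ[X] F X) < 1) ∧
    ∑ P ∈ S, P.ord (algebraMap ℂ[X] F X) = Module.finrank (RatFunc ℂ) F := by
  classical
  let p : Ideal ℂ[X] := Ideal.span {X}
  have hp0 : p ≠ ⊥ := by simp [p]
  have hpm : p.IsMaximal := PrincipalIdealRing.isMaximal_of_irreducible irreducible_X
  have hinj := ringOfIntegers.algebraMap_injective ℂ F
  have : FaithfulSMul ℂ[X] (ringOfIntegers ℂ F) := (faithfulSMul_iff_algebraMap_injective _ _).2 hinj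
  have : FaithfulSMul ℂ[X] F :=
    (faithfulSMul_iff_algebraMap_injective _ _).2 (FunctionField.algebraMap_injective ℂ F)
  set x : ringOfIntegers ℂ F := algebraMap ℂ[X] _ X with hx
  have hx0 : x ≠ 0 := fun h => X_ne_zero (hinj (h.trans (map_zero _).symm))
  have hmap : p.map (algebraMap ℂ[X] (ringOfIntegers ℂ F)) = Ideal.span {x} := by
    simp [p, Ideal.map_span, hx]
  have hmem : ∀ q : HeightOneSpectrum (ringOfIntegers ℂ F), x ∈ q.asIdeal ↔ q.asIdeal.LiesOver p :=
    fun q => by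
      constructor
      · intro h
        refine ⟨hpm.eq_of_le (Ideal.comap_ne_top _ q.isPrime.ne_top) ?_⟩
        rwa [Ideal.span_singleton_le_iff_mem]
      · intro h
        have : X ∈ p := Ideal.mem_span_singleton_self _
        rwa [h.over] at this
  have : Fintype (p.primesOver (ringOfIntegers ℂ F)) :=
    (IsDedekindDomain.primesOver_finite p _).fintype
  have hne : ∀ q : p.primesOver (ringOfIntegers ℂ F), q.1 ≠ ⊥ := fun q =>
    have := q.2.2
    Ideal.ne_bot_of_liesOver_of_ne_bot hp0 q.1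
  let T : p.primesOver (ringOfIntegers ℂ F) → Place F := fun q => ofPrime ⟨q.1, q.2.1, hne q⟩
  have hT : Function.Injective T := fun q q' h =>
    Subtype.ext (congrArg HeightOneSpectrum.asIdeal (ofPrime_injective h))
  refine ⟨Finset.univ.image T, fun P => ?_, ?_⟩
  · simp only [Finset.mem_image, Finset.mem_univ, true_and]
    constructor
    · rintro ⟨q, rfl⟩
      exact (ofPrime_lt _ x).2 ((hmem _).2 q.2.2)
    · intro h
      obtain ⟨q, rfl⟩ := exists_ofPrime P h.le
      exact ⟨⟨q.asIdeal, q.isPrime, (hmem q).1 ((ofPrime_lt _ x).1 h)⟩, rfl⟩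
  · rw [Finset.sum_image fun q _ q' _ h => hT h,
      ← IsIntegralClosure.rank ℂ[X] (RatFunc ℂ) F (ringOfIntegers ℂ F),
      ← Ideal.sum_ramification_inertia_eq_finrank p, Nat.cast_sum]
    refine Finset.sum_congr rfl fun q _ => ?_
    have := q.2.1
    have := q.2.2
    have hqm : q.1.IsMaximal := Ideal.IsPrime.isMaximal q.2.1 (hne q)
    have e1 : q.1.inertiaDeg ℂ[X] = 1 := by
      rw [Ideal.inertiaDeg_eq_of_isMaximal p q.1]
      let := Ideal.Quotient.field p
      let := Ideal.Quotient.field q.1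
      refine Algebra.finrank_eq_one_iff_bijective_algebraMap.2 ⟨RingHom.injective _, fun a => ?_⟩
      obtain ⟨a, rfl⟩ := Ideal.Quotient.mk_surjective a
      obtain ⟨c, hc⟩ := res_prime ⟨q.1, q.2.1, hne q⟩ a
      exact ⟨Ideal.Quotient.mk _ (C c), (Ideal.Quotient.eq.2 hc).symm⟩
    rw [e1, mul_one, Ideal.IsDedekindDomain.ramificationIdx_eq_multiplicity p q.1 (by rw [hmap]; simpa using hx0),
      hmap]
    refine Place.ord_eq _ ?_
    rw [← HeightOneSpectrum.intValuation_eq_exp_neg_multiplicity ⟨q.1, q.2.1, hne q⟩ hx0]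
    exact HeightOneSpectrum.valuation_of_algebraMap (K := F) _ x

theorem deriv_bound_inst (D : Derivation ℂ F F) (P : Place F)
    (hg : P.v (algebraMap ℂ[X] F X) ≤ 1) : ∃ B : ℤᵐ⁰, ∀ h, P.v h ≤ 1 → P.v (D h) ≤ B := by
  classical
  obtain ⟨s, hs⟩ : Module.Finite ℂ[X] (ringOfIntegers ℂ F) := inferInstance
  let B := max (P.v (D (algebraMap ℂ[X] F X))) (s.sup fun a => P.v (D a))
  have h0 : ∀ p : ℂ[X], P.v (D (algebraMap ℂ[X] F p)) ≤ B := fun p => by
    have e : ∀ q : ℂ[X], algebraMap ℂ[X] F q = aeval (algebraMap ℂ[X] F X) q := fun q => by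
      rw [aeval_algebraMap_apply, aeval_X_left_apply]
    rw [e, D.map_aeval, smul_eq_mul, map_mul, ← e]
    exact (mul_le_of_le_one_left' (le_one_poly P hg _)).trans (le_max_left _ _)
  have h1 : ∀ a : ringOfIntegers ℂ F, P.v (D a) ≤ B := fun a => by
    have ha : a ∈ Submodule.span ℂ[X] (s : Set (ringOfIntegers ℂ F)) := hs ▸ Submodule.mem_top
    induction ha using Submodule.span_induction with
    | mem a ha =>
      exact (Finset.le_sup (f := fun a : ringOfIntegers ℂ F => P.v (D a)) ha).trans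
        (le_max_right _ _)
    | zero => simp
    | add a b _ _ ha hb => rw [AddMemClass.coe_add, map_add]; exact P.v.map_add_le ha hb
    | smul c a _ ha =>
      rw [SetLike.val_smul, Algebra.smul_def, D.leibniz, smul_eq_mul, smul_eq_mul]
      refine P.v.map_add_le ?_ ?_
      · rw [map_mul]; exact (mul_le_of_le_one_left' (le_one_poly P hg _)).trans ha
      · rw [map_mul]; exact (mul_le_of_le_one_left' (le_one_int P hg _)).trans (h0 c)
  refine ⟨B, fun h hh => ?_⟩
  obtain ⟨p, rfl⟩ := exists_ofPrime P hg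
  obtain ⟨n, d, e⟩ := p.exists_primeCompl_mul_eq_of_integer h hh
  have e1 : (ofPrime p).v (d : ringOfIntegers ℂ F) = 1 := p.valuation_eq_one_iff_notMem.2 d.2
  have e2 := congrArg D e
  rw [D.leibniz, smul_eq_mul, smul_eq_mul, ← eq_sub_iff_add_eq'] at e2
  have e3 := congrArg (ofPrime p).v e2
  rw [map_mul] at e3
  erw [e1] at e3
  rw [one_mul] at e3
  rw [e3]
  refine (ofPrime p).v.map_sub_le (h1 n) ?_
  rw [map_mul]
  exact (mul_le_of_le_one_left' hh).trans (h1 d)

theorem exists_place_inst (A : Subalgebra ℂ F) (hA : algebraMap ℂ[X] F X ∈ A) (ε : A →ₐ[ℂ] ℂ) :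
    ∃ P : Place F, ∀ a : A, P.v (a - algebraMap ℂ F (ε a)) < 1 := by
  have hmax : (RingHom.ker ε).IsMaximal :=
    RingHom.ker_isMaximal_of_surjective _ fun c => ⟨algebraMap ℂ A c, by simp⟩
  obtain ⟨q, hq, hq'⟩ := Ideal.exists_ideal_over_prime_of_isIntegral_of_isDomain
    (R := A) (S := integralClosure A F) (RingHom.ker ε) (by
      rw [(RingHom.injective_iff_ker_eq_bot _).1]
      · exact bot_le
      · exact fun a b h => Subtype.ext (congrArg (fun z : integralClosure A F => (z : F)) h))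
  have hpoly : ∀ p : ℂ[X], algebraMap ℂ[X] F p ∈ A := fun p => by
    have e : algebraMap ℂ[X] F p = aeval (algebraMap ℂ[X] F X) p := by
      rw [aeval_algebraMap_apply, aeval_X_left_apply]
    rw [e]
    exact (Algebra.adjoin_le (Set.singleton_subset_iff.2 hA)) (aeval_mem_adjoin_singleton _ _)
  let φ : ℂ[X] →+* A := (algebraMap ℂ[X] F).codRestrict A.toSubring hpoly
  let ι : ringOfIntegers ℂ F →+* integralClosure A F :=
    (ringOfIntegers ℂ F).val.toRingHom.codRestrict (integralClosure A F).toSubring fun a => by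
      obtain ⟨p, hp, h⟩ : IsIntegral ℂ[X] (a : F) := a.2
      exact ⟨p.map φ, hp.map φ, by rw [eval₂_map]; exact h⟩
  have hker : ∀ a : A, algebraMap A (integralClosure A F) (a - algebraMap ℂ A (ε a)) ∈ q :=
    fun a => by
      rw [← Ideal.mem_comap, hq', RingHom.mem_ker]; simp
  have hinj := ringOfIntegers.algebraMap_injective ℂ F
  have hne : q.comap ι ≠ ⊥ := fun h => by
    have : algebraMap ℂ[X] (ringOfIntegers ℂ F) (X - C (ε ⟨_, hA⟩)) ∈ q.comap ι := by
      rw [Ideal.mem_comap]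
      refine (congrArg (· ∈ q) (Subtype.ext ?_)).mpr (hker ⟨_, hA⟩)
      show algebraMap ℂ[X] F (X - C (ε ⟨_, hA⟩)) = algebraMap ℂ[X] F X - algebraMap ℂ F _
      rw [map_sub, ← algebraMap_eq, ← IsScalarTower.algebraMap_apply]
    rw [h, Ideal.mem_bot] at this
    exact X_sub_C_ne_zero _ (hinj (this.trans (map_zero _).symm))
  let p : HeightOneSpectrum (ringOfIntegers ℂ F) := ⟨q.comap ι, Ideal.comap_isPrime _ _, hne⟩
  refine ⟨ofPrime p, fun a => ?_⟩
  by_contra hc
  rw [not_lt] at hc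
  have h0 : (a : F) - algebraMap ℂ F (ε a) ≠ 0 := fun h => by simp [h] at hc
  obtain ⟨n, d, e⟩ := p.exists_primeCompl_mul_eq_of_integer ((a : F) - algebraMap ℂ F (ε a))⁻¹
    (by rw [map_inv₀]; exact inv_le_one_of_one_le₀ hc)
  refine d.2 (Ideal.mem_comap.2 ?_)
  refine (congrArg (· ∈ q) (Subtype.ext ?_)).mpr (q.mul_mem_right (ι n) (hker a))
  rw [inv_mul_eq_iff_eq_mul₀ h0] at e
  exact e

theorem exists_deriv_inst : ∃ D : Derivation ℂ F F, D (algebraMap ℂ[X] F X) = 1 := by
  have h1 : Algebra.FormallyEtale ℂ[X] (RatFunc ℂ) :=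
    Algebra.FormallyEtale.of_isLocalization (nonZeroDivisors ℂ[X])
  have h2 : Algebra.FormallyEtale (RatFunc ℂ) F := Algebra.FormallyEtale.of_isSeparable _ _
  have h3 : Algebra.FormallyEtale ℂ[X] F := Algebra.FormallyEtale.comp ℂ[X] (RatFunc ℂ) F
  let φ : ℂ[X] →ₐ[ℂ] TrivSqZeroExt F F :=
    aeval (TrivSqZeroExt.inl (algebraMap ℂ[X] F X) + TrivSqZeroExt.inr 1)
  have hφ : ∀ p, (φ p).fst = algebraMap ℂ[X] F p := fun p => by
    have := (Polynomial.aeval_algHom_apply (TrivSqZeroExt.fstHom ℂ F F)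
      (TrivSqZeroExt.inl (algebraMap ℂ[X] F X) + TrivSqZeroExt.inr 1) p).symm
    simp only [TrivSqZeroExt.fstHom_apply, TrivSqZeroExt.fst_add, TrivSqZeroExt.fst_inl,
      TrivSqZeroExt.fst_inr, add_zero] at this
    rw [this, aeval_algebraMap_apply, aeval_X_left_apply]
  let : Algebra ℂ[X] (TrivSqZeroExt F F) := φ.toRingHom.toAlgebra
  let g : TrivSqZeroExt F F →ₐ[ℂ[X]] F :=
    { toRingHom := (TrivSqZeroExt.fstHom ℂ F F).toRingHom, commutes' := hφ }
  have hg : Function.Surjective g := fun a => ⟨TrivSqZeroExt.inl a, rfl⟩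
  have hn : IsNilpotent (RingHom.ker (g : TrivSqZeroExt F F →+* F)) := by
    refine ⟨2, ?_⟩
    refine (sq (M := Ideal (TrivSqZeroExt F F)) _).trans ?_
    rw [Ideal.zero_eq_bot, eq_bot_iff, Ideal.mul_le]
    intro a ha b hb
    have ha' : a.fst = 0 := ha
    have hb' : b.fst = 0 := hb
    rw [Ideal.mem_bot]
    ext <;> simp [ha', hb']
  let L := Algebra.FormallySmooth.liftOfSurjective (AlgHom.id ℂ[X] F) g hg hn
  have hL : ∀ a, (L a).fst = a := Algebra.FormallySmooth.liftOfSurjective_apply _ g hg hn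
  have hL' : ∀ p, L (algebraMap ℂ[X] F p) = φ p := L.commutes
  refine ⟨Derivation.mk' ⟨⟨fun a => (L a).snd, fun a b => by simp⟩, fun c a => ?_⟩ fun a b => ?_, ?_⟩
  · show (L (c • a)).snd = c • (L a).snd
    rw [Algebra.smul_def, IsScalarTower.algebraMap_apply ℂ ℂ[X] F, map_mul, hL', φ.commutes]
    simp [TrivSqZeroExt.algebraMap_eq_inl', hL, Algebra.smul_def]
  · simp [hL, mul_comm]
  · show (L _).snd = 1
    rw [hL']
    simp [φ]

end Inst

end Pool.Agent.Lib.MP_d4c0ca_ag
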