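import Pool.Agent.Lib.MP_d4c0ca_ag.Noeth
import Pool.Agent.Lib.MP_d4c0ca_ag.Loc

/-! Quotients supported on a member of the pencil correspond to stable lattices. -/

namespace Pool.Agent.Lib.MP_d4c0ca_ag

open MvPolynomial Module Matrix
open scoped Classical Polynomial

variable {σ ι : Type} {M : Sub σ ι} {ℓ ℓ0 ℓ1 : MvPolynomial σ ℂ} {n m : ℕ}

/-- presentation over a polynomial ring in one variable -/
noncomputable def pres (b : Fin m → ι → MvPolynomial σ ℂ) (g : MvPolynomial σ ℂ) :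
    (Fin m → ℂ[X]) →ₗ[ℂ] (ι → MvPolynomial σ ℂ) where
  toFun v := ∑ k, Polynomial.aeval g (v k) • b k
  map_add' u v := by simp [add_smul, Finset.sum_add_distrib]
  map_smul' c v := by simp [Finset.smul_sum]

theorem pres_smul (b : Fin m → ι → MvPolynomial σ ℂ) (g : MvPolynomial σ ℂ) (q : ℂ[X])
    (v : Fin m → ℂ[X]) : pres b g (q • v) = Polynomial.aeval g q • pres b g v := by
  simp [pres, Finset.smul_sum, mul_smul]

theorem pres_taylor (b : Fin m → ι → MvPolynomial σ ℂ) (g : MvPolynomial σ ℂ) (p : ℂ)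
    (v : Fin m → ℂ[X]) : pres b (g - C p) (fun k => Polynomial.taylor p (v k)) = pres b g v := by
  simp [pres, Polynomial.taylor_apply, Polynomial.aeval_comp]

/-- the lattice attached to a submodule -/
noncomputable def cmp (b : Fin m → ι → MvPolynomial σ ℂ) (g : MvPolynomial σ ℂ) (L : Sub σ ι) :
    Submodule ℂ[X] (Fin m → ℂ[X]) where
  carrier := {v | pres b g v ∈ L}
  add_mem' h1 h2 := by simpa using add_mem h1 h2
  zero_mem' := by simp
  smul_mem' q v h := by simpa [pres_smul] using L.smul_mem _ h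

theorem mem_cmp {b : Fin m → ι → MvPolynomial σ ℂ} {g L v} : v ∈ cmp b g L ↔ pres b g v ∈ L :=
  Iff.rfl

theorem finrank_cmp {b : Fin m → ι → MvPolynomial σ ℂ} {g} {L : Sub σ ι}
    (h : ∀ f, ∃ v, f - pres b g v ∈ L) :
    Nonempty (((Fin m → ℂ[X]) ⧸ cmp b g L) ≃ₗ[ℂ] Q L) :=
  ⟨(Submodule.Quotient.restrictScalarsEquiv ℂ _).symm.trans ((Submodule.quotEquivOfEq _ _
    (Submodule.ext fun v => cl_zero.symm)).trans (LinearMap.quotKerEquivOfSurjective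
      (cl L ∘ₗ pres b g) fun q => by
        obtain ⟨f, rfl⟩ := cl_surj L q
        obtain ⟨v, hv⟩ := h f
        exact ⟨v, (cl_eq.2 hv).symm⟩))⟩

theorem smul_closed (P : Submodule ℂ (ι → MvPolynomial σ ℂ))
    (h : ∀ s, ∀ f ∈ P, (X s : MvPolynomial σ ℂ) • f ∈ P) (g : MvPolynomial σ ℂ) :
    ∀ f ∈ P, g • f ∈ P := by
  induction g using MvPolynomial.induction_on with
  | C c => exact fun f hf => by rw [← algebraMap_eq, algebraMap_smul]; exact P.smul_mem c hf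
  | add p q hp hq => exact fun f hf => by rw [add_smul]; exact add_mem (hp f hf) (hq f hf)
  | mul_X p s hp => exact fun f hf => by rw [mul_smul]; exact hp _ (h s f hf)

/-- the affine submodule attached to a graded one -/
noncomputable def aff (ℓ : MvPolynomial σ ℂ) (K : Sub σ ι) : Sub σ ι := K ⊔ mu (ℓ - 1)

theorem aff_aff (ℓ : MvPolynomial σ ℂ) (K : Sub σ ι) : Aff ℓ (aff ℓ K) := fun f =>
  Submodule.mem_sup_right ⟨f, by simp [sub_smul]⟩

theorem aff_le {K L : Sub σ ι} (h : K ≤ L) (h' : Aff ℓ L) : aff ℓ K ≤ L :=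
  sup_le h (by rintro _ ⟨f, rfl⟩; simpa [sub_smul] using h' f)

theorem Aff.congr {L : Sub σ ι} (h : Aff ℓ0 L) (p : ℂ) (J : ℕ) (f) :
    (ℓ1 - p • ℓ0) ^ J • f - (ℓ1 - C p) ^ J • f ∈ L := by
  obtain ⟨u, hu⟩ : ℓ0 - 1 ∣ (ℓ1 - p • ℓ0) ^ J - (ℓ1 - C p) ^ J :=
    dvd_trans ⟨-C p, by rw [smul_eq_C_mul]; ring⟩ (sub_dvd_pow_sub_pow _ _ _)
  rw [← sub_smul, hu, mul_smul, sub_smul, one_smul]
  exact h _

variable [Finite ι] [Fintype σ]

omit [Fintype σ] in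
theorem aff_hom {L : Sub σ ι} (h : Aff ℓ L) (hℓ : ℓ.IsHomogeneous 1) : aff ℓ (hom L) = L :=
  le_antisymm (aff_le (hom_le L) h)
    (h.eq_of_hom (aff_aff _ _) hℓ ((hom_graded L).le_hom le_sup_left))

theorem NN.gen (h : NN M ℓ0 ℓ1) (hM : Graded M) : ∃ (m : ℕ) (b : Fin m → ι → MvPolynomial σ ℂ),
    ∀ f, ∃ v, f - pres b ℓ1 v ∈ aff ℓ0 M := by
  obtain ⟨h0, h1, d0, h⟩ := h
  obtain ⟨m, b, hb⟩ := Submodule.fg_iff_exists_fin_generating_family.1
    (Module.Finite.iff_fg.1 (V_finite (σ := σ) (ι := ι) d0))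
  let P := (aff ℓ0 M).restrictScalars ℂ ⊔ LinearMap.range (pres b ℓ1)
  have hP : ∀ f, f ∈ P ↔ ∃ v, f - pres b ℓ1 v ∈ aff ℓ0 M := fun f => by
    simp only [P, Submodule.mem_sup, LinearMap.mem_range]
    exact ⟨fun ⟨y, a1, _, ⟨v, rfl⟩, a2⟩ => ⟨v, by rw [← a2]; simpa using a1⟩,
      fun ⟨v, hv⟩ => ⟨_, hv, _, ⟨v, rfl⟩, by simp⟩⟩
  have a0 : ∀ (k : ℕ) f, ℓ0 ^ k • f ∈ P ↔ f ∈ P := fun k f =>
    have : ℓ0 ^ k • f - f ∈ P := Submodule.mem_sup_left ((aff_aff ℓ0 M).pow k f)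
    ⟨fun e => (P.sub_mem_iff_right e).1 this, fun e => (P.sub_mem_iff_left e).1 this⟩
  have a1 : ∀ f ∈ P, ℓ1 • f ∈ P := fun f hf => by
    obtain ⟨v, hv⟩ := (hP f).1 hf
    refine (hP _).2 ⟨(Polynomial.X : ℂ[X]) • v, ?_⟩
    rw [pres_smul, Polynomial.aeval_X, ← smul_sub]
    exact Submodule.smul_mem _ _ hv
  have a2 : V σ ι d0 ≤ P := hb ▸ Submodule.span_le.2 (by
    rintro _ ⟨k, rfl⟩
    exact Submodule.mem_sup_right ⟨Pi.single k 1, by
      simp [pres, Pi.single_apply, apply_ite, ite_smul]⟩)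
  have a3 : ∀ d, V σ ι d ≤ P := fun d => by
    induction d using Nat.strong_induction_on with
    | _ d ih =>
    intro f hf
    by_cases hd : d ≤ d0
    · refine (a0 (d0 - d) f).1 (a2 ?_)
      have := smul_mem_V (h0.pow (d0 - d)) hf
      rwa [one_mul, Nat.sub_add_cancel hd] at this
    · obtain ⟨u, v, a4⟩ := h d (by omega) f hf
      have a5 := graded_iff.1 hM _ a4 d
      rw [map_sub, map_sub, hc_of_mem hf, if_pos rfl, hc_smul h0, hc_smul h1, if_pos (by omega),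
        if_pos (by omega), sub_sub] at a5
      exact (P.sub_mem_iff_left (add_mem (by simpa using (a0 1 _).2 (ih _ (by omega) (hc_mem _ u)))
        (a1 _ (ih _ (by omega) (hc_mem _ v))))).1
        (Submodule.mem_sup_left (Submodule.mem_sup_left a5 : _ ∈ aff ℓ0 M))
  exact ⟨m, b, fun f => (hP f).1 (mem_of_hc fun d => a3 d (hc_mem d f))⟩

theorem NN.lattices (h : NN M ℓ0 ℓ1) (hM : Graded M) : ∃ (m : ℕ)
    (b : Fin m → ι → MvPolynomial σ ℂ) (q : ℕ) (ρ : Fin q → Fin m → ℂ[X])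
    (T : σ → Matrix (Fin m) (Fin m) ℂ[X]), ∀ (p : ℂ) (j : ℕ),
      Set.BijOn (fun K => cmp b (ℓ1 - C p) (aff ℓ0 K))
        {K | K ∈ QuotPts M j ∧ Nil (ℓ1 - p • ℓ0) K}
        {L | Stab ρ T p L ∧ (∃ J : ℕ, ∀ v : Fin m → ℂ[X],
          (Polynomial.X : ℂ[X]) ^ J • v ∈ L) ∧
          Module.finrank ℂ ((Fin m → ℂ[X]) ⧸ L) = j} := by
  obtain ⟨m, b, hb⟩ := h.gen hM
  obtain ⟨q, ρ, hρ⟩ := Submodule.fg_iff_exists_fin_generating_family.1
    (IsNoetherian.noetherian (cmp b ℓ1 (aff ℓ0 M)))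
  choose t ht using fun s k => hb ((X s : MvPolynomial σ ℂ) • b k)
  refine ⟨m, b, q, ρ, fun s => (Matrix.of (t s))ᵀ, fun p j => ?_⟩
  have a1 : ∀ f, ∃ v, f - pres b (ℓ1 - C p) v ∈ aff ℓ0 M := fun f => by
    obtain ⟨v, hv⟩ := hb f
    exact ⟨_, by rwa [pres_taylor]⟩
  have a2 : ∀ s v, (X s : MvPolynomial σ ℂ) • pres b (ℓ1 - C p) v -
      pres b (ℓ1 - C p) ((Matrix.of (t s))ᵀ.map (Polynomial.taylor p) *ᵥ v) ∈ aff ℓ0 M := by
    intro s v
    have : (Matrix.of (t s))ᵀ.map (Polynomial.taylor p) *ᵥ v =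
        ∑ k, v k • fun i => Polynomial.taylor p (t s k i) := by
      funext i
      simp [mulVec, dotProduct, mul_comm]
    rw [this, map_sum]
    simp only [pres_smul, pres_taylor]
    rw [pres, LinearMap.coe_mk, AddHom.coe_mk, Finset.smul_sum, ← Finset.sum_sub_distrib]
    refine sum_mem fun k _ => ?_
    rw [smul_comm, ← smul_sub]
    exact Submodule.smul_mem _ _ (ht s k)
  have a3 : ∀ i, pres b (ℓ1 - C p) (fun k => Polynomial.taylor p (ρ i k)) ∈ aff ℓ0 M := fun i => by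
    rw [pres_taylor, ← mem_cmp, ← hρ]
    exact Submodule.subset_span ⟨i, rfl⟩
  have a4 : ∀ Λ : Submodule ℂ[X] (Fin m → ℂ[X]), (∀ i, (fun k => Polynomial.taylor p (ρ i k)) ∈ Λ) →
      ∀ v, pres b (ℓ1 - C p) v ∈ aff ℓ0 M → v ∈ Λ := fun Λ hΛ v hv => by
    have e : (fun k => Polynomial.taylor p (Polynomial.taylor (-p) (v k))) = v := by
      simp [Polynomial.taylor_taylor]
    rw [← e, pres_taylor, ← mem_cmp, ← hρ] at hv
    rw [← e]
    refine Submodule.span_induction (p := fun u _ => (fun k => Polynomial.taylor p (u k)) ∈ Λ)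
      ?_ ?_ ?_ ?_ hv
    · rintro _ ⟨i, rfl⟩; exact hΛ i
    · simp only [Pi.zero_apply, map_zero]; exact Λ.zero_mem
    · exact fun x y _ _ a b => by simp only [Pi.add_apply, map_add]; exact Λ.add_mem a b
    · exact fun c x _ a => by
        simp only [Pi.smul_apply, smul_eq_mul, Polynomial.taylor_mul]
        exact Λ.smul_mem (Polynomial.taylor p c) a
  have a5 : ∀ K, K ∈ QuotPts M j ∧ Nil (ℓ1 - p • ℓ0) K → ∃ L, AQ M ℓ0 j L ∧ hom L = K ∧
      aff ℓ0 K = L ∧ aff ℓ0 M ≤ L := fun K hK => by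
    obtain ⟨L, b1, rfl⟩ := exists_AQ hK.1 h.1 (h.nzd hK.1 hK.2)
    exact ⟨L, b1, rfl, aff_hom b1.2.1 h.1, aff_le b1.1 b1.2.1⟩
  refine ⟨fun K hK => ?_, fun K hK K' hK' e => ?_, fun Λ ⟨⟨b1, b2⟩, ⟨J, b3⟩, b4⟩ => ?_⟩
  · obtain ⟨L, b1, rfl, b2, b3⟩ := a5 K hK
    obtain ⟨J, hJ⟩ := (nil_hom_iff (h.pencil p)).1 hK.2
    simp only [b2]
    refine ⟨⟨fun i => b3 (a3 i), fun s v hv =>
      (L.sub_mem_iff_right (L.smul_mem _ hv)).1 (b3 (a2 s v))⟩, ⟨J, fun v => ?_⟩, ?_⟩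
    · rw [mem_cmp, pres_smul, map_pow, Polynomial.aeval_X]
      exact (L.sub_mem_iff_right (hJ _)).1 (b1.2.1.congr p J _)
    · obtain ⟨e⟩ := finrank_cmp (L := L) fun f => (a1 f).imp fun v hv => b3 hv
      rw [e.finrank_eq, b1.2.2.2]
  · obtain ⟨L, b1, rfl, b2, b3⟩ := a5 K hK
    obtain ⟨L', c1, rfl, c2, c3⟩ := a5 K' hK'
    simp only [b2, c2] at e
    congr 1
    ext f
    obtain ⟨v, hv⟩ := a1 f
    have : pres b (ℓ1 - C p) v ∈ L ↔ pres b (ℓ1 - C p) v ∈ L' := by rw [← mem_cmp, e, mem_cmp]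
    exact ⟨fun a => (L'.sub_mem_iff_left (this.1 ((L.sub_mem_iff_right a).1 (b3 hv)))).1 (c3 hv),
      fun a => (L.sub_mem_iff_left (this.2 ((L'.sub_mem_iff_right a).1 (c3 hv)))).1 (b3 hv)⟩
  · let P := (aff ℓ0 M).restrictScalars ℂ ⊔ (Λ.restrictScalars ℂ).map (pres b (ℓ1 - C p))
    have hP : ∀ f, f ∈ P ↔ ∃ v ∈ Λ, f - pres b (ℓ1 - C p) v ∈ aff ℓ0 M := fun f => by
      simp only [P, Submodule.mem_sup, Submodule.mem_map]
      exact ⟨fun ⟨y, a1, _, ⟨v, a3, rfl⟩, a2⟩ => ⟨v, a3, by rw [← a2]; simpa using a1⟩,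
        fun ⟨v, a3, hv⟩ => ⟨_, hv, _, ⟨v, a3, rfl⟩, by simp⟩⟩
    let L : Sub σ ι :=
      { P.toAddSubmonoid with
        smul_mem' := fun g f hf => smul_closed P (fun s f hf => by
          obtain ⟨v, c1, c2⟩ := (hP f).1 hf
          refine (hP _).2 ⟨_, b2 s v c1, ?_⟩
          simpa [smul_sub] using add_mem ((aff ℓ0 M).smul_mem (X s) c2) (a2 s v)) g f hf }
    have hL : ∀ f, f ∈ L ↔ ∃ v ∈ Λ, f - pres b (ℓ1 - C p) v ∈ aff ℓ0 M := hP
    have c1 : aff ℓ0 M ≤ L := fun f hf => (hL f).2 ⟨0, zero_mem _, by simpa using hf⟩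
    have c2 : cmp b (ℓ1 - C p) L = Λ := Submodule.ext fun v => ⟨fun hv => by
      obtain ⟨u, d1, d2⟩ := (hL _).1 hv
      exact (Λ.sub_mem_iff_left d1).1 (a4 Λ b1 _ (by rwa [map_sub])),
      fun hv => (hL _).2 ⟨v, hv, by simp⟩⟩
    have c3 : Aff ℓ0 L := fun f => c1 (aff_aff _ _ f)
    obtain ⟨e⟩ := finrank_cmp (L := L) fun f => (a1 f).imp fun v hv => c1 hv
    rw [c2] at e
    have c4 : Module.Finite ℂ ((Fin m → ℂ[X]) ⧸ Λ) := by
      obtain ⟨a, h, rfl⟩ := exists_lat b3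
      exact finite_lat a h
    have c5 : AQ M ℓ0 j L := ⟨le_sup_left.trans c1, c3, Module.Finite.equiv e,
      e.finrank_eq.symm.trans b4⟩
    refine ⟨hom L, ⟨c5.quot h.1 hM, (nil_hom_iff (h.pencil p)).2 ⟨J, fun f => ?_⟩⟩, ?_⟩
    · refine (L.sub_mem_iff_left ?_).1 (c3.congr p J f)
      obtain ⟨v, hv⟩ := a1 f
      refine (hL _).2 ⟨_, b3 v, ?_⟩
      rw [pres_smul, map_pow, Polynomial.aeval_X, ← smul_sub]
      exact Submodule.smul_mem _ _ hv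
    · simp only [aff_hom c3 h.1, c2]

end Pool.Agent.Lib.MP_d4c0ca_ag
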