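import Pool.Agent.Lib.MP_d4c0ca_ag.Val
import Pool.Agent.Lib.MP_d4c0ca_ag.Fubini

/-! Elimination of quantifiers over the field of Laurent series. -/

namespace Pool.Agent.Lib.MP_d4c0ca_ag

open Polynomial KK
open scoped Classical

variable {X Y W : Type} [Str X] [Str Y] [Str W]

/-- the ring of Laurent series terms -/
def KR (X : Type) [Str X] : Subring (X → KK) where
  carrier := {f | Tm f}
  mul_mem' := fun hf hg => Tm.mulK hf hg
  one_mem' := Tm.const 1
  add_mem' := fun hf hg => Tm.addK hf hg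
  zero_mem' := Tm.const 0
  neg_mem' := fun hf => Tm.negK hf

/-- evaluation of Laurent series terms -/
noncomputable def evK (x : X) : KR X →+* KK :=
  (Pi.evalRingHom (fun _ => KK) x).comp (KR X).subtype

theorem tm_evK (a : KR X) : Tm (fun x => evK x a) := a.2

/-- leading term data -/
noncomputable def rv (y : KK) : ℤ × ℂ := (ord y, ac y)

@[simp] theorem rv_zero : rv 0 = (0, 0) := by simp [rv]

/-- leading terms of a family of polynomials -/
noncomputable def rvF (F : Finset (KR X)[X]) (x : X) (y : KK) : F → ℤ × ℂ :=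
  fun g => rv ((g.1.map (evK x)).eval y)

theorem TK.nfK {f : X × KK → KK} (hf : TK f) :
    ∃ p : (KR X)[X], ∀ x y, f (x, y) = (p.map (evK x)).eval y := by
  induction hf with
  | gen hf =>
    rcases hf with ⟨g, hg, rfl⟩ | ⟨g, hg, rfl⟩
    · exact ⟨C ⟨g, tm_K.2 (TK.gen hg)⟩, fun x w => by simp [evK]⟩
    · cases hg
      exact ⟨Polynomial.X, fun x w => by simp⟩
  | const c => exact ⟨C ⟨fun _ => c, Tm.const c⟩, fun x w => by simp [evK]⟩
  | add _ _ h1 h2 =>
    obtain ⟨p, hp⟩ := h1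
    obtain ⟨q, hq⟩ := h2
    exact ⟨p + q, fun x w => by simp [hp, hq]⟩
  | mul _ _ h1 h2 =>
    obtain ⟨p, hp⟩ := h1
    obtain ⟨q, hq⟩ := h2
    exact ⟨p * q, fun x w => by simp [hp, hq]⟩

theorem tm_eval (p : (KR X)[X]) : Tm fun q : X × KK => (p.map (evK q.1)).eval q.2 := by
  simp only [eval_map, eval₂_eq_sum_range]
  exact Tm.sumK _ fun i => ((tm_evK _).comp Tm.fst').mulK (Tm.snd'.powK _)

theorem def_mapK_zero (r : (KR X)[X]) : Def (fun x => r.map (evK x) = 0) :=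
  (Def.ball r.support (P := fun x j => evK x (r.coeff j) = 0) fun j _ =>
    Def.eq (tm_evK _) (Tm.const _)).congr fun x => by
      rw [Polynomial.ext_iff]
      simp only [coeff_map, coeff_zero, mem_support_iff]
      exact forall_congr' fun j => ⟨fun h => by
        by_cases e : r.coeff j = 0
        · simp [e]
        · exact h e, fun h _ => h⟩

/-- a map factoring through the leading terms of a finite family -/
def Fac (F : Finset (KR X)[X]) (z : X × KK → Y) : Prop :=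
  ∃ z' : X × (F → ℤ × ℂ) → Y, Tm z' ∧ ∀ x y, z (x, y) = z' (x, rvF F x y)

theorem tm_res {α : Type} {F G : Finset α} (h : F ⊆ G) :
    Tm fun p : X × (G → ℤ × ℂ) => (p.1, fun g : F => p.2 ⟨g.1, h g.2⟩) := by fun_prop

theorem Fac.mono {F G : Finset (KR X)[X]} (h : F ⊆ G) {z : X × KK → Y} (hz : Fac F z) :
    Fac G z := by
  obtain ⟨z', h1, h2⟩ := hz
  exact ⟨_, h1.comp (tm_res h), h2⟩

theorem Fac.bin {z1 z2 : X × KK → Y} (op : Y → Y → Y) (hop : Tm fun p : Y × Y => op p.1 p.2)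
    (h1 : ∃ F, Fac F z1) (h2 : ∃ F, Fac F z2) : ∃ F, Fac F fun p => op (z1 p) (z2 p) := by
  obtain ⟨F, h1⟩ := h1
  obtain ⟨G, h2⟩ := h2
  obtain ⟨a, h3, h4⟩ := h1.mono (Finset.subset_union_left (s₂ := G))
  obtain ⟨b, h5, h6⟩ := h2.mono (Finset.subset_union_right (s₁ := F))
  exact ⟨F ∪ G, _, hop.comp (h3.prodMk h5), fun x y => by simp only [h4, h6]⟩

theorem TZ.fac {z : X × KK → ℤ} (hz : TZ z) : ∃ F, Fac F z := by
  induction hz with
  | gen hf =>
    rcases hf with ⟨g, hg, rfl⟩ | ⟨g, hg, rfl⟩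
    · exact ⟨∅, fun p => g p.1, (tm_Z.2 (TZ.gen hg)).comp Tm.fst', fun _ _ => rfl⟩
    · exact hg.elim
  | ord hf =>
    obtain ⟨p, hp⟩ := hf.nfK
    exact ⟨{p}, fun q => (q.2 ⟨p, by simp⟩).1, by fun_prop, fun x y => by simp [hp, rvF, rv]⟩
  | const c => exact ⟨∅, fun _ => c, Tm.const _, fun _ _ => rfl⟩
  | add _ _ h1 h2 => exact Fac.bin (· + ·) (by fun_prop) h1 h2
  | smul c _ h1 => exact Fac.bin (fun a _ => c * a) (by fun_prop) h1 h1
  | div m hm _ h1 => exact Fac.bin (fun a _ => a / m) (Tm.fst'.divZ hm) h1 h1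

theorem TC.fac {z : X × KK → ℂ} (hz : TC z) : ∃ F, Fac F z := by
  induction hz with
  | gen hf =>
    rcases hf with ⟨g, hg, rfl⟩ | ⟨g, hg, rfl⟩
    · exact ⟨∅, fun p => g p.1, (tm_C.2 (TC.gen hg)).comp Tm.fst', fun _ _ => rfl⟩
    · exact hg.elim
  | ac hf =>
    obtain ⟨p, hp⟩ := hf.nfK
    exact ⟨{p}, fun q => (q.2 ⟨p, by simp⟩).2, by fun_prop, fun x y => by simp [hp, rvF, rv]⟩
  | const c => exact ⟨∅, fun _ => c, Tm.const _, fun _ _ => rfl⟩
  | add _ _ h1 h2 => exact Fac.bin (· + ·) (by fun_prop) h1 h2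
  | mul _ _ h1 h2 => exact Fac.bin (· * ·) (by fun_prop) h1 h2

/-- a predicate factoring through the leading terms of a finite family -/
def PF (F : Finset (KR X)[X]) (P : X × KK → Prop) : Prop :=
  ∃ P' : X × (F → ℤ × ℂ) → Prop, Def P' ∧ ∀ x y, P (x, y) ↔ P' (x, rvF F x y)

theorem PF.mono {F G : Finset (KR X)[X]} (h : F ⊆ G) {z : X × KK → Prop} (hz : PF F z) :
    PF G z := by
  obtain ⟨z', h1, h2⟩ := hz
  exact ⟨_, h1.comp (tm_res h), h2⟩

/-- closed under derivatives and containing the variable -/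
def Cl {R : Type} [CommRing R] (F : Finset R[X]) : Prop :=
  Polynomial.X ∈ F ∧ ∀ g ∈ F, derivative g ∈ F

theorem Cl.iter {R : Type} [CommRing R] {F : Finset R[X]} (h : Cl F) {g : R[X]} (hg : g ∈ F)
    (j : ℕ) : derivative^[j] g ∈ F := by
  induction j with
  | zero => exact hg
  | succ j ih => rw [Function.iterate_succ_apply']; exact h.2 _ ih

/-- all derivatives -/
noncomputable def dcl {R : Type} [CommRing R] (g : R[X]) : Finset R[X] :=
  (Finset.range (g.natDegree + 2)).image fun j => derivative^[j] g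

theorem mem_dcl {R : Type} [CommRing R] (g : R[X]) : g ∈ dcl g :=
  Finset.mem_image.2 ⟨0, by simp, rfl⟩

theorem dcl_closed {R : Type} [CommRing R] (g : R[X]) : ∀ h ∈ dcl g, derivative h ∈ dcl g := by
  intro h hh
  obtain ⟨j, hj, rfl⟩ := Finset.mem_image.1 hh
  rw [Finset.mem_range] at hj
  by_cases e : j = g.natDegree + 1
  · refine Finset.mem_image.2 ⟨j, Finset.mem_range.2 hj, ?_⟩
    rw [iterate_derivative_eq_zero (by omega), derivative_zero]
  · exact Finset.mem_image.2 ⟨j + 1, Finset.mem_range.2 (by omega),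
      Function.iterate_succ_apply' _ _ _⟩

theorem Def.pf {P : X × KK → Prop} (hP : Def P) : ∃ F, Cl F ∧ PF F P := by
  obtain ⟨F, hF⟩ : ∃ F, PF F P := by
    refine Def.induction (motive := fun P => ∃ F, PF F P) ?_
      ⟨∅, fun _ => True, Def.const _, fun _ _ => Iff.rfl⟩ ?_ ?_ hP
    · rintro _ (⟨z, hz, rfl⟩ | ⟨z, hz, rfl⟩)
      · obtain ⟨F, z', h1, h2⟩ := (tm_Z.1 hz).fac
        exact ⟨F, _, Def.le (Tm.const 0) h1, fun x y => by simp only [h2]⟩
      · obtain ⟨F, z', h1, h2⟩ := (tm_C.1 hz).fac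
        exact ⟨F, _, Def.eq h1 (Tm.const 0), fun x y => by simp only [h2]⟩
    · rintro P ⟨F, P', h1, h2⟩
      exact ⟨F, _, h1.not, fun x y => not_congr (h2 x y)⟩
    · rintro P Q ⟨F, h1⟩ ⟨G, h2⟩
      obtain ⟨a, h3, h4⟩ := h1.mono (Finset.subset_union_left (s₂ := G))
      obtain ⟨b, h5, h6⟩ := h2.mono (Finset.subset_union_right (s₁ := F))
      exact ⟨F ∪ G, _, h3.and h5, fun x y => and_congr (h4 x y) (h6 x y)⟩
  refine ⟨(insert Polynomial.X F).biUnion dcl,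
    ⟨Finset.mem_biUnion.2 ⟨_, Finset.mem_insert_self _ _, mem_dcl _⟩, fun g hg => ?_⟩,
    hF.mono fun g hg => Finset.mem_biUnion.2 ⟨g, Finset.mem_insert_of_mem hg, mem_dcl _⟩⟩
  obtain ⟨h, h1, h2⟩ := Finset.mem_biUnion.1 hg
  exact Finset.mem_biUnion.2 ⟨h, h1, dcl_closed _ _ h2⟩

theorem Def.tay (n : ℕ) {o : ℕ → X → ℤ} {a : ℕ → X → ℂ} {γ μ : X → ℤ} {w ζ : X → ℂ}
    (ho : ∀ j, Tm (o j)) (ha : ∀ j, Tm (a j)) (hγ : Tm γ) (hμ : Tm μ) (hw : Tm w) (hζ : Tm ζ) :
    Def fun x => Tay n (fun j => o j x) (fun j => a j x) (γ x) (w x) (μ x) (ζ x) := by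
  refine Def.and (Def.ball _ fun j _ => Def.imp (Def.ne (ha j) (Tm.const _))
    (Def.le hμ (by fun_prop))) (Def.and (Def.bex _ fun j _ => Def.and (Def.ne (ha j) (Tm.const _))
    (Def.eq (by fun_prop) hμ)) ?_)
  refine (Def.bex (Finset.range (n + 1)).powerset (P := fun x J =>
    (∀ j ∈ Finset.range (n + 1), (j ∈ J ↔ o j x + j * γ x = μ x)) ∧
      ζ x = ∑ j ∈ J, a j x / j.factorial * w x ^ j) fun J _ => Def.and (Def.ball _ fun j _ =>
        Def.iff (Def.const _) (Def.eq (by fun_prop) hμ)) (Def.eq hζ (by fun_prop))).congr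
        fun x => ?_
  rw [← Finset.sum_filter]
  constructor
  · rintro ⟨J, h1, h2, h3⟩
    rw [h3]
    congr 1
    ext j
    rw [Finset.mem_filter]
    exact ⟨fun h => ⟨Finset.mem_powerset.1 h1 h, (h2 j (Finset.mem_powerset.1 h1 h)).1 h⟩,
      fun h => (h2 j h.1).2 h.2⟩
  · exact fun h => ⟨_, Finset.mem_powerset.2 (Finset.filter_subset _ _),
      fun j hj => by simp only [Finset.mem_filter, hj, true_and], h⟩

/-- the centres attached to a family of polynomials -/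
def Cen (F : Finset (KR X)[X]) (x : X) (c : KK) : Prop :=
  ∃ g ∈ F, g.map (evK x) ≠ 0 ∧ (g.map (evK x)).eval c = 0

theorem cen_finset (F : Finset (KR X)[X]) (x : X) : ∃ s : Finset KK,
    (∀ c, c ∈ s ↔ Cen F x c) ∧ s.card ≤ ∑ g ∈ F, g.natDegree := by
  refine ⟨F.biUnion fun g => (g.map (evK x)).roots.toFinset, fun c => ?_, ?_⟩
  · simp [Cen]
  · refine Finset.card_biUnion_le.trans (Finset.sum_le_sum fun i _ => ?_)
    exact (Multiset.toFinset_card_le _).trans ((card_roots' _).trans natDegree_map_le)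

theorem nearest {s : Finset KK} (hs : s.Nonempty) {y : KK} (hy : y ∉ s) : ∃ c ∈ s, ∃ γ w, w ≠ 0 ∧
    Ball (c + sg γ w) (γ + 1) y ∧ ∀ c' ∈ s, ¬ Ball (c + sg γ w) (γ + 1) c' := by
  obtain ⟨c, hc, hm⟩ := s.exists_max_image (fun c => ord (y - c)) hs
  have h0 : ∀ c ∈ s, y - c ≠ 0 := fun c hc e => hy (sub_eq_zero.1 e ▸ hc)
  have h1 : Ball (c + sg (ord (y - c)) (ac (y - c))) (ord (y - c) + 1) y :=
    ball_sg_iff.2 (Or.inl ⟨ac_eq_zero.not.2 (h0 c hc), rfl, rfl⟩)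
  refine ⟨c, hc, _, _, ac_eq_zero.not.2 (h0 c hc), h1, fun c' hc' h => ?_⟩
  have := (ball_iff.1 (h.symm.trans h1)).resolve_left (h0 c' hc')
  have := hm c' hc'
  omega

theorem rv_of_tay {n : ℕ} {g : KK[X]} (hn : g.natDegree ≤ n) {c : KK} {γ : ℤ} {w : ℂ} {μ : ℤ}
    {ζ : ℂ} (h : TayP n g c γ w μ ζ) (hζ : ζ ≠ 0) {y : KK} (hy : Ball (c + sg γ w) (γ + 1) y) :
    rv (g.eval y) = (μ, ζ) := by
  obtain ⟨h1, h2⟩ := h.rv hn hy
  obtain ⟨h3, h4⟩ := rv_eq h1 (h2 ▸ hζ)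
  rw [rv, h3, h4, h2]

theorem tay_ne {F : Finset (KR X)[X]} (hF : Cl F) {x : X} {c : KK} {γ : ℤ} {w : ℂ}
    (free : ∀ c', Cen F x c' → ¬ Ball (c + sg γ w) (γ + 1) c') {g : (KR X)[X]} (hg : g ∈ F)
    (h0 : g.map (evK x) ≠ 0) {μ : ℤ} {ζ : ℂ} (h : TayP g.natDegree (g.map (evK x)) c γ w μ ζ) :
    ζ ≠ 0 := by
  rintro rfl
  rcases h.root natDegree_map_le with ⟨e, -, h1, y, h2, h3⟩ | h1
  · rw [iterate_derivative_map] at h1 h3
    exact free y ⟨_, hF.iter hg e, h1, h3⟩ h2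
  · obtain ⟨y, h2, h3⟩ := h1 0 fun _ _ => rfl
    exact free y ⟨g, hg, h0, h3⟩ h2

/-- leading terms are constant on balls without centres -/
theorem rvF_const {F : Finset (KR X)[X]} (hF : Cl F) {x : X} {b : KK} {δ : ℤ}
    (free : ∀ c', Cen F x c' → ¬ Ball b δ c') {y y' : KK} (hy : Ball b δ y) (hy' : Ball b δ y') :
    rvF F x y = rvF F x y' := by
  obtain ⟨s, hs, -⟩ := cen_finset F x
  obtain ⟨c, hc, γ, w, -, h1, h2⟩ := nearest (s := s) (y := y)
    ⟨0, (hs 0).2 ⟨_, hF.1, by simp, by simp⟩⟩ fun h => free y ((hs y).1 h) hy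
  have h3 : Ball (c + sg γ w) (γ + 1) y' := by
    refine h1.trans ((hy.symm.trans hy').mono (not_lt.1 fun h => free c ((hs c).1 hc) ?_))
    exact hy.trans (((ball_sg.1 h1).1.symm).mono (by omega))
  funext g
  by_cases h0 : g.1.map (evK x) = 0
  · simp [rvF, h0]
  · obtain ⟨μ, ζ, h⟩ := tayP_exists h0 natDegree_map_le c γ w
    have hζ := tay_ne hF (fun c' hc' => h2 c' ((hs c').2 hc')) g.2 h0 h
    exact (rv_of_tay natDegree_map_le h hζ h1).trans (rv_of_tay natDegree_map_le h hζ h3).symm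

theorem reduce_to_centres {F : Finset (KR X)[X]} (hF : Cl F) {f : (KR X)[X]} (hf : f ∈ F)
    (hF' : Cl (F.erase f)) (hd : derivative f ≠ f) {P : X × KK → Prop} (hP : PF F P) :
    ∃ Q, PF F Q ∧ ∀ x, (∃ y, P (x, y)) ↔ ∃ c, Cen (F.erase f) x c ∧ Q (x, c) := by
  obtain ⟨P', hP', e⟩ := hP
  let T : X → (F → ℤ × ℂ) → ℤ → ℂ → (F → ℤ × ℂ) → Prop := fun x η γ w η' =>
    ∀ g : F, (g.1.map (evK x) = 0 ∧ η' g = (0, 0)) ∨ ∃ μ ζ,
      Tay g.1.natDegree (fun j => (η ⟨_, hF.iter g.2 j⟩).1) (fun j => (η ⟨_, hF.iter g.2 j⟩).2)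
        γ w μ ζ ∧ ((ζ ≠ 0 ∧ η' g = (μ, ζ)) ∨
          (g.1 = f ∧ ζ = 0 ∧ (η' g = (0, 0) ∨ ((η' g).2 ≠ 0 ∧ μ < (η' g).1))))
  have hT : ∀ x c γ w η', T x (rvF F x c) γ w η' ↔ ∀ g : F,
      (g.1.map (evK x) = 0 ∧ η' g = (0, 0)) ∨ ∃ μ ζ,
        TayP g.1.natDegree (g.1.map (evK x)) c γ w μ ζ ∧ ((ζ ≠ 0 ∧ η' g = (μ, ζ)) ∨
          (g.1 = f ∧ ζ = 0 ∧ (η' g = (0, 0) ∨ ((η' g).2 ≠ 0 ∧ μ < (η' g).1)))) := by
    intro x c γ w η'
    simp only [T, TayP, rvF, rv, iterate_derivative_map]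
  refine ⟨fun p => P p ∨ ∃ γ w η', T p.1 (rvF F p.1 p.2) γ w η' ∧ P' (p.1, η'),
    ⟨fun p => P' p ∨ ∃ γ w η', T p.1 p.2 γ w η' ∧ P' (p.1, η'), ?_, fun x y => or_congr_left (e x y)⟩,
    fun x => ⟨?_, ?_⟩⟩
  · refine hP'.or (Def.ex (Def.ex (Def.ex (Def.and (Def.allF fun g => Def.or
      (Def.and ((def_mapK_zero g.1).comp (by fun_prop)) (Def.eq (by fun_prop) (Tm.const _)))
      (Def.ex (Def.ex (Def.and (Def.tay _ (fun j => by fun_prop) (fun j => by fun_prop)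
        (by fun_prop) (by fun_prop) (by fun_prop) (by fun_prop)) ?_)))) (hP'.comp (by fun_prop))))))
    exact Def.or (Def.and (Def.ne (by fun_prop) (Tm.const _)) (Def.eq (by fun_prop) (by fun_prop)))
      (Def.and (Def.const _) (Def.and (Def.eq (by fun_prop) (Tm.const _))
        (Def.or (Def.eq (by fun_prop) (Tm.const _))
          (Def.and (Def.ne (by fun_prop) (Tm.const _)) (Def.lt (by fun_prop) (by fun_prop))))))
  · rintro ⟨y, hy⟩
    by_cases hc : Cen (F.erase f) x y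
    · exact ⟨y, hc, Or.inl hy⟩
    obtain ⟨s, hs, -⟩ := cen_finset (F.erase f) x
    obtain ⟨c, hc, γ, w, -, h1, h2⟩ := nearest (s := s) (y := y)
      ⟨0, (hs 0).2 ⟨_, hF'.1, by simp, by simp⟩⟩ fun h => hc ((hs y).1 h)
    refine ⟨c, (hs c).1 hc, Or.inr ⟨γ, w, rvF F x y, (hT _ _ _ _ _).2 fun g => ?_, (e x y).1 hy⟩⟩
    by_cases h0 : g.1.map (evK x) = 0
    · exact Or.inl ⟨h0, by simp [rvF, h0]⟩
    obtain ⟨μ, ζ, h⟩ := tayP_exists h0 natDegree_map_le c γ w
    refine Or.inr ⟨μ, ζ, h, ?_⟩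
    by_cases hζ : ζ = 0
    · refine Or.inr ⟨by_contra fun hg => tay_ne hF' (fun c' hc' => h2 c' ((hs c').2 hc'))
        (Finset.mem_erase.2 ⟨hg, g.2⟩) h0 h hζ, hζ, ?_⟩
      by_cases e0 : (g.1.map (evK x)).eval y = 0
      · exact Or.inl (by simp [rvF, e0])
      · obtain ⟨h3, h4⟩ := h.rv natDegree_map_le h1
        refine Or.inr ⟨ac_eq_zero.not.2 e0, not_le.1 fun h5 => e0 ?_⟩
        rw [← ac_eq_zero, ← coef_ord]
        rcases h5.lt_or_eq with h5 | h5
        · exact h3 _ h5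
        · exact (congrArg (coef · _) h5).trans (h4.trans hζ)
    · exact Or.inl ⟨hζ, rv_of_tay natDegree_map_le h hζ h1⟩
  · rintro ⟨c, -, h | ⟨γ, w, η', h1, h2⟩⟩
    · exact ⟨c, h⟩
    rw [hT] at h1
    have h3 : ∀ g : F, g.1 ≠ f → ∀ y, Ball (c + sg γ w) (γ + 1) y →
        rv ((g.1.map (evK x)).eval y) = η' g ∧
          (g.1.map (evK x) ≠ 0 → (g.1.map (evK x)).eval y ≠ 0) := by
      intro g hg y hy
      rcases h1 g with ⟨a, b⟩ | ⟨μ, ζ, h, ⟨a, b⟩ | ⟨a, -⟩⟩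
      · simp [a, b]
      · have := rv_of_tay natDegree_map_le h a hy
        refine ⟨this.trans b.symm, fun _ e => a ?_⟩
        rw [e, rv_zero] at this
        exact (Prod.ext_iff.1 this).2.symm
      · exact (hg a).elim
    obtain ⟨y, hy, h4⟩ : ∃ y, Ball (c + sg γ w) (γ + 1) y ∧
        rv ((f.map (evK x)).eval y) = η' ⟨f, hf⟩ := by
      rcases h1 ⟨f, hf⟩ with ⟨a, b⟩ | ⟨μ, ζ, h, ⟨a, b⟩ | ⟨-, rfl, b⟩⟩
      · exact ⟨_, Ball.refl _ _, by simp only at a; simp [a, b]⟩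
      · exact ⟨_, Ball.refl _ _, (rv_of_tay natDegree_map_le h a (Ball.refl _ _)).trans b.symm⟩
      · rcases h.root natDegree_map_le with ⟨e, he, h5, y, h6, h7⟩ | h5
        · obtain ⟨e, rfl⟩ := Nat.exists_eq_add_of_le' he
          rw [iterate_derivative_map] at h5 h7
          have := Finset.mem_erase.1
            (hF'.iter (Finset.mem_erase.2 ⟨hd, hF.2 f hf⟩) e)
          exact ((h3 ⟨_, this.2⟩ this.1 y h6).2 h5 h7).elim
        · obtain ⟨y, h6, h7⟩ := h5 (sg (η' ⟨f, hf⟩).1 (η' ⟨f, hf⟩).2) fun i hi => by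
            rcases b with b | b
            · simp [b]
            · rw [coef_sg, if_neg (by omega)]
          refine ⟨y, h6, ?_⟩
          simp only at h7
          rw [h7]
          rcases b with b | b
          · simp [b]
          · exact Prod.ext (rv_sg _ b.1).1 (rv_sg _ b.1).2
    refine ⟨y, (e x y).2 ?_⟩
    convert h2
    funext g
    by_cases hg : g.1 = f
    · obtain ⟨g, hg'⟩ := g
      subst hg
      exact h4
    · exact (h3 g hg y hy).1

/-- weight of a family of polynomials -/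
noncomputable def wgt {R : Type} [CommRing R] (F : Finset R[X]) : ℕ :=
  ∑ g ∈ F.erase Polynomial.X, (2 ^ g.natDegree - 1)

theorem wsum (d : ℕ) : ∑ j ∈ Finset.range (d + 2), (2 ^ (d - j) - 1) + 2 ≤ 2 ^ (d + 1) := by
  induction d with
  | zero => simp
  | succ d ih =>
    rw [Finset.sum_range_succ']
    simp only [Nat.add_sub_add_right, Nat.sub_zero]
    have := Nat.one_le_two_pow (n := d + 1)
    rw [pow_succ 2 (d + 1)]
    omega

theorem wgt_lt {R : Type} [CommRing R] {F G : Finset R[X]} {f r : R[X]} (hf : f ∈ F)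
    (hX : f ≠ Polynomial.X) (hr : r.natDegree < f.natDegree)
    (hG : ∀ g ∈ G, (g ≠ f ∧ g ∈ F) ∨ g ∈ dcl r) : wgt G < wgt F := by
  have h1 : ∑ g ∈ dcl r, (2 ^ g.natDegree - 1) + 2 ≤ 2 ^ f.natDegree := by
    refine le_trans (Nat.add_le_add_right ?_ _)
      ((wsum r.natDegree).trans (Nat.pow_le_pow_right two_pos hr))
    refine Finset.sum_image_le_of_nonneg (fun _ _ => Nat.zero_le _) |>.trans
      (Finset.sum_le_sum fun j _ => ?_)
    exact Nat.sub_le_sub_right (Nat.pow_le_pow_right two_pos (natDegree_iterate_derivative _ _)) _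
  have h2 : wgt G ≤ ∑ g ∈ (F.erase Polynomial.X).erase f, (2 ^ g.natDegree - 1)
      + ∑ g ∈ dcl r, (2 ^ g.natDegree - 1) := by
    rw [← Finset.sum_union_inter]
    refine le_trans (Finset.sum_le_sum_of_subset ?_) (Nat.le_add_right _ _)
    intro g
    have := hG g
    simp only [Finset.mem_erase, Finset.mem_union]
    tauto
  have h3 := Finset.add_sum_erase (F.erase Polynomial.X) (fun g => 2 ^ g.natDegree - 1)
    (Finset.mem_erase.2 ⟨hX, hf⟩)
  unfold wgt at h2 ⊢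
  omega

theorem pf_root {F G : Finset (KR X)[X]} {f g g' s r : (KR X)[X]} {d N : ℕ} (hf : f ∈ F)
    (hG : F.erase f ⊆ G) (hr : r ∈ G) (hg : g ∈ F.erase f)
    (hc : ∀ j, g'.coeff j = if j < d + 2 then g.coeff j else 0)
    (h2 : C (g.coeff (d + 1)) ^ N * f = s * g' + r) {Q : X × KK → Prop} (hQ : PF F Q) :
    PF G fun p =>
      (evK p.1 (g.coeff (d + 1)) ≠ 0 ∧ ∀ j ∈ g.support, d + 1 < j → evK p.1 (g.coeff j) = 0) ∧
      (g.map (evK p.1)).eval p.2 = 0 ∧ Q p := by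
  obtain ⟨Q', hQ', hQ⟩ := hQ
  let R : KK → (ℤ × ℂ) → (ℤ × ℂ) → Prop := fun a u v =>
    ac a ^ N * u.2 = v.2 ∧ (v.2 = 0 → u.1 = 0) ∧ (v.2 ≠ 0 → N * ord a + u.1 = v.1)
  have hR : Def fun p : KK × (ℤ × ℂ) × (ℤ × ℂ) => R p.1 p.2.1 p.2.2 :=
    Def.and (Def.eq (by fun_prop) (by fun_prop)) (Def.and
        (Def.imp (Def.eq (by fun_prop) (Tm.const _)) (Def.eq (by fun_prop) (Tm.const _)))
        (Def.imp (Def.ne (by fun_prop) (Tm.const _)) (Def.eq (by fun_prop) (by fun_prop))))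
  have hR' : ∀ a b u, a ≠ 0 → (R a u (rv (a ^ N * b)) ↔ u = rv b) := fun a b u ha => by
    have h9 := pow_ne_zero N ha
    simp only [R, rv, ac_mul, ac_pow]
    have h10 := pow_ne_zero N (ac_eq_zero.not.2 ha)
    constructor
    · rintro ⟨a2, a3, a4⟩
      refine Prod.ext ?_ (mul_left_cancel₀ h10 a2)
      by_cases e' : b = 0
      · rw [a3 (by simp [e'])]; simp [e']
      · have := a4 (mul_ne_zero h10 (ac_eq_zero.not.2 e'))
        rw [ord_mul h9 e', ord_pow ha] at this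
        exact add_left_cancel this
    · rintro rfl
      refine ⟨rfl, fun h => ?_, fun h => ?_⟩
      · simp [ac_eq_zero.1 ((mul_eq_zero.1 h).resolve_left h10)]
      · rw [ord_mul h9 (ac_eq_zero.not.1 (right_ne_zero_of_mul h)), ord_pow ha]
  refine ⟨fun p =>
      (evK p.1 (g.coeff (d + 1)) ≠ 0 ∧ ∀ j ∈ g.support, d + 1 < j → evK p.1 (g.coeff j) = 0) ∧
      (p.2 ⟨g, hG hg⟩).2 = 0 ∧ ∃ η : F → ℤ × ℂ,
        (∀ h : F.erase f, η ⟨h.1, Finset.mem_of_mem_erase h.2⟩ = p.2 ⟨h.1, hG h.2⟩) ∧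
        R (evK p.1 (g.coeff (d + 1))) (η ⟨f, hf⟩) (p.2 ⟨r, hr⟩) ∧
        Q' (p.1, η), ?_, fun x y => and_congr_right fun h5 => ?_⟩
  · have t := fun j => tm_evK (g.coeff j)
    refine Def.and (Def.and (Def.ne ((t _).comp Tm.fst') (Tm.const _)) (Def.ball _ fun j _ =>
      Def.imp (Def.const _) (Def.eq ((t _).comp Tm.fst') (Tm.const _))))
      (Def.and (Def.eq (by fun_prop) (Tm.const _)) (Def.ex (Def.and (Def.allF fun h =>
        Def.eq (by fun_prop) (by fun_prop)) (Def.and ?_ (hQ'.comp (by fun_prop))))))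
    exact hR.comp (h := fun p : (X × (G → ℤ × ℂ)) × (F → ℤ × ℂ) =>
      (evK p.1.1 (g.coeff (d + 1)), p.2 ⟨f, hf⟩, p.1.2 ⟨r, hr⟩))
      (Tm.prodMk ((t _).comp (by fun_prop)) (by fun_prop))
  · refine and_congr ac_eq_zero.symm Iff.rfl |>.symm.trans ?_ |>.symm
    refine and_congr_right fun h6 => ?_
    replace h6 : (g.map (evK x)).eval y = 0 := h6
    have h7 : g'.map (evK x) = g.map (evK x) := Polynomial.ext fun j => by
      rw [coeff_map, coeff_map, hc]
      split_ifs with h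
      · rfl
      · by_cases e : j ∈ g.support
        · rw [h5.2 j e (by omega), map_zero]
        · rw [notMem_support_iff.1 e]
    have h8 := congrArg (fun p => (p.map (evK x)).eval y) h2
    simp only [Polynomial.map_mul, Polynomial.map_pow, map_C, eval_mul, eval_pow, eval_C,
      Polynomial.map_add, eval_add, h7, h6, mul_zero, zero_add] at h8
    have h9 : rvF G x y ⟨r, hr⟩ = rv (evK x (g.coeff (d + 1)) ^ N * (f.map (evK x)).eval y) :=
      congrArg rv h8.symm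
    simp only [h9, hR' _ _ _ h5.1, hQ]
    constructor
    · rintro ⟨η, a1, a2, a5⟩
      convert a5
      funext h
      by_cases e : h.1 = f
      · obtain ⟨h, hh⟩ := h
        subst e
        exact a2.symm
      · exact (a1 ⟨h.1, Finset.mem_erase.2 ⟨e, h.2⟩⟩).symm
    · exact fun h => ⟨rvF F x y, fun _ => rfl, rfl, h⟩

theorem elimK (n : ℕ) : ∀ (F : Finset (KR X)[X]), Cl F → wgt F = n →
    ∀ P, PF F P → Def fun x => ∃ y, P (x, y) := by
  induction n using Nat.strong_induction_on with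
  | _ n ih =>
  intro F hF hn P hP
  by_cases h0 : ∀ g ∈ F.erase Polynomial.X, g.natDegree = 0
  · obtain ⟨P', h1, h2⟩ := hP
    have hD : Def fun x => ∃ ρ : ℤ × ℂ, (ρ.2 = 0 → ρ.1 = 0) ∧
        P' (x, fun g => if g.1 = Polynomial.X then ρ else rv (evK x (g.1.coeff 0))) := by
      refine Def.ex (Def.and (Def.imp (Def.eq (by fun_prop) (Tm.const _))
        (Def.eq (by fun_prop) (Tm.const _))) (h1.comp (Tm.prodMk Tm.fst' (Tm.pi fun g =>
          Tm.ite _ Tm.snd' ?_))))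
      have := (tm_evK (g.1.coeff 0)).comp (Tm.fst' (X := X) (Y := ℤ × ℂ))
      exact this.ord.prodMk this.ac
    have e : ∀ x y, rvF F x y =
        fun g => if g.1 = Polynomial.X then rv y else rv (evK x (g.1.coeff 0)) := fun x y => by
      funext g
      split_ifs with h
      · simp [rvF, h]
      · rw [rvF, eq_C_of_natDegree_eq_zero (h0 g (Finset.mem_erase.2 ⟨h, g.2⟩))]
        simp
    refine hD.congr fun x => ⟨?_, ?_⟩
    · rintro ⟨ρ, h3, h4⟩
      refine ⟨sg ρ.1 ρ.2, (h2 _ _).2 ?_⟩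
      rw [e]
      convert h4
      by_cases h5 : ρ.2 = 0
      · rw [h5, sg_zero, rv_zero]; exact Prod.ext (h3 h5).symm h5.symm
      · exact Prod.ext (rv_sg _ h5).1 (rv_sg _ h5).2
    · rintro ⟨y, hy⟩
      rw [h2, e] at hy
      exact ⟨rv y, fun h => by rw [ac_eq_zero.1 h]; simp, hy⟩
  push Not at h0
  obtain ⟨f0, hf0, hf0'⟩ := h0
  obtain ⟨f, hf, hm⟩ := (F.erase Polynomial.X).exists_max_image natDegree ⟨f0, hf0⟩
  have hpos : 0 < f.natDegree := (Nat.pos_of_ne_zero hf0').trans_le (hm _ hf0)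
  rw [Finset.mem_erase] at hf
  have hm' : ∀ g ∈ F, g.natDegree ≤ f.natDegree := fun g hg => by
    by_cases e : g = Polynomial.X
    · exact e ▸ natDegree_X_le.trans hpos
    · exact hm g (Finset.mem_erase.2 ⟨e, hg⟩)
  have hder : ∀ g ∈ F, derivative g ≠ f := fun g hg e => by
    have := natDegree_derivative_le g
    have := hm' g hg
    rw [e] at *
    omega
  have hF' : Cl (F.erase f) := ⟨Finset.mem_erase.2 ⟨hf.1.symm, hF.1⟩, fun g hg =>
    Finset.mem_erase.2 ⟨hder g (Finset.mem_of_mem_erase hg), hF.2 g (Finset.mem_of_mem_erase hg)⟩⟩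
  obtain ⟨Q, hQ, e⟩ := reduce_to_centres hF hf.2 hF' (hder f hf.2) hP
  have key : ∀ g ∈ F.erase f, ∀ d : ℕ, Def fun x => ∃ c,
      (evK x (g.coeff (d + 1)) ≠ 0 ∧ ∀ j ∈ g.support, d + 1 < j → evK x (g.coeff j) = 0) ∧
      (g.map (evK x)).eval c = 0 ∧ Q (x, c) := by
    intro g hg d
    by_cases h1 : g.coeff (d + 1) = 0
    · exact (Def.const False).congr fun x => by simp [h1]
    let g' : (KR X)[X] := ∑ j ∈ Finset.range (d + 2), monomial j (g.coeff j)
    have hc : ∀ j, g'.coeff j = if j < d + 2 then g.coeff j else 0 := fun j => by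
      simp [g', coeff_monomial]
    have hdeg : g'.natDegree = d + 1 := natDegree_eq_of_le_of_coeff_ne_zero
      (natDegree_le_iff_coeff_eq_zero.2 fun j hj => by rw [hc, if_neg (by omega)])
      (by rwa [hc, if_pos (by omega)])
    have hlc : g'.leadingCoeff = g.coeff (d + 1) := by rw [leadingCoeff, hdeg, hc, if_pos (by omega)]
    obtain ⟨N, s, r, h2, h3⟩ := pdiv g' (by omega) f
    have h4 : r.natDegree < f.natDegree :=
      h3.trans_le (hdeg ▸ (le_natDegree_of_ne_zero h1).trans (hm' g (Finset.mem_of_mem_erase hg)))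
    have hlt : wgt (F.erase f ∪ dcl r) < n := by
      rw [← hn]
      exact wgt_lt hf.2 hf.1 h4 fun g hg => by
        rwa [Finset.mem_union, Finset.mem_erase] at hg
    refine ih _ hlt (F.erase f ∪ dcl r)
      ⟨Finset.mem_union_left _ hF'.1, fun h hh => ?_⟩ rfl _
      (pf_root hf.2 Finset.subset_union_left (Finset.mem_union_right _ (mem_dcl r)) hg hc
        (hlc ▸ h2) hQ)
    rcases Finset.mem_union.1 hh with hh | hh
    exacts [Finset.mem_union_left _ (hF'.2 h hh), Finset.mem_union_right _ (dcl_closed _ _ hh)]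
  refine (Def.bex (F.erase f) fun g hg => Def.bex (Finset.range g.natDegree) fun d _ =>
    key g hg d).congr fun x => ?_
  rw [e]
  constructor
  · rintro ⟨g, hg, d, -, c, h1, h2, h3⟩
    refine ⟨c, ⟨g, hg, fun h => h1.1 ?_, h2⟩, h3⟩
    rw [← coeff_map, h, coeff_zero]
  · rintro ⟨c, ⟨g, hg, h1, h2⟩, h3⟩
    obtain ⟨d, hd⟩ : ∃ d, (g.map (evK x)).natDegree = d + 1 :=
      Nat.exists_eq_succ_of_ne_zero fun h => h1 (by
        rw [eq_C_of_natDegree_eq_zero h] at h2 ⊢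
        rw [eval_C] at h2
        rw [h2, map_zero])
    have := natDegree_map_le (f := evK x) (p := g)
    refine ⟨g, hg, d, Finset.mem_range.2 (by omega), c, ⟨?_, fun j _ hj => ?_⟩, h2, h3⟩
    · rw [← coeff_map, ← hd]; exact leadingCoeff_ne_zero.2 h1
    · rw [← coeff_map]; exact coeff_eq_zero_of_natDegree_lt (by omega)

instance : Proj KK := ⟨fun _ _ P hP => by
  obtain ⟨F, h1, h2⟩ := hP.pf
  exact elimK _ F h1 rfl P h2⟩

end Pool.Agent.Lib.MP_d4c0ca_ag
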