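import Pool.Agent.Lib.MP_d4c0ca_ag.Glob

/-! Existence of a definable parametrisation of the Quot scheme. -/

namespace Pool.Agent.Lib.MP_d4c0ca_ag

open MvPolynomial Module Matrix
open scoped Classical

variable {σ ι : Type} {Z Y : Type} [Str Z] [Str Y] {n N : ℕ}

/-- echelon form of a subspace -/
def Enc (T : (Fin N → ℂ) → Prop) (P : Fin N → Fin N → ℂ) : Prop :=
  ∀ i, T (P i) ∧ ∀ j, (∃ v, T v ∧ v j = 1 ∧ ∀ l, j < l → v l = 0) →
    P i j = (Pi.single i 1 : Fin N → ℂ) j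

theorem enc_zero {T : Submodule ℂ (Fin N → ℂ)} {v : Fin N → ℂ} (hv : v ∈ T)
    (h : ∀ j, (∃ v, v ∈ T ∧ v j = 1 ∧ ∀ l, j < l → v l = 0) → v j = 0) : v = 0 := by
  by_contra h0
  obtain ⟨k, h1, h2⟩ := exists_top h0
  exact h1 (h k ⟨(v k)⁻¹ • v, T.smul_mem _ hv, by simp [h1], fun l hl => by simp [h2 l hl]⟩)

theorem enc_unique {T : Submodule ℂ (Fin N → ℂ)} {P P' : Fin N → Fin N → ℂ} (h : Enc (· ∈ T) P)
    (h' : Enc (· ∈ T) P') : P = P' := funext fun i => sub_eq_zero.1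
  (enc_zero (sub_mem (h i).1 (h' i).1) fun j hj => by simp [(h i).2 j hj, (h' i).2 j hj])

theorem enc_mem {T : Submodule ℂ (Fin N → ℂ)} {P : Fin N → Fin N → ℂ} (h : Enc (· ∈ T) P)
    {v : Fin N → ℂ} : v ∈ T ↔ ∑ i, v i • P i = v := by
  have h1 : ∑ i, v i • P i ∈ T := sum_mem fun i _ => T.smul_mem _ (h i).1
  refine ⟨fun hv => sub_eq_zero.1 (enc_zero (sub_mem h1 hv) fun j hj => ?_), fun e => e ▸ h1⟩
  simp [(h _).2 j hj, Pi.single_apply]

theorem enc_exists (T : Submodule ℂ (Fin N → ℂ)) : ∃ P, Enc (· ∈ T) P := by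
  let B : Submodule ℂ (Fin N → ℂ) :=
    Submodule.pi {j | ∃ v, v ∈ T ∧ v j = 1 ∧ ∀ l, j < l → v l = 0} fun _ => ⊥
  have h : ∀ v, v ∈ T ⊔ B := fun v => desc_ind (fun _ => True) (T ⊔ B).toAddSubgroup
    (fun k v _ hk => by
      by_cases e : ∃ v, v ∈ T ∧ v k = 1 ∧ ∀ l, k < l → v l = 0
      · obtain ⟨c, h1, h2, h3⟩ := e
        refine ⟨v k • c, Submodule.mem_sup_left (T.smul_mem _ h1), trivial, fun i hi => ?_⟩
        rcases hi.lt_or_eq with hi | rfl
        · simp [hk i hi, h3 i hi]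
        · simp [h2]
      · refine ⟨Pi.single k (v k), Submodule.mem_sup_right fun j hj => ?_, trivial, fun i hi => ?_⟩
        · rw [Pi.single_eq_of_ne (by rintro rfl; exact e hj)]; simp
        · rcases hi.lt_or_eq with hi | rfl
          · simp [hk i hi, hi.ne']
          · simp) v trivial
  choose P h1 R h2 h3 using fun i => Submodule.mem_sup.1 (h (Pi.single i 1))
  exact ⟨P, fun i => ⟨h1 i, fun j hj => by
    rw [← h3 i, Pi.add_apply, (Submodule.mem_bot ℂ).1 (h2 i j hj), add_zero]⟩⟩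

theorem Def.enc {T : Z → (Fin N → ℂ) → Prop} (hT : Def fun q : Z × (Fin N → ℂ) => T q.1 q.2)
    {P : Z → Fin N → Fin N → ℂ} (hP : Tm P) : Def fun x => Enc (T x) (P x) :=
  Def.allF fun i => Def.and (hT.comp (h := fun x => (x, P x i)) (Tm.id'.prodMk (hP.app i)))
    (Def.allF fun j => Def.imp (Def.ex (hT.and (Def.and (Def.eq (by fun_prop) (Tm.const _))
      (Def.allF fun l => Def.imp (Def.const _) (Def.eq (by fun_prop) (Tm.const _))))))
      (Def.eq ((hP.app i).app j) (Tm.const _)))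

theorem exists_sec (σ : Type) : ∃ s : MvPolynomial σ ℂ →ₗ[ℂ] FreeAlgebra ℂ σ,
    ∀ f, FreeAlgebra.lift ℂ X (s f) = f := by
  obtain ⟨s, hs⟩ := (FreeAlgebra.lift ℂ (X : σ → MvPolynomial σ ℂ)).toLinearMap
    |>.exists_rightInverse_of_surjective (eq_top_iff.2 fun f _ => by
      induction f using MvPolynomial.induction_on with
      | C c => exact ⟨algebraMap _ _ c, by simp⟩
      | add p q hp hq => exact add_mem (hp trivial) (hq trivial)
      | mul_X p s hp =>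
        obtain ⟨F, rfl⟩ := hp trivial
        exact ⟨F * FreeAlgebra.ι ℂ s, by simp⟩)
  exact ⟨s, fun f => LinearMap.congr_fun hs f⟩

/-- evaluation of a polynomial at matrices -/
noncomputable def evM (φ : σ → Fin n → Fin n → ℂ) :
    MvPolynomial σ ℂ →ₗ[ℂ] Matrix (Fin n) (Fin n) ℂ :=
  (FreeAlgebra.lift ℂ fun s => Matrix.of (φ s)).toLinearMap ∘ₗ (exists_sec σ).choose

theorem tm_evM (f : MvPolynomial σ ℂ) (i j : Fin n) :
    Tm fun φ : σ → Fin n → Fin n → ℂ => evM φ f i j := by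
  simp only [evM, LinearMap.comp_apply, AlgHom.toLinearMap_apply]
  generalize (exists_sec σ).choose f = F
  induction F using FreeAlgebra.induction generalizing i j with
  | grade0 r => simpa using Tm.const _
  | grade1 s => simp only [FreeAlgebra.lift_ι_apply, of_apply]; fun_prop
  | mul a b ha hb =>
    simp only [map_mul, mul_apply]
    exact Tm.sumC _ fun k => (ha _ _).mulC (hb _ _)
  | add a b ha hb => simpa using (ha i j).addC (hb i j)

open scoped IsMulCommutative in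
theorem exists_theta {φ : σ → Fin n → Fin n → ℂ}
    (h : ∀ s t, Matrix.of (φ s) * Matrix.of (φ t) = Matrix.of (φ t) * Matrix.of (φ s)) :
    ∃ θ : MvPolynomial σ ℂ →ₐ[ℂ] Matrix (Fin n) (Fin n) ℂ, (∀ s, θ (X s) = Matrix.of (φ s)) ∧
      ∀ f, evM φ f = θ f := by
  have := Algebra.isMulCommutative_adjoin ℂ (s := Set.range fun s => Matrix.of (φ s)) (by
    rintro _ ⟨s, rfl⟩ _ ⟨t, rfl⟩; exact h s t)
  let θ := (Algebra.adjoin ℂ (Set.range fun s => Matrix.of (φ s))).val.comp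
    (aeval fun s => ⟨Matrix.of (φ s), Algebra.subset_adjoin ⟨s, rfl⟩⟩)
  have h1 : ∀ s, θ (X s) = Matrix.of (φ s) := fun s => by simp [θ]
  refine ⟨θ, h1, fun f => ?_⟩
  have h2 : (FreeAlgebra.lift ℂ fun s => Matrix.of (φ s)) = θ.comp (FreeAlgebra.lift ℂ X) :=
    FreeAlgebra.hom_ext (funext fun s => by simp [h1])
  simp [evM, h2, (exists_sec σ).choose_spec]

variable [Fintype ι] [Fintype σ] {M : Sub σ ι}

/-- framed representations -/
abbrev Rp (σ ι : Type) (n : ℕ) := (σ → Fin n → Fin n → ℂ) × (ι → Fin n → ℂ) × (σ → ℂ)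

/-- the evaluation map of a framed representation -/
noncomputable def ev (r : Rp σ ι n) : (ι → MvPolynomial σ ℂ) →ₗ[ℂ] (Fin n → ℂ) where
  toFun f := ∑ j, evM r.1 (f j) *ᵥ r.2.1 j
  map_add' f g := by simp [add_mulVec, Finset.sum_add_distrib]
  map_smul' c f := by simp [smul_mulVec, Finset.smul_sum]

omit [Fintype σ] in
theorem tm_ev (f : ι → MvPolynomial σ ℂ) : Tm fun r : Rp σ ι n => ev r f :=
  Tm.sumV Finset.univ fun j => Tm.pi fun i => Tm.sumC Finset.univ fun k =>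
    ((tm_evM (f j) i k).comp Tm.fst').mulC (by fun_prop)

omit [Fintype σ] in
theorem tm_ev' {κ : Type} [Fintype κ] (b : κ → ι → MvPolynomial σ ℂ) {r : Z → Rp σ ι n}
    {c : Z → κ → ℂ} (hr : Tm r) (hc : Tm c) : Tm fun x => ev (r x) (∑ l, c x l • b l) := by
  simp only [map_sum, map_smul]
  exact Tm.sumV _ fun l => (hc.app l).smulV ((tm_ev _).comp hr)

/-- admissible framed representations -/
def Good (M : Sub σ ι) (r : Rp σ ι n) : Prop :=
  (∀ s t, Matrix.of (r.1 s) * Matrix.of (r.1 t) = Matrix.of (r.1 t) * Matrix.of (r.1 s)) ∧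
    ∑ s, r.2.2 s • r.1 s = (1 : Matrix (Fin n) (Fin n) ℂ) ∧ (∀ f ∈ M, ev r f = 0) ∧
    ∀ w, ∃ f ∈ V σ ι n, ev r f = w

omit [Fintype σ] in
theorem exists_ker {r : Rp σ ι n} (h : ∀ s t, Matrix.of (r.1 s) * Matrix.of (r.1 t) =
    Matrix.of (r.1 t) * Matrix.of (r.1 s)) : ∃ L : Sub σ ι, (∀ f, f ∈ L ↔ ev r f = 0) ∧
      ∀ s f, ev r ((X s : MvPolynomial σ ℂ) • f) = Matrix.of (r.1 s) *ᵥ ev r f := by
  obtain ⟨θ, h1, h2⟩ := exists_theta h
  have h3 : ∀ (g : MvPolynomial σ ℂ) f, ev r (g • f) = θ g *ᵥ ev r f := fun g f => by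
    simp [ev, h2, mulVec_sum, mulVec_mulVec]
  exact ⟨{ (LinearMap.ker (ev r)).toAddSubmonoid with
    smul_mem' := fun g f hf => by
      have : ev r f = 0 := hf
      show ev r (g • f) = 0
      rw [h3, this, mulVec_zero] }, fun f => Iff.rfl, fun s f => by rw [h3, h1]⟩

theorem def_good (M : Sub σ ι) : Def (Good (n := n) M) := by
  obtain ⟨q, g, hg⟩ := Submodule.fg_iff_exists_fin_generating_family.1 (IsNoetherian.noetherian M)
  obtain ⟨m, b, hb⟩ := Submodule.fg_iff_exists_fin_generating_family.1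
    (Module.Finite.iff_fg.1 (V_finite (σ := σ) (ι := ι) n))
  have h1 : Def fun r : Rp σ ι n => (∀ s t i j, ∑ k, r.1 s i k * r.1 t k j =
      ∑ k, r.1 t i k * r.1 s k j) ∧ ∑ s, r.2.2 s • r.1 s = (1 : Matrix (Fin n) (Fin n) ℂ) ∧
      (∀ l, ev r (g l) = 0) ∧ ∀ w, ∃ c : Fin m → ℂ, ev r (∑ l, c l • b l) = w :=
    Def.and (Def.allF fun s => Def.allF fun t => Def.allF fun i => Def.allF fun j =>
      Def.eq (by fun_prop) (by fun_prop)) (Def.and (Def.eq (Y := Fin n → Fin n → ℂ)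
        (Tm.sumV _ fun s => Tm.smulV (by fun_prop) (by fun_prop)) (Tm.const _))
      (Def.and (Def.allF fun l => Def.eq (tm_ev _) (Tm.const _)) (Def.all (Def.ex
        (Def.eq (tm_ev' b (by fun_prop) (by fun_prop)) (by fun_prop))))))
  refine h1.congr fun r => ?_
  simp only [Good, ← hb, Submodule.mem_span_range_iff_exists_fun, exists_exists_eq_and]
  refine Iff.trans (and_congr_left' (by simp [← Matrix.ext_iff, mul_apply]))
    (and_congr_right fun h => and_congr_right' (and_congr_left' ?_))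
  obtain ⟨L, h2, -⟩ := exists_ker h
  simp only [← h2]
  rw [← SetLike.le_def, ← hg, Submodule.span_le, Set.range_subset_iff]
  rfl

theorem Good.quot (hM : Graded M) {r : Rp σ ι n} (h : Good M r) :
    ∃ K ∈ QuotPts M n, ∀ d, ∀ f ∈ V σ ι d, (f ∈ K ↔ ev r f = 0) := by
  obtain ⟨h1, h2, h3, h4⟩ := h
  obtain ⟨L, h5, h6⟩ := exists_ker h1
  have e := (Submodule.quotEquivOfEq (L.restrictScalars ℂ) (LinearMap.ker (ev r))
    (Submodule.ext h5)).trans
    (LinearMap.quotKerEquivOfSurjective (ev r) fun w => (h4 w).imp fun _ h => h.2)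
  refine ⟨hom L, AQ.quot ⟨fun f hf => (h5 f).2 (h3 f hf), fun f => ?_, Module.Finite.equiv e.symm,
    by simp [e.finrank_eq]⟩ (lin_hom r.2.2) hM, fun d f hf => (mem_hom_V hf).trans (h5 f)⟩
  rw [h5, map_sub, Finset.sum_smul, map_sum]
  simp only [smul_assoc, map_smul, h6, ← smul_mulVec, ← sum_mulVec]
  rw [show ∑ s, r.2.2 s • Matrix.of (r.1 s) = 1 from h2, one_mulVec, sub_self]

theorem exists_good {K : Sub σ ι} (h : K ∈ QuotPts M n) :
    ∃ r : Rp σ ι n, Good M r ∧ ∀ d, ∀ f ∈ V σ ι d, (f ∈ K ↔ ev r f = 0) := by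
  obtain ⟨ℓ, L, hℓ, h1, rfl⟩ := exists_AQ' h
  obtain ⟨c, rfl⟩ := lin_eq hℓ
  have := h1.2.2.1
  let e := (Module.finBasisOfFinrankEq ℂ (Q L) h1.2.2.2).equivFun
  let φ : σ → Matrix (Fin n) (Fin n) ℂ := fun s => LinearMap.toMatrix' (e.conj (act L (X s)))
  have a1 : ∀ s f, φ s *ᵥ e (cl L f) = e (cl L ((X s : MvPolynomial σ ℂ) • f)) := fun s f => by
    rw [← act_cl]; simp [φ, LinearEquiv.conj_apply]
  have a2 : ∀ A B : Matrix (Fin n) (Fin n) ℂ, (∀ f, A *ᵥ e (cl L f) = B *ᵥ e (cl L f)) → A = B :=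
    fun A B h => Matrix.ext_iff_mulVec.2 fun v => by
      obtain ⟨q, rfl⟩ := e.surjective v
      obtain ⟨f, rfl⟩ := cl_surj L q
      exact h f
  have a3 : ∀ s t, φ s * φ t = φ t * φ s := fun s t => a2 _ _ fun f => by
    simp only [← mulVec_mulVec, a1, smul_comm (X s : MvPolynomial σ ℂ)]
  obtain ⟨θ, b1, b2⟩ := exists_theta (φ := φ) a3
  have a4 : ∀ (g : MvPolynomial σ ℂ) f, θ g *ᵥ e (cl L f) = e (cl L (g • f)) := fun g => by
    induction g using MvPolynomial.induction_on with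
    | C c =>
      intro f
      rw [← algebraMap_eq, algebraMap_smul, AlgHom.commutes, Algebra.algebraMap_eq_smul_one,
        smul_mulVec, one_mulVec, map_smul, map_smul]
    | add p q hp hq => intro f; simp only [map_add, add_mulVec, hp, hq, add_smul]
    | mul_X p s hp =>
      intro f
      rw [map_mul, ← mulVec_mulVec, b1, mul_smul, ← hp, ← a1]
      rfl
  have a5 : ∀ f, ev (φ, fun j => e (cl L (Pi.single j 1)), c) f = e (cl L f) := fun f => by
    simp only [ev, LinearMap.coe_mk, AddHom.coe_mk, b2, a4, ← map_sum]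
    rw [← pi_eq_sum_univ']
  refine ⟨(φ, fun j => e (cl L (Pi.single j 1)), c), ⟨a3, a2 _ _ fun f => ?_, fun f hf => ?_,
    fun w => ?_⟩, fun d f hf => ?_⟩
  · have := a4 (∑ s, c s • X s) f
    rw [cl_eq.2 (h1.2.1 f)] at this
    simp only [map_sum, map_smul, b1] at this
    rw [one_mulVec]
    exact this
  · rw [a5, cl_zero.2 (h1.1 hf), map_zero]
  · obtain ⟨q, rfl⟩ := e.surjective w
    obtain ⟨f, rfl⟩ := cl_surj L q
    obtain ⟨g, c1, c2⟩ := h1.surj hℓ le_rfl f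
    exact ⟨g, c1, by rw [a5, cl_eq.2 c2]⟩
  · rw [mem_hom_V hf, a5, map_eq_zero_iff _ e.injective, cl_zero]

theorem Def.onV (d : ℕ) {P : Z → (ι → MvPolynomial σ ℂ) → Prop}
    (hP : ∀ (m : ℕ) (b : Fin m → ι → MvPolynomial σ ℂ),
      Def fun q : Z × (Fin m → ℂ) => P q.1 (∑ l, q.2 l • b l)) :
    ∃ R : Z × (ι → MvPolynomial σ ℂ) → Prop, Def R ∧ ∀ x, ∀ f ∈ V σ ι d, (P x f ↔ R (x, f)) := by
  obtain ⟨m, b, hb⟩ := Submodule.fg_iff_exists_fin_generating_family.1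
    (Module.Finite.iff_fg.1 (V_finite (σ := σ) (ι := ι) d))
  refine ⟨fun q => ∃ c : Fin m → ℂ, (∀ j, ∀ α ∈ {α : σ →₀ ℕ | α.degree ≤ d},
    coeff α (q.2 j) = coeff α ((0 + ∑ l, c l • b l) j)) ∧ P q.1 (∑ l, c l • b l),
    Def.ex (Def.and (Def.allF fun j => Def.ballS (Finsupp.finite_of_degree_le d) fun α _ =>
      Def.eq (tm_S.1 (by fun_prop) α) (tm_S.1 (((tm_comb 0 b).comp Tm.snd').app j) α))
      ((hP m b).comp (h := fun q : (Z × (ι → MvPolynomial σ ℂ)) × (Fin m → ℂ) => (q.1.1, q.2))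
        (by fun_prop))), fun x f hf => ⟨fun h => ?_, ?_⟩⟩
  · obtain ⟨c, rfl⟩ := (Submodule.mem_span_range_iff_exists_fun _).1 (hb.ge hf)
    exact ⟨c, by simp, h⟩
  · rintro ⟨c, h1, h2⟩
    have h3 : ∑ l, c l • b l ∈ V σ ι d :=
      hb.le ((Submodule.mem_span_range_iff_exists_fun _).2 ⟨c, rfl⟩)
    convert h2
    funext j
    ext α
    by_cases e : α.degree = d
    · simpa using h1 j α e.le
    · rw [(mem_V.1 hf j).coeff_eq_zero e, (mem_V.1 h3 j).coeff_eq_zero e]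

theorem exists_UF (hM : Graded M) (n : ℕ) : Nonempty (UF M n) := by
  obtain ⟨N, b, hb⟩ := Submodule.fg_iff_exists_fin_generating_family.1
    (Module.Finite.iff_fg.1 (V_finite (σ := σ) (ι := ι) (n + 1)))
  have hb' : ∀ c : Fin N → ℂ, ∑ l, c l • b l ∈ V σ ι (n + 1) := fun c =>
    hb.le ((Submodule.mem_span_range_iff_exists_fun _).2 ⟨c, rfl⟩)
  let T : Sub σ ι → Submodule ℂ (Fin N → ℂ) := fun K =>
    (K.restrictScalars ℂ).comap (Fintype.linearCombination ℂ b)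
  have hT : ∀ K c, c ∈ T K ↔ ∑ l, c l • b l ∈ K := fun K c => Iff.rfl
  have h1 : ∀ K ∈ QuotPts M n, ∀ K' ∈ QuotPts M n, ∀ P, Enc (· ∈ T K) P → Enc (· ∈ T K') P →
      K = K' := fun K hK K' hK' P a1 a2 => quot_ext hK hK' fun f hf => by
    obtain ⟨c, rfl⟩ := (Submodule.mem_span_range_iff_exists_fun _).1 (hb.ge hf)
    rw [← hT, ← hT, enc_mem a1, enc_mem a2]
  let A : (Fin N → Fin N → ℂ) → Prop := fun P => ∃ K ∈ QuotPts M n, Enc (· ∈ T K) P
  choose! β h2 h3 using fun P (h : A P) => h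
  let G : (Fin N → Fin N → ℂ) → Rp σ ι n → Prop := fun P r =>
    Good M r ∧ Enc (fun c => ev r (∑ l, c l • b l) = 0) P
  have hG : Def fun q : (Fin N → Fin N → ℂ) × Rp σ ι n => G q.1 q.2 :=
    ((def_good M).comp Tm.snd').and (Def.enc
      (T := fun (q : (Fin N → Fin N → ℂ) × Rp σ ι n) c => ev q.2 (∑ l, c l • b l) = 0)
      (Def.eq (tm_ev' b (by fun_prop) Tm.snd') (Tm.const _)) Tm.fst')
  have h4 : ∀ K (r : Rp σ ι n), (∀ d, ∀ f ∈ V σ ι d, (f ∈ K ↔ ev r f = 0)) →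
      (· ∈ T K) = fun c => ev r (∑ l, c l • b l) = 0 := fun K r h =>
    funext fun c => propext (h _ _ (hb' c))
  have h5 : ∀ P r, G P r → A P ∧ ∀ d, ∀ f ∈ V σ ι d, (f ∈ β P ↔ ev r f = 0) := by
    rintro P r ⟨a1, a2⟩
    obtain ⟨K, a3, a4⟩ := a1.quot hM
    rw [← h4 K r a4] at a2
    have : A P := ⟨K, a3, a2⟩
    exact ⟨this, h1 _ a3 _ (h2 P this) P a2 (h3 P this) ▸ a4⟩
  have h6 : ∀ P, A P → ∃ r, G P r := by
    rintro P ⟨K, a1, a2⟩
    obtain ⟨r, a3, a4⟩ := exists_good a1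
    exact ⟨r, a3, h4 K r a4 ▸ a2⟩
  choose R h7 h8 using fun d => Def.onV (σ := σ) (ι := ι) d
    (P := fun P f => ∃ r, G P r ∧ ev r f = 0) fun m b => Def.ex
      ((hG.comp (h := fun q : ((Fin N → Fin N → ℂ) × (Fin m → ℂ)) × Rp σ ι n => (q.1.1, q.2))
        (by fun_prop)).and (Def.eq (tm_ev' b Tm.snd' (by fun_prop)) (Tm.const _)))
  let c := chart (Fin N → Fin N → ℂ)
  have := c.h2
  refine ⟨⟨c.k, fun a => A (c.E.symm a), fun a => β (c.E.symm a), fun d q => R d (c.E.symm q.1, q.2),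
    ((Def.ex hG).congr fun P => ⟨fun ⟨r, h⟩ => (h5 P r h).1, h6 P⟩).comp c.h2,
    ⟨fun a ha => h2 _ ha, fun a ha a' ha' e => c.E.symm.injective
      (enc_unique (h3 _ ha) (by simp only at e; rw [e]; exact h3 _ ha')), fun K hK => ?_⟩,
    fun d => (h7 d).comp (by fun_prop), fun d a ha f hf => ?_⟩⟩
  · obtain ⟨P, hP⟩ := enc_exists (T K)
    have : A P := ⟨K, hK, hP⟩
    exact ⟨c.E P, by simpa using this, by simpa using h1 _ (h2 P this) _ hK P (h3 P this) hP⟩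
  · rw [← h8 d _ f hf]
    obtain ⟨r, hr⟩ := h6 _ ha
    exact ⟨fun h => ⟨r, hr, ((h5 _ r hr).2 d f hf).1 h⟩,
      fun ⟨r, a1, a2⟩ => ((h5 _ r a1).2 d f hf).2 a2⟩

end Pool.Agent.Lib.MP_d4c0ca_ag
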