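import Pool.Agent.Lib.MP_d4c0ca_ag.Int

/-! Pull-back of definable sets along polynomial maps into Laurent series, and multiple
integrals over balls. -/

namespace Pool.Agent.Lib.MP_d4c0ca_ag

open KK
open scoped Classical

variable {X Y W : Type} [Str X] [Str Y] [Str W]

/-- Laurent series depending polynomially on complex parameters -/
inductive PK : (X → KK) → Prop
  | emb {c : X → ℂ} : Tm c → PK (fun x => sg 0 (c x))
  | const (k : KK) : PK (fun _ => k)
  | add {f g : X → KK} : PK f → PK g → PK (fun x => f x + g x)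
  | mul {f g : X → KK} : PK f → PK g → PK (fun x => f x * g x)

theorem PK.congr {f g : X → KK} (h : PK f) (e : ∀ x, f x = g x) : PK g := (funext e : f = g) ▸ h

theorem PK.comp {f : Y → KK} (hf : PK f) {h : X → Y} (hh : Tm h) : PK fun x => f (h x) := by
  induction hf with
  | emb hc => exact PK.emb (hc.comp hh)
  | const c => exact PK.const c
  | add _ _ h1 h2 => exact h1.add h2
  | mul _ _ h1 h2 => exact h1.mul h2

theorem PK.sum {ι : Type} (s : Finset ι) {f : ι → X → KK} (hf : ∀ i, PK (f i)) :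
    PK fun x => ∑ i ∈ s, f i x := by
  induction s using Finset.induction_on with
  | empty => simpa using PK.const 0
  | insert a s ha ih => simpa [Finset.sum_insert ha] using (hf a).add ih

theorem PK.sg {c : X → ℂ} (hc : Tm c) (i : ℤ) : PK fun x => sg i (c x) :=
  ((PK.emb hc).mul (PK.const (KK.sg i 1))).congr fun x => by simp [sg_mul_sg]

theorem PK.nf {f : X → KK} (hf : PK f) : ∃ (ι : Type) (_ : Fintype ι) (k : ι → KK)
    (c : ι → X → ℂ), (∀ i, Tm (c i)) ∧ ∀ x, f x = ∑ i, KK.sg 0 (c i x) * k i := by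
  induction hf with
  | @emb c hc => exact ⟨Unit, inferInstance, fun _ => 1, fun _ => c, fun _ => hc, by simp⟩
  | const k => exact ⟨Unit, inferInstance, fun _ => k, fun _ _ => 1, fun _ => Tm.const _, by simp⟩
  | add _ _ h1 h2 =>
    obtain ⟨ι, _, k, c, a1, a2⟩ := h1
    obtain ⟨ι', _, k', c', b1, b2⟩ := h2
    exact ⟨ι ⊕ ι', inferInstance, Sum.elim k k', Sum.elim c c', by rintro (i | i); exacts [a1 i, b1 i],
      fun x => by simp [a2, b2]⟩
  | mul _ _ h1 h2 =>
    obtain ⟨ι, _, k, c, a1, a2⟩ := h1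
    obtain ⟨ι', _, k', c', b1, b2⟩ := h2
    refine ⟨ι × ι', inferInstance, fun p => k p.1 * k' p.2, fun p x => c p.1 x * c' p.2 x,
      fun p => (a1 _).mulC (b1 _), fun x => ?_⟩
    simp only [a2, b2, Finset.sum_mul_sum, Fintype.sum_prod_type]
    refine Finset.sum_congr rfl fun i _ => Finset.sum_congr rfl fun j _ => ?_
    rw [mul_mul_mul_comm, sg_mul_sg, add_zero]

theorem PK.graph {f : X → KK} (hf : PK f) : Def fun p : X × ℤ × ℂ => rv (f p.1) = p.2 := by
  obtain ⟨ι, _, k, c, h1, h2⟩ := hf.nf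
  have h3 : ∀ l x, coef l (f x) = ∑ i, c i x * coef l (k i) := fun l x => by
    simp [h2, coef_sum, coef_sg_mul]
  have h4 : ∀ l, Tm fun x => coef l (f x) := fun l => by simp only [h3]; fun_prop
  obtain ⟨E, hE⟩ : ∃ E : Finset ℤ, ∀ x, f x ≠ 0 → ord (f x) ∈ E := by
    obtain ⟨l0, hl0⟩ := (Set.finite_range fun i => ord (k i)).bddBelow
    obtain ⟨m, hm⟩ := monotone_stabilizes_iff_noetherian.2
      (inferInstance : IsNoetherian ℂ (ι → ℂ))
      ⟨fun m => Submodule.span ℂ ((fun l i => coef l (k i)) '' {l | l < l0 + m}), fun a b hab =>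
        Submodule.span_mono (Set.image_mono fun l hl => by
          simp only [Set.mem_ofPred_eq] at hl ⊢; omega)⟩
    refine ⟨Finset.Ico l0 (l0 + m), fun x hx => ?_⟩
    have h5 : coef (ord (f x)) (f x) ≠ 0 := by rwa [coef_ord, Ne, ac_eq_zero]
    have h6 : l0 ≤ ord (f x) := not_lt.1 fun h => h5 (by
      rw [h3]
      exact Finset.sum_eq_zero fun i _ => by
        rw [coef_of_lt_ord (h.trans_le (hl0 ⟨i, rfl⟩)), mul_zero])
    refine Finset.mem_Ico.2 ⟨h6, not_le.1 fun h => h5 ?_⟩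
    have h7 : (fun i => coef (ord (f x)) (k i)) ∈
        Submodule.span ℂ ((fun l i => coef l (k i)) '' {l | l < l0 + m}) := by
      have := hm ((ord (f x) - l0).toNat + 1) (by omega)
      simp only [OrderHom.coe_mk] at this
      rw [this]
      exact Submodule.subset_span ⟨_, by simp only [Set.mem_ofPred_eq]; omega, rfl⟩
    rw [h3]
    refine Submodule.span_induction (p := fun v _ => ∑ i, c i x * v i = 0) ?_ (by simp) ?_ ?_ h7
    · rintro _ ⟨l, hl, rfl⟩
      rw [← h3]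
      exact coef_of_lt_ord (lt_of_lt_of_le hl h)
    · exact fun u v _ _ a b => by simp [mul_add, Finset.sum_add_distrib, a, b]
    · exact fun a u _ b => by simp [mul_left_comm _ a, ← Finset.mul_sum, b]
  have hD : Def fun p : X × ℤ × ℂ => ((∀ l ∈ E, coef l (f p.1) = 0) ∧ p.2 = (0, 0)) ∨
      ∃ l ∈ E, coef l (f p.1) ≠ 0 ∧ (∀ l' ∈ E, l' < l → coef l' (f p.1) = 0) ∧
        p.2 = (l, coef l (f p.1)) :=
    have h5 : ∀ l, Tm fun p : X × ℤ × ℂ => coef l (f p.1) := fun l => (h4 l).comp Tm.fst'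
    Def.or (Def.and (Def.ball _ fun l _ => Def.eq (h5 l) (Tm.const _))
      (Def.eq Tm.snd' (Tm.const _))) (Def.bex _ fun l _ => Def.and (Def.ne (h5 l) (Tm.const _))
        (Def.and (Def.ball _ fun l' _ => Def.imp (Def.const _) (Def.eq (h5 l') (Tm.const _)))
          (Def.eq Tm.snd' ((Tm.const _).prodMk (h5 l)))))
  refine hD.congr fun p => ?_
  by_cases e : f p.1 = 0
  · simp [e, eq_comm]
  have h5 : coef (ord (f p.1)) (f p.1) ≠ 0 := by rwa [coef_ord, Ne, ac_eq_zero]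
  constructor
  · rintro (⟨h, -⟩ | ⟨l, a1, a2, a3, a4⟩)
    · exact (h5 (h _ (hE _ e))).elim
    · have : ord (f p.1) = l :=
        le_antisymm (ord_le_of_ne a2) (not_lt.1 fun h => h5 (a3 _ (hE _ e) h))
      rw [a4, rv, ← coef_ord, this]
  · exact fun h => Or.inr ⟨_, hE _ e, h5, fun _ _ => coef_of_lt_ord, by rw [← h, rv, coef_ord]⟩

/-- polynomial maps -/
def Pm (h : X → Y) : Prop :=
  (∀ f ∈ Str.R, PK (fun x => f (h x))) ∧ (∀ f ∈ Str.Z, TZ (fun x => f (h x))) ∧
    ∀ f ∈ Str.C, TC (fun x => f (h x))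

theorem Tm.pm [NoR Y] {h : X → Y} (hh : Tm h) : Pm h :=
  ⟨fun f hf => (NoR.out f hf).elim, hh.2⟩

theorem PK.pm {h : X → KK} (hh : PK h) : Pm h :=
  ⟨fun g hg => by cases hg; exact hh, fun _ hg => hg.elim, fun _ hg => hg.elim⟩

theorem Pm.comp {h : Y → W} (hh : Pm h) {g : X → Y} (hg : Tm g) : Pm fun x => h (g x) :=
  ⟨fun f hf => (hh.1 f hf).comp hg, fun f hf => (hh.2.1 f hf).comp hg,
    fun f hf => (hh.2.2 f hf).comp hg⟩

theorem Pm.const (y : Y) : Pm fun _ : X => y :=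
  ⟨fun _ _ => PK.const _, fun _ _ => TZ.const _, fun _ _ => TC.const _⟩

theorem Pm.prodMk {f : X → Y} {g : X → W} (hf : Pm f) (hg : Pm g) : Pm fun x => (f x, g x) := by
  refine ⟨?_, ?_, ?_⟩
  · rintro _ (⟨r, hr, rfl⟩ | ⟨r, hr, rfl⟩)
    exacts [hf.1 r hr, hg.1 r hr]
  · rintro _ (⟨r, hr, rfl⟩ | ⟨r, hr, rfl⟩)
    exacts [hf.2.1 r hr, hg.2.1 r hr]
  · rintro _ (⟨r, hr, rfl⟩ | ⟨r, hr, rfl⟩)
    exacts [hf.2.2 r hr, hg.2.2 r hr]

theorem Pm.pi {ι : Type} {f : X → ι → Y} (hf : ∀ i, Pm fun x => f x i) : Pm f := by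
  refine ⟨?_, ?_, ?_⟩
  · rintro _ ⟨i, r, hr, rfl⟩
    exact (hf i).1 r hr
  · rintro _ ⟨i, r, hr, rfl⟩
    exact (hf i).2.1 r hr
  · rintro _ ⟨i, r, hr, rfl⟩
    exact (hf i).2.2 r hr

theorem TK.pk {f : Y → KK} (hf : TK f) {h : X → Y} (hh : Pm h) : PK fun x => f (h x) := by
  induction hf with
  | gen hf => exact hh.1 _ hf
  | const c => exact PK.const c
  | add _ _ h1 h2 => exact h1.add h2
  | mul _ _ h1 h2 => exact h1.mul h2

theorem graph_bin [Proj Y] [DEq Y] {u v : X → Y} (op : Y → Y → Y)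
    (hop : Tm fun p : Y × Y => op p.1 p.2) (h1 : Def fun p : X × Y => u p.1 = p.2)
    (h2 : Def fun p : X × Y => v p.1 = p.2) : Def fun p : X × Y => op (u p.1) (v p.1) = p.2 :=
  (Def.ex (P := fun (p : X × Y) (q : Y × Y) => u p.1 = q.1 ∧ v p.1 = q.2 ∧ op q.1 q.2 = p.2)
    (Def.and (h1.comp (h := fun r : (X × Y) × Y × Y => (r.1.1, r.2.1)) (by fun_prop))
      (Def.and (h2.comp (h := fun r : (X × Y) × Y × Y => (r.1.1, r.2.2)) (by fun_prop))
        (Def.eq (hop.comp Tm.snd') (by fun_prop))))).congr fun p => by simp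

theorem TZ.graph {f : Y → ℤ} (hf : TZ f) {h : X → Y} (hh : Pm h) :
    Def fun p : X × ℤ => f (h p.1) = p.2 := by
  induction hf with
  | gen hf => exact Def.eq ((tm_Z.2 (hh.2.1 _ hf)).comp Tm.fst') Tm.snd'
  | @ord f hf =>
    exact (Def.ex (P := fun (p : X × ℤ) (w : ℂ) => rv (f (h p.1)) = (p.2, w))
      ((hf.pk hh).graph.comp (h := fun r : (X × ℤ) × ℂ => (r.1.1, r.1.2, r.2))
        (by fun_prop))).congr fun p => by simp [rv]
  | const c => exact Def.eq (Tm.const _) Tm.snd'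
  | @add f g _ _ h1 h2 =>
    exact graph_bin (u := fun x => f (h x)) (v := fun x => g (h x)) (fun a b : ℤ => a + b)
      (by fun_prop) h1 h2
  | @smul c f _ h1 =>
    exact graph_bin (u := fun x => f (h x)) (v := fun x => f (h x)) (fun a _ : ℤ => c * a)
      (by fun_prop) h1 h1
  | @div m hm f _ h1 =>
    exact graph_bin (u := fun x => f (h x)) (v := fun x => f (h x)) (fun a _ : ℤ => a / m)
      (Tm.fst'.divZ hm) h1 h1

theorem TC.graph {f : Y → ℂ} (hf : TC f) {h : X → Y} (hh : Pm h) :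
    Def fun p : X × ℂ => f (h p.1) = p.2 := by
  induction hf with
  | gen hf => exact Def.eq ((tm_C.2 (hh.2.2 _ hf)).comp Tm.fst') Tm.snd'
  | @ac f hf =>
    exact (Def.ex (P := fun (p : X × ℂ) (w : ℤ) => rv (f (h p.1)) = (w, p.2))
      ((hf.pk hh).graph.comp (h := fun r : (X × ℂ) × ℤ => (r.1.1, r.2, r.1.2))
        (by fun_prop))).congr fun p => by simp [rv]
  | const c => exact Def.eq (Tm.const _) Tm.snd'
  | @add f g _ _ h1 h2 =>
    exact graph_bin (u := fun x => f (h x)) (v := fun x => g (h x)) (fun a b : ℂ => a + b)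
      (by fun_prop) h1 h2
  | @mul f g _ _ h1 h2 =>
    exact graph_bin (u := fun x => f (h x)) (v := fun x => g (h x)) (fun a b : ℂ => a * b)
      (by fun_prop) h1 h2

theorem Def.pull {P : Y → Prop} (hP : Def P) {h : X → Y} (hh : Pm h) : Def fun x => P (h x) := by
  refine Def.induction (motive := fun P => Def fun x => P (h x)) ?_ (Def.const _)
    (fun _ => Def.not) (fun _ _ => Def.and) hP
  rintro _ (⟨z, hz, rfl⟩ | ⟨z, hz, rfl⟩)
  · exact (Def.ex (P := fun x n => z (h x) = n ∧ 0 ≤ n) (((tm_Z.1 hz).graph hh).and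
      (Def.le (Tm.const _) Tm.snd'))).congr fun x => by simp
  · exact ((tm_C.1 hz).graph hh).comp (h := fun x => (x, 0)) (by fun_prop)

theorem CF.pull {φ : Y → ℚ} (hφ : CF φ) {h : X → Y} (hh : Pm h) : CF fun x => φ (h x) := by
  induction hφ with
  | @cnt e D hD hf =>
    exact CF.cnt (D := fun p : X × (Fin e → ℤ) => D (h p.1, p.2))
      (hD.pull ((hh.comp Tm.fst').prodMk Tm.snd'.pm)) fun x => hf (h x)
  | add _ _ h1 h2 => exact h1.add h2
  | smul c _ h1 => exact h1.smul c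

/-- the truncated series with given coefficients -/
noncomputable def pt {n : ℕ} (γ : ℤ) (w : Fin n → ℂ) : KK := ∑ l : Fin n, sg (γ + l) (w l)

theorem pk_pt {n : ℕ} (γ : ℤ) {w : X → Fin n → ℂ} (hw : Tm w) : PK fun x => pt γ (w x) :=
  PK.sum _ fun l => PK.sg (hw.app l) _

/-- multiple integral over balls -/
noncomputable def JM (n : ℕ) : (m : ℕ) → (Fin m → ℤ) → ((Fin m → KK) → ℚ) → ℚ
  | 0, _, ψ => ψ Fin.elim0
  | m + 1, γ, ψ => J n (γ 0) 0 fun y => JM n m (Fin.tail γ) fun U => ψ (Fin.cons y U)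

theorem CF.JM (m : ℕ) : ∀ {X : Type} [Str X] {φ : X × (Fin m → KK) → ℚ} {γ : X → Fin m → ℤ}
    {n : X → ℤ}, CF φ → Tm γ → Tm n →
    (∀ x U U', 0 ≤ n x → (∀ i, Ball (U i) (γ x i + n x) (U' i)) → φ (x, U) = φ (x, U')) →
    CF fun x => JM (n x).toNat m (γ x) fun U => φ (x, U) := by
  induction m with
  | zero =>
    intro X _ φ γ n h _ _ _
    exact h.comp (g := fun x => (x, Fin.elim0)) (by fun_prop)
  | succ m ih =>
    intro X _ φ γ n h hγ hn inv
    refine CF.J (φ := fun p : X × KK => MP_d4c0ca_ag.JM (n p.1).toNat m (Fin.tail (γ p.1))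
      fun U => φ (p.1, Fin.cons p.2 U)) (ih (φ := fun q : (X × KK) × (Fin m → KK) =>
        φ (q.1.1, Fin.cons q.1.2 q.2)) (h.comp (Tm.prodMk (by fun_prop)
          (Tm.cons (by fun_prop) (by fun_prop)))) (Tm.pi fun i => (hγ.comp Tm.fst').app _)
          (hn.comp Tm.fst') fun x U U' h1 h2 => inv _ _ _ h1 ?_) (hγ.app 0) hn
          fun x y y' h1 h2 => ?_
    · exact Fin.cases (Ball.refl _ _) h2
    · simp only
      congr 1
      funext U
      exact inv _ _ _ h1 (Fin.cases h2 fun i => Ball.refl _ _)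

theorem EI_equiv [Pure ℂ X] [Pure ℂ Y] (e : X ≃ Y) (he : Tm e) {ψ : Y → ℚ} (h : CF ψ) :
    EI (fun x => ψ (e x)) = EI ψ :=
  have := (chart Y).deq
  EI_bij (R := fun x y => e x = y) (Def.eq (he.comp Tm.fst') Tm.snd') (h.comp he)
    (fun _ _ => ⟨_, rfl⟩) (fun y _ => e.surjective y) (fun _ _ _ a b => b.symm.trans a)
    (fun _ _ _ a b => e.injective (b.trans a.symm)) fun _ _ a => a ▸ rfl

theorem JM_eq (n m : ℕ) : ∀ (γ : Fin m → ℤ) {ψ : (Fin m → KK) → ℚ}, CF ψ →
    JM n m γ ψ = EI fun w : Fin m → Fin n → ℂ => ψ fun i => pt (γ i) (w i) := by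
  induction m with
  | zero =>
    intro γ ψ _
    rw [JM, ← EI_const (Y := Fin 0 → Fin n → ℂ) (ψ _)]
    congr 1
    funext w
    congr 1
    exact Subsingleton.elim _ _
  | succ m ih =>
    intro γ ψ h
    have h1 : CF fun w : Fin (m + 1) → Fin n → ℂ => ψ fun i => pt (γ i) (w i) :=
      h.pull (Pm.pi fun i => (pk_pt _ (Tm.apply i)).pm)
    have h2 : Tm (Fin.consEquiv fun _ : Fin (m + 1) => Fin n → ℂ) := Tm.cons Tm.fst' Tm.snd'
    rw [← EI_equiv _ h2 h1, EI_prod (h1.comp h2), JM, J_eq, EI_euler (CF.EI (h1.comp h2))]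
    congr 1
    funext w
    rw [ih _ (h.comp (Tm.cons (Tm.const _) Tm.id'))]
    congr 1
    funext w'
    congr 1
    funext i
    refine Fin.cases ?_ (fun i => ?_) i <;> simp [pt, Fin.consEquiv, Fin.tail]

theorem CF.balls {ι : Type} [Finite ι] {φ : X × (ι → KK) → ℚ} {γ : X → ι → ℤ}
    {n : X → ℤ} (h : CF φ) (hγ : Tm γ) (hn : Tm n)
    (inv : ∀ x U U', 0 ≤ n x → (∀ i, Ball (U i) (γ x i + n x) (U' i)) → φ (x, U) = φ (x, U')) :
    CF fun x => MP_d4c0ca_ag.EI fun w : ι → Fin (n x).toNat → ℂ =>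
      φ (x, fun i => pt (γ x i) (w i)) := by
  obtain ⟨m, ⟨e⟩⟩ := Finite.exists_equiv_fin ι
  have h1 : CF fun q : X × (Fin m → KK) => φ (q.1, fun i => q.2 (e i)) := h.comp (by fun_prop)
  refine (CF.JM m (γ := fun x j => γ x (e.symm j)) h1 (Tm.pi fun j => hγ.app _) hn
    fun x U U' a b => inv _ _ _ a fun i => by simpa using b (e i)).congr fun x => ?_
  rw [JM_eq _ _ _ (h1.comp (g := fun U => (x, U)) (by fun_prop)),
    ← EI_equiv (Equiv.arrowCongr e.symm (Equiv.refl _)) (by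
      show Tm fun (p : Fin m → Fin (n x).toNat → ℂ) j => p (e j)
      fun_prop)
    (h.pull ((Pm.const x).prodMk (Pm.pi fun i => (pk_pt _ (Tm.apply i)).pm)))]
  simp

end Pool.Agent.Lib.MP_d4c0ca_ag
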