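import Pool.Agent.Lib.MP_d4c0ca_ag.Grad

/-! Finite length quotients: regularity, and splitting along a hyperplane. -/

namespace Pool.Agent.Lib.MP_d4c0ca_ag

open MvPolynomial Module
open scoped Classical

variable {σ ι : Type}

/-- the quotient as a complex vector space -/
abbrev Q (L : Sub σ ι) := (ι → MvPolynomial σ ℂ) ⧸ L.restrictScalars ℂ

/-- the class in the quotient -/
noncomputable abbrev cl (L : Sub σ ι) : (ι → MvPolynomial σ ℂ) →ₗ[ℂ] Q L := (L.restrictScalars ℂ).mkQ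

theorem cl_zero {L : Sub σ ι} {f} : cl L f = 0 ↔ f ∈ L := Submodule.Quotient.mk_eq_zero _

theorem cl_eq {L : Sub σ ι} {f g} : cl L f = cl L g ↔ f - g ∈ L := Submodule.Quotient.eq _

theorem cl_surj (L : Sub σ ι) : Function.Surjective (cl L) := Submodule.mkQ_surjective _

/-- multiplication on the quotient -/
noncomputable def act (L : Sub σ ι) (g : MvPolynomial σ ℂ) : End ℂ (Q L) :=
  (L.restrictScalars ℂ).mapQ _ ((LinearMap.lsmul _ _ g).restrictScalars ℂ) fun _ hf =>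
    L.smul_mem g hf

theorem act_cl (L : Sub σ ι) (g f) : act L g (cl L f) = cl L (g • f) := rfl

theorem act_pow (L : Sub σ ι) (g) (n : ℕ) (f) : (act L g ^ n) (cl L f) = cl L (g ^ n • f) := by
  induction n generalizing f with
  | zero => simp
  | succ n ih => rw [pow_succ, End.mul_apply, act_cl, ih, pow_succ, mul_smul]

theorem nzd_iff_inj {L : Sub σ ι} {g} : Nzd g L ↔ Function.Injective (act L g) := by
  rw [injective_iff_map_eq_zero]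
  exact ⟨fun h q hq => by
    obtain ⟨f, rfl⟩ := cl_surj L q
    exact cl_zero.2 (h f (cl_zero.1 hq)), fun h f hf => cl_zero.1 (h _ (cl_zero.2 hf))⟩

theorem pow_cod {L : Sub σ ι} [Module.Finite ℂ (Q L)] {g : MvPolynomial σ ℂ} {f} {J n : ℕ}
    (hn : finrank ℂ (Q L) = n) (h : g ^ J • f ∈ L) : g ^ n • f ∈ L := by
  subst hn
  have := End.ker_pow_le_ker_pow_finrank (act L g) J (x := cl L f)
    (by rwa [LinearMap.mem_ker, act_pow, cl_zero])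
  rwa [LinearMap.mem_ker, act_pow, cl_zero] at this

theorem Q_finite {L L' : Sub σ ι} [Module.Finite ℂ (Q L)] (h : L ≤ L') : Module.Finite ℂ (Q L') :=
  Module.Finite.of_surjective (Submodule.factor (show L.restrictScalars ℂ ≤ L'.restrictScalars ℂ
    from h)) (Submodule.factor_surjective _)

theorem comax {L' : Sub σ ι} [Module.Finite ℂ (Q L')] {g} (h : Nzd g L') (J : ℕ) (f) :
    ∃ u, f - g ^ J • u ∈ L' := by
  obtain ⟨q, hq⟩ := LinearMap.injective_iff_surjective.1 (nzd_iff_inj.1 (h.pow J)) (cl L' f)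
  obtain ⟨u, rfl⟩ := cl_surj L' q
  exact ⟨u, cl_eq.1 hq.symm⟩

theorem cod_inf {L L' : Sub σ ι} [Module.Finite ℂ (Q L)] [Module.Finite ℂ (Q L')] {g}
    (h : Nil g L) (h' : Nzd g L') : Module.Finite ℂ (Q (L ⊓ L')) ∧
      finrank ℂ (Q (L ⊓ L')) = finrank ℂ (Q L) + finrank ℂ (Q L') := by
  obtain ⟨J, hJ⟩ := h
  have h1 : Function.Surjective ((cl L).prod (cl L')) := by
    rintro ⟨a, b⟩
    obtain ⟨a, rfl⟩ := cl_surj L a
    obtain ⟨b, rfl⟩ := cl_surj L' b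
    obtain ⟨u, hu⟩ := comax h' J (b - a)
    exact ⟨a + g ^ J • u, Prod.ext (cl_eq.2 (by simpa using hJ u))
      (cl_eq.2 (by rw [sub_mem_comm_iff, ← sub_sub]; exact hu))⟩
  have e := (Submodule.quotEquivOfEq ((L ⊓ L').restrictScalars ℂ) _ (by
    rw [LinearMap.ker_prod, Submodule.ker_mkQ, Submodule.ker_mkQ]; rfl)).trans
      (LinearMap.quotKerEquivOfSurjective _ h1)
  exact ⟨Module.Finite.equiv e.symm, by rw [e.finrank_eq, finrank_prod]⟩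

theorem nil_le {L1 L2 L' : Sub σ ι} [Module.Finite ℂ (Q L')] {g} (h2 : Nil g L2) (h1 : Nil g L1)
    (h' : Nzd g L') (e : L1 ⊓ L' ≤ L2) : L1 ≤ L2 := fun f hf => by
  obtain ⟨J, hJ⟩ := h1
  obtain ⟨J', hJ'⟩ := h2
  obtain ⟨u, hu⟩ := comax h' (J + J') f
  refine (L2.sub_mem_iff_left ?_).1 (e ⟨sub_mem hf ?_, hu⟩)
  · rw [add_comm, pow_add, mul_smul]; exact hJ' _
  · rw [pow_add, mul_smul]; exact hJ _

/-- affine quotients of dimension `n` -/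
def AQ (M : Sub σ ι) (ℓ : MvPolynomial σ ℂ) (n : ℕ) (L : Sub σ ι) : Prop :=
  M ≤ L ∧ Aff ℓ L ∧ Module.Finite ℂ (Q L) ∧ finrank ℂ (Q L) = n

variable {M : Sub σ ι} {ℓ : MvPolynomial σ ℂ} {n : ℕ}

theorem AQ.split {L : Sub σ ι} (h : AQ M ℓ n L) (g : MvPolynomial σ ℂ) :
    ∃ L' L'' j, j ≤ n ∧ AQ M ℓ j L' ∧ AQ M ℓ (n - j) L'' ∧ Nil g L' ∧ Nzd g L'' ∧ L = L' ⊓ L'' ∧
      j = finrank ℂ (LinearMap.ker (act L g ^ n)) := by
  obtain ⟨h1, h2, h3, h4⟩ := h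
  let L' : Sub σ ι := L ⊔ LinearMap.range (g ^ n • LinearMap.id)
  let L'' : Sub σ ι := L.comap (g ^ n • LinearMap.id)
  have a1 : L ≤ L' := le_sup_left
  have a2 : L ≤ L'' := fun f hf => L.smul_mem _ hf
  have := Q_finite a1
  have := Q_finite a2
  have a3 : Nil g L' := ⟨n, fun f => Submodule.mem_sup_right ⟨f, rfl⟩⟩
  have a4 : Nzd g L'' := fun f hf =>
    pow_cod (J := n + 1) h4 (by rw [pow_succ, mul_smul]; exact hf)
  have a5 : L = L' ⊓ L'' := le_antisymm (le_inf a1 a2) fun f ⟨b1, b2⟩ => by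
    obtain ⟨k, hk, _, ⟨u, rfl⟩, rfl⟩ := Submodule.mem_sup.1 b1
    refine add_mem hk (pow_cod (J := n + n) h4 ?_)
    rw [pow_add, mul_smul]
    exact (L.add_mem_iff_right (L.smul_mem (g ^ n) hk)).1 (smul_add (g ^ n) k _ ▸ b2)
  have a6 := (cod_inf a3 a4).2
  rw [← a5, h4] at a6
  have a7 : finrank ℂ (Q L'') = finrank ℂ (LinearMap.range (act L g ^ n)) := by
    rw [← LinearMap.range_comp_of_range_eq_top _ (Submodule.range_mkQ (L.restrictScalars ℂ)),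
      ← (LinearMap.quotKerEquivRange _).finrank_eq]
    refine (Submodule.quotEquivOfEq _ _ (Submodule.ext fun f => ?_)).finrank_eq
    rw [LinearMap.mem_ker, LinearMap.comp_apply, act_pow, cl_zero]
    rfl
  have a8 := LinearMap.finrank_range_add_finrank_ker (act L g ^ n)
  exact ⟨L', L'', _, by omega, ⟨h1.trans a1, fun f => a1 (h2 f), ‹_›, rfl⟩,
    ⟨h1.trans a2, fun f => a2 (h2 f), ‹_›, by omega⟩, a3, a4, a5, by omega⟩

variable [Finite ι] [Fintype σ]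

omit [Finite ι] [Fintype σ] in
theorem W_mono {L : Sub σ ι} (h : Aff ℓ L) (hℓ : ℓ.IsHomogeneous 1) :
    Monotone fun d => (V σ ι d).map (cl L) := monotone_nat_of_le_succ fun d => by
  rintro _ ⟨f, hf, rfl⟩
  exact ⟨ℓ • f, add_comm 1 d ▸ smul_mem_V hℓ hf, cl_eq.2 (h f)⟩

omit [Fintype σ] in
theorem W_top {L : Sub σ ι} (h : Aff ℓ L) (hℓ : ℓ.IsHomogeneous 1) {d : ℕ}
    (e : ∀ k, d ≤ k → (V σ ι k).map (cl L) ≤ (V σ ι d).map (cl L)) : (V σ ι d).map (cl L) = ⊤ := by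
  refine eq_top_iff.2 fun q _ => ?_
  obtain ⟨f, rfl⟩ := cl_surj L q
  obtain ⟨D, hD⟩ := h.homog hℓ f
  obtain ⟨g, h1, h2⟩ := hD (d + D) (by omega)
  exact e (d + D) (by omega) ⟨g, h1, (cl_eq.2 h2).symm⟩

theorem AQ.top {L : Sub σ ι} (h : AQ M ℓ n L) (hℓ : ℓ.IsHomogeneous 1) {d : ℕ} (hd : n ≤ d) :
    (V σ ι d).map (cl L) = ⊤ := by
  obtain ⟨-, h2, h3, h4⟩ := h
  have hm := W_mono h2 hℓ
  have step : ∀ d, (V σ ι (d + 1)).map (cl L) ≤ (V σ ι d).map (cl L) →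
      (V σ ι (d + 1 + 1)).map (cl L) ≤ (V σ ι (d + 1)).map (cl L) := by
    rintro d e _ ⟨f, hf, rfl⟩
    obtain ⟨g, a1, rfl⟩ := V_succ hf
    rw [map_sum]
    refine sum_mem fun s _ => ?_
    obtain ⟨u, a2, a3⟩ := e ⟨g s, a1 s, rfl⟩
    exact ⟨X s • u, add_comm 1 d ▸ smul_mem_V (isHomogeneous_X ℂ s) a2,
      cl_eq.2 (smul_sub (X s : MvPolynomial σ ℂ) u _ ▸ L.smul_mem _ (cl_eq.1 a3))⟩
  have key : ∀ d, (V σ ι d).map (cl L) = ⊤ ∨ d ≤ finrank ℂ ((V σ ι d).map (cl L)) := by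
    intro d
    induction d with
    | zero => simp
    | succ d ih =>
      rcases (hm d.le_succ).lt_or_eq with e | e
      · rcases ih with ih | ih
        · exact (not_top_lt (ih.ge.trans_lt e)).elim
        · exact Or.inr (ih.trans_lt (Submodule.finrank_lt_finrank_of_lt e))
      · have a1 : ∀ k, (V σ ι (d + k + 1)).map (cl L) ≤ (V σ ι (d + k)).map (cl L) := fun k => by
          induction k with
          | zero => exact e.ge
          | succ k ih => exact step _ ih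
        refine Or.inl (W_top h2 hℓ fun k hk => ?_)
        induction hk with
        | refl => exact le_rfl
        | @step k hk ih =>
          obtain ⟨k, rfl⟩ := Nat.exists_eq_add_of_le (Nat.le_of_succ_le hk)
          exact (a1 k).trans ih
  exact (key d).elim id fun e => Submodule.eq_top_of_finrank_eq
    (le_antisymm (Submodule.finrank_le _) (h4.le.trans (hd.trans e)))

theorem AQ.surj {L : Sub σ ι} (h : AQ M ℓ n L) (hℓ : ℓ.IsHomogeneous 1) {d : ℕ} (hd : n ≤ d)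
    (f) : ∃ g ∈ V σ ι d, f - g ∈ L := by
  obtain ⟨g, h1, h2⟩ : cl L f ∈ (V σ ι d).map (cl L) := h.top hℓ hd ▸ Submodule.mem_top
  exact ⟨g, h1, cl_eq.1 h2.symm⟩

theorem AQ.quot {L : Sub σ ι} (h : AQ M ℓ n L) (hℓ : ℓ.IsHomogeneous 1) (hM : Graded M) :
    hom L ∈ QuotPts M n := by
  refine ⟨hM.le_hom h.1, hom_graded L, fun f hf => nzd_hom hℓ (fun f => h.2.1.iff.1) f ?_,
    n, fun d hd => ?_⟩
  · obtain ⟨c, rfl⟩ := lin_eq hℓ
    rw [Finset.sum_smul]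
    exact sum_mem fun s _ => smul_assoc (c s) (X s : MvPolynomial σ ℂ) f ▸ csmul_mem _ _ (hf s)
  · rw [hilb_congr fun f hf => mem_hom_V hf, hilb, h.top hℓ hd, finrank_top, h.2.2.2]

theorem exists_AQ {K : Sub σ ι} (h : K ∈ QuotPts M n) (hℓ : ℓ.IsHomogeneous 1) (h' : Nzd ℓ K) :
    ∃ L, AQ M ℓ n L ∧ hom L = K := by
  obtain ⟨h1, h2, -, d, h4⟩ := h
  obtain ⟨L, a1, rfl⟩ := exists_aff h2 hℓ h'
  simp only [hilb_congr fun f hf => mem_hom_V (L := L) hf] at h4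
  have a2 := W_top a1 hℓ (d := d) fun k hk => (Submodule.eq_of_le_of_finrank_eq (W_mono a1 hℓ hk)
    ((h4 d le_rfl).trans (h4 k hk).symm)).ge
  refine ⟨L, ⟨h1.trans (hom_le L), a1, Module.finite_def.2 (a2 ▸ ?_), ?_⟩, rfl⟩
  · exact (Module.Finite.iff_fg.1 (V_finite d)).map _
  · rw [← finrank_top, ← a2]; exact h4 d le_rfl

theorem exists_AQ' {K : Sub σ ι} (h : K ∈ QuotPts M n) :
    ∃ ℓ L, ℓ.IsHomogeneous 1 ∧ AQ M ℓ n L ∧ hom L = K := by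
  obtain ⟨ℓ, h1, h2⟩ := exists_nzd (fun _ : Unit => K) fun _ => h.2.2.1
  obtain ⟨L, h3⟩ := exists_AQ h h1 (h2 ())
  exact ⟨ℓ, L, h1, h3⟩

theorem exists_AQ2 {K K' : Sub σ ι} {n' : ℕ} (h : K ∈ QuotPts M n) (h' : K' ∈ QuotPts M n') :
    ∃ ℓ L L', ℓ.IsHomogeneous 1 ∧ AQ M ℓ n L ∧ hom L = K ∧ AQ M ℓ n' L' ∧ hom L' = K' := by
  obtain ⟨ℓ, h1, h2⟩ := exists_nzd (fun b : Bool => cond b K K') fun b => by
    cases b; exacts [h'.2.2.1, h.2.2.1]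
  obtain ⟨L, h3, h4⟩ := exists_AQ h h1 (h2 true)
  obtain ⟨L', h5⟩ := exists_AQ h' h1 (h2 false)
  exact ⟨ℓ, L, L', h1, h3, h4, h5⟩

omit [Finite ι] [Fintype σ] in
theorem quot_unique {K : Sub σ ι} {n' : ℕ} (h : K ∈ QuotPts M n) (h' : K ∈ QuotPts M n') :
    n = n' := by
  obtain ⟨d, h1⟩ := h.2.2.2
  obtain ⟨d', h2⟩ := h'.2.2.2
  exact (h1 (d + d') (by omega)).symm.trans (h2 _ (by omega))

theorem quot_ext {K K' : Sub σ ι} (h : K ∈ QuotPts M n) (h' : K' ∈ QuotPts M n)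
    (e : ∀ f ∈ V σ ι (n + 1), f ∈ K ↔ f ∈ K') : K = K' := by
  obtain ⟨ℓ, L, L', hℓ, h1, rfl, h2, rfl⟩ := exists_AQ2 h h'
  replace e : ∀ f ∈ V σ ι (n + 1), f ∈ L ↔ f ∈ L' := fun f hf =>
    (mem_hom_V hf).symm.trans ((e f hf).trans (mem_hom_V hf))
  have hl : ∀ {d f}, f ∈ V σ ι d → ℓ • f ∈ V σ ι (d + 1) := fun hf =>
    add_comm 1 _ ▸ smul_mem_V hℓ hf
  have a1 : ∀ d, n ≤ d → ∀ f ∈ V σ ι d, ∃ g ∈ V σ ι n, f - g ∈ L ⊓ L' := by
    intro d hd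
    induction hd with
    | refl => exact fun f hf => ⟨f, hf, by simp⟩
    | step hd ih =>
      intro f hf
      obtain ⟨u, b1, rfl⟩ := V_succ hf
      choose g b2 b3 using fun s => ih _ (b1 s)
      choose g' b4 b5 using fun s => h1.surj hℓ le_rfl ((X s : MvPolynomial σ ℂ) • g s)
      refine ⟨∑ s, g' s, sum_mem fun s _ => b4 s, ?_⟩
      rw [← Finset.sum_sub_distrib]
      refine sum_mem fun s _ => ?_
      have b6 : (X s : MvPolynomial σ ℂ) • g s - ℓ • g' s ∈ L :=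
        by simpa using sub_mem (b5 s) (h1.2.1 (g' s))
      have b7 := (e _ (sub_mem (add_comm 1 n ▸ smul_mem_V (isHomogeneous_X ℂ s) (b2 s))
        (hl (b4 s)))).1 b6
      have b8 : (X s : MvPolynomial σ ℂ) • g s - g' s ∈ L' :=
        by simpa using add_mem b7 (h2.2.1 (g' s))
      simpa [smul_sub] using add_mem ((L ⊓ L').smul_mem (X s) (b3 s)) ⟨b5 s, b8⟩
  congr 1
  ext f
  obtain ⟨D, hD⟩ := Aff.homog (L := L ⊓ L') (fun f => ⟨h1.2.1 f, h2.2.1 f⟩) hℓ f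
  obtain ⟨u, b1, b2⟩ := hD (n + D) (by omega)
  obtain ⟨g, b3, b4⟩ := a1 _ (by omega) u b1
  have b5 : f - g ∈ L ⊓ L' := by simpa using add_mem b2 b4
  have b6 : g ∈ L ↔ g ∈ L' := h1.2.1.iff.symm.trans ((e _ (hl b3)).trans h2.2.1.iff)
  exact ⟨fun h => (L'.sub_mem_iff_left (b6.1 ((L.sub_mem_iff_right h).1 b5.1))).1 b5.2,
    fun h => (L.sub_mem_iff_left (b6.2 ((L'.sub_mem_iff_right h).1 b5.2))).1 b5.1⟩

theorem nzd_iff_V {K : Sub σ ι} (h : K ∈ QuotPts M n) {g : MvPolynomial σ ℂ}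
    (hg : g.IsHomogeneous 1) : Nzd g K ↔ ∀ f ∈ V σ ι n, g • f ∈ K → f ∈ K := by
  refine ⟨fun H f _ => H f, fun H => ?_⟩
  obtain ⟨ℓ, L, hℓ, h1, rfl⟩ := exists_AQ' h
  refine nzd_hom hg fun f hf => ?_
  obtain ⟨u, h2, h3⟩ := h1.surj hℓ le_rfl f
  refine (L.sub_mem_iff_left (hom_le _ (H u h2 ((mem_hom_V (smul_mem_V hg h2)).2 ?_)))).1 h3
  exact (L.sub_mem_iff_right hf).1 (smul_sub g f u ▸ L.smul_mem g h3)

theorem nil_iff_V {K : Sub σ ι} (h : K ∈ QuotPts M n) {g : MvPolynomial σ ℂ}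
    (hg : g.IsHomogeneous 1) : Nil g K ↔ ∀ f ∈ V σ ι n, g ^ n • f ∈ K := by
  obtain ⟨ℓ, L, hℓ, h1, rfl⟩ := exists_AQ' h
  rw [nil_hom_iff hg]
  constructor
  · rintro ⟨J, hJ⟩ f hf
    have := h1.2.2.1
    exact (mem_hom_V (smul_mem_V (hg.pow n) hf)).2 (pow_cod h1.2.2.2 (hJ f))
  · refine fun H => ⟨n, fun f => ?_⟩
    obtain ⟨u, h2, h3⟩ := h1.surj hℓ le_rfl f
    exact (L.sub_mem_iff_left (hom_le _ (H u h2))).1 (smul_sub (g ^ n) f u ▸ L.smul_mem _ h3)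

theorem inf_quot (hM : Graded M) {K K' : Sub σ ι} {n' : ℕ} (h : K ∈ QuotPts M n)
    (h' : K' ∈ QuotPts M n') {g : MvPolynomial σ ℂ} (hg : g.IsHomogeneous 1) (h1 : Nil g K)
    (h2 : Nzd g K') : K ⊓ K' ∈ QuotPts M (n + n') := by
  obtain ⟨ℓ, L, L', hℓ, ⟨a1, a2, a3, a4⟩, rfl, ⟨b1, b2, b3, b4⟩, rfl⟩ := exists_AQ2 h h'
  obtain ⟨c1, c2⟩ := cod_inf ((nil_hom_iff hg).1 h1) ((b2.nzd_iff hℓ hg).1 h2)
  rw [← hom_inf]
  exact AQ.quot ⟨le_inf a1 b1, fun f => ⟨a2 f, b2 f⟩, c1, by rw [c2, a4, b4]⟩ hℓ hM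

/-- splitting of a quotient into the part on a hyperplane and the part away from it -/
def Spl (M : Sub σ ι) (g : MvPolynomial σ ℂ) (j k : ℕ) (K K' K'' : Sub σ ι) : Prop :=
  (K' ∈ QuotPts M j ∧ Nil g K') ∧ (K'' ∈ QuotPts M k ∧ Nzd g K'') ∧ K = K' ⊓ K''

theorem AQ.spl (hM : Graded M) {L : Sub σ ι} (h : AQ M ℓ n L) (hℓ : ℓ.IsHomogeneous 1)
    {g : MvPolynomial σ ℂ} (hg : g.IsHomogeneous 1) : ∃ j ≤ n, ∃ K' K'',
      Spl M g j (n - j) (hom L) K' K'' ∧ j = finrank ℂ (LinearMap.ker (act L g ^ n)) := by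
  obtain ⟨L', L'', j, h1, h2, h3, h4, h5, h6, h7⟩ := h.split g
  exact ⟨j, h1, hom L', hom L'', ⟨⟨h2.quot hℓ hM, (nil_hom_iff hg).2 h4⟩,
    ⟨h3.quot hℓ hM, nzd_hom hg h5⟩, by rw [← hom_inf, ← h6]⟩, h7⟩

omit [Finite ι] [Fintype σ] in
theorem Spl.mem {g : MvPolynomial σ ℂ} {j k : ℕ} {K K' K'' : Sub σ ι} (h : Spl M g j k K K' K'')
    {f} : f ∈ K'' ↔ ∃ J : ℕ, g ^ J • f ∈ K := by
  obtain ⟨⟨-, J, h1⟩, ⟨-, h2⟩, rfl⟩ := h
  exact ⟨fun h => ⟨J, h1 f, K''.smul_mem _ h⟩, fun ⟨J, h⟩ => h2.pow J f h.2⟩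

theorem Spl.unique {g : MvPolynomial σ ℂ} (hg : g.IsHomogeneous 1) {j k j' k' : ℕ}
    {K K1 K2 K1' K2' : Sub σ ι} (h : Spl M g j k K K1 K2) (h' : Spl M g j' k' K K1' K2') :
    j = j' ∧ K1 = K1' ∧ K2 = K2' := by
  obtain rfl : K2 = K2' := Submodule.ext fun f => h.mem.trans h'.mem.symm
  obtain ⟨ℓ, hℓ, h2⟩ := exists_nzd ![K1, K1', K2] fun b => by
    fin_cases b; exacts [h.1.1.2.2.1, h'.1.1.2.2.1, h.2.1.1.2.2.1]
  obtain ⟨L1, a1, e1⟩ := exists_AQ h.1.1 hℓ (h2 0)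
  obtain ⟨L1', a2, e2⟩ := exists_AQ h'.1.1 hℓ (h2 1)
  obtain ⟨L2, a3, e3⟩ := exists_AQ h.2.1.1 hℓ (h2 2)
  subst e1 e2 e3
  have := a3.2.2.1
  have b1 := (nil_hom_iff hg).1 h.1.2
  have b2 := (nil_hom_iff hg).1 h'.1.2
  have b3 := (a3.2.1.nzd_iff hℓ hg).1 h.2.1.2
  have b4 := h.2.2.symm.trans h'.2.2
  have : L1 = L1' := le_antisymm
    (nil_le b2 b1 b3 (Aff.eq_of_hom (fun f => ⟨a1.2.1 f, a3.2.1 f⟩) a2.2.1 hℓ
      (by rw [hom_inf, b4]; exact inf_le_left)))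
    (nil_le b1 b2 b3 (Aff.eq_of_hom (fun f => ⟨a2.2.1 f, a3.2.1 f⟩) a1.2.1 hℓ
      (by rw [hom_inf, ← b4]; exact inf_le_left)))
  subst this
  exact ⟨a1.2.2.2.symm.trans a2.2.2.2, rfl, rfl⟩

end Pool.Agent.Lib.MP_d4c0ca_ag
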