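import Pool.Agent.Lib.MP_d4c0ca_ag.KK

/-! Definable sets over the three sorts: Laurent series, integers, complex numbers. -/

namespace Pool.Agent.Lib.MP_d4c0ca_ag

/-- generators of terms of the three sorts -/
class Str (X : Type) where
  R : Set (X → KK)
  Z : Set (X → ℤ)
  C : Set (X → ℂ)

section
variable {X : Type} [Str X]

inductive TK : (X → KK) → Prop
  | gen {f : X → KK} : f ∈ Str.R → TK f
  | const (c : KK) : TK (fun _ => c)
  | add {f g : X → KK} : TK f → TK g → TK (fun x => f x + g x)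
  | mul {f g : X → KK} : TK f → TK g → TK (fun x => f x * g x)

inductive TZ : (X → ℤ) → Prop
  | gen {f : X → ℤ} : f ∈ Str.Z → TZ f
  | ord {f : X → KK} : TK f → TZ (fun x => (f x).ord)
  | const (c : ℤ) : TZ (fun _ => c)
  | add {f g : X → ℤ} : TZ f → TZ g → TZ (fun x => f x + g x)
  | smul (c : ℤ) {f : X → ℤ} : TZ f → TZ (fun x => c * f x)
  | div (m : ℤ) (hm : 0 < m) {f : X → ℤ} : TZ f → TZ (fun x => f x / m)

inductive TC : (X → ℂ) → Prop
  | gen {f : X → ℂ} : f ∈ Str.C → TC f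
  | ac {f : X → KK} : TK f → TC (fun x => (f x).ac)
  | const (c : ℂ) : TC (fun _ => c)
  | add {f g : X → ℂ} : TC f → TC g → TC (fun x => f x + g x)
  | mul {f g : X → ℂ} : TC f → TC g → TC (fun x => f x * g x)

end

instance : Str KK := ⟨{id}, ∅, ∅⟩
instance : Str ℤ := ⟨∅, {id}, ∅⟩
instance : Str ℂ := ⟨∅, ∅, {id}⟩
instance : Str Unit := ⟨∅, ∅, ∅⟩
instance (X Y : Type) [Str X] [Str Y] : Str (X × Y) :=
  ⟨{f | (∃ g ∈ Str.R, f = fun p : X × Y => g p.1) ∨ ∃ g ∈ Str.R, f = fun p : X × Y => g p.2},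
   {f | (∃ g ∈ Str.Z, f = fun p : X × Y => g p.1) ∨ ∃ g ∈ Str.Z, f = fun p : X × Y => g p.2},
   {f | (∃ g ∈ Str.C, f = fun p : X × Y => g p.1) ∨ ∃ g ∈ Str.C, f = fun p : X × Y => g p.2}⟩
instance (ι X : Type) [Str X] : Str (ι → X) :=
  ⟨{f | ∃ i, ∃ g ∈ Str.R, f = fun p : ι → X => g (p i)},
   {f | ∃ i, ∃ g ∈ Str.Z, f = fun p : ι → X => g (p i)},
   {f | ∃ i, ∃ g ∈ Str.C, f = fun p : ι → X => g (p i)}⟩

/-- term maps -/
@[fun_prop]
def Tm {X Y : Type} [Str X] [Str Y] (h : X → Y) : Prop :=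
  (∀ f ∈ Str.R, TK (fun x => f (h x))) ∧ (∀ f ∈ Str.Z, TZ (fun x => f (h x))) ∧
    ∀ f ∈ Str.C, TC (fun x => f (h x))

variable {X Y W : Type} [Str X] [Str Y] [Str W]

theorem TK.comp {f : Y → KK} (hf : TK f) {h : X → Y} (hh : Tm h) : TK (fun x => f (h x)) := by
  induction hf with
  | gen hf => exact hh.1 _ hf
  | const c => exact TK.const c
  | add _ _ h1 h2 => exact TK.add h1 h2
  | mul _ _ h1 h2 => exact TK.mul h1 h2

theorem TZ.comp {f : Y → ℤ} (hf : TZ f) {h : X → Y} (hh : Tm h) : TZ (fun x => f (h x)) := by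
  induction hf with
  | gen hf => exact hh.2.1 _ hf
  | ord hf => exact TZ.ord (hf.comp hh)
  | const c => exact TZ.const c
  | add _ _ h1 h2 => exact TZ.add h1 h2
  | smul c _ h1 => exact TZ.smul c h1
  | div m hm _ h1 => exact TZ.div m hm h1

theorem TC.comp {f : Y → ℂ} (hf : TC f) {h : X → Y} (hh : Tm h) : TC (fun x => f (h x)) := by
  induction hf with
  | gen hf => exact hh.2.2 _ hf
  | ac hf => exact TC.ac (hf.comp hh)
  | const c => exact TC.const c
  | add _ _ h1 h2 => exact TC.add h1 h2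
  | mul _ _ h1 h2 => exact TC.mul h1 h2

theorem tm_K {f : X → KK} : Tm f ↔ TK f :=
  ⟨fun h => h.1 id rfl, fun h => ⟨fun g hg => by cases hg; exact h, fun _ hg => hg.elim,
    fun _ hg => hg.elim⟩⟩

theorem tm_Z {f : X → ℤ} : Tm f ↔ TZ f :=
  ⟨fun h => h.2.1 id rfl, fun h => ⟨fun _ hg => hg.elim, fun g hg => by cases hg; exact h,
    fun _ hg => hg.elim⟩⟩

theorem tm_C {f : X → ℂ} : Tm f ↔ TC f :=
  ⟨fun h => h.2.2 id rfl, fun h => ⟨fun _ hg => hg.elim, fun _ hg => hg.elim,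
    fun g hg => by cases hg; exact h⟩⟩

namespace Tm

@[fun_prop] theorem id' : Tm (fun x : X => x) :=
  ⟨fun _ hf => TK.gen hf, fun _ hf => TZ.gen hf, fun _ hf => TC.gen hf⟩

@[fun_prop] theorem const (y : Y) : Tm (fun _ : X => y) :=
  ⟨fun _ _ => TK.const _, fun _ _ => TZ.const _, fun _ _ => TC.const _⟩

@[fun_prop] theorem comp {f : Y → W} {g : X → Y} (hf : Tm f) (hg : Tm g) :
    Tm (fun x => f (g x)) :=
  ⟨fun r hr => (hf.1 r hr).comp hg, fun r hr => (hf.2.1 r hr).comp hg,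
    fun r hr => (hf.2.2 r hr).comp hg⟩

theorem fst' : Tm (fun p : X × Y => p.1) :=
  ⟨fun r hr => TK.gen (Or.inl ⟨r, hr, rfl⟩), fun r hr => TZ.gen (Or.inl ⟨r, hr, rfl⟩),
    fun r hr => TC.gen (Or.inl ⟨r, hr, rfl⟩)⟩

theorem snd' : Tm (fun p : X × Y => p.2) :=
  ⟨fun r hr => TK.gen (Or.inr ⟨r, hr, rfl⟩), fun r hr => TZ.gen (Or.inr ⟨r, hr, rfl⟩),
    fun r hr => TC.gen (Or.inr ⟨r, hr, rfl⟩)⟩

@[fun_prop] theorem fst {f : X → Y × W} (hf : Tm f) : Tm (fun x => (f x).1) := comp fst' hf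

@[fun_prop] theorem snd {f : X → Y × W} (hf : Tm f) : Tm (fun x => (f x).2) := comp snd' hf

@[fun_prop] theorem prodMk {f : X → Y} {g : X → W} (hf : Tm f) (hg : Tm g) :
    Tm (fun x => (f x, g x)) := by
  refine ⟨?_, ?_, ?_⟩
  · rintro _ (⟨r, hr, rfl⟩ | ⟨r, hr, rfl⟩)
    exacts [hf.1 r hr, hg.1 r hr]
  · rintro _ (⟨r, hr, rfl⟩ | ⟨r, hr, rfl⟩)
    exacts [hf.2.1 r hr, hg.2.1 r hr]
  · rintro _ (⟨r, hr, rfl⟩ | ⟨r, hr, rfl⟩)
    exacts [hf.2.2 r hr, hg.2.2 r hr]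

@[fun_prop] theorem apply {ι : Type} (i : ι) : Tm (fun p : ι → X => p i) :=
  ⟨fun r hr => TK.gen ⟨i, r, hr, rfl⟩, fun r hr => TZ.gen ⟨i, r, hr, rfl⟩,
    fun r hr => TC.gen ⟨i, r, hr, rfl⟩⟩

@[fun_prop] theorem pi {ι : Type} {f : X → ι → Y} (hf : ∀ i, Tm (fun x => f x i)) :
    Tm (fun x i => f x i) := by
  refine ⟨?_, ?_, ?_⟩
  · rintro _ ⟨i, r, hr, rfl⟩
    exact (hf i).1 r hr
  · rintro _ ⟨i, r, hr, rfl⟩
    exact (hf i).2.1 r hr
  · rintro _ ⟨i, r, hr, rfl⟩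
    exact (hf i).2.2 r hr

theorem app {ι : Type} {f : X → ι → Y} (hf : Tm f) (i : ι) : Tm (fun x => f x i) :=
  comp (apply i) hf

@[fun_prop] theorem unit (f : X → Unit) : Tm f :=
  ⟨fun _ h => h.elim, fun _ h => h.elim, fun _ h => h.elim⟩

@[fun_prop] theorem addK {f g : X → KK} (hf : Tm f) (hg : Tm g) : Tm (fun x => f x + g x) :=
  tm_K.2 ((tm_K.1 hf).add (tm_K.1 hg))
@[fun_prop] theorem mulK {f g : X → KK} (hf : Tm f) (hg : Tm g) : Tm (fun x => f x * g x) :=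
  tm_K.2 ((tm_K.1 hf).mul (tm_K.1 hg))
@[fun_prop] theorem negK {f : X → KK} (hf : Tm f) : Tm (fun x => - f x) := by
  simpa using mulK (const (-1)) hf
@[fun_prop] theorem subK {f g : X → KK} (hf : Tm f) (hg : Tm g) : Tm (fun x => f x - g x) := by
  simpa [sub_eq_add_neg] using addK hf (negK hg)
@[fun_prop] theorem powK {f : X → KK} (hf : Tm f) (n : ℕ) : Tm (fun x => f x ^ n) := by
  induction n with
  | zero => simpa using const (1 : KK)
  | succ n ih => simpa [pow_succ] using mulK ih hf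
@[fun_prop] theorem sumK {ι : Type} (s : Finset ι) {f : ι → X → KK} (hf : ∀ i, Tm (f i)) :
    Tm (fun x => ∑ i ∈ s, f i x) := by
  classical
  induction s using Finset.induction_on with
  | empty => simpa using const (0 : KK)
  | insert a s ha ih => simpa [Finset.sum_insert ha] using addK (hf a) ih

@[fun_prop] theorem addC {f g : X → ℂ} (hf : Tm f) (hg : Tm g) : Tm (fun x => f x + g x) :=
  tm_C.2 ((tm_C.1 hf).add (tm_C.1 hg))
@[fun_prop] theorem mulC {f g : X → ℂ} (hf : Tm f) (hg : Tm g) : Tm (fun x => f x * g x) :=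
  tm_C.2 ((tm_C.1 hf).mul (tm_C.1 hg))
@[fun_prop] theorem negC {f : X → ℂ} (hf : Tm f) : Tm (fun x => - f x) := by
  simpa using mulC (const (-1)) hf
@[fun_prop] theorem subC {f g : X → ℂ} (hf : Tm f) (hg : Tm g) : Tm (fun x => f x - g x) := by
  simpa [sub_eq_add_neg] using addC hf (negC hg)
@[fun_prop] theorem powC {f : X → ℂ} (hf : Tm f) (n : ℕ) : Tm (fun x => f x ^ n) := by
  induction n with
  | zero => simpa using const (1 : ℂ)
  | succ n ih => simpa [pow_succ] using mulC ih hf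
@[fun_prop] theorem divC {f : X → ℂ} (hf : Tm f) (c : ℂ) : Tm (fun x => f x / c) := by
  simpa [div_eq_mul_inv] using mulC hf (const c⁻¹)
theorem sumC' {ι : Type} (s : Finset ι) {f : ι → X → ℂ} (hf : ∀ i ∈ s, Tm (f i)) :
    Tm (fun x => ∑ i ∈ s, f i x) := by
  classical
  induction s using Finset.induction_on with
  | empty => simpa using const (0 : ℂ)
  | insert a s ha ih =>
    simpa [Finset.sum_insert ha] using
      addC (hf a (by simp)) (ih fun i hi => hf i (by simp [hi]))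
@[fun_prop] theorem sumC {ι : Type} (s : Finset ι) {f : ι → X → ℂ} (hf : ∀ i, Tm (f i)) :
    Tm (fun x => ∑ i ∈ s, f i x) := sumC' s fun i _ => hf i
@[fun_prop] theorem prodC {ι : Type} (s : Finset ι) {f : ι → X → ℂ} (hf : ∀ i, Tm (f i)) :
    Tm (fun x => ∏ i ∈ s, f i x) := by
  classical
  induction s using Finset.induction_on with
  | empty => simpa using const (1 : ℂ)
  | insert a s ha ih => simpa [Finset.prod_insert ha] using mulC (hf a) ih

@[fun_prop] theorem addZ {f g : X → ℤ} (hf : Tm f) (hg : Tm g) : Tm (fun x => f x + g x) :=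
  tm_Z.2 ((tm_Z.1 hf).add (tm_Z.1 hg))
@[fun_prop] theorem mulZ (c : ℤ) {f : X → ℤ} (hf : Tm f) : Tm (fun x => c * f x) :=
  tm_Z.2 ((tm_Z.1 hf).smul c)
@[fun_prop] theorem negZ {f : X → ℤ} (hf : Tm f) : Tm (fun x => - f x) := by
  simpa using mulZ (-1) hf
@[fun_prop] theorem subZ {f g : X → ℤ} (hf : Tm f) (hg : Tm g) : Tm (fun x => f x - g x) := by
  simpa [sub_eq_add_neg] using addZ hf (negZ hg)
theorem divZ {f : X → ℤ} (hf : Tm f) {m : ℤ} (hm : 0 < m) : Tm (fun x => f x / m) :=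
  tm_Z.2 ((tm_Z.1 hf).div m hm)
@[fun_prop] theorem sumZ {ι : Type} (s : Finset ι) {f : ι → X → ℤ} (hf : ∀ i, Tm (f i)) :
    Tm (fun x => ∑ i ∈ s, f i x) := by
  classical
  induction s using Finset.induction_on with
  | empty => simpa using const (0 : ℤ)
  | insert a s ha ih => simpa [Finset.sum_insert ha] using addZ (hf a) ih

@[fun_prop] theorem ord {f : X → KK} (hf : Tm f) : Tm (fun x => (f x).ord) :=
  tm_Z.2 (TZ.ord (tm_K.1 hf))
@[fun_prop] theorem ac {f : X → KK} (hf : Tm f) : Tm (fun x => (f x).ac) :=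
  tm_C.2 (TC.ac (tm_K.1 hf))

@[fun_prop] theorem ite (p : Prop) [Decidable p] {f g : X → Y} (hf : Tm f) (hg : Tm g) :
    Tm (fun x => if p then f x else g x) := by
  split_ifs
  exacts [hf, hg]

@[fun_prop] theorem update {ι : Type} [DecidableEq ι] {f : X → ι → Y} (hf : Tm f) (i : ι)
    {g : X → Y} (hg : Tm g) : Tm (fun x => Function.update (f x) i (g x)) := by
  refine pi fun j => ?_
  by_cases h : j = i
  · subst h; simpa using hg
  · simpa [Function.update_of_ne h] using hf.app j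

end Tm

/-- atomic predicates -/
def Atom (a : X → Prop) : Prop :=
  (∃ z : X → ℤ, Tm z ∧ a = fun x => 0 ≤ z x) ∨ ∃ c : X → ℂ, Tm c ∧ a = fun x => c x = 0

/-- definable predicates: determined by finitely many atoms -/
def Def (P : X → Prop) : Prop :=
  ∃ A : Set (X → Prop), A.Finite ∧ (∀ a ∈ A, Atom a) ∧
    ∀ x y, (∀ a ∈ A, a x ↔ a y) → P x → P y

namespace Def

theorem of_det {A : Set (X → Prop)} (hA : A.Finite) (hD : ∀ a ∈ A, Def a) {P : X → Prop}
    (h : ∀ x y, (∀ a ∈ A, a x ↔ a y) → P x → P y) : Def P := by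
  choose! B hB1 hB2 hB3 using hD
  refine ⟨⋃ a ∈ A, B a, hA.biUnion hB1, ?_, fun x y hxy => h x y fun a ha => ?_⟩
  · intro b hb
    simp only [Set.mem_iUnion] at hb
    obtain ⟨a, ha, hb⟩ := hb
    exact hB2 a ha b hb
  · have : ∀ b ∈ B a, b x ↔ b y := fun b hb => hxy b (Set.mem_biUnion ha hb)
    exact ⟨hB3 a ha x y this, hB3 a ha y x fun b hb => (this b hb).symm⟩

theorem of_fam {ι : Type} [Finite ι] {a : ι → X → Prop} (hD : ∀ i, Def (a i)) {P : X → Prop}
    (h : ∀ x y, (∀ i, a i x ↔ a i y) → P x → P y) : Def P :=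
  of_det (Set.finite_range a) (by rintro _ ⟨i, rfl⟩; exact hD i)
    fun x y hxy => h x y fun i => hxy _ ⟨i, rfl⟩

theorem atom {a : X → Prop} (ha : Atom a) : Def a :=
  ⟨{a}, Set.finite_singleton _, by simpa using ha, fun x y h => (h a rfl).1⟩

theorem congr {P Q : X → Prop} (h : Def P) (hPQ : ∀ x, P x ↔ Q x) : Def Q := by
  have : P = Q := funext fun x => propext (hPQ x)
  exact this ▸ h

theorem const (p : Prop) : Def (fun _ : X => p) :=
  ⟨∅, Set.finite_empty, by simp, fun _ _ _ h => h⟩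

theorem comp {P : Y → Prop} (hP : Def P) {h : X → Y} (hh : Tm h) : Def (fun x => P (h x)) := by
  obtain ⟨A, h1, h2, h3⟩ := hP
  refine ⟨(fun a x => a (h x)) '' A, h1.image _, ?_, fun x y hxy => h3 _ _ fun a ha =>
    hxy _ ⟨a, ha, rfl⟩⟩
  rintro _ ⟨a, ha, rfl⟩
  rcases h2 a ha with ⟨z, hz, rfl⟩ | ⟨c, hc, rfl⟩
  · exact Or.inl ⟨_, hz.comp hh, rfl⟩
  · exact Or.inr ⟨_, hc.comp hh, rfl⟩

theorem not {P : X → Prop} (hP : Def P) : Def (fun x => ¬ P x) :=
  of_fam (ι := Unit) (a := fun _ => P) (fun _ => hP) fun _ _ h hx hy => hx ((h ()).2 hy)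

theorem bin (op : Prop → Prop → Prop) {P Q : X → Prop} (hP : Def P) (hQ : Def Q) :
    Def (fun x => op (P x) (Q x)) :=
  of_fam (ι := Bool) (a := fun b => cond b P Q) (fun b => by cases b <;> assumption)
    fun x y h hx => by
      have h1 : P x = P y := propext (h true)
      have h2 : Q x = Q y := propext (h false)
      rw [← h1, ← h2]; exact hx

theorem and {P Q : X → Prop} (hP : Def P) (hQ : Def Q) : Def (fun x => P x ∧ Q x) :=
  bin And hP hQ
theorem or {P Q : X → Prop} (hP : Def P) (hQ : Def Q) : Def (fun x => P x ∨ Q x) :=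
  bin Or hP hQ
theorem imp {P Q : X → Prop} (hP : Def P) (hQ : Def Q) : Def (fun x => P x → Q x) :=
  bin (fun a b => a → b) hP hQ
theorem iff {P Q : X → Prop} (hP : Def P) (hQ : Def Q) : Def (fun x => P x ↔ Q x) :=
  bin Iff hP hQ

theorem allF {ι : Type} [Finite ι] {P : X → ι → Prop} (hP : ∀ i, Def (fun x => P x i)) :
    Def (fun x => ∀ i, P x i) :=
  of_fam hP fun _ _ h hx i => (h i).1 (hx i)

theorem exF {ι : Type} [Finite ι] {P : X → ι → Prop} (hP : ∀ i, Def (fun x => P x i)) :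
    Def (fun x => ∃ i, P x i) :=
  of_fam hP fun _ _ h ⟨i, hx⟩ => ⟨i, (h i).1 hx⟩

theorem ballS {ι : Type} {s : Set ι} (hs : s.Finite) {P : X → ι → Prop}
    (hP : ∀ i ∈ s, Def (fun x => P x i)) : Def (fun x => ∀ i ∈ s, P x i) := by
  have := hs.to_subtype
  exact (allF (ι := s) (P := fun x i => P x i) fun i => hP i i.2).congr fun x => by simp

theorem bexS {ι : Type} {s : Set ι} (hs : s.Finite) {P : X → ι → Prop}
    (hP : ∀ i ∈ s, Def (fun x => P x i)) : Def (fun x => ∃ i ∈ s, P x i) := by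
  have := hs.to_subtype
  exact (exF (ι := s) (P := fun x i => P x i) fun i => hP i i.2).congr fun x => by simp

theorem ball {ι : Type} (s : Finset ι) {P : X → ι → Prop}
    (hP : ∀ i ∈ s, Def (fun x => P x i)) : Def (fun x => ∀ i ∈ s, P x i) :=
  ballS s.finite_toSet hP

theorem bex {ι : Type} (s : Finset ι) {P : X → ι → Prop}
    (hP : ∀ i ∈ s, Def (fun x => P x i)) : Def (fun x => ∃ i ∈ s, P x i) :=
  bexS s.finite_toSet hP

theorem le {f g : X → ℤ} (hf : Tm f) (hg : Tm g) : Def (fun x => f x ≤ g x) :=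
  (atom (Or.inl ⟨_, hg.subZ hf, rfl⟩)).congr fun _ => by simp

theorem lt {f g : X → ℤ} (hf : Tm f) (hg : Tm g) : Def (fun x => f x < g x) :=
  (le hg hf).not.congr fun _ => by simp

theorem eqZ {f g : X → ℤ} (hf : Tm f) (hg : Tm g) : Def (fun x => f x = g x) :=
  ((le hf hg).and (le hg hf)).congr fun _ => le_antisymm_iff.symm

theorem eqC {f g : X → ℂ} (hf : Tm f) (hg : Tm g) : Def (fun x => f x = g x) :=
  (atom (Or.inr ⟨_, hf.subC hg, rfl⟩)).congr fun _ => sub_eq_zero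

theorem eqK {f g : X → KK} (hf : Tm f) (hg : Tm g) : Def (fun x => f x = g x) :=
  (eqC (hf.subK hg).ac (Tm.const 0)).congr fun _ => by
    simp [sub_eq_zero]

end Def

/-- sorts with definable equality -/
class DEq (Y : Type) [Str Y] : Prop where
  eq : Def (fun p : Y × Y => p.1 = p.2)

theorem Def.eq [DEq Y] {f g : X → Y} (hf : Tm f) (hg : Tm g) : Def (fun x => f x = g x) :=
  (DEq.eq (Y := Y)).comp (hf.prodMk hg)

theorem Def.ne [DEq Y] {f g : X → Y} (hf : Tm f) (hg : Tm g) : Def (fun x => f x ≠ g x) :=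
  (Def.eq hf hg).not

instance : DEq KK := ⟨Def.eqK Tm.fst' Tm.snd'⟩
instance : DEq ℤ := ⟨Def.eqZ Tm.fst' Tm.snd'⟩
instance : DEq ℂ := ⟨Def.eqC Tm.fst' Tm.snd'⟩
instance : DEq Unit := ⟨(Def.const True).congr fun _ => by simp⟩
instance [DEq X] [DEq Y] : DEq (X × Y) :=
  ⟨((Def.eq (f := fun p : (X × Y) × (X × Y) => p.1.1) (g := fun p => p.2.1) (by fun_prop)
    (by fun_prop)).and (Def.eq (f := fun p : (X × Y) × (X × Y) => p.1.2) (g := fun p => p.2.2)
    (by fun_prop) (by fun_prop))).congr fun _ => Prod.ext_iff.symm⟩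
instance {ι : Type} [Finite ι] [DEq X] : DEq (ι → X) :=
  ⟨(Def.allF fun i => Def.eq (f := fun p : (ι → X) × (ι → X) => p.1 i) (g := fun p => p.2 i)
    (by fun_prop) (by fun_prop)).congr fun _ => funext_iff.symm⟩

/-- sorts along which definable sets can be projected -/
class Proj (Y : Type) [Str Y] : Prop where
  ex : ∀ (X : Type) [Str X] (P : X × Y → Prop), Def P → Def (fun x => ∃ y, P (x, y))

theorem Def.ex [Proj Y] {P : X → Y → Prop} (hP : Def (fun p : X × Y => P p.1 p.2)) :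
    Def (fun x => ∃ y, P x y) := Proj.ex X _ hP

theorem Def.all [Proj Y] {P : X → Y → Prop} (hP : Def (fun p : X × Y => P p.1 p.2)) :
    Def (fun x => ∀ y, P x y) :=
  (Def.ex (P := fun x y => ¬ P x y) hP.not).not.congr fun _ => by simp

instance : Proj Unit :=
  ⟨fun X _ P hP => (hP.comp (h := fun x : X => (x, ())) (by fun_prop)).congr fun _ =>
    ⟨fun h => ⟨_, h⟩, fun ⟨_, h⟩ => h⟩⟩

instance [Proj X] [Proj Y] : Proj (X × Y) :=
  ⟨fun W _ P hP => (Def.ex (P := fun (w : W) (x : X) => ∃ y : Y, P (w, (x, y)))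
    (Def.ex (hP.comp (h := fun p : (W × X) × Y => (p.1.1, (p.1.2, p.2))) (by fun_prop)))).congr
      fun _ => by simp⟩

theorem Proj.of_surj [Proj X] (e : X → Y) (he : Tm e) (hs : Function.Surjective e) : Proj Y :=
  ⟨fun W _ P hP => (Def.ex (P := fun (w : W) (x : X) => P (w, e x))
    (hP.comp (h := fun p : W × X => (p.1, e p.2)) (by fun_prop))).congr fun _ =>
      ⟨fun ⟨_, h⟩ => ⟨_, h⟩, fun ⟨y, h⟩ => by obtain ⟨x, rfl⟩ := hs y; exact ⟨x, h⟩⟩⟩

theorem Tm.cons {n : ℕ} {f : X → Y} {g : X → Fin n → Y} (hf : Tm f) (hg : Tm g) :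
    Tm (fun x => (Fin.cons (f x) (g x) : Fin (n + 1) → Y)) := by
  refine Tm.pi fun i => ?_
  refine Fin.cases ?_ (fun j => ?_) i
  · simpa using hf
  · simpa using hg.app j

theorem proj_fin [Proj X] (n : ℕ) : Proj (Fin n → X) := by
  induction n with
  | zero =>
    exact Proj.of_surj (X := Unit) (fun _ => Fin.elim0) (Tm.const _)
      fun y => ⟨(), Subsingleton.elim _ _⟩
  | succ n ih =>
    exact Proj.of_surj (X := X × (Fin n → X)) (fun p => Fin.cons p.1 p.2)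
      (Tm.cons Tm.fst' Tm.snd') fun y => ⟨(y 0, Fin.tail y), by simp⟩

instance {ι : Type} [Finite ι] [Proj X] : Proj (ι → X) := by
  obtain ⟨n, ⟨e⟩⟩ := Finite.exists_equiv_fin ι
  have := proj_fin (X := X) n
  exact Proj.of_surj (X := Fin n → X) (fun p i => p (e i)) (by fun_prop)
    fun y => ⟨fun j => y (e.symm j), by simp⟩

end Pool.Agent.Lib.MP_d4c0ca_ag
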