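import Pool.Agent.Lib.MP_d4c0ca_ag.KK

/-! Hensel's lemma and leading terms of polynomials on balls. -/

namespace Pool.Agent.Lib.MP_d4c0ca_ag

open Polynomial KK
open scoped Ring

theorem hensel' (R : Type) [CommRing R] (I : Ideal R) [IsAdicComplete I R] (f : R[X]) (a₀ : R)
    (h₁ : f.eval a₀ ∈ I) (h₂ : IsUnit (Ideal.Quotient.mk I (f.derivative.eval a₀))) :
    ∃ a : R, f.IsRoot a ∧ a - a₀ ∈ I := by
  classical
  let f' := derivative f
  let c : ℕ → R := fun n => Nat.recOn n a₀ fun _ b => b - f.eval b * (f'.eval b)⁻¹ʳ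
  have hc : ∀ n, c (n + 1) = c n - f.eval (c n) * (f'.eval (c n))⁻¹ʳ := by
    intro n
    simp only [c]
  have hc_mod : ∀ n, c n ≡ a₀ [SMOD I] := by
    intro n
    induction n with
    | zero => rfl
    | succ n ih => ?_
    rw [hc, sub_eq_add_neg, ← add_zero a₀]
    refine ih.add ?_
    rw [SModEq.zero, Ideal.neg_mem_iff]
    refine I.mul_mem_right _ ?_
    rw [← SModEq.zero] at h₁ ⊢
    exact (ih.eval f).trans h₁
  have hf'c : ∀ n, IsUnit (f'.eval (c n)) := by
    intro n
    have := isLocalHom_of_le_jacobson_bot I (IsAdicComplete.le_jacobson_bot I)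
    apply IsUnit.of_map (Ideal.Quotient.mk I)
    convert! h₂ using 1
    exact SModEq.def.mp ((hc_mod n).eval _)
  have hfcI : ∀ n, f.eval (c n) ∈ I ^ (n + 1) := by
    intro n
    induction n with
    | zero => simpa only [Nat.rec_zero, zero_add, pow_one] using! h₁
    | succ n ih => ?_
    rw [← taylor_eval_sub (c n), hc, sub_eq_add_neg, sub_eq_add_neg,
      add_neg_cancel_comm]
    rw [eval_eq_sum, sum_over_range' _ _ _ (lt_add_of_pos_right _ zero_lt_two), ←
      Finset.sum_range_add_sum_Ico _ (Nat.le_add_left _ _)]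
    swap
    · intro i
      rw [zero_mul]
    refine Ideal.add_mem _ ?_ ?_
    · rw [← one_add_one_eq_two, Finset.sum_range_succ, Finset.range_one, Finset.sum_singleton,
        taylor_coeff_zero, taylor_coeff_one, pow_zero, pow_one, mul_one, mul_neg,
        mul_left_comm, Ring.mul_inverse_cancel _ (hf'c n), mul_one, add_neg_cancel]
      exact Ideal.zero_mem _
    · refine Submodule.sum_mem _ ?_
      simp only [Finset.mem_Ico]
      rintro i ⟨h2i, _⟩
      have aux : n + 2 ≤ i * (n + 1) := by trans 2 * (n + 1) <;> nlinarith only [h2i]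
      refine Ideal.mul_mem_left _ _ (Ideal.pow_le_pow_right aux ?_)
      rw [pow_mul']
      exact Ideal.pow_mem_pow ((Ideal.neg_mem_iff _).2 <| Ideal.mul_mem_right _ _ ih) _
  have aux : ∀ m n, m ≤ n → c m ≡ c n [SMOD (I ^ m • ⊤ : Ideal R)] := by
    intro m n hmn
    rw [← Ideal.one_eq_top, Ideal.smul_eq_mul, mul_one]
    obtain ⟨k, rfl⟩ := Nat.exists_eq_add_of_le hmn
    clear hmn
    induction k with
    | zero => rw [add_zero]
    | succ k ih => ?_
    rw [← add_assoc, hc, ← add_zero (c m), sub_eq_add_neg]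
    refine ih.add ?_
    symm
    rw [SModEq.zero, Ideal.neg_mem_iff]
    refine Ideal.mul_mem_right _ _ (Ideal.pow_le_pow_right ?_ (hfcI _))
    rw [add_assoc]
    exact le_self_add
  obtain ⟨a, ha⟩ := IsPrecomplete.prec' c (aux _ _)
  refine ⟨a, ?_, ?_⟩
  · show f.IsRoot a
    suffices ∀ n, f.eval a ≡ 0 [SMOD (I ^ n • ⊤ : Ideal R)] by exact IsHausdorff.haus' _ this
    intro n
    specialize ha n
    rw [← Ideal.one_eq_top, Ideal.smul_eq_mul, mul_one] at ha ⊢
    refine (ha.symm.eval f).trans ?_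
    rw [SModEq.zero]
    exact Ideal.pow_le_pow_right le_self_add (hfcI _)
  · show a - a₀ ∈ I
    specialize ha (0 + 1)
    rw [hc, pow_one, ← Ideal.one_eq_top, Ideal.smul_eq_mul, mul_one, sub_eq_add_neg] at ha
    rw [← SModEq.sub_mem, ← add_zero a₀]
    refine ha.symm.trans (SModEq.rfl.add ?_)
    rw [SModEq.zero, Ideal.neg_mem_iff]
    exact Ideal.mul_mem_right _ _ h₁

/-- reduction of power series -/
noncomputable abbrev red : PowerSeries ℂ →+* ℂ := PowerSeries.constantCoeff

theorem eval_map_red (G : (PowerSeries ℂ)[X]) (W : PowerSeries ℂ) :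
    (G.map red).eval (red W) = red (G.eval W) := by
  rw [eval_map, eval₂_at_apply]

theorem hensel (G : (PowerSeries ℂ)[X]) (w : ℂ) (h1 : (G.map red).eval w = 0)
    (h2 : (G.derivative.map red).eval w ≠ 0) : ∃ W, G.eval W = 0 ∧ red W = w := by
  have e : red (PowerSeries.C w) = w := by simp
  rw [← e, eval_map_red] at h1 h2
  obtain ⟨a, h3, h4⟩ := hensel' _ (Ideal.span {PowerSeries.X}) G (PowerSeries.C w)
    (Ideal.mem_span_singleton.2 (PowerSeries.X_dvd_iff.2 h1))
    ((PowerSeries.isUnit_iff_constantCoeff.2 h2.isUnit).map _)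
  have := PowerSeries.X_dvd_iff.1 (Ideal.mem_span_singleton.1 h4)
  rw [map_sub, sub_eq_zero] at this
  exact ⟨a, h3, this.trans e⟩

/-- the closed ball of valuative radius `γ` around `c` -/
def Ball (c : KK) (γ : ℤ) (y : KK) : Prop := ∀ i < γ, coef i y = coef i c

theorem Ball.refl (c : KK) (γ : ℤ) : Ball c γ c := fun _ _ => rfl
theorem Ball.symm {c y : KK} {γ : ℤ} (h : Ball c γ y) : Ball y γ c := fun i hi => (h i hi).symm
theorem Ball.trans {c y z : KK} {γ : ℤ} (h : Ball c γ y) (h' : Ball y γ z) : Ball c γ z :=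
  fun i hi => (h' i hi).trans (h i hi)
theorem Ball.mono {c y : KK} {γ γ' : ℤ} (h : Ball c γ y) (h' : γ' ≤ γ) : Ball c γ' y :=
  fun i hi => h i (hi.trans_le h')

theorem ball_iff {c y : KK} {γ : ℤ} : Ball c γ y ↔ y - c = 0 ∨ γ ≤ ord (y - c) := by
  constructor
  · intro h
    by_contra hc
    push Not at hc
    have := h _ hc.2
    rw [← sub_eq_zero, ← coef_sub, coef_ord] at this
    exact hc.1 (ac_eq_zero.1 this)
  · rintro (h | h) i hi
    · rw [sub_eq_zero.1 h]
    · rw [← sub_eq_zero, ← coef_sub]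
      exact coef_of_lt_ord (hi.trans_le h)

theorem ball_sg {c y : KK} {γ : ℤ} {w : ℂ} :
    Ball (c + sg γ w) (γ + 1) y ↔ Ball c γ y ∧ coef γ y = coef γ c + w := by
  constructor
  · intro h
    exact ⟨fun i hi => by simpa [coef_sg, hi.ne] using h i (by omega),
      by simpa [coef_sg] using h γ (by omega)⟩
  · rintro ⟨h1, h2⟩ i hi
    rcases (Int.lt_add_one_iff.1 hi).lt_or_eq with hi | rfl
    · simpa [coef_sg, hi.ne] using h1 i hi
    · simpa [coef_sg] using h2

theorem ball_sg_iff {c y : KK} {γ : ℤ} {w : ℂ} : Ball (c + sg γ w) (γ + 1) y ↔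
    (w ≠ 0 ∧ ord (y - c) = γ ∧ ac (y - c) = w) ∨ (w = 0 ∧ Ball c (γ + 1) y) := by
  by_cases hw : w = 0
  · simp [hw]
  · simp only [ne_eq, hw, not_false_eq_true, true_and, false_and, or_false, ball_sg]
    constructor
    · rintro ⟨h1, h2⟩
      have := rv_eq (x := y - c) (m := γ) (fun i hi => by simp [h1 i hi]) (by simpa [h2] using hw)
      simpa [h2] using this
    · rintro ⟨h1, h2⟩
      refine ⟨ball_iff.2 (Or.inr h1.ge), ?_⟩
      rw [← coef_ord, h1, coef_sub] at h2
      rw [← h2]; ring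

theorem ball_sg_param {c y : KK} {γ : ℤ} {w : ℂ} : Ball (c + sg γ w) (γ + 1) y ↔
    ∃ W, y = c + sg γ 1 * ofP W ∧ red W = w := by
  have e : ∀ W, coef 0 (ofP W) = red W := fun W => by simpa using coef_ofP W 0
  rw [ball_sg]
  constructor
  · rintro ⟨h1, h2⟩
    obtain ⟨W, hW⟩ := exists_ofP (y := sg (-γ) 1 * (y - c)) fun i hi => by
      simp [coef_sg_mul, h1 (i + γ) (by omega)]
    refine ⟨W, ?_, ?_⟩
    · rw [hW, ← mul_assoc, sg_mul_sg]; simp
    · rw [← e, hW, coef_sg_mul]; simp [h2]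
  · rintro ⟨W, rfl, rfl⟩
    exact ⟨fun i hi => by simp [coef_sg_mul, coef_ofP_neg W (sub_neg.2 hi)],
      by simp [coef_sg_mul, e]⟩

/-- Newton polygon data: minimal valuation `μ` and value `ζ` of the reduced polynomial -/
def Tay (n : ℕ) (o : ℕ → ℤ) (a : ℕ → ℂ) (γ : ℤ) (w : ℂ) (μ : ℤ) (ζ : ℂ) : Prop :=
  (∀ j ∈ Finset.range (n + 1), a j ≠ 0 → μ ≤ o j + j * γ) ∧
    (∃ j ∈ Finset.range (n + 1), a j ≠ 0 ∧ o j + j * γ = μ) ∧
    ζ = ∑ j ∈ Finset.range (n + 1), if o j + j * γ = μ then a j / j.factorial * w ^ j else 0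

/-- Newton polygon data of a polynomial -/
def TayP (n : ℕ) (g : KK[X]) (c : KK) : ℤ → ℂ → ℤ → ℂ → Prop :=
  Tay n (fun j => ord ((derivative^[j] g).eval c)) fun j => ac ((derivative^[j] g).eval c)

theorem eval_iter_deriv (g : KK[X]) (c : KK) (j : ℕ) :
    (derivative^[j] g).eval c = sg 0 j.factorial * (taylor c g).coeff j := by
  rw [taylor_coeff, ← factorial_smul_hasseDeriv, ← natCast_eq]
  simp

theorem tayP_exists {n : ℕ} {g : KK[X]} (hg : g ≠ 0) (hn : g.natDegree ≤ n) (c : KK) (γ : ℤ)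
    (w : ℂ) : ∃ μ ζ, TayP n g c γ w μ ζ := by
  classical
  obtain ⟨j, hj, hm⟩ := ((Finset.range (n + 1)).filter fun j =>
    ac ((derivative^[j] g).eval c) ≠ 0).exists_min_image
    (fun j => ord ((derivative^[j] g).eval c) + j * γ) ⟨g.natDegree, by
      rw [Finset.mem_filter, Finset.mem_range, Ne, ac_eq_zero, eval_iter_deriv]
      refine ⟨by omega, mul_ne_zero (sg_ne_zero _ (by exact_mod_cast Nat.factorial_ne_zero _)) ?_⟩
      rw [← natDegree_taylor g c]
      exact leadingCoeff_ne_zero.2 ((taylor_eq_zero _ _).not.2 hg)⟩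
  rw [Finset.mem_filter] at hj
  exact ⟨_, _, fun i hi h => hm i (Finset.mem_filter.2 ⟨hi, h⟩), ⟨j, hj.1, hj.2, rfl⟩, rfl⟩

theorem TayP.model {n : ℕ} {g : KK[X]} (hn : g.natDegree ≤ n) {c : KK} {γ : ℤ} {w : ℂ} {μ : ℤ}
    {ζ : ℂ} (h : TayP n g c γ w μ ζ) : ∃ G : (PowerSeries ℂ)[X],
      (∀ e W, (derivative^[e] g).eval (c + sg γ 1 * ofP W) * sg γ 1 ^ e =
        sg μ 1 * ofP ((derivative^[e] G).eval W)) ∧ (G.map red).eval w = ζ ∧ G.map red ≠ 0 := by
  obtain ⟨h1, ⟨j0, hj0, h2, h3⟩, h4⟩ := h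
  have hf : ∀ j : ℕ, (j.factorial : ℂ) ≠ 0 := fun j => by exact_mod_cast Nat.factorial_ne_zero _
  let H : KK[X] := C (sg (-μ) 1) * (taylor c g).comp (C (sg γ 1) * X)
  have hH : ∀ j i, coef i (H.coeff j) =
      coef (i - (j * γ - μ)) ((derivative^[j] g).eval c) / j.factorial := fun j i => by
    rw [eval_iter_deriv, coef_sg_mul, sub_zero, mul_div_cancel_left₀ _ (hf j), coeff_C_mul,
      comp_C_mul_X_coeff, sg_pow, mul_comm ((taylor c g).coeff j), ← mul_assoc, sg_mul_sg,
      coef_sg_mul]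
    simp only [one_pow, mul_one, one_mul]
    congr 1; ring
  have hlt : ∀ j i, i + μ < ord ((derivative^[j] g).eval c) + j * γ → coef i (H.coeff j) = 0 :=
    fun j i hi => by rw [hH, coef_of_lt_ord (by omega), zero_div]
  have hz : ∀ j i, (derivative^[j] g).eval c = 0 → coef i (H.coeff j) = 0 := fun j i e => by
    rw [hH, e]; simp
  have hbig : ∀ j, j ∉ Finset.range (n + 1) → (derivative^[j] g).eval c = 0 := fun j hj => by
    rw [iterate_derivative_eq_zero (by simp at hj; omega), eval_zero]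
  obtain ⟨G, hG⟩ := (mem_lifts (f := ofP) H).1 ((lifts_iff_coeff_lifts _).2 fun j =>
    exists_ofP fun i hi => by
      by_cases e : (derivative^[j] g).eval c = 0
      · exact hz j i e
      · have := h1 j (by_contra fun hj => e (hbig j hj)) (ac_eq_zero.not.2 e)
        exact hlt j i (by simp only at this; omega))
  have hc : ∀ j, (G.map red).coeff j = if ord ((derivative^[j] g).eval c) + j * γ = μ then
      ac ((derivative^[j] g).eval c) / j.factorial else 0 := fun j => by
    have e1 : (G.map red).coeff j = coef 0 (H.coeff j) := by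
      rw [← hG, coeff_map, coeff_map]
      simpa using (coef_ofP (G.coeff j) 0).symm
    rw [e1]
    by_cases e : (derivative^[j] g).eval c = 0
    · rw [hz j 0 e, e]; simp
    · have := h1 j (by_contra fun hj => e (hbig j hj)) (ac_eq_zero.not.2 e)
      split_ifs with h
      · rw [hH, ← coef_ord]; congr 2; omega
      · exact hlt j 0 (by simp only at this; omega)
  refine ⟨G, ?_, ?_, fun h => ?_⟩
  · have key : ∀ e, C (sg γ 1) ^ e * (derivative^[e] g).comp (C c + C (sg γ 1) * X) =
        C (sg μ 1) * (derivative^[e] G).map ofP := fun e => by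
      induction e with
      | zero =>
        simp only [pow_zero, Function.iterate_zero, id_eq, one_mul, hG, H]
        rw [← mul_assoc, ← C_mul, sg_mul_sg, taylor_apply, comp_assoc]
        simp [add_comm]
      | succ e ih =>
        have := congrArg derivative ih
        rw [← C_pow, derivative_C_mul, derivative_C_mul, derivative_comp, derivative_map] at this
        rw [Function.iterate_succ_apply', Function.iterate_succ_apply', ← this]
        simp only [derivative_add, derivative_C, derivative_C_mul, derivative_X, C_pow]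
        ring
    intro e W
    have := congrArg (eval (ofP W)) (key e)
    rw [eval_mul, eval_mul, eval_comp, eval_map, eval₂_at_apply, eval_pow, eval_add, eval_mul,
      eval_C, eval_C, eval_C, eval_X, mul_comm] at this
    exact this
  · rw [h4, eval_eq_sum_range' (n := n + 1)]
    · refine Finset.sum_congr rfl fun j _ => ?_
      rw [hc]
      split_ifs <;> simp
    · rw [Nat.lt_succ_iff, natDegree_le_iff_coeff_eq_zero]
      intro j hj
      rw [hc, hbig j (by simp; omega)]
      simp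
  · have := hc j0
    rw [h, coeff_zero, if_pos h3] at this
    exact div_ne_zero h2 (hf j0) this.symm

theorem TayP.rv {n : ℕ} {g : KK[X]} (hn : g.natDegree ≤ n) {c : KK} {γ : ℤ} {w : ℂ} {μ : ℤ}
    {ζ : ℂ} (h : TayP n g c γ w μ ζ) {y : KK} (hy : Ball (c + sg γ w) (γ + 1) y) :
    (∀ i < μ, coef i (g.eval y) = 0) ∧ coef μ (g.eval y) = ζ := by
  obtain ⟨G, h1, h2, -⟩ := h.model hn
  obtain ⟨W, rfl, rfl⟩ := ball_sg_param.1 hy
  have := h1 0 W
  simp only [Function.iterate_zero, id_eq, pow_zero, mul_one] at this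
  rw [this, ← h2, eval_map_red]
  exact ⟨fun i hi => by simp [coef_sg_mul, coef_ofP_neg _ (sub_neg.2 hi)],
    by simpa [coef_sg_mul] using coef_ofP (G.eval W) 0⟩

theorem TayP.root {n : ℕ} {g : KK[X]} (hn : g.natDegree ≤ n) {c : KK} {γ : ℤ} {w : ℂ} {μ : ℤ}
    (h : TayP n g c γ w μ 0) : (∃ e, 1 ≤ e ∧ derivative^[e] g ≠ 0 ∧
      ∃ y, Ball (c + sg γ w) (γ + 1) y ∧ (derivative^[e] g).eval y = 0) ∨
      ∀ τ : KK, (∀ i ≤ μ, coef i τ = 0) → ∃ y, Ball (c + sg γ w) (γ + 1) y ∧ g.eval y = τ := by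
  classical
  obtain ⟨G, h1, h2, h3⟩ := h.model hn
  have hex : ∃ k, ((derivative^[k] G).map red).eval w ≠ 0 := by
    by_contra hc
    push Not at hc
    refine h3 ((taylor_eq_zero w _).1 (Polynomial.ext fun j => ?_))
    have := hc j
    rw [← iterate_derivative_map, ← factorial_smul_hasseDeriv] at this
    rw [taylor_coeff]
    simpa [Nat.factorial_ne_zero] using this
  have hk := Nat.find_spec hex
  obtain ⟨e, he⟩ : ∃ e, Nat.find hex = e + 1 := Nat.exists_eq_succ_of_ne_zero fun e => by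
    rw [e] at hk; exact hk h2
  have he' := Nat.find_min hex (m := e) (by omega)
  rw [he, Function.iterate_succ_apply'] at hk
  rw [not_not] at he'
  rcases Nat.eq_zero_or_pos e with rfl | hpos
  · refine Or.inr fun τ hτ => ?_
    obtain ⟨T, hT⟩ := exists_ofP (y := sg (-μ) 1 * τ) fun i hi => by
      simp [coef_sg_mul, hτ (i + μ) (by omega)]
    have hT0 : red T = 0 := by
      have := coef_ofP T 0
      rw [hT, coef_sg_mul] at this
      simpa [hτ μ le_rfl] using this.symm
    obtain ⟨W, e1, e2⟩ := hensel (G - C T) w (by simpa [hT0] using h2) (by simpa using hk)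
    refine ⟨_, ball_sg_param.2 ⟨W, rfl, e2⟩, ?_⟩
    have := h1 0 W
    simp only [Function.iterate_zero, id_eq, pow_zero, mul_one] at this
    rw [eval_sub, eval_C, sub_eq_zero] at e1
    rw [this, e1, hT, ← mul_assoc, sg_mul_sg]
    simp
  · obtain ⟨W, e1, e2⟩ := hensel _ w he' hk
    have hs : sg γ 1 ^ e ≠ 0 := pow_ne_zero _ (sg_ne_zero _ one_ne_zero)
    refine Or.inl ⟨e, hpos, fun h0 => ?_, _, ball_sg_param.2 ⟨W, rfl, e2⟩, ?_⟩
    · have := h1 (e + 1) (PowerSeries.C w)
      rw [Function.iterate_succ_apply', h0, Function.iterate_succ_apply'] at this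
      simp only [derivative_zero, eval_zero, zero_mul, zero_eq_mul, sg_ne_zero _ one_ne_zero,
        false_or, map_eq_zero_iff _ ofP_injective] at this
      refine hk ?_
      have e : w = red (PowerSeries.C w) := by simp
      rw [e, eval_map_red, this, map_zero]
    · have := h1 e W
      rw [e1, map_zero, mul_zero] at this
      exact (mul_eq_zero.1 this).resolve_right hs

end Pool.Agent.Lib.MP_d4c0ca_ag
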